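import Pool.Agent.H24.LQ.Defs
import Pool.Agent.H24.LP.NT2

/-!
# LQ06 Places

The absolute values and the product formula: `log |W| = ∑_p v_p(W) log p`
(`Pool.Agent.H24.LP.log_eq_sum` in LP/NT may help), `log (fv p W) = - v_p(W) log p`; the places contain
infinity (`0`) and the primes dividing `6 D`.
-/

namespace Pool.Agent.H24.LQ

open Pool.Agent.H24.LP Finset

private lemma fv_prime {v : ℕ} (h : v.Prime) (x : ℚ) : fv v x = ((padicNorm v x : ℚ) : ℝ) := by
  unfold fv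
  rw [dif_pos h]
  rfl

private lemma fv_not_prime {v : ℕ} (h : ¬ v.Prime) (x : ℚ) : fv v x = |(x : ℝ)| := by
  unfold fv
  rw [dif_neg h, Rat.AbsoluteValue.real_eq_abs]
  exact Rat.cast_abs x

/-- `|n|_p = p^{-v_p(n)}` -/
private lemma fv_int_aux {p : ℕ} (hp : p.Prime) {n : ℤ} (hn : n ≠ 0) :
    fv p n = ((p : ℝ) ^ (n.natAbs.factorization p))⁻¹ := by
  rw [fv_prime hp, padicNorm.eq_zpow_of_nonzero (Int.cast_ne_zero.2 hn)]
  have h1 : padicValRat p (n : ℚ) = ((n.natAbs.factorization p : ℕ) : ℤ) := by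
    rw [padicValRat.of_int, padicValInt, Nat.factorization_def _ hp]
  rw [h1, zpow_neg, zpow_natCast, Rat.cast_inv, Rat.cast_pow, Rat.cast_natCast]

private lemma fv_not_dvd {p : ℕ} (hp : p.Prime) {n : ℤ} (hn : n ≠ 0) (h : ¬ p ∣ n.natAbs) :
    fv p n = 1 := by
  rw [fv_int_aux hp hn, Nat.factorization_eq_zero_of_not_dvd h, pow_zero, inv_one]

private lemma fv_prime_self {v q : ℕ} (h : v.Prime) (hq : q.Prime) : 1 / (q : ℝ) ≤ fv v ((q : ℤ) : ℚ) := by
  have hq1 : (1 : ℝ) ≤ (q : ℝ) := by exact_mod_cast hq.one_lt.le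
  have hq0 : ((q : ℕ) : ℤ) ≠ 0 := by exact_mod_cast hq.ne_zero
  by_cases hvq : v = q
  · subst hvq
    rw [fv_int_aux h hq0, Int.natAbs_natCast, h.factorization_self, pow_one, one_div]
  · have h1 : ¬ v ∣ ((q : ℕ) : ℤ).natAbs := by
      rw [Int.natAbs_natCast]
      intro h2
      exact hvq ((Nat.prime_dvd_prime_iff_eq h hq).1 h2)
    rw [fv_not_dvd h hq0 h1]
    rw [div_le_one (by linarith)]
    exact hq1

lemma fv_two (v : ℕ) : 1 / 2 ≤ fv v 2 := by
  by_cases h : v.Prime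
  · have h1 := fv_prime_self h Nat.prime_two
    have h2 : (((2 : ℕ) : ℤ) : ℚ) = 2 := by norm_num
    rw [h2] at h1
    exact_mod_cast h1
  · rw [fv_not_prime h]
    norm_num

lemma fv_three (v : ℕ) : 1 / 3 ≤ fv v 3 := by
  by_cases h : v.Prime
  · have h1 := fv_prime_self h Nat.prime_three
    have h2 : (((3 : ℕ) : ℤ) : ℚ) = 3 := by norm_num
    rw [h2] at h1
    exact_mod_cast h1
  · rw [fv_not_prime h]
    norm_num

lemma fv_nonarch {v : ℕ} (h : v.Prime) : IsNonarchimedean (fv v) := by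
  intro x y
  have : Fact v.Prime := ⟨h⟩
  rw [fv_prime h, fv_prime h, fv_prime h]
  exact_mod_cast padicNorm.nonarchimedean

lemma fv_two_eq {v : ℕ} (h : v.Prime) (h5 : 5 ≤ v) : fv v 2 = 1 := by
  have h2 : (((2 : ℕ) : ℤ) : ℚ) = 2 := by norm_num
  rw [← h2]
  refine fv_not_dvd h (by norm_num) ?_
  rw [Int.natAbs_natCast]
  intro h3
  have := (Nat.prime_dvd_prime_iff_eq h Nat.prime_two).1 h3
  omega

lemma fv_three_eq {v : ℕ} (h : v.Prime) (h5 : 5 ≤ v) : fv v 3 = 1 := by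
  have h2 : (((3 : ℕ) : ℤ) : ℚ) = 3 := by norm_num
  rw [← h2]
  refine fv_not_dvd h (by norm_num) ?_
  rw [Int.natAbs_natCast]
  intro h3
  have := (Nat.prime_dvd_prime_iff_eq h Nat.prime_three).1 h3
  omega

lemma fv_zero (x : ℚ) : fv 0 x = |(x : ℝ)| := fv_not_prime Nat.not_prime_zero x

/-- `|n|_p = p^{-v_p(n)}` -/
lemma fv_int {p : ℕ} (hp : p.Prime) {n : ℤ} (hn : n ≠ 0) :
    fv p n = ((p : ℝ) ^ (n.natAbs.factorization p))⁻¹ := fv_int_aux hp hn

lemma fv_int_le {p : ℕ} (hp : p.Prime) (n : ℤ) : fv p n ≤ 1 := by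
  by_cases hn : n = 0
  · subst hn
    rw [Int.cast_zero, map_zero]
    exact zero_le_one
  · rw [fv_int_aux hp hn]
    exact inv_le_one_of_one_le₀ (one_le_pow₀ (by exact_mod_cast hp.one_lt.le))

private lemma log_fv {p : ℕ} (hp : p.Prime) {n : ℤ} (hn : n ≠ 0) :
    Real.log (fv p n) = - ((n.natAbs.factorization p : ℝ) * Real.log p) := by
  rw [fv_int_aux hp hn, Real.log_inv, Real.log_pow]

private lemma sum_log_eq (a b : ℤ) {W : ℤ} (hW : W ≠ 0) :
    ∑ v ∈ places a b, Real.log (fv v W) =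
      ∑ p ∈ W.natAbs.primeFactors, (W.natAbs.factorization p : ℝ) * Real.log p
        - ∑ p ∈ (6 * D a b).natAbs.primeFactors, (W.natAbs.factorization p : ℝ) * Real.log p := by
  have h0 : (0 : ℕ) ∉ (6 * D a b).natAbs.primeFactors := fun h =>
    Nat.not_prime_zero (Nat.prime_of_mem_primeFactors h)
  rw [places, Finset.sum_insert h0]
  have h1 : Real.log (fv 0 W) = ∑ p ∈ W.natAbs.primeFactors, (W.natAbs.factorization p : ℝ) * Real.log p := by
    rw [← log_eq_sum, fv_zero, Nat.cast_natAbs, Int.cast_abs, Rat.cast_intCast]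
  have h2 : ∑ x ∈ (6 * D a b).natAbs.primeFactors, Real.log (fv x W)
      = - ∑ p ∈ (6 * D a b).natAbs.primeFactors, (W.natAbs.factorization p : ℝ) * Real.log p := by
    rw [← Finset.sum_neg_distrib]
    exact Finset.sum_congr rfl fun p hp => log_fv (Nat.prime_of_mem_primeFactors hp) hW
  rw [h1, h2, ← sub_eq_add_neg]

private lemma sum_inter (S : Finset ℕ) {W : ℤ} (hS : ∀ p ∈ S, p.Prime) (hW : W ≠ 0) :
    ∑ p ∈ S, (W.natAbs.factorization p : ℝ) * Real.log p =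
      ∑ p ∈ S ∩ W.natAbs.primeFactors, (W.natAbs.factorization p : ℝ) * Real.log p := by
  symm
  refine Finset.sum_subset Finset.inter_subset_left fun p hp hn => ?_
  have h : W.natAbs.factorization p = 0 := by
    refine Nat.factorization_eq_zero_of_not_dvd fun hd => hn ?_
    exact Finset.mem_inter.2 ⟨hp, Nat.mem_primeFactors.2 ⟨hS p hp, hd, Int.natAbs_ne_zero.2 hW⟩⟩
  rw [h, Nat.cast_zero, zero_mul]

theorem sum_log_nonneg (a b : ℤ) {W : ℤ} (hW : W ≠ 0) :
    0 ≤ ∑ v ∈ places a b, Real.log (fv v W) := by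
  rw [sum_log_eq a b hW, sub_nonneg,
    sum_inter _ (fun p hp => Nat.prime_of_mem_primeFactors hp) hW]
  exact Finset.sum_le_sum_of_subset_of_nonneg Finset.inter_subset_right
    fun p _ _ => mul_nonneg (Nat.cast_nonneg _) (Real.log_natCast_nonneg p)

theorem sum_log_zero (a b : ℤ) {W : ℤ} (hW : W ≠ 0) (h : ∀ p : ℕ, p.Prime → (p : ℤ) ∣ W →
    (p : ℤ) ∣ 6 * D a b) (hD : D a b ≠ 0) : ∑ v ∈ places a b, Real.log (fv v W) = 0 := by
  rw [sum_log_eq a b hW, sub_eq_zero,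
    sum_inter (6 * D a b).natAbs.primeFactors (fun p hp => Nat.prime_of_mem_primeFactors hp) hW]
  have h1 : (6 * D a b).natAbs.primeFactors ∩ W.natAbs.primeFactors = W.natAbs.primeFactors := by
    refine Finset.inter_eq_right.2 fun p hp => ?_
    obtain ⟨hp1, hp2, -⟩ := Nat.mem_primeFactors.1 hp
    refine Nat.mem_primeFactors.2 ⟨hp1, ?_, Int.natAbs_ne_zero.2 (mul_ne_zero (by norm_num) hD)⟩
    exact Int.natCast_dvd.1 (h p hp1 (Int.natCast_dvd.2 hp2))
  rw [h1]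

end Pool.Agent.H24.LQ
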