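import Pool.Agent.H24.LQ.Basic
import Pool.Agent.H24.LQ.Places
import Pool.Agent.H24.LP.NT2

/-!
# LQ10 Conv

`ν_v = 6 log s_v - log |D|_v` and the sum of `log |D|_v` over the places is `0` (`sum_log_zero`).
`s_p ≤ 1` for primes `p` (`a`, `b` are integers), `s_∞ ≤ e^L`. `j = 6912 a³/D`; `|j|_p = p^{n_p}` if `p ∣ den j`,
`np = v_p(den j)`. `nu_ge_np`: `|j|_p = |6912|_p|a|³/|D| ≤ s⁶/|D| = e^ν`. `nu_eq`: if `ν > 0`, `p ≥ 5`, then `|a| = s²`
(otherwise `|D| = s⁶`) so `|j|_p = s⁶/|D|`. `nu_ge_inf`: `|j| ≤ 6912 s⁶/|D|` (`log 6912 < 10`), `nu_ge`.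
`Tv_half`: `ν > 0`: `|a| = s²`, `|b| = s³`, so `s`, `N`, `|w|` are powers of `p` (or `|w| = 0`) and
`κ = exp(-ν/2) = p^{-n_p/2}`.
-/

namespace Pool.Agent.H24.LQ

open Pool.Agent.H24.LP Finset

private lemma ab_ne {a b : ℤ} (hD : D a b ≠ 0) : ¬ ((a : ℚ) = 0 ∧ (b : ℚ) = 0) := by
  rintro ⟨ha, hb⟩
  apply hD
  have ha' : a = 0 := by exact_mod_cast ha
  have hb' : b = 0 := by exact_mod_cast hb
  subst ha' hb'
  simp [D]

private lemma Dq (a b : ℤ) : 4 * (a : ℚ) ^ 3 + 27 * (b : ℚ) ^ 2 = ((D a b : ℤ) : ℚ) := by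
  rw [D]; push_cast; ring

private lemma Dq_ne {a b : ℤ} (hD : D a b ≠ 0) : 4 * (a : ℚ) ^ 3 + 27 * (b : ℚ) ^ 2 ≠ 0 := by
  rw [Dq]; exact_mod_cast hD

private lemma fD_pos (f : AbsoluteValue ℚ ℝ) {a b : ℤ} (hD : D a b ≠ 0) :
    0 < f (4 * (a : ℚ) ^ 3 + 27 * (b : ℚ) ^ 2) := f.pos (Dq_ne hD)

private lemma nu_split (f : AbsoluteValue ℚ ℝ) {a b : ℤ} (hD : D a b ≠ 0) :
    nu f a b = 6 * Real.log (sv f a b) - Real.log (f ((D a b : ℤ) : ℚ)) := by
  have hs := sv_pos f a b (ab_ne hD)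
  have hf := fD_pos f hD
  rw [nu, Real.log_div (by positivity) hf.ne', Real.log_pow, Dq]
  push_cast
  ring

/-- the sum of `log s_v` -/
theorem sum_log_sv {a b : ℤ} (hD : D a b ≠ 0) :
    ∑ v ∈ places a b, Real.log (sv (fv v) a b) = (∑ v ∈ places a b, nu (fv v) a b) / 6 := by
  have h1 : ∑ v ∈ places a b, nu (fv v) a b
      = ∑ v ∈ places a b, (6 * Real.log (sv (fv v) a b) - Real.log (fv v ((D a b : ℤ) : ℚ))) :=
    Finset.sum_congr rfl fun v _ => nu_split (fv v) hD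
  have h2 := sum_log_zero a b hD (fun p _ hpD => Dvd.dvd.mul_left hpD 6) hD
  rw [h1, Finset.sum_sub_distrib, h2, ← Finset.mul_sum]
  ring

private lemma fv_int_le' {v : ℕ} (hv : v.Prime) (n : ℤ) : fv v (n : ℚ) ≤ 1 := fv_int_le hv n

private lemma sv_prime_le {p : ℕ} (hp : p.Prime) (a b : ℤ) : sv (fv p) a b ≤ 1 := by
  have h1 := fv_int_le hp a
  have h2 := fv_int_le hp b
  unfold sv
  refine max_le ?_ ?_
  · rw [show (1 : ℝ) = Real.sqrt 1 by rw [Real.sqrt_one]]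
    exact Real.sqrt_le_sqrt h1
  · exact Real.rpow_le_one ((fv p).nonneg _) h2 (by norm_num)

private lemma sv_zero_le (a b : ℤ) : sv (fv 0) a b ≤ Real.exp (L a b) := by
  have h1 := abs_a_le a b
  have h2 := abs_b_le a b
  unfold sv
  rw [fv_zero, fv_zero]
  have e1 : (((a : ℚ)) : ℝ) = (a : ℝ) := by push_cast; rfl
  have e2 : (((b : ℚ)) : ℝ) = (b : ℝ) := by push_cast; rfl
  rw [e1, e2]
  refine max_le ?_ ?_
  · rw [show Real.exp (L a b) = Real.sqrt (Real.exp (2 * L a b)) by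
      rw [two_mul, Real.exp_add, Real.sqrt_mul_self (Real.exp_pos _).le]]
    exact Real.sqrt_le_sqrt h1
  · have h3 : |(b : ℝ)| ^ ((1 : ℝ) / 3) ≤ Real.exp (3 * L a b) ^ ((1 : ℝ) / 3) :=
      Real.rpow_le_rpow (abs_nonneg _) h2 (by norm_num)
    refine h3.trans (le_of_eq ?_)
    rw [← Real.exp_mul]
    congr 1
    ring

private lemma places_prime {a b : ℤ} {v : ℕ} (hv : v ∈ (6 * D a b).natAbs.primeFactors) :
    v.Prime := Nat.prime_of_mem_primeFactors hv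

theorem sum_nu_le {a b : ℤ} (hD : D a b ≠ 0) :
    ∑ v ∈ places a b, nu (fv v) a b ≤ 6 * L a b := by
  have h1 := sum_log_sv hD
  have h2 : ∑ v ∈ places a b, Real.log (sv (fv v) a b) ≤ L a b := by
    unfold places
    have h0 : (0 : ℕ) ∉ (6 * D a b).natAbs.primeFactors := fun h =>
      Nat.not_prime_zero (places_prime h)
    rw [Finset.sum_insert h0]
    have h3 : Real.log (sv (fv 0) a b) ≤ L a b := by
      have hs := sv_pos (fv 0) a b (ab_ne hD)
      rw [Real.log_le_iff_le_exp hs]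
      exact sv_zero_le a b
    have h4 : ∑ v ∈ (6 * D a b).natAbs.primeFactors, Real.log (sv (fv v) a b) ≤ 0 := by
      refine Finset.sum_nonpos fun v hv => ?_
      have hs := sv_pos (fv v) a b (ab_ne hD)
      exact Real.log_nonpos hs.le (sv_prime_le (places_prime hv) a b)
    linarith
  linarith

private lemma six_ne {a b : ℤ} (hD : D a b ≠ 0) : (6 * D a b).natAbs ≠ 0 :=
  Int.natAbs_ne_zero.mpr (mul_ne_zero (by norm_num) hD)

lemma places_of_poles {a b : ℤ} (hD : D a b ≠ 0) {p : ℕ} (hp : p ∈ poles a b) :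
    p.Prime ∧ p ∈ places a b := by
  have h1 : p.Prime := Nat.prime_of_mem_primeFactors hp
  have h2 : p ∣ (jInv a b).den := Nat.dvd_of_mem_primeFactors hp
  refine ⟨h1, Finset.mem_insert_of_mem ?_⟩
  rw [Nat.mem_primeFactors]
  refine ⟨h1, ?_, six_ne hD⟩
  rw [← Int.natCast_dvd]
  have h3 : ((p : ℕ) : ℤ) ∣ ((jInv a b).den : ℤ) := Int.natCast_dvd_natCast.mpr h2
  exact Dvd.dvd.mul_left (h3.trans (den_dvd a b)) 6

lemma places_of_add {a b : ℤ} (hD : D a b ≠ 0) {p : ℕ} (hp : p ∈ addPrimes a b) :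
    p.Prime ∧ p ∈ places a b := by
  have h0 := (Finset.mem_filter.mp hp).1
  have h1 : p.Prime := Nat.prime_of_mem_primeFactors h0
  have h2 : p ∣ (D a b).natAbs := Nat.dvd_of_mem_primeFactors h0
  refine ⟨h1, Finset.mem_insert_of_mem ?_⟩
  rw [Nat.mem_primeFactors]
  refine ⟨h1, ?_, six_ne hD⟩
  rw [Int.natAbs_mul]
  exact Dvd.dvd.mul_left h2 _

/-- `max(1, |j|_p) = p^{n_p}` -/
private lemma fv_j {a b : ℤ} {p : ℕ} (hp : p.Prime) :
    max 1 (fv p (jInv a b)) = (p : ℝ) ^ np a b p := by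
  have hden : ((jInv a b).den : ℤ) ≠ 0 := by exact_mod_cast (jInv a b).den_nz
  have hfd := fv_int hp hden
  have hj : jInv a b = (((jInv a b).num : ℤ) : ℚ) / ((((jInv a b).den : ℕ) : ℤ) : ℚ) := by
    have := Rat.num_div_den (jInv a b)
    push_cast
    exact this.symm
  have hfj : fv p (jInv a b) = fv p (((jInv a b).num : ℤ) : ℚ) * (p : ℝ) ^ np a b p := by
    conv_lhs => rw [hj]
    rw [map_div₀, hfd, div_inv_eq_mul]
    rfl
  have hp1 : (1 : ℝ) ≤ (p : ℝ) := by exact_mod_cast hp.one_lt.le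
  by_cases hpd : p ∣ (jInv a b).den
  · have hnum : ¬ p ∣ (jInv a b).num.natAbs := by
      intro h
      have h1 := Nat.dvd_gcd h hpd
      rw [(jInv a b).reduced] at h1
      exact hp.one_lt.ne' (Nat.dvd_one.mp h1)
    have hnum0 : (jInv a b).num ≠ 0 := by
      intro h
      rw [h] at hnum
      exact hnum (by simp)
    have h2 := fv_int hp hnum0
    rw [Nat.factorization_eq_zero_of_not_dvd hnum, pow_zero, inv_one] at h2
    rw [hfj, h2, one_mul]
    exact max_eq_right (one_le_pow₀ hp1)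
  · have h3 : np a b p = 0 := Nat.factorization_eq_zero_of_not_dvd hpd
    rw [hfj, h3, pow_zero, mul_one]
    exact max_eq_left (fv_int_le hp _)

private lemma fv_j_eq (f : AbsoluteValue ℚ ℝ) (a b : ℤ) : f (jInv a b) = f 6912 * f a ^ 3 / f (4 * (a : ℚ) ^ 3 + 27 * (b : ℚ) ^ 2) := by
  have h : jInv a b = 6912 * (a : ℚ) ^ 3 / (4 * (a : ℚ) ^ 3 + 27 * (b : ℚ) ^ 2) := by
    rw [jInv]; ring
  rw [h, map_div₀, map_mul, map_pow]

private lemma fa_cube_le (f : AbsoluteValue ℚ ℝ) (a b : ℚ) : f a ^ 3 ≤ sv f a b ^ 6 := by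
  have h := le_sv_sq f a b
  calc f a ^ 3 ≤ (sv f a b ^ 2) ^ 3 := pow_le_pow_left₀ (f.nonneg _) h 3
    _ = sv f a b ^ 6 := by ring

private lemma fb_sq_le (f : AbsoluteValue ℚ ℝ) (a b : ℚ) : f b ^ 2 ≤ sv f a b ^ 6 := by
  have h := le_sv_cube f a b
  calc f b ^ 2 ≤ (sv f a b ^ 3) ^ 2 := pow_le_pow_left₀ (f.nonneg _) h 2
    _ = sv f a b ^ 6 := by ring

private lemma exp_nu (f : AbsoluteValue ℚ ℝ) {a b : ℤ} (hD : D a b ≠ 0) :
    Real.exp (nu f a b) = sv f a b ^ 6 / f (4 * (a : ℚ) ^ 3 + 27 * (b : ℚ) ^ 2) := by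
  have hs := sv_pos f a b (ab_ne hD)
  have hf := fD_pos f hD
  rw [nu, Real.exp_log (by positivity)]

theorem nu_ge_np {a b : ℤ} (hD : D a b ≠ 0) {p : ℕ} (hp : p.Prime) :
    np a b p * Real.log p ≤ nu (fv p) a b := by
  have hp0 : (0 : ℝ) < (p : ℝ) := by exact_mod_cast hp.pos
  have h1 := fv_j (a := a) (b := b) hp
  have hf := fD_pos (fv p) hD
  have hν := nu_nonneg (fv p) a b (fv_nonarch hp) (Dq_ne hD)
  rw [← Real.log_pow, ← Real.exp_le_exp, Real.exp_log (by positivity), ← h1]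
  refine max_le (Real.one_le_exp hν) ?_
  rw [exp_nu _ hD, fv_j_eq]
  have h2 : fv p 6912 ≤ 1 := by
    have := fv_int_le hp 6912
    exact_mod_cast this
  have h3 := fa_cube_le (fv p) a b
  refine div_le_div_of_nonneg_right ?_ hf.le
  calc fv p 6912 * fv p (a : ℚ) ^ 3 ≤ 1 * fv p (a : ℚ) ^ 3 :=
        mul_le_mul_of_nonneg_right h2 (pow_nonneg ((fv p).nonneg _) 3)
    _ = fv p (a : ℚ) ^ 3 := one_mul _
    _ ≤ _ := h3

/-- if `ν > 0` at `p ≥ 5` then `|a| = s²` and `|b| = s³` -/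
private lemma eq_of_nu_pos {a b : ℤ} (hD : D a b ≠ 0) {p : ℕ} (hp : p.Prime) (h5 : 5 ≤ p)
    (hν : 0 < nu (fv p) a b) :
    fv p (a : ℚ) = sv (fv p) a b ^ 2 ∧ fv p (b : ℚ) = sv (fv p) a b ^ 3 := by
  set f := fv p with hfdef
  have hs := sv_pos f a b (ab_ne hD)
  have hna : IsNonarchimedean f := fv_nonarch hp
  have h2 : f 2 = 1 := fv_two_eq hp h5
  have h3 : f 3 = 1 := fv_three_eq hp h5
  have h4 : f 4 = 1 := by
    rw [show (4 : ℚ) = 2 ^ 2 by norm_num, map_pow, h2, one_pow]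
  have h27 : f 27 = 1 := by
    rw [show (27 : ℚ) = 3 ^ 3 by norm_num, map_pow, h3, one_pow]
  have hf := fD_pos f hD
  have hlt : f (4 * (a : ℚ) ^ 3 + 27 * (b : ℚ) ^ 2) < sv f a b ^ 6 := by
    have h := exp_nu f hD
    have h1 : 1 < sv f a b ^ 6 / f (4 * (a : ℚ) ^ 3 + 27 * (b : ℚ) ^ 2) := by
      rw [← h]
      exact Real.one_lt_exp_iff.mpr hν
    rwa [one_lt_div hf] at h1
  have e1 : f (4 * (a : ℚ) ^ 3) = f a ^ 3 := by rw [map_mul, map_pow, h4, one_mul]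
  have e2 : f (27 * (b : ℚ) ^ 2) = f b ^ 2 := by rw [map_mul, map_pow, h27, one_mul]
  have key : f (a : ℚ) ^ 3 = f (b : ℚ) ^ 2 := by
    by_contra hne
    have hne' : f (4 * (a : ℚ) ^ 3) ≠ f (27 * (b : ℚ) ^ 2) := by rw [e1, e2]; exact hne
    have hmax := hna.add_eq_max_of_ne hne'
    rw [e1, e2] at hmax
    rcases sv_or f (a : ℚ) (b : ℚ) with h | h
    · have h6 : f (a : ℚ) ^ 3 = sv f a b ^ 6 := by rw [h]; ring
      have h7 := le_max_left (f (a : ℚ) ^ 3) (f (b : ℚ) ^ 2)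
      rw [← hmax] at h7
      linarith
    · have h6 : f (b : ℚ) ^ 2 = sv f a b ^ 6 := by rw [h]; ring
      have h7 := le_max_right (f (a : ℚ) ^ 3) (f (b : ℚ) ^ 2)
      rw [← hmax] at h7
      linarith
  rcases sv_or f (a : ℚ) (b : ℚ) with h | h
  · refine ⟨h, ?_⟩
    have h6 : f (b : ℚ) ^ 2 = (sv f a b ^ 3) ^ 2 := by rw [← key, h]; ring
    exact (pow_left_inj₀ (f.nonneg _) (by positivity) (by norm_num)).mp h6
  · refine ⟨?_, h⟩
    have h6 : f (a : ℚ) ^ 3 = (sv f a b ^ 2) ^ 3 := by rw [key, h]; ring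
    exact (pow_left_inj₀ (f.nonneg _) (by positivity) (by norm_num)).mp h6

/-- `ν_p = n_p log p` at `p ≥ 5` -/
theorem nu_eq {a b : ℤ} (hD : D a b ≠ 0) {p : ℕ} (hp : p.Prime) (h5 : 5 ≤ p) :
    nu (fv p) a b = np a b p * Real.log p := by
  refine le_antisymm ?_ (nu_ge_np hD hp)
  have hp0 : (0 : ℝ) < (p : ℝ) := by exact_mod_cast hp.pos
  have hp1 : (1 : ℝ) ≤ (p : ℝ) := by exact_mod_cast hp.one_lt.le
  by_cases hν : nu (fv p) a b ≤ 0
  · refine hν.trans ?_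
    exact mul_nonneg (Nat.cast_nonneg _) (Real.log_nonneg hp1)
  · push Not at hν
    obtain ⟨ha, hb⟩ := eq_of_nu_pos hD hp h5 hν
    have h1 := fv_j (a := a) (b := b) hp
    have h6912 : fv p 6912 = 1 := by
      rw [show (6912 : ℚ) = 2 ^ 8 * 3 ^ 3 by norm_num, map_mul, map_pow, map_pow,
        fv_two_eq hp h5, fv_three_eq hp h5]
      norm_num
    have h2 : fv p (jInv a b) = Real.exp (nu (fv p) a b) := by
      rw [exp_nu _ hD, fv_j_eq, h6912, ha]
      ring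
    rw [← Real.log_pow, ← Real.exp_le_exp, Real.exp_log (by positivity), ← h1, ← h2]
    exact le_max_right _ _

theorem nu_ge_inf {a b : ℤ} (hD : D a b ≠ 0) : wInf a b - 10 ≤ nu (fv 0) a b := by
  have h1 := nu_ge (fv 0) a b (Dq_ne hD)
  have h31 : Real.log 31 ≤ 10 := by
    have : Real.log 31 ≤ 31 - 1 := Real.log_le_sub_one_of_pos (by norm_num)
    have h32 : Real.log 31 ≤ Real.log (2 ^ 5) := Real.log_le_log (by norm_num) (by norm_num)
    rw [Real.log_pow] at h32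
    have := Real.log_two_lt_d9
    push_cast at h32
    linarith
  have h6912 : Real.log 6912 ≤ 10 := by
    have h32 : Real.log 6912 ≤ Real.log (2 ^ 13) := Real.log_le_log (by norm_num) (by norm_num)
    rw [Real.log_pow] at h32
    have := Real.log_two_lt_d9
    push_cast at h32
    linarith
  have h2 : Real.log |((jInv a b : ℚ) : ℝ)| ≤ 10 + nu (fv 0) a b := by
    rcases eq_or_ne (jInv a b) 0 with h0 | h0
    · rw [h0]
      simp only [Rat.cast_zero, abs_zero, Real.log_zero]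
      linarith
    · have h3 : 0 < |((jInv a b : ℚ) : ℝ)| := abs_pos.mpr (by exact_mod_cast h0)
      have hf := fD_pos (fv 0) hD
      have h4 : |((jInv a b : ℚ) : ℝ)| ≤ 6912 * Real.exp (nu (fv 0) a b) := by
        rw [← fv_zero, exp_nu _ hD, fv_j_eq]
        have h5 : fv 0 6912 = 6912 := by rw [fv_zero]; norm_num
        have h6 := fa_cube_le (fv 0) (a : ℚ) (b : ℚ)
        rw [h5, mul_div_assoc]
        exact mul_le_mul_of_nonneg_left (div_le_div_of_nonneg_right h6 hf.le) (by norm_num)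
      have h7 := Real.log_le_log h3 h4
      rw [Real.log_mul (by norm_num) (Real.exp_pos _).ne', Real.log_exp] at h7
      linarith
  have h3 : wInf a b ≤ 10 + nu (fv 0) a b := max_le (by linarith) h2
  linarith

private lemma log_fv {p : ℕ} (hp : p.Prime) {x : ℚ} (hx : x ≠ 0) :
    ∃ k : ℤ, Real.log (fv p x) = k * Real.log p := by
  have hn : x.num ≠ 0 := Rat.num_ne_zero.mpr hx
  have hd : ((x.den : ℕ) : ℤ) ≠ 0 := by exact_mod_cast x.den_nz
  have h1 := fv_int hp hn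
  have h2 := fv_int hp hd
  have hp0 : (0 : ℝ) < (p : ℝ) := by exact_mod_cast hp.pos
  have hx' : x = ((x.num : ℤ) : ℚ) / (((x.den : ℕ) : ℤ) : ℚ) := by
    have := Rat.num_div_den x
    push_cast
    exact this.symm
  refine ⟨((((x.den : ℕ) : ℤ).natAbs.factorization p : ℕ) : ℤ) -
    ((x.num.natAbs.factorization p : ℕ) : ℤ), ?_⟩
  conv_lhs => rw [hx']
  rw [map_div₀, h1, h2, Real.log_div (by positivity) (by positivity), Real.log_inv, Real.log_inv,
    Real.log_pow, Real.log_pow]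
  push_cast
  ring

/-- `T ∈ (log p/2) ℤ` at `p ≥ 5` -/
theorem Tv_half {a b : ℤ} (hD : D a b ≠ 0) {p : ℕ} (hp : p.Prime) (h5 : 5 ≤ p) {X Z : ℤ}
    (h : ¬ (X = 0 ∧ Z = 0)) : ∃ k : ℤ, Tv (fv p) a b 0 X Z = k * Real.log p / 2 := by
  have hXZ : ¬ ((X : ℚ) = 0 ∧ (Z : ℚ) = 0) := by
    rintro ⟨h1, h2⟩
    exact h ⟨by exact_mod_cast h1, by exact_mod_cast h2⟩
  unfold Tv
  split_ifs with hν
  · exact ⟨0, by simp⟩
  push Not at hν
  obtain ⟨ha, hb⟩ := eq_of_nu_pos hD hp h5 hν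
  have hs := sv_pos (fv p) a b (ab_ne hD)
  have hN := Nv_pos (fv p) a b (Dq_ne hD) hXZ
  have hM := Mv_pos (fv p) a b (Dq_ne hD) hXZ
  have hκ : 0 < kap (fv p) a b := Real.exp_pos _
  have hfa : fv p (a : ℚ) ≠ 0 := by rw [ha]; positivity
  have hs2 : sv (fv p) a b = fv p ((b : ℚ) / a) := by
    rw [map_div₀, ha, hb]
    field_simp
  -- `N` is the value of a rational number
  have hNk : ∃ k : ℤ, Real.log (Nv (fv p) a b X Z) = k * Real.log p := by
    have h1 : ∃ y : ℚ, Nv (fv p) a b X Z = fv p y := by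
      unfold Nv
      rcases max_choice (fv p (X : ℚ)) (sv (fv p) a b * fv p (Z : ℚ)) with h1 | h1
      · exact ⟨X, h1⟩
      · refine ⟨(b : ℚ) / a * Z, ?_⟩
        rw [h1, map_mul, ← hs2]
    obtain ⟨y, hy⟩ := h1
    have hy0 : y ≠ 0 := by
      rintro rfl
      rw [map_zero] at hy
      exact hN.ne' hy
    rw [hy]
    exact log_fv hp hy0
  obtain ⟨k, hk⟩ := hNk
  rw [Real.log_div hN.ne' hM.ne', hk]
  have hcase : Mv (fv p) a b X Z = fv p (wv a b X Z) ∨ Mv (fv p) a b X Z = Nv (fv p) a b X Z ∨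
      Mv (fv p) a b X Z = kap (fv p) a b * Nv (fv p) a b X Z := by
    unfold Mv
    rcases max_choice (min (fv p (wv a b X Z)) (Nv (fv p) a b X Z))
      (kap (fv p) a b * Nv (fv p) a b X Z) with h1 | h1
    · rcases min_choice (fv p (wv a b X Z)) (Nv (fv p) a b X Z) with h2 | h2
      · left; rw [h1, h2]
      · right; left; rw [h1, h2]
    · right; right; exact h1
  rcases hcase with h1 | h1 | h1
  · have hw0 : wv a b X Z ≠ 0 := by
      intro h0
      rw [h0, map_zero] at h1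
      exact hM.ne' h1
    obtain ⟨l, hl⟩ := log_fv hp hw0
    refine ⟨2 * (k - l), ?_⟩
    rw [h1, hl]
    push_cast
    ring
  · refine ⟨0, ?_⟩
    rw [h1, hk]
    push_cast
    ring
  · refine ⟨np a b p, ?_⟩
    rw [h1, Real.log_mul hκ.ne' hN.ne', hk, kap, Real.log_exp, nu_eq hD hp h5]
    push_cast
    ring

end Pool.Agent.H24.LQ
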