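import Pool.Agent.H24.LQ.Basic
import Pool.Agent.H24.LQ.Places
import Pool.Agent.H24.LQ.Conv
import Pool.Agent.H24.LP.NT2

/-!
# LQ11 Additive

`ν = 0` at `p` (`nu_eq`, `np = 0`), so `Lv = log N` and `s⁶ = |D|_p = p^{-V}`, `V = v_p(D) ≥ 1`, `s = p^{-V/6}`.
`V = min(3 v(a), 2 v(b)) < 12` by quasi-minimality (`s⁶ = |D|`, and `s ≤ p^{-2}` would give `p⁴ ∣ a`, `p⁶ ∣ b`).
`(X, Z) = (repX P, repZ P)` coprime. Class 0: `p ∤ X`: `N = 1` (`s|Z| ≤ 1`), `|W| ≤ 1`: gain `-log s ≥ (log p)/6`.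
Other points: `p ∣ X`, `p ∤ Z`, `P = (x, y)`, `v(x) = v(X) = k ≥ 1`. `|X| ≤ s`: otherwise `k < V/6`, so `v(ax) > 3k`
(`v(a) ≥ V/3 > 2k`), `v(b) ≥ V/2 > 3k`, `v(y²) = 3k`, `k` even, `V > 6k ≥ 12`, a contradiction. So `N = s`. If `6 ∤ V` these
points are class 1: `v(W) ≥ ⌈V/6⌉ ≥ (V+1)/6`. If `V = 6`: `s = 1/p`, `p² ∣ a`, `p³ ∣ b`, `p ∣ X`; `v(y²) ≥ 3` is even so
`≥ 4`, and `x/p mod p` is a root of `t³ + (a/p²) t + b/p³` in `ZMod p`: at most `3` classes (an enumeration of the
roots), and in a class `p² ∣ W`: gain `log p`.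
-/

namespace Pool.Agent.H24.LQ

open Pool.Agent.H24.LP Finset

/-- the cubic has at most three roots -/
private theorem Add_roots {p : ℕ} [Fact p.Prime] (A B : ZMod p) :
    ∃ g : ZMod p → Fin 3, ∀ t u : ZMod p, t ^ 3 + A * t + B = 0 → u ^ 3 + A * u + B = 0 →
      g t = g u → t = u := by
  classical
  let f : Polynomial (ZMod p) := Polynomial.X ^ 3 + Polynomial.C A * Polynomial.X + Polynomial.C B
  have hdeg : f.natDegree = 3 := by
    simp only [f]
    compute_degree!
  have hf0 : f ≠ 0 := by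
    intro h
    rw [h] at hdeg
    simp at hdeg
  have hR : f.roots.toFinset.card ≤ 3 := by
    calc f.roots.toFinset.card ≤ f.roots.card := Multiset.toFinset_card_le _
      _ ≤ f.natDegree := Polynomial.card_roots' f
      _ = 3 := hdeg
  have hmem : ∀ t : ZMod p, t ^ 3 + A * t + B = 0 → t ∈ f.roots.toFinset := by
    intro t ht
    rw [Multiset.mem_toFinset, Polynomial.mem_roots hf0, Polynomial.IsRoot.def]
    simp only [f, Polynomial.eval_add, Polynomial.eval_mul, Polynomial.eval_pow,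
      Polynomial.eval_X, Polynomial.eval_C]
    exact ht
  obtain ⟨e⟩ : Nonempty (f.roots.toFinset ↪ Fin 3) :=
    Function.Embedding.nonempty_of_card_le (by
      rw [Fintype.card_coe, Fintype.card_fin]
      exact hR)
  refine ⟨fun t => if h : t ∈ f.roots.toFinset then e ⟨t, h⟩ else 0, ?_⟩
  intro t u ht hu htu
  have h1 := hmem t ht
  have h2 := hmem u hu
  simp only [h1, h2, dif_pos] at htu
  have h3 := e.injective htu
  simpa using h3

/-- a square divisible by the cube of a prime is divisible by its fourth power -/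
private theorem Add_sq {p : ℤ} (hp : Prime p) {Y M : ℤ} (h : Y ^ 2 = p ^ 3 * M) : p ∣ M := by
  have hp0 : p ≠ 0 := hp.ne_zero
  have h1 : p ∣ Y := hp.dvd_of_dvd_pow (n := 2) ⟨p ^ 2 * M, by rw [h]; ring⟩
  obtain ⟨y1, rfl⟩ := h1
  have h2 : y1 ^ 2 = p * M := by
    have h3 : p ^ 2 * y1 ^ 2 = p ^ 2 * (p * M) := by rw [← mul_pow, h]; ring
    exact mul_left_cancel₀ (pow_ne_zero 2 hp0) h3
  have h4 : p ∣ y1 := hp.dvd_of_dvd_pow (n := 2) ⟨M, h2⟩
  obtain ⟨y2, rfl⟩ := h4
  refine ⟨y2 ^ 2, ?_⟩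
  have h5 : p * (p * y2 ^ 2) = p * M := by rw [← h2]; ring
  exact (mul_left_cancel₀ hp0 h5).symm

/-- the equation in integers -/
private theorem Add_eqn {a b : ℤ} (x y : ℚ) (h : (curve a b).Nonsingular x y) :
    ∃ Y : ℤ, Y ^ 2 = x.den * (x.num ^ 3 + a * x.num * (x.den : ℤ) ^ 2 + b * (x.den : ℤ) ^ 3) := by
  have h1 : y ^ 2 = x ^ 3 + a * x + b := by
    have h2 := h.1
    rw [WeierstrassCurve.Affine.equation_iff] at h2
    simp only [curve] at h2
    linarith
  have hd : (x.den : ℚ) ≠ 0 := by exact_mod_cast x.den_nz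
  have hx : x = x.num / x.den := (Rat.num_div_den x).symm
  have h3 : (y * (x.den : ℚ) ^ 2) ^ 2 =
      ((x.den * (x.num ^ 3 + a * x.num * (x.den : ℤ) ^ 2 + b * (x.den : ℤ) ^ 3) : ℤ) : ℚ) := by
    push_cast
    rw [mul_pow, h1]
    set n : ℚ := (x.num : ℚ) with hn
    set d : ℚ := (x.den : ℚ) with hdd
    rw [hx]
    field_simp
  have h4 : IsIntegral ℤ ((y * (x.den : ℚ) ^ 2) ^ 2) := by
    rw [h3]
    exact isIntegral_algebraMap
  obtain ⟨Y, hY⟩ := IsIntegrallyClosed.exists_algebraMap_eq_of_isIntegral_pow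
    (n := 2) (by norm_num) h4
  refine ⟨Y, ?_⟩
  have h5 : ((Y : ℤ) : ℚ) = y * (x.den : ℚ) ^ 2 := hY
  have h6 : ((Y ^ 2 : ℤ) : ℚ) =
      ((x.den * (x.num ^ 3 + a * x.num * (x.den : ℤ) ^ 2 + b * (x.den : ℤ) ^ 3) : ℤ) : ℚ) := by
    rw [← h3, ← h5]
    push_cast
    ring
  exact_mod_cast h6

private theorem Add_log {p : ℕ} (hp : p.Prime) {n : ℤ} (hn : n ≠ 0) :
    Real.log (fv p n) = -(n.natAbs.factorization p * Real.log p) := by
  rw [fv_int hp hn, Real.log_inv, Real.log_pow]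

private theorem Add_fv_one {p : ℕ} (hp : p.Prime) {n : ℤ} (hn : ¬ (p : ℤ) ∣ n) :
    fv p n = 1 := by
  have h0 : n ≠ 0 := by
    rintro rfl
    exact hn (dvd_zero _)
  rw [fv_int hp h0, Nat.factorization_eq_zero_of_not_dvd, pow_zero, inv_one]
  intro h
  exact hn (Int.natCast_dvd.mpr h)

private theorem Add_dvd_iff {p : ℕ} (hp : p.Prime) {n : ℤ} (hn : n ≠ 0) (m : ℕ) :
    (p : ℤ) ^ m ∣ n ↔ m ≤ n.natAbs.factorization p := by
  rw [← Nat.Prime.pow_dvd_iff_le_factorization hp (Int.natAbs_ne_zero.mpr hn)]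
  rw [← Int.natCast_dvd]
  push_cast
  rfl

/-- the numerical data at an additive prime -/
private theorem Add_data {a b : ℤ} (hq : QuasiMinimal a b) {p : ℕ} (hp : p ∈ addPrimes a b) :
    p.Prime ∧ nu (fv p) a b = 0 ∧ ∃ V : ℕ, 1 ≤ V ∧ V ≤ 11 ∧
      6 * Real.log (sv (fv p) a b) = -(V * Real.log p) ∧ 0 < sv (fv p) a b ∧
      (∀ m : ℕ, 3 * m < V + 3 → (p : ℤ) ^ m ∣ a) ∧ (∀ m : ℕ, 2 * m < V + 2 → (p : ℤ) ^ m ∣ b) := by
  have hD := hq.ne
  have hD' : (D a b).natAbs ≠ 0 := Int.natAbs_ne_zero.mpr hD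
  have hmem := hp
  rw [addPrimes, Finset.mem_filter] at hmem
  obtain ⟨hmem1, h5, hden⟩ := hmem
  have hpp : p.Prime := Nat.prime_of_mem_primeFactors hmem1
  have hl : 0 < Real.log p := Real.log_pos (by exact_mod_cast hpp.one_lt)
  have hnp : np a b p = 0 := Nat.factorization_eq_zero_of_not_dvd hden
  have hnu : nu (fv p) a b = 0 := by
    rw [nu_eq hD hpp h5, hnp]
    simp
  have hab : ¬ ((a : ℚ) = 0 ∧ (b : ℚ) = 0) := by
    rintro ⟨h1, h2⟩
    have h1' : a = 0 := by exact_mod_cast h1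
    have h2' : b = 0 := by exact_mod_cast h2
    apply hD
    rw [D, h1', h2']
    ring
  have hs : 0 < sv (fv p) a b := sv_pos _ _ _ hab
  have hDq : (4 * (a : ℚ) ^ 3 + 27 * (b : ℚ) ^ 2) = ((D a b : ℤ) : ℚ) := by
    rw [D]
    push_cast
    ring
  have hlogs : 6 * Real.log (sv (fv p) a b) =
      -(((D a b).natAbs.factorization p : ℕ) * Real.log p) := by
    have h1 : nu (fv p) a b = 0 := hnu
    rw [nu, hDq] at h1
    have hfD : fv p ((D a b : ℤ) : ℚ) ≠ 0 := by
      rw [AbsoluteValue.ne_zero_iff]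
      exact_mod_cast hD
    rw [Real.log_div (pow_pos hs 6).ne' hfD, Real.log_pow, Add_log hpp hD] at h1
    push_cast at h1
    linarith
  set V := (D a b).natAbs.factorization p with hV
  have hV1 : 1 ≤ V := by
    rw [hV, ← Nat.Prime.pow_dvd_iff_le_factorization hpp hD', pow_one]
    exact Nat.dvd_of_mem_primeFactors hmem1
  have hA : ∀ m : ℕ, 3 * m < V + 3 → (p : ℤ) ^ m ∣ a := by
    intro m hm
    rcases eq_or_ne a 0 with rfl | ha
    · exact dvd_zero _
    rw [Add_dvd_iff hpp ha]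
    have h1 := le_sv_sq (fv p) (a : ℚ) (b : ℚ)
    have hfa : 0 < fv p (a : ℚ) := by
      rw [AbsoluteValue.pos_iff]
      exact_mod_cast ha
    have h2 := Real.log_le_log hfa h1
    rw [Real.log_pow, Add_log hpp ha] at h2
    push_cast at h2
    have h3 : (V : ℝ) * Real.log p ≤ 3 * (a.natAbs.factorization p : ℕ) * Real.log p := by
      nlinarith
    have h4 : (V : ℝ) ≤ 3 * (a.natAbs.factorization p : ℕ) := le_of_mul_le_mul_right h3 hl
    have h5 : V ≤ 3 * a.natAbs.factorization p := by exact_mod_cast h4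
    omega
  have hB : ∀ m : ℕ, 2 * m < V + 2 → (p : ℤ) ^ m ∣ b := by
    intro m hm
    rcases eq_or_ne b 0 with rfl | hb
    · exact dvd_zero _
    rw [Add_dvd_iff hpp hb]
    have h1 := le_sv_cube (fv p) (a : ℚ) (b : ℚ)
    have hfb : 0 < fv p (b : ℚ) := by
      rw [AbsoluteValue.pos_iff]
      exact_mod_cast hb
    have h2 := Real.log_le_log hfb h1
    rw [Real.log_pow, Add_log hpp hb] at h2
    push_cast at h2
    have h3 : (V : ℝ) * Real.log p ≤ 2 * (b.natAbs.factorization p : ℕ) * Real.log p := by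
      nlinarith
    have h4 : (V : ℝ) ≤ 2 * (b.natAbs.factorization p : ℕ) := le_of_mul_le_mul_right h3 hl
    have h5 : V ≤ 2 * b.natAbs.factorization p := by exact_mod_cast h4
    omega
  refine ⟨hpp, hnu, V, hV1, ?_, hlogs, hs, hA, hB⟩
  by_contra hcon
  push Not at hcon
  exact hq.min p hpp ⟨hA 4 (by omega), hB 6 (by omega)⟩

/-- the arithmetic of a point with `p ∣ X` -/
private theorem Add_point {a b : ℤ} {p : ℕ} (hp : p.Prime) {V : ℕ}
    (hA : ∀ m : ℕ, 3 * m < V + 3 → (p : ℤ) ^ m ∣ a)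
    (hB : ∀ m : ℕ, 2 * m < V + 2 → (p : ℤ) ^ m ∣ b) (P : (curve a b).Point)
    (hX : (p : ℤ) ∣ repX P) :
    ¬ (p : ℤ) ∣ repZ P ∧ (7 ≤ V → (p : ℤ) ^ 2 ∣ repX P) ∧
      (V = 6 → ∀ a' b' X1 : ℤ, a = p ^ 2 * a' → b = p ^ 3 * b' → repX P = p * X1 →
        (p : ℤ) ∣ X1 ^ 3 + a' * X1 * repZ P ^ 2 + b' * repZ P ^ 3) := by
  have hpi : Prime (p : ℤ) := Nat.prime_iff_prime_int.mp hp
  cases P with
  | zero =>
    exfalso
    have h1 : (p : ℤ) ∣ 1 := hX
    exact hpi.not_isUnit (isUnit_of_dvd_one h1)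
  | some x y h =>
    have hX' : (p : ℤ) ∣ x.num := hX
    obtain ⟨Y, hY⟩ := Add_eqn x y h
    have hZ : ¬ (p : ℤ) ∣ (x.den : ℤ) := by
      intro hZ
      have h1 : p ∣ x.num.natAbs := Int.natCast_dvd.mp hX'
      have h2 : p ∣ x.den := by exact_mod_cast hZ
      have h3 := Nat.dvd_gcd h1 h2
      rw [x.reduced] at h3
      exact hp.one_lt.ne' (Nat.dvd_one.mp h3)
    refine ⟨hZ, ?_, ?_⟩
    · intro hV
      show (p : ℤ) ^ 2 ∣ x.num
      obtain ⟨a3, ha3⟩ := hA 3 (by omega)
      obtain ⟨b4, hb4⟩ := hB 4 (by omega)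
      obtain ⟨X1, hX1⟩ := hX'
      rw [hX1, ha3, hb4] at hY
      have h1 : Y ^ 2 = (p : ℤ) ^ 3 * (x.den * (X1 ^ 3 +
          p * (a3 * X1 * (x.den : ℤ) ^ 2 + b4 * (x.den : ℤ) ^ 3))) := by
        rw [hY]
        ring
      have h2 := Add_sq hpi h1
      have h3 := (hpi.dvd_or_dvd h2).resolve_left hZ
      have h4 : (p : ℤ) ∣ X1 ^ 3 := (dvd_add_left (dvd_mul_right _ _)).mp h3
      have h5 : (p : ℤ) ∣ X1 := hpi.dvd_of_dvd_pow h4
      rw [hX1, pow_two]
      exact mul_dvd_mul_left _ h5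
    · intro hV a' b' X1 ha' hb' hX1
      show (p : ℤ) ∣ X1 ^ 3 + a' * X1 * (x.den : ℤ) ^ 2 + b' * (x.den : ℤ) ^ 3
      have hX1' : x.num = p * X1 := hX1
      rw [hX1', ha', hb'] at hY
      have h1 : Y ^ 2 = (p : ℤ) ^ 3 * (x.den * (X1 ^ 3 + a' * X1 * (x.den : ℤ) ^ 2 +
          b' * (x.den : ℤ) ^ 3)) := by
        rw [hY]
        ring
      have h2 := Add_sq hpi h1
      exact (hpi.dvd_or_dvd h2).resolve_left hZ

open Classical in
theorem additive {a b : ℤ} (hq : QuasiMinimal a b) {p : ℕ} (hp : p ∈ addPrimes a b) :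
    ∃ cl : (curve a b).Point → Fin 4, ∀ P Q : (curve a b).Point,
      repX P * repZ Q - repX Q * repZ P ≠ 0 → cl P = cl Q →
      Real.log (sv (fv p) a b) + Real.log p / 6 ≤
        Lv (fv p) a b 0 (repX P) (repZ P) + Lv (fv p) a b 0 (repX Q) (repZ Q)
          - Real.log (fv p ((repX P * repZ Q - repX Q * repZ P : ℤ) : ℚ)) := by
  obtain ⟨hpp, hnu, V, hV1, hV11, hlogs, hs, hA, hB⟩ := Add_data hq hp
  have : Fact p.Prime := ⟨hpp⟩
  have hpi : Prime (p : ℤ) := Nat.prime_iff_prime_int.mp hpp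
  have hl : 0 < Real.log p := Real.log_pos (by exact_mod_cast hpp.one_lt)
  have hLv : ∀ X Z : ℚ, Lv (fv p) a b 0 X Z = Real.log (Nv (fv p) a b X Z) := fun X Z =>
    Lv_eq_of_le _ _ _ (le_of_eq hnu) X Z
  have hs1 : sv (fv p) a b ≤ 1 := by
    have h1 : Real.log (sv (fv p) a b) ≤ 0 := by
      have : 0 ≤ (V : ℝ) * Real.log p := by positivity
      linarith
    by_contra hcon
    push Not at hcon
    have := Real.log_pos hcon
    linarith
  -- the classes
  obtain ⟨g, hg⟩ : ∃ g : ZMod p → Fin 3, V = 6 → ∀ a' b' : ℤ, a = p ^ 2 * a' → b = p ^ 3 * b' →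
      ∀ t u : ZMod p, t ^ 3 + a' * t + b' = 0 → u ^ 3 + a' * u + b' = 0 → g t = g u → t = u := by
    by_cases hV6 : V = 6
    · obtain ⟨a0, ha0⟩ := hA 2 (by omega)
      obtain ⟨b0, hb0⟩ := hB 3 (by omega)
      obtain ⟨g, hg⟩ := Add_roots (p := p) (a0 : ZMod p) (b0 : ZMod p)
      refine ⟨g, fun _ a' b' ha' hb' t u ht hu htu => ?_⟩
      have h1 : a' = a0 := by
        apply mul_left_cancel₀ (pow_ne_zero 2 hpi.ne_zero)
        rw [← ha', ← ha0]
      have h2 : b' = b0 := by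
        apply mul_left_cancel₀ (pow_ne_zero 3 hpi.ne_zero)
        rw [← hb', ← hb0]
      subst h1 h2
      exact hg t u ht hu htu
    · exact ⟨fun _ => 0, fun h => absurd h hV6⟩
  refine ⟨fun P => if (p : ℤ) ∣ repX P then
    (g (((repX P / p : ℤ) : ZMod p) / ((repZ P : ℤ) : ZMod p))).succ else 0, ?_⟩
  intro P Q hW hcl
  rw [hLv, hLv]
  have hlogW := Add_log hpp hW
  set W := repX P * repZ Q - repX Q * repZ P with hWdef
  rw [hlogW]
  -- the size of `N` for the two kinds of points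
  have hN0 : ∀ R : (curve a b).Point, ¬ (p : ℤ) ∣ repX R →
      Real.log (Nv (fv p) a b (repX R) (repZ R)) = 0 := by
    intro R hR
    have h1 : Nv (fv p) a b (repX R) (repZ R) = 1 := by
      rw [Nv, Add_fv_one hpp hR]
      apply max_eq_left
      have h2 := fv_int_le hpp (repZ R)
      have h3 : 0 ≤ fv p (repZ R : ℚ) := AbsoluteValue.nonneg _ _
      nlinarith
    rw [h1, Real.log_one]
  have hN1 : ∀ R : (curve a b).Point, (p : ℤ) ∣ repX R →
      Real.log (Nv (fv p) a b (repX R) (repZ R)) = Real.log (sv (fv p) a b) := by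
    intro R hR
    obtain ⟨hZ, h7, -⟩ := Add_point hpp hA hB R hR
    congr 1
    rw [Nv, Add_fv_one hpp hZ, mul_one]
    apply max_eq_right
    rcases eq_or_ne (repX R) 0 with h0 | h0
    · rw [h0]
      simp only [Int.cast_zero, map_zero]
      exact hs.le
    have hf : 0 < fv p (repX R : ℚ) := by
      rw [AbsoluteValue.pos_iff]
      exact_mod_cast h0
    rw [← Real.log_le_log_iff hf hs, Add_log hpp h0]
    have h1 : V ≤ 6 * (repX R).natAbs.factorization p := by
      by_cases hV7 : 7 ≤ V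
      · have h2 := (Add_dvd_iff hpp h0 2).mp (h7 hV7)
        omega
      · have h2 := (Add_dvd_iff hpp h0 1).mp (by rw [pow_one]; exact hR)
        omega
    have h2 : (V : ℝ) ≤ 6 * ((repX R).natAbs.factorization p : ℕ) := by exact_mod_cast h1
    have h3 : (V : ℝ) * Real.log p ≤ 6 * ((repX R).natAbs.factorization p : ℕ) * Real.log p :=
      mul_le_mul_of_nonneg_right h2 hl.le
    linarith
  have hVl : (1 : ℝ) * Real.log p ≤ V * Real.log p :=
    mul_le_mul_of_nonneg_right (by exact_mod_cast hV1) hl.le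
  have hvW : 0 ≤ ((W.natAbs.factorization p : ℕ) : ℝ) * Real.log p := by positivity
  by_cases hXP : (p : ℤ) ∣ repX P
  · by_cases hXQ : (p : ℤ) ∣ repX Q
    · rw [hN1 P hXP, hN1 Q hXQ]
      obtain ⟨hZP, h7P, h6P⟩ := Add_point hpp hA hB P hXP
      obtain ⟨hZQ, h7Q, h6Q⟩ := Add_point hpp hA hB Q hXQ
      have key : V + 1 ≤ 6 * W.natAbs.factorization p := by
        by_cases hV7 : 7 ≤ V
        · have h1 : (p : ℤ) ^ 2 ∣ W :=
            dvd_sub ((h7P hV7).mul_right _) ((h7Q hV7).mul_right _)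
          have h2 := (Add_dvd_iff hpp hW 2).mp h1
          omega
        · by_cases hV6 : V = 6
          · have h1 : (p : ℤ) ^ 2 ∣ W := by
              obtain ⟨a', ha'⟩ := hA 2 (by omega)
              obtain ⟨b', hb'⟩ := hB 3 (by omega)
              simp only [hXP, hXQ, if_true] at hcl
              have hcl' := Fin.succ_injective _ hcl
              obtain ⟨X1, hX1⟩ := hXP
              obtain ⟨X2, hX2⟩ := hXQ
              have hd1 : repX P / p = X1 := by
                rw [hX1]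
                exact Int.mul_ediv_cancel_left _ hpi.ne_zero
              have hd2 : repX Q / p = X2 := by
                rw [hX2]
                exact Int.mul_ediv_cancel_left _ hpi.ne_zero
              rw [hd1, hd2] at hcl'
              have hz1 : ((repZ P : ℤ) : ZMod p) ≠ 0 := by
                rw [Ne, ZMod.intCast_zmod_eq_zero_iff_dvd]
                exact hZP
              have hz2 : ((repZ Q : ℤ) : ZMod p) ≠ 0 := by
                rw [Ne, ZMod.intCast_zmod_eq_zero_iff_dvd]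
                exact hZQ
              have hr1 := h6P hV6 a' b' X1 ha' hb' hX1
              have hr2 := h6Q hV6 a' b' X2 ha' hb' hX2
              rw [← ZMod.intCast_zmod_eq_zero_iff_dvd] at hr1 hr2
              push_cast at hr1 hr2
              have ht := hg hV6 a' b' ha' hb' ((X1 : ZMod p) / ((repZ P : ℤ) : ZMod p))
                ((X2 : ZMod p) / ((repZ Q : ℤ) : ZMod p)) (by
                  field_simp
                  linear_combination hr1) (by
                  field_simp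
                  linear_combination hr2) hcl'
              rw [div_eq_div_iff hz1 hz2] at ht
              have h2 : (p : ℤ) ∣ X1 * repZ Q - X2 * repZ P := by
                rw [← ZMod.intCast_zmod_eq_zero_iff_dvd]
                push_cast
                rw [ht, sub_self]
              have h3 : W = p * (X1 * repZ Q - X2 * repZ P) := by
                rw [hWdef, hX1, hX2]
                ring
              rw [h3, pow_two]
              exact mul_dvd_mul_left _ h2
            have h2 := (Add_dvd_iff hpp hW 2).mp h1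
            omega
          · have h1 : (p : ℤ) ^ 1 ∣ W := by
              rw [pow_one]
              exact dvd_sub (hXP.mul_right _) (hXQ.mul_right _)
            have h2 := (Add_dvd_iff hpp hW 1).mp h1
            omega
      have key' : ((V : ℝ) + 1) ≤ 6 * ((W.natAbs.factorization p : ℕ) : ℝ) := by
        exact_mod_cast key
      have h3 : ((V : ℝ) + 1) * Real.log p ≤
          6 * ((W.natAbs.factorization p : ℕ) : ℝ) * Real.log p :=
        mul_le_mul_of_nonneg_right key' hl.le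
      linarith
    · exfalso
      simp only [hXP, hXQ, if_true, if_false] at hcl
      exact Fin.succ_ne_zero _ hcl
  · by_cases hXQ : (p : ℤ) ∣ repX Q
    · exfalso
      simp only [hXP, hXQ, if_true, if_false] at hcl
      exact Fin.succ_ne_zero _ hcl.symm
    · rw [hN0 P hXP, hN0 Q hXQ]
      linarith

end Pool.Agent.H24.LQ
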