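import Pool.Agent.H24.LQ.Defs
import Pool.Agent.H24.LP.NT2

/-!
# LQ14 Bounds

`6 L ≤ log|D| + log⁺|j| + C` (`six_L_le` in LP/NT2), `v_p(D) ≤ n_p + 20` (`fact_D_le` in LP/NT2),
`log |D| = ∑_{p ∣ D} v_p(D) log p`; the primes dividing `D` are `2`, `3`, the poles (`n_p ≥ 1`, so `v_p(D) ≤ 21 n_p`) and the
additive primes (`v_p(D) ≤ 20`).
-/

namespace Pool.Agent.H24.LQ

open Pool.Agent.H24.LP Finset

private lemma log_D_sum {a b : ℤ} (hq : QuasiMinimal a b) :
    Real.log |((D a b : ℤ) : ℝ)| ≤ 21 * ∑ p ∈ poles a b, (np a b p : ℝ) * Real.log p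
      + 20 * ∑ p ∈ addPrimes a b, Real.log p + 20 * (Real.log 2 + Real.log 3) := by
  rw [← log_natAbs hq.ne, log_eq_sum]
  have hsub : (D a b).natAbs.primeFactors ⊆ (poles a b ∪ addPrimes a b) ∪
      ({2, 3} : Finset ℕ).filter (fun p => p ∉ poles a b) := by
    intro p hp
    by_cases h1 : p ∣ (jInv a b).den
    · refine Finset.mem_union_left _ (Finset.mem_union_left _ ?_)
      exact Nat.mem_primeFactors.mpr ⟨Nat.prime_of_mem_primeFactors hp, h1, (jInv a b).den_nz⟩
    · by_cases h2 : 5 ≤ p
      · refine Finset.mem_union_left _ (Finset.mem_union_right _ ?_)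
        exact Finset.mem_filter.mpr ⟨hp, h2, h1⟩
      · have hpp := Nat.prime_of_mem_primeFactors hp
        have := hpp.two_le
        push Not at h2
        have hnp : p ∉ poles a b := fun h => h1 (Nat.dvd_of_mem_primeFactors h)
        refine Finset.mem_union_right _ (Finset.mem_filter.mpr ⟨?_, hnp⟩)
        clear hnp h1 hp
        interval_cases p
        · simp
        · simp
        · norm_num at hpp
  have hterm : ∀ p : ℕ, 0 ≤ ((D a b).natAbs.factorization p : ℝ) * Real.log p := fun p =>
    mul_nonneg (Nat.cast_nonneg _) (Real.log_natCast_nonneg p)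
  have e1 : ∑ p ∈ (D a b).natAbs.primeFactors, ((D a b).natAbs.factorization p : ℝ) * Real.log p
      ≤ ∑ p ∈ poles a b, ((D a b).natAbs.factorization p : ℝ) * Real.log p
        + ∑ p ∈ addPrimes a b, ((D a b).natAbs.factorization p : ℝ) * Real.log p
        + ∑ p ∈ ({2, 3} : Finset ℕ).filter (fun p => p ∉ poles a b),
          ((D a b).natAbs.factorization p : ℝ) * Real.log p := by
    refine (Finset.sum_le_sum_of_subset_of_nonneg hsub fun p _ _ => hterm p).trans ?_
    have u1 := Finset.sum_union_inter (s₁ := poles a b ∪ addPrimes a b)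
      (s₂ := ({2, 3} : Finset ℕ).filter (fun p => p ∉ poles a b))
      (f := fun p => ((D a b).natAbs.factorization p : ℝ) * Real.log p)
    have u2 := Finset.sum_union_inter (s₁ := poles a b) (s₂ := addPrimes a b)
      (f := fun p => ((D a b).natAbs.factorization p : ℝ) * Real.log p)
    have u3 : 0 ≤ ∑ p ∈ (poles a b ∪ addPrimes a b) ∩
        ({2, 3} : Finset ℕ).filter (fun p => p ∉ poles a b), ((D a b).natAbs.factorization p : ℝ) * Real.log p := Finset.sum_nonneg fun p _ => hterm p
    have u4 : 0 ≤ ∑ p ∈ poles a b ∩ addPrimes a b,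
        ((D a b).natAbs.factorization p : ℝ) * Real.log p := Finset.sum_nonneg fun p _ => hterm p
    linarith
  have e2 : ∑ p ∈ poles a b, ((D a b).natAbs.factorization p : ℝ) * Real.log p
      ≤ 21 * ∑ p ∈ poles a b, (np a b p : ℝ) * Real.log p := by
    rw [Finset.mul_sum]
    refine Finset.sum_le_sum fun p hp => ?_
    have hn : 1 ≤ np a b p := HeightData.np_pos hp
    have h1 := fact_D_le hq (Nat.prime_of_mem_primeFactors hp)
    have h2 : ((D a b).natAbs.factorization p : ℝ) ≤ 21 * (np a b p : ℝ) := by
      have : (D a b).natAbs.factorization p ≤ 21 * np a b p := by omega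
      exact_mod_cast this
    have hl := Real.log_natCast_nonneg p
    nlinarith
  have e3 : ∑ p ∈ addPrimes a b, ((D a b).natAbs.factorization p : ℝ) * Real.log p
      ≤ 20 * ∑ p ∈ addPrimes a b, Real.log p := by
    rw [Finset.mul_sum]
    refine Finset.sum_le_sum fun p hp => ?_
    have hf := Finset.mem_filter.mp hp
    have h1 := fact_D_le hq (Nat.prime_of_mem_primeFactors hf.1)
    have hn : np a b p = 0 := Nat.factorization_eq_zero_of_not_dvd hf.2.2
    rw [hn] at h1
    have h2 : ((D a b).natAbs.factorization p : ℝ) ≤ 20 := by exact_mod_cast h1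
    have hl := Real.log_natCast_nonneg p
    nlinarith
  have e4 : ∑ p ∈ ({2, 3} : Finset ℕ).filter (fun p => p ∉ poles a b),
      ((D a b).natAbs.factorization p : ℝ) * Real.log p
      ≤ 20 * (Real.log 2 + Real.log 3) := by
    calc ∑ p ∈ ({2, 3} : Finset ℕ).filter (fun p => p ∉ poles a b),
          ((D a b).natAbs.factorization p : ℝ) * Real.log p
        ≤ ∑ p ∈ ({2, 3} : Finset ℕ).filter (fun p => p ∉ poles a b), 20 * Real.log p := by
          refine Finset.sum_le_sum fun p hp => ?_
          have hf := Finset.mem_filter.mp hp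
          have hpp : p.Prime := by
            have h1 := hf.1
            simp only [Finset.mem_insert, Finset.mem_singleton] at h1
            rcases h1 with h1 | h1 <;> rw [h1] <;> norm_num
          have h1 := fact_D_le hq hpp
          have hn : np a b p = 0 := by
            by_contra hne
            apply hf.2
            rw [poles, ← Nat.support_factorization]
            exact Finsupp.mem_support_iff.mpr hne
          rw [hn] at h1
          have h2 : ((D a b).natAbs.factorization p : ℝ) ≤ 20 := by exact_mod_cast h1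
          have hl := Real.log_natCast_nonneg p
          nlinarith
      _ ≤ ∑ p ∈ ({2, 3} : Finset ℕ), 20 * Real.log p :=
          Finset.sum_le_sum_of_subset_of_nonneg (Finset.filter_subset _ _)
            fun p _ _ => mul_nonneg (by norm_num) (Real.log_natCast_nonneg p)
      _ = 20 * (Real.log 2 + Real.log 3) := by
          rw [Finset.sum_pair (by norm_num)]
          push_cast; ring
  linarith

/-- `G_T` with `T` the set of all poles -/
theorem L_le_GT_poles : ∃ C : ℝ, ∀ a b : ℤ, QuasiMinimal a b → ∀ T : Finset ℕ,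
    poles a b ⊆ T → L a b ≤ C * GT a b T := by
  refine ⟨15, fun a b hq T hT => ?_⟩
  have hw := HeightData.wInf_nonneg (a := a) (b := b)
  have ha : 0 ≤ ∑ p ∈ addPrimes a b, Real.log p :=
    Finset.sum_nonneg fun p _ => Real.log_natCast_nonneg p
  have hs0 : 0 ≤ ∑ p ∈ poles a b, Real.log p / np a b p :=
    Finset.sum_nonneg fun p _ => div_nonneg (Real.log_natCast_nonneg p) (Nat.cast_nonneg _)
  have hT' : ∑ p ∈ poles a b, (np a b p : ℝ) * Real.log p ≤
      ∑ p ∈ T, (np a b p : ℝ) * Real.log p :=
    Finset.sum_le_sum_of_subset_of_nonneg hT fun p _ _ =>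
      mul_nonneg (Nat.cast_nonneg _) (Real.log_natCast_nonneg p)
  have hp0 : 0 ≤ ∑ p ∈ poles a b, (np a b p : ℝ) * Real.log p :=
    Finset.sum_nonneg fun p _ => mul_nonneg (Nat.cast_nonneg _) (Real.log_natCast_nonneg p)
  have h6 := six_L_le hq.ne
  have hD := log_D_sum hq
  have l2 : Real.log 2 ≤ 1 := by linarith [Real.log_two_lt_d9]
  have l3 : Real.log 3 ≤ 2 := by
    have := Real.log_le_sub_one_of_pos (show (0 : ℝ) < 3 by norm_num)
    linarith
  unfold GT
  linarith

end Pool.Agent.H24.LQ
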