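import Pool.Agent.H24.LQ.Defs
import Pool.Agent.H24.LP.Cls

/-!
# LQ13 Class

Improvement of `class_count` in LP/Cls.lean (copy its proof). `M` the span of `S`, finitely generated;
its torsion subgroup is finite, of order `t`. In one class (difference to `Q` is `n T_i + τ_i`), the elements `T_i + σ`, `σ` torsion
in `M`, are all good (`P - Q = n(T_i+σ) + (τ_i - nσ)`). The number of classes of `T_i` modulo torsion is `≤ B/t` (all
elements of all the cosets together are good) and an element `P = Q + nT_i + τ_i` is determined by the class of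
`T_i` and an element of `Q + nT_i + tors`: at most `t` elements of `S` for each class. So each fibre has at most
`(B/t) t ≤ B` elements. (`T_i, τ_i` can be taken in `M`.)

In the proof below this is done by one injection: with a section `sec` of `M → M/tors` the element
`P = Q + n sec(f) + σ` is sent to the good element `sec(f) + σ`.
-/

namespace Pool.Agent.H24.LQ

open Pool.Agent.H24.LP Finset Module

theorem class_count' {A : Type*} [AddCommGroup A] (S : Finset A) (r n : ℕ) (hn : 0 < n)
    (hr : Module.rank ℤ A ≤ r) (good : A → Prop) (B : ℕ)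
    (hB : ∀ s : Finset A, (∀ P ∈ s, good P) → s.card ≤ B)
    (hgood : ∀ P ∈ S, ∀ Q ∈ S, ∀ (T τ : A) (k : ℕ), k ≠ 0 → k • τ = 0 →
      P - Q = n • T + τ → good T) : S.card ≤ n ^ r * B := by
  classical
  let M : Submodule ℤ A := Submodule.span ℤ (S : Set A)
  have hMf : Module.Finite ℤ M := Module.Finite.span_of_finite ℤ (Finset.finite_toSet S)
  let F := M ⧸ Submodule.torsion ℤ M
  have hTF : Module.IsTorsionFree ℤ F := inferInstance
  have hFf : Module.Finite ℤ F := inferInstance
  have hFree : Module.Free ℤ F := inferInstance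
  let bs := Module.finBasis ℤ F
  have hk : finrank ℤ F ≤ r := by
    refine Module.finrank_le_of_rank_le ?_
    exact (rank_quotient_le _).trans ((Submodule.rank_le M).trans hr)
  have hSM : ∀ P : S, (P : A) ∈ M := fun P => Submodule.subset_span P.2
  let m : S → M := fun P => ⟨P, hSM P⟩
  let cls : S → (Fin (finrank ℤ F) → ZMod n) := fun P i =>
    ((bs.repr (Submodule.Quotient.mk (m P)) i : ℤ) : ZMod n)
  have hne : NeZero n := ⟨hn.ne'⟩
  -- elements in one class
  have hcls : ∀ P Q : S, cls P = cls Q → ∃ f : F,
      (Submodule.Quotient.mk (m P) : F) - Submodule.Quotient.mk (m Q) = (n : ℤ) • f := by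
    intro P Q hPQ
    have h1 : ∀ i, ∃ d : ℤ, bs.repr (Submodule.Quotient.mk (m P)) i
        - bs.repr (Submodule.Quotient.mk (m Q)) i = n * d := by
      intro i
      have h2 : ((bs.repr (Submodule.Quotient.mk (m P)) i : ℤ) : ZMod n)
          = ((bs.repr (Submodule.Quotient.mk (m Q)) i : ℤ) : ZMod n) := congrFun hPQ i
      rw [ZMod.intCast_eq_intCast_iff_dvd_sub] at h2
      obtain ⟨d, hd⟩ := h2
      exact ⟨-d, by linarith⟩
    choose d hd using h1
    refine ⟨∑ i, d i • bs i, ?_⟩
    apply bs.repr.injective
    ext i
    simp only [map_sub, map_smul, Finsupp.sub_apply, Finsupp.smul_apply, map_sum,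
      Finsupp.finsetSum_apply, Basis.repr_self, smul_eq_mul]
    have h4 := hd i
    have h5 : ∑ x, d x * (Finsupp.single x (1 : ℤ)) i = d i := by
      rw [Finset.sum_eq_single i]
      · simp
      · intro j _ hj
        simp [hj]
      · intro h; exact absurd (Finset.mem_univ _) h
    rw [h5]
    linarith
  -- a section
  let sec : F → M := Function.surjInv (Submodule.Quotient.mk_surjective (Submodule.torsion ℤ M))
  have hsec : ∀ x : F, (Submodule.Quotient.mk (sec x) : F) = x :=
    Function.surjInv_eq (Submodule.Quotient.mk_surjective (Submodule.torsion ℤ M))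
  -- the count in one class
  have hfib : ∀ z : (Fin (finrank ℤ F) → ZMod n),
      (Finset.univ.filter fun P : S => cls P = z).card ≤ B := by
    intro z
    rcases (Finset.univ.filter fun P : S => cls P = z).eq_empty_or_nonempty with h | ⟨Q, hQ⟩
    · rw [h]; simp
    rw [Finset.mem_filter] at hQ
    have hex : ∀ P : S, ∃ f : F, cls P = z →
        (Submodule.Quotient.mk (m P) : F) - Submodule.Quotient.mk (m Q) = (n : ℤ) • f := by
      intro P
      by_cases hP : cls P = z
      · obtain ⟨f, h1⟩ := hcls P Q (hP.trans hQ.2.symm)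
        exact ⟨f, fun _ => h1⟩
      · exact ⟨0, fun h => absurd h hP⟩
    choose f hf using hex
    let σ : S → M := fun P => m P - m Q - (n : ℤ) • sec (f P)
    have hσ : ∀ P : S, cls P = z → (Submodule.Quotient.mk (σ P) : F) = 0 := by
      intro P hP
      have h1 := hf P hP
      show (Submodule.Quotient.mk (m P - m Q - (n : ℤ) • sec (f P)) : F) = 0
      rw [Submodule.Quotient.mk_sub, Submodule.Quotient.mk_sub, Submodule.Quotient.mk_smul, hsec,
        h1, sub_self]
    have hσt : ∀ P : S, cls P = z → ∃ k : ℕ, k ≠ 0 ∧ k • ((σ P : M) : A) = 0 := by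
      intro P hP
      have h3 := hσ P hP
      rw [Submodule.Quotient.mk_eq_zero, Submodule.mem_torsion_iff] at h3
      obtain ⟨k, hk⟩ := h3
      have hk0 : (k : ℤ) ≠ 0 := nonZeroDivisors.ne_zero k.2
      refine ⟨(k : ℤ).natAbs, Int.natAbs_ne_zero.mpr hk0, ?_⟩
      have h6 : (k : ℤ) • ((σ P : M) : A) = 0 := by
        have := congrArg (fun z : M => (z : A)) hk
        simpa [Submonoid.smul_def] using this
      rcases Int.natAbs_eq (k : ℤ) with h7 | h7
      · rw [h7, natCast_zsmul] at h6
        exact h6
      · rw [h7, neg_smul, natCast_zsmul, neg_eq_zero] at h6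
        exact h6
    let g : S → M := fun P => sec (f P) + σ P
    let s : Finset S := Finset.univ.filter fun P : S => cls P = z
    have hinj : Set.InjOn (fun P : S => ((g P : M) : A)) (s : Set S) := by
      intro P hP P' hP' hPP
      have hPz := (Finset.mem_filter.mp hP).2
      have hPz' := (Finset.mem_filter.mp hP').2
      have h1 : g P = g P' := Subtype.ext hPP
      have h2 : f P = f P' := by
        have h3 : (Submodule.Quotient.mk (g P) : F) = Submodule.Quotient.mk (g P') := by rw [h1]
        have h4 : ∀ R : S, cls R = z → (Submodule.Quotient.mk (g R) : F) = f R := by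
          intro R hR
          show (Submodule.Quotient.mk (sec (f R) + σ R) : F) = f R
          rw [Submodule.Quotient.mk_add, hsec, hσ R hR, add_zero]
        rw [h4 P hPz, h4 P' hPz'] at h3
        exact h3
      have h5 : sec (f P) + (m P - m Q - (n : ℤ) • sec (f P))
          = sec (f P') + (m P' - m Q - (n : ℤ) • sec (f P')) := h1
      rw [h2] at h5
      have h6 : m P = m P' := by
        have h7 := add_left_cancel h5
        have h8 := sub_left_injective h7
        exact sub_left_injective h8
      exact Subtype.ext (congrArg (fun w : M => (w : A)) h6)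
    have hcard : s.card = (s.image fun P : S => ((g P : M) : A)).card :=
      (Finset.card_image_of_injOn hinj).symm
    show s.card ≤ B
    rw [hcard]
    refine hB _ fun U hU => ?_
    obtain ⟨P, hP, rfl⟩ := Finset.mem_image.mp hU
    have hPz := (Finset.mem_filter.mp hP).2
    obtain ⟨k, hk0, hk1⟩ := hσt P hPz
    refine hgood P P.2 Q Q.2 ((g P : M) : A) (((σ P : M) : A) - n • ((σ P : M) : A)) k hk0 ?_ ?_
    · rw [smul_sub, hk1, smul_comm, hk1, smul_zero, sub_zero]
    · have h1 : ((g P : M) : A) = ((sec (f P) : M) : A) + ((σ P : M) : A) := rfl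
      have h2 : ((σ P : M) : A) = (P : A) - (Q : A) - (n : ℤ) • ((sec (f P) : M) : A) := rfl
      rw [h1, smul_add]
      have h3 : n • ((sec (f P) : M) : A) = (n : ℤ) • ((sec (f P) : M) : A) :=
        (natCast_zsmul _ _).symm
      rw [h3]
      generalize n • ((σ P : M) : A) = w
      rw [h2]
      abel
  -- the total
  have h1 : (Finset.univ : Finset S).card ≤ B * (Finset.univ : Finset (Fin (finrank ℤ F) → ZMod n)).card :=
    Finset.card_le_mul_card_image_of_maps_to (f := cls) (fun _ _ => Finset.mem_univ _) _
      fun z _ => hfib z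
  rw [Finset.card_univ, Fintype.card_coe, Finset.card_univ, Fintype.card_fun, ZMod.card,
    Fintype.card_fin] at h1
  calc S.card ≤ B * n ^ finrank ℤ F := h1
    _ ≤ B * n ^ r := by gcongr
    _ = n ^ r * B := mul_comm _ _

end Pool.Agent.H24.LQ
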