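import Pool.Agent.H24.LQ.Defs

/-!
# LQ07 Dup

`x = X/Z`, `Z = x.den`. `P = 0`: `P + P = 0`, `Phi = 1`, `Psi = 0`, `m = 1`. `P = (x, y)`, `y = 0`:
`P + P = 0`, `Psi = 4 Z⁴ (x³+ax+b) = 0`, `m = Phi ≠ 0`. `y ≠ 0`: slope `(3x²+a)/(2y)`,
`x(2P) = (x⁴-2ax²-8bx+a²)/(4(x³+ax+b)) = Phi/Psi`, so `(Phi, Psi) = m (X', Z')` as `X'/Z'` is in lowest terms.
`m ∣ 4D`: by the identities of Res (`4 D Z⁷ = f₁ F - g₁ G`, `4 D X⁷ = f₂ F + g₂ G`, see Stubs/Res),
`m` divides `4 D X⁷` and `4 D Z⁷`, and `X, Z` are coprime: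
`f₁ = 12X²Z+16aZ³`, `g₁ = 3X³-5aXZ²-27bZ³`;
`f₂ = 4DX³-4a²bX²Z+4a(3a³+22b²)XZ²+12b(a³+8b²)Z³`,
`g₂ = a²bX³+a(5a³+32b²)X²Z+2b(13a³+96b²)XZ²-3a²(a³+8b²)Z³`.
(The curve is `curve a b` of LP/Defs, a `WeierstrassCurve.Affine ℚ` with `a₁ = a₂ = a₃ = 0`, `a₄ = a`, `a₆ = b`.)
-/

namespace Pool.Agent.H24.LQ

open Pool.Agent.H24.LP Finset

lemma rep_ne {a b : ℤ} (P : (curve a b).Point) : ¬ (repX P = 0 ∧ repZ P = 0) := by
  cases P with
  | zero =>
    rintro ⟨h1, -⟩
    have h2 : (1 : ℤ) = 0 := h1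
    exact one_ne_zero h2
  | some x y h =>
    rintro ⟨-, h2⟩
    have h3 : (x.den : ℤ) = 0 := h2
    exact x.den_nz (by exact_mod_cast h3)

lemma rep_coprime {a b : ℤ} (P : (curve a b).Point) : IsCoprime (repX P) (repZ P) := by
  cases P with
  | zero => exact isCoprime_one_left
  | some x y h =>
    show IsCoprime x.num (x.den : ℤ)
    rw [Int.isCoprime_iff_gcd_eq_one]
    have h1 := x.reduced
    unfold Nat.Coprime at h1
    rw [Int.gcd, Int.natAbs_natCast]
    exact h1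

private lemma dup_aux {F G X Z : ℤ} (hZ : Z ≠ 0) (hc : IsCoprime X Z) (h : X * G = F * Z) :
    ∃ m : ℤ, F = m * X ∧ G = m * Z := by
  have h1 : Z ∣ X * G := ⟨F, by rw [h]; ring⟩
  obtain ⟨m, hm⟩ := hc.symm.dvd_of_dvd_mul_left h1
  refine ⟨m, ?_, by rw [hm]; ring⟩
  apply mul_right_cancel₀ hZ
  rw [← h, hm]
  ring

private lemma res_Z (a b X Z : ℤ) :
    4 * D a b * Z ^ 7 = (12 * X ^ 2 * Z + 16 * a * Z ^ 3) * Phi a b X Z
      - (3 * X ^ 3 - 5 * a * X * Z ^ 2 - 27 * b * Z ^ 3) * Psi a b X Z := by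
  unfold D Phi Psi
  ring

private lemma res_X (a b X Z : ℤ) :
    4 * D a b * X ^ 7 = (4 * D a b * X ^ 3 - 4 * a ^ 2 * b * X ^ 2 * Z
        + 4 * a * (3 * a ^ 3 + 22 * b ^ 2) * X * Z ^ 2
        + 12 * b * (a ^ 3 + 8 * b ^ 2) * Z ^ 3) * Phi a b X Z
      + (a ^ 2 * b * X ^ 3 + a * (5 * a ^ 3 + 32 * b ^ 2) * X ^ 2 * Z
        + 2 * b * (13 * a ^ 3 + 96 * b ^ 2) * X * Z ^ 2
        - 3 * a ^ 2 * (a ^ 3 + 8 * b ^ 2) * Z ^ 3) * Psi a b X Z := by
  unfold D Phi Psi
  ring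

private lemma dvd_aux {a b m X Z X' Z' : ℤ} (hc : IsCoprime X Z)
    (h1 : Phi a b X Z = m * X') (h2 : Psi a b X Z = m * Z') : m ∣ 4 * D a b := by
  have hX : m ∣ 4 * D a b * X ^ 7 := by
    rw [res_X, h1, h2]
    exact dvd_add (Dvd.dvd.mul_left (dvd_mul_right _ _) _) (Dvd.dvd.mul_left (dvd_mul_right _ _) _)
  have hZ : m ∣ 4 * D a b * Z ^ 7 := by
    rw [res_Z, h1, h2]
    exact dvd_sub (Dvd.dvd.mul_left (dvd_mul_right _ _) _) (Dvd.dvd.mul_left (dvd_mul_right _ _) _)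
  obtain ⟨u, v, huv⟩ : IsCoprime (X ^ 7) (Z ^ 7) := hc.pow
  have h3 : 4 * D a b = u * (4 * D a b * X ^ 7) + v * (4 * D a b * Z ^ 7) := by
    linear_combination (-(4 * D a b)) * huv
  rw [h3]
  exact dvd_add (Dvd.dvd.mul_left hX _) (Dvd.dvd.mul_left hZ _)

open Classical in
/-- The double of an affine point which is not of order two. -/
private lemma some_dbl {a b : ℤ} {x y : ℚ} (h : (curve a b).Nonsingular x y) (hy : y ≠ 0) :
    ∃ (u v : ℚ) (h' : (curve a b).Nonsingular u v),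
      u = ((3 * x ^ 2 + a) / (2 * y)) ^ 2 - x - x ∧
      (.some x y h : (curve a b).Point) + .some x y h = .some u v h' := by
  have hneg : y ≠ (curve a b).negY x y := by
    intro h3
    apply hy
    have h4 : y = -y := by
      simpa [WeierstrassCurve.Affine.negY, curve] using h3
    linarith
  have hsl : (curve a b).slope x x y y = (3 * x ^ 2 + a) / (2 * y) := by
    rw [WeierstrassCurve.Affine.slope_of_Y_ne rfl hneg]
    simp only [curve, WeierstrassCurve.Affine.negY]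
    congr 1 <;> ring
  refine ⟨_, _, _, ?_, WeierstrassCurve.Affine.Point.add_self_of_Y_ne hneg⟩
  rw [hsl]
  simp only [WeierstrassCurve.Affine.addX, curve]
  ring

open Classical in
private lemma ex_aux {a b : ℤ} (P : (curve a b).Point) : ∃ m : ℤ,
    Phi a b (repX P) (repZ P) = m * repX (P + P) ∧
    Psi a b (repX P) (repZ P) = m * repZ (P + P) := by
  cases P with
  | zero =>
    have h0 : (WeierstrassCurve.Affine.Point.zero : (curve a b).Point)
        + WeierstrassCurve.Affine.Point.zero = WeierstrassCurve.Affine.Point.zero := by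
      rw [← WeierstrassCurve.Affine.Point.zero_def, add_zero]
    rw [h0]
    refine ⟨1, ?_, ?_⟩
    · show Phi a b 1 0 = 1 * 1
      unfold Phi; ring
    · show Psi a b 1 0 = 1 * 0
      unfold Psi; ring
  | some x y h =>
    have heq : y ^ 2 = x ^ 3 + a * x + b := by
      have h1 := ((curve a b).equation_iff x y).mp h.1
      simpa [curve] using h1
    have hxn : (x.num : ℚ) = x * (x.den : ℚ) := (Rat.mul_den_eq_num x).symm
    have hPhi : ((Phi a b x.num (x.den : ℤ) : ℤ) : ℚ) = (x.den : ℚ) ^ 4 *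
        (x ^ 4 - 2 * a * x ^ 2 - 8 * b * x + a ^ 2) := by
      unfold Phi
      push_cast
      rw [hxn]
      ring
    have hPsi : ((Psi a b x.num (x.den : ℤ) : ℤ) : ℚ) = (x.den : ℚ) ^ 4 * (4 * y ^ 2) := by
      unfold Psi
      push_cast
      rw [hxn, heq]
      ring
    by_cases hy : y = 0
    · have hneg : y = (curve a b).negY x y := by
        simp [WeierstrassCurve.Affine.negY, curve, hy]
      rw [WeierstrassCurve.Affine.Point.add_self_of_Y_eq hneg]
      refine ⟨Phi a b x.num (x.den : ℤ), ?_, ?_⟩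
      · show Phi a b x.num (x.den : ℤ) = Phi a b x.num (x.den : ℤ) * 1
        rw [mul_one]
      · show Psi a b x.num (x.den : ℤ) = Phi a b x.num (x.den : ℤ) * 0
        rw [mul_zero]
        have h3 : ((Psi a b x.num (x.den : ℤ) : ℤ) : ℚ) = 0 := by
          rw [hPsi, hy]; ring
        exact_mod_cast h3
    · obtain ⟨x', v, hv, hx', e⟩ := some_dbl h hy
      have eX : repX ((WeierstrassCurve.Affine.Point.some x y h : (curve a b).Point) +
        .some x y h) = x'.num := congrArg repX e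
      have eZ : repZ ((WeierstrassCurve.Affine.Point.some x y h : (curve a b).Point) +
        .some x y h) = (x'.den : ℤ) := congrArg repZ e
      rw [eX, eZ]
      have hxx : x' * (4 * y ^ 2) = x ^ 4 - 2 * a * x ^ 2 - 8 * b * x + a ^ 2 := by
        rw [hx']
        field_simp
        linear_combination (-32 * x) * heq
      have hx'n : (x'.num : ℚ) = x' * (x'.den : ℚ) := (Rat.mul_den_eq_num x').symm
      have hz : ((x'.den : ℕ) : ℤ) ≠ 0 := by exact_mod_cast x'.den_nz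
      have hc : IsCoprime x'.num (x'.den : ℤ) := by
        rw [Int.isCoprime_iff_gcd_eq_one]
        have h1 := x'.reduced
        unfold Nat.Coprime at h1
        rw [Int.gcd, Int.natAbs_natCast]
        exact h1
      have hkey : x'.num * Psi a b x.num (x.den : ℤ) = Phi a b x.num (x.den : ℤ) * (x'.den : ℤ) := by
        have h5 : ((x'.num * Psi a b x.num (x.den : ℤ) : ℤ) : ℚ)
            = ((Phi a b x.num (x.den : ℤ) * (x'.den : ℤ) : ℤ) : ℚ) := by
          rw [Int.cast_mul, Int.cast_mul, hPhi, hPsi, hx'n, ← hxx]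
          push_cast
          ring
        exact_mod_cast h5
      exact dup_aux hz hc hkey

open Classical in
theorem dup {a b : ℤ} (hD : D a b ≠ 0) (P : (curve a b).Point) : ∃ m : ℤ, m ≠ 0 ∧
    m ∣ 4 * D a b ∧ Phi a b (repX P) (repZ P) = m * repX (P + P) ∧
    Psi a b (repX P) (repZ P) = m * repZ (P + P) := by
  obtain ⟨m, h1, h2⟩ := ex_aux P
  have h3 : m ∣ 4 * D a b := dvd_aux (rep_coprime P) h1 h2
  refine ⟨m, ?_, h3, h1, h2⟩
  rintro rfl
  rw [zero_dvd_iff] at h3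
  rcases mul_eq_zero.mp h3 with h4 | h4
  · norm_num at h4
  · exact hD h4

end Pool.Agent.H24.LQ
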