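import Pool.Agent.H24.LQ.Defs
import Pool.Agent.H24.LP.Bern

/-!
# LQ12 Energy

Positivity of the energy: `LP/Bern` has `energy_nonneg`, `energy_ge`, `energy_cell`, `bern`,
`norm_coe`. Apply them to the `2M` points `±τ_i` (index set `s × Bool` or a disjoint sum): the double sum is
`2 ∑∑ (bern(τ_i-τ_j) + bern(τ_i+τ_j))` (`bern(-t) = bern t`). `energy2_ge`: `(2M)²/(6 (2n)²)/2 = M²/(12 n²)`.
`energy2_cell`: `bern(τ_i-τ_j) ≥ 1/6 - 1/24`, `bern ≥ -1/12`. `energy_abs`: sum `hpair` over `i ≠ j`;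
the diagonal terms of the double sums are `≤ ν/6` and `w`; `#{(i,j) : cl i = cl j} ≥ M²/4` (Cauchy-Schwarz over the
four values).
-/

namespace Pool.Agent.H24.LQ

open Pool.Agent.H24.LP Finset

private lemma bern_neg (t : AddCircle (1 : ℝ)) : bern (-t) = bern t := by
  rw [bern, bern, norm_neg]

private lemma bern_ge (t : AddCircle (1 : ℝ)) : -(1 / 12 : ℝ) ≤ bern t := by
  rw [bern]
  nlinarith [sq_nonneg (‖t‖ - 1 / 2)]

private lemma bern_le (x : ℝ) : bern ((x : ℝ) : AddCircle (1 : ℝ)) ≤ 1 / 6 := by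
  rw [bern, norm_coe]
  have h1 : |x - round x| ≤ 1 / 2 := abs_sub_round x
  have h0 : 0 ≤ |x - round x| := abs_nonneg _
  nlinarith

/-- the `2M` points -/
private noncomputable def upt {ι : Type*} (τ : ι → ℝ) : ι ⊕ ι → AddCircle (1 : ℝ) :=
  Sum.elim (fun i => ((τ i : ℝ) : AddCircle (1 : ℝ))) (fun i => ((-τ i : ℝ) : AddCircle (1 : ℝ)))

private lemma dbl {ι : Type*} (s : Finset ι) (τ : ι → ℝ) :
    ∑ i ∈ s.disjSum s, ∑ j ∈ s.disjSum s, bern (upt τ i - upt τ j)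
      = 2 * ∑ i ∈ s, ∑ j ∈ s, (bern ((τ i - τ j : ℝ) : AddCircle (1 : ℝ))
        + bern ((τ i + τ j : ℝ) : AddCircle (1 : ℝ))) := by
  rw [Finset.sum_disjSum]
  simp only [Finset.sum_disjSum]
  rw [← Finset.sum_add_distrib, Finset.mul_sum]
  refine Finset.sum_congr rfl fun i _ => ?_
  rw [← Finset.sum_add_distrib, ← Finset.sum_add_distrib, ← Finset.sum_add_distrib, Finset.mul_sum]
  refine Finset.sum_congr rfl fun j _ => ?_
  have e1 : upt τ (Sum.inl i) - upt τ (Sum.inl j) = ((τ i - τ j : ℝ) : AddCircle (1 : ℝ)) := by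
    simp [upt, AddCircle.coe_sub]
  have e2 : upt τ (Sum.inl i) - upt τ (Sum.inr j) = ((τ i + τ j : ℝ) : AddCircle (1 : ℝ)) := by
    simp [upt, AddCircle.coe_add, AddCircle.coe_neg]
  have e3 : upt τ (Sum.inr i) - upt τ (Sum.inl j) = -((τ i + τ j : ℝ) : AddCircle (1 : ℝ)) := by
    simp [upt, AddCircle.coe_add, AddCircle.coe_neg]
    abel
  have e4 : upt τ (Sum.inr i) - upt τ (Sum.inr j) = -((τ i - τ j : ℝ) : AddCircle (1 : ℝ)) := by
    simp [upt, AddCircle.coe_sub, AddCircle.coe_neg]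
    abel
  rw [e1, e2, e3, e4, bern_neg, bern_neg]
  ring

private lemma pairs_ge {ι : Type*} [DecidableEq ι] (s : Finset ι) (cl : ι → Fin 4) (w : ℝ)
    (hw : 0 ≤ w) :
    w / 4 * (s.card : ℝ) ^ 2 ≤ ∑ i ∈ s, ∑ j ∈ s, (if cl i = cl j then w else 0) := by
  have h1 : ∑ i ∈ s, ∑ j ∈ s, (if cl i = cl j then w else 0)
      = w * ∑ c : Fin 4, (((s.filter fun i => cl i = c).card : ℝ)) ^ 2 := by
    have h2 : ∀ i j : ι, (if cl i = cl j then w else 0)
        = w * ∑ c : Fin 4, (if cl i = c then (1 : ℝ) else 0) * (if cl j = c then (1 : ℝ) else 0) := by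
      intro i j
      rw [Finset.sum_eq_single (cl i)]
      · by_cases h : cl i = cl j
        · simp [h]
        · simp [h, Ne.symm h]
      · intro c _ hc
        simp [Ne.symm hc]
      · intro h; exact absurd (Finset.mem_univ _) h
    simp_rw [h2, ← Finset.mul_sum]
    congr 1
    rw [Finset.sum_congr rfl fun i _ => Finset.sum_comm, Finset.sum_comm]
    refine Finset.sum_congr rfl fun c _ => ?_
    rw [sq, ← Finset.sum_boole, ← Finset.sum_mul_sum]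
  have h3 : (∑ c : Fin 4, ((s.filter fun i => cl i = c).card : ℝ)) = s.card := by
    rw [← Nat.cast_sum]
    congr 1
    exact (Finset.card_eq_sum_card_fiberwise (s := s) (f := cl) (t := Finset.univ)
      (fun _ _ => Finset.mem_coe.mpr (Finset.mem_univ _))).symm
  have h4 := sq_sum_le_card_mul_sum_sq (s := (Finset.univ : Finset (Fin 4)))
    (f := fun c => ((s.filter fun i => cl i = c).card : ℝ))
  rw [h3] at h4
  have h5 : ((Finset.univ : Finset (Fin 4)).card : ℝ) = 4 := by simp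
  rw [h5] at h4
  rw [h1]
  nlinarith [mul_le_mul_of_nonneg_left h4 hw]

theorem energy_abs {ι : Type*} [DecidableEq ι] (s : Finset ι) (g : ι → ℝ) (V A : Finset ℕ)
    (ν w E : ℕ → ℝ) (τ : ℕ → ι → ℝ) (cl : ℕ → ι → Fin 4) (C g₀ : ℝ)
    (hν : ∀ v ∈ V, 0 ≤ ν v) (hw : ∀ p ∈ A, 0 ≤ w p) (hC : 0 ≤ C)
    (hg0 : 0 ≤ g₀) (hg : ∀ i ∈ s, g i ≤ g₀)
    (hpair : ∀ i ∈ s, ∀ j ∈ s, i ≠ j →
      ∑ v ∈ V, ν v * ((bern ((τ v i - τ v j : ℝ) : AddCircle (1 : ℝ))
        + bern ((τ v i + τ v j : ℝ) : AddCircle (1 : ℝ))) / 2)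
      + ∑ p ∈ A, (if cl p i = cl p j then w p else 0) - C ≤ g i + g j)
    (hE : ∀ v ∈ V, E v * (s.card : ℝ) ^ 2 ≤ ∑ i ∈ s, ∑ j ∈ s,
      (bern ((τ v i - τ v j : ℝ) : AddCircle (1 : ℝ))
        + bern ((τ v i + τ v j : ℝ) : AddCircle (1 : ℝ)))) :
    (s.card : ℝ) * ((∑ v ∈ V, ν v * E v) / 2 + (∑ p ∈ A, w p) / 4 - 2 * g₀ - C)
      ≤ (∑ v ∈ V, ν v) / 6 + ∑ p ∈ A, w p := by
  set M : ℝ := (s.card : ℝ) with hM
  set R : ℝ := (∑ v ∈ V, ν v) / 6 + ∑ p ∈ A, w p with hR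
  have hR0 : 0 ≤ R := by
    have h1 := Finset.sum_nonneg hν
    have h2 := Finset.sum_nonneg hw
    rw [hR]; positivity
  let F : ℕ → ι → ι → ℝ := fun v i j => bern ((τ v i - τ v j : ℝ) : AddCircle (1 : ℝ))
        + bern ((τ v i + τ v j : ℝ) : AddCircle (1 : ℝ))
  let f : ι → ι → ℝ := fun i j =>
      ∑ v ∈ V, ν v * (F v i j / 2) + ∑ p ∈ A, (if cl p i = cl p j then w p else 0) - C
  -- pointwise upper bound
  have hup : ∀ i ∈ s, ∀ j ∈ s, f i j ≤ 2 * g₀ + (if i = j then R else 0) := by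
    intro i hi j hj
    by_cases hij : i = j
    · subst hij
      rw [if_pos rfl]
      have h1 : ∑ v ∈ V, ν v * (F v i i / 2) ≤ ∑ v ∈ V, ν v * (1 / 6) := by
        refine Finset.sum_le_sum fun v hv => ?_
        refine mul_le_mul_of_nonneg_left ?_ (hν v hv)
        have h2 := bern_le (τ v i - τ v i)
        have h3 := bern_le (τ v i + τ v i)
        simp only [F]
        linarith
      have h4 : ∑ p ∈ A, (if cl p i = cl p i then w p else 0) = ∑ p ∈ A, w p :=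
        Finset.sum_congr rfl fun p _ => if_pos rfl
      have h5 : ∑ v ∈ V, ν v * (1 / 6 : ℝ) = (∑ v ∈ V, ν v) / 6 := by
        rw [← Finset.sum_mul]; ring
      change (∑ v ∈ V, ν v * (F v i i / 2) + ∑ p ∈ A, (if cl p i = cl p i then w p else 0) - C)
        ≤ 2 * g₀ + R
      rw [h4]
      rw [h5] at h1
      rw [hR]
      linarith
    · rw [if_neg hij, add_zero]
      have h1 := hpair i hi j hj hij
      have h2 := hg i hi
      have h3 := hg j hj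
      simp only [f, F]
      linarith
  have hsum : ∑ i ∈ s, ∑ j ∈ s, f i j ≤ 2 * g₀ * M ^ 2 + R * M := by
    calc ∑ i ∈ s, ∑ j ∈ s, f i j
        ≤ ∑ i ∈ s, ∑ j ∈ s, (2 * g₀ + (if i = j then R else 0)) :=
          Finset.sum_le_sum fun i hi => Finset.sum_le_sum fun j hj => hup i hi j hj
      _ = ∑ i ∈ s, (M * (2 * g₀) + R) := by
          refine Finset.sum_congr rfl fun i hi => ?_
          rw [Finset.sum_add_distrib, Finset.sum_const, nsmul_eq_mul, Finset.sum_ite_eq, if_pos hi]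
      _ = 2 * g₀ * M ^ 2 + R * M := by
          rw [Finset.sum_const, nsmul_eq_mul]
          ring
  -- lower bound
  have hlow : M ^ 2 * ((∑ v ∈ V, ν v * E v) / 2 + (∑ p ∈ A, w p) / 4 - C)
      ≤ ∑ i ∈ s, ∑ j ∈ s, f i j := by
    have e1 : ∑ i ∈ s, ∑ j ∈ s, f i j
        = ∑ v ∈ V, ν v * ((∑ i ∈ s, ∑ j ∈ s, F v i j) / 2)
          + ∑ p ∈ A, (∑ i ∈ s, ∑ j ∈ s, (if cl p i = cl p j then w p else 0)) - M ^ 2 * C := by
      simp only [f]
      simp only [Finset.sum_sub_distrib, Finset.sum_add_distrib, Finset.sum_const, nsmul_eq_mul]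
      have a1 : ∑ i ∈ s, ∑ j ∈ s, ∑ v ∈ V, ν v * (F v i j / 2)
          = ∑ v ∈ V, ν v * ((∑ i ∈ s, ∑ j ∈ s, F v i j) / 2) := by
        calc ∑ i ∈ s, ∑ j ∈ s, ∑ v ∈ V, ν v * (F v i j / 2)
            = ∑ i ∈ s, ∑ v ∈ V, ∑ j ∈ s, ν v * (F v i j / 2) :=
              Finset.sum_congr rfl fun i _ => Finset.sum_comm
          _ = ∑ v ∈ V, ∑ i ∈ s, ∑ j ∈ s, ν v * (F v i j / 2) := Finset.sum_comm
          _ = _ := by
              refine Finset.sum_congr rfl fun v _ => ?_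
              simp only [Finset.sum_div, Finset.mul_sum]
      have a2 : ∑ i ∈ s, ∑ j ∈ s, ∑ p ∈ A, (if cl p i = cl p j then w p else 0)
          = ∑ p ∈ A, ∑ i ∈ s, ∑ j ∈ s, (if cl p i = cl p j then w p else 0) := by
        calc ∑ i ∈ s, ∑ j ∈ s, ∑ p ∈ A, (if cl p i = cl p j then w p else 0)
            = ∑ i ∈ s, ∑ p ∈ A, ∑ j ∈ s, (if cl p i = cl p j then w p else 0) :=
              Finset.sum_congr rfl fun i _ => Finset.sum_comm
          _ = _ := Finset.sum_comm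
      rw [a1, a2]
      rw [hM]
      ring
    have e2 : ∑ v ∈ V, ν v * (E v * M ^ 2 / 2)
        ≤ ∑ v ∈ V, ν v * ((∑ i ∈ s, ∑ j ∈ s, F v i j) / 2) := by
      refine Finset.sum_le_sum fun v hv => mul_le_mul_of_nonneg_left ?_ (hν v hv)
      have := hE v hv
      simp only [F]
      linarith
    have e3 : ∑ p ∈ A, w p / 4 * M ^ 2
        ≤ ∑ p ∈ A, (∑ i ∈ s, ∑ j ∈ s, (if cl p i = cl p j then w p else 0)) :=
      Finset.sum_le_sum fun p hp => pairs_ge s (cl p) (w p) (hw p hp)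
    have e4 : ∑ v ∈ V, ν v * (E v * M ^ 2 / 2) = M ^ 2 * ((∑ v ∈ V, ν v * E v) / 2) := by
      rw [Finset.sum_div, Finset.mul_sum]
      refine Finset.sum_congr rfl fun v _ => ?_
      ring
    have e5 : ∑ p ∈ A, w p / 4 * M ^ 2 = M ^ 2 * ((∑ p ∈ A, w p) / 4) := by
      rw [Finset.sum_div, Finset.mul_sum]
      refine Finset.sum_congr rfl fun p _ => ?_
      ring
    rw [e1]
    rw [e4] at e2
    rw [e5] at e3
    linarith
  have hM0 : 0 ≤ M := Nat.cast_nonneg _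
  rcases hM0.eq_or_lt with h0 | h0
  · rw [← h0, zero_mul]
    exact hR0
  · have h1 : M * (M * ((∑ v ∈ V, ν v * E v) / 2 + (∑ p ∈ A, w p) / 4 - 2 * g₀ - C)) ≤ M * R := by
      have h2 := hlow.trans hsum
      nlinarith
    exact le_of_mul_le_mul_left h1 h0

/-- positivity, with both signs -/
theorem energy2_nonneg {ι : Type*} (s : Finset ι) (τ : ι → ℝ) :
    0 ≤ ∑ i ∈ s, ∑ j ∈ s, (bern ((τ i - τ j : ℝ) : AddCircle (1 : ℝ))
        + bern ((τ i + τ j : ℝ) : AddCircle (1 : ℝ))) := by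
  have h := energy_nonneg (s.disjSum s) (upt τ)
  rw [dbl] at h
  linarith

theorem energy2_ge {ι : Type*} (s : Finset ι) (τ : ι → ℝ) {n : ℕ} (hn : 0 < n)
    (h : ∀ i ∈ s, ∃ k : ℤ, 2 * n * τ i = k) :
    1 / (12 * (n : ℝ) ^ 2) * (s.card : ℝ) ^ 2 ≤
      ∑ i ∈ s, ∑ j ∈ s, (bern ((τ i - τ j : ℝ) : AddCircle (1 : ℝ))
        + bern ((τ i + τ j : ℝ) : AddCircle (1 : ℝ))) := by
  have ht : ∀ i ∈ s.disjSum s, (2 * n) • upt τ i = 0 := by
    intro i hi
    rcases i with i | i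
    · have hi' : i ∈ s := by simpa using hi
      obtain ⟨k, hk⟩ := h i hi'
      have e : (2 * n) • upt τ (Sum.inl i) = (((2 * n : ℕ) • τ i : ℝ) : AddCircle (1 : ℝ)) := by
        simp only [upt, Sum.elim_inl]
        rw [AddCircle.coe_nsmul]
      rw [e, AddCircle.coe_eq_zero_iff]
      refine ⟨k, ?_⟩
      rw [nsmul_eq_mul, zsmul_eq_mul, mul_one, ← hk]
      push_cast; ring
    · have hi' : i ∈ s := by simpa using hi
      obtain ⟨k, hk⟩ := h i hi'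
      have e : (2 * n) • upt τ (Sum.inr i) = (((2 * n : ℕ) • (-τ i) : ℝ) : AddCircle (1 : ℝ)) := by
        simp only [upt, Sum.elim_inr]
        rw [AddCircle.coe_nsmul]
      rw [e, AddCircle.coe_eq_zero_iff]
      refine ⟨-k, ?_⟩
      rw [nsmul_eq_mul, zsmul_eq_mul, mul_one, Int.cast_neg, ← hk]
      push_cast; ring
  have h1 := energy_ge (s.disjSum s) (upt τ) (N := 2 * n) (by omega) ht
  rw [dbl, Finset.card_disjSum] at h1
  have hn0 : (n : ℝ) ≠ 0 := by exact_mod_cast hn.ne'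
  have e : (((s.card + s.card : ℕ) : ℝ)) ^ 2 / (6 * (((2 * n : ℕ) : ℝ)) ^ 2)
      = 2 * (1 / (12 * (n : ℝ) ^ 2) * (s.card : ℝ) ^ 2) := by
    push_cast
    field_simp
    ring
  rw [e] at h1
  linarith

theorem energy2_cell {ι : Type*} (s : Finset ι) (τ : ι → ℝ)
    (h : ∀ i ∈ s, ∀ j ∈ s, |τ i - τ j| ≤ 1 / 24) :
    1 / 24 * (s.card : ℝ) ^ 2 ≤
      ∑ i ∈ s, ∑ j ∈ s, (bern ((τ i - τ j : ℝ) : AddCircle (1 : ℝ))
        + bern ((τ i + τ j : ℝ) : AddCircle (1 : ℝ))) := by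
  have h1 : ∀ i ∈ s, ∀ j ∈ s, (1 / 24 : ℝ) ≤ bern ((τ i - τ j : ℝ) : AddCircle (1 : ℝ))
        + bern ((τ i + τ j : ℝ) : AddCircle (1 : ℝ)) := by
    intro i hi j hj
    have h2 := bern_ge ((τ i + τ j : ℝ) : AddCircle (1 : ℝ))
    have h3 : ‖((τ i - τ j : ℝ) : AddCircle (1 : ℝ))‖ ≤ 1 / 24 := by
      rw [norm_coe]
      refine le_trans ?_ (h i hi j hj)
      have := round_le (τ i - τ j) 0
      simpa using this
    have h4 := norm_nonneg ((τ i - τ j : ℝ) : AddCircle (1 : ℝ))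
    have h5 : (1 / 8 : ℝ) ≤ bern ((τ i - τ j : ℝ) : AddCircle (1 : ℝ)) := by
      rw [bern]
      nlinarith
    linarith
  calc 1 / 24 * (s.card : ℝ) ^ 2 = ∑ i ∈ s, ∑ j ∈ s, (1 / 24 : ℝ) := by
        simp [Finset.sum_const]; ring
    _ ≤ _ := Finset.sum_le_sum fun i hi => Finset.sum_le_sum fun j hj => h1 i hi j hj

end Pool.Agent.H24.LQ
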