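import Pool.Agent.H24.LQ.Basic

/-!
# LQ02 Res

Resultant identities (check by `ring`), `D = 4a³+27b²`, `F = Phi`, `G = Psi`:
`4 D Z⁷ = f₁ F - g₁ G`, `f₁ = 12X²Z+16aZ³`, `g₁ = 3X³-5aXZ²-27bZ³`;
`4 D X⁷ = f₂ F + g₂ G`, `f₂ = 4DX³-4a²bX²Z+4a(3a³+22b²)XZ²+12b(a³+8b²)Z³`,
`g₂ = a²bX³+a(5a³+32b²)X²Z+2b(13a³+96b²)XZ²-3a²(a³+8b²)Z³`.
With `|X| ≤ N`, `|Z| ≤ N/s`, `|a| ≤ s²`, `|b| ≤ s³`: `|f₁| ≤ 28 N³/s`, `|g₁| ≤ 35 N³`,
`|f₂| ≤ 336 s⁶ N³`, `|g₂| ≤ 283 s⁷ N³`, so `|4D| N⁷ ≤ 619 s⁶ N³ N(F)` and `|4| ≥ 1/4`,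
`κ² = |D|/s⁶`. In the nonarchimedean case with `|2| = 1` all integer constants are `≤ 1` and
`|4| = 1`.
-/

namespace Pool.Agent.H24.LQ

open Pool.Agent.H24.LP Finset

private def Res_f1 (a b X Z : ℚ) : ℚ :=
  ((12 : ℕ) : ℚ) * (a ^ 0 * b ^ 0 * X ^ 2 * Z ^ 1) + ((16 : ℕ) : ℚ) * (a ^ 1 * b ^ 0 * X ^ 0 * Z ^ 3)

private def Res_g1 (a b X Z : ℚ) : ℚ :=
  -(((3 : ℕ) : ℚ) * (a ^ 0 * b ^ 0 * X ^ 3 * Z ^ 0)) + (((5 : ℕ) : ℚ) * (a ^ 1 * b ^ 0 * X ^ 1 * Z ^ 2) +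
    ((27 : ℕ) : ℚ) * (a ^ 0 * b ^ 1 * X ^ 0 * Z ^ 3))

private def Res_f2 (a b X Z : ℚ) : ℚ :=
  ((16 : ℕ) : ℚ) * (a ^ 3 * b ^ 0 * X ^ 3 * Z ^ 0) + (((108 : ℕ) : ℚ) * (a ^ 0 * b ^ 2 * X ^ 3 * Z ^ 0) +
    (-(((4 : ℕ) : ℚ) * (a ^ 2 * b ^ 1 * X ^ 2 * Z ^ 1)) + (((12 : ℕ) : ℚ) * (a ^ 4 * b ^ 0 * X ^ 1 * Z ^ 2) +
    (((88 : ℕ) : ℚ) * (a ^ 1 * b ^ 2 * X ^ 1 * Z ^ 2) + (((12 : ℕ) : ℚ) * (a ^ 3 * b ^ 1 * X ^ 0 * Z ^ 3) +
    ((96 : ℕ) : ℚ) * (a ^ 0 * b ^ 3 * X ^ 0 * Z ^ 3))))))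

private def Res_g2 (a b X Z : ℚ) : ℚ :=
  ((1 : ℕ) : ℚ) * (a ^ 2 * b ^ 1 * X ^ 3 * Z ^ 0) + (((5 : ℕ) : ℚ) * (a ^ 4 * b ^ 0 * X ^ 2 * Z ^ 1) +
    (((32 : ℕ) : ℚ) * (a ^ 1 * b ^ 2 * X ^ 2 * Z ^ 1) + (((26 : ℕ) : ℚ) * (a ^ 3 * b ^ 1 * X ^ 1 * Z ^ 2) +
    (((192 : ℕ) : ℚ) * (a ^ 0 * b ^ 3 * X ^ 1 * Z ^ 2) + (-(((3 : ℕ) : ℚ) * (a ^ 5 * b ^ 0 * X ^ 0 * Z ^ 3)) +
    -(((24 : ℕ) : ℚ) * (a ^ 2 * b ^ 2 * X ^ 0 * Z ^ 3)))))))

private lemma Res_id1 (a b X Z : ℚ) : 4 * (4 * a ^ 3 + 27 * b ^ 2) * Z ^ 7 =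
    Res_f1 a b X Z * Phi a b X Z + Res_g1 a b X Z * Psi a b X Z := by
  unfold Phi Psi Res_f1 Res_g1
  push_cast
  ring

private lemma Res_id2 (a b X Z : ℚ) : 4 * (4 * a ^ 3 + 27 * b ^ 2) * X ^ 7 =
    Res_f2 a b X Z * Phi a b X Z + Res_g2 a b X Z * Psi a b X Z := by
  unfold Phi Psi Res_f2 Res_g2
  push_cast
  ring

private lemma Res_mono {A B x z s N : ℝ} (hs : 0 < s) (hA0 : 0 ≤ A) (hB0 : 0 ≤ B) (hx0 : 0 ≤ x) (hz0 : 0 ≤ z)
    (hA : A ≤ s ^ 2) (hB : B ≤ s ^ 3) (hx : x ≤ N) (hz : s * z ≤ N) (i j k l e c : ℕ)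
    (h : 2 * i + 3 * j + e = c + l) : s ^ e * (A ^ i * B ^ j * x ^ k * z ^ l) ≤ s ^ c * N ^ (k + l) := by
  have hN : 0 ≤ N := le_trans hx0 hx
  have h1 : A ^ i ≤ (s ^ 2) ^ i := pow_le_pow_left₀ hA0 hA i
  have h2 : B ^ j ≤ (s ^ 3) ^ j := pow_le_pow_left₀ hB0 hB j
  have h3 : x ^ k ≤ N ^ k := pow_le_pow_left₀ hx0 hx k
  have h4 : (s * z) ^ l ≤ N ^ l := pow_le_pow_left₀ (mul_nonneg hs.le hz0) hz l
  have h5 : A ^ i * B ^ j * x ^ k * (s * z) ^ l ≤ (s ^ 2) ^ i * (s ^ 3) ^ j * N ^ k * N ^ l := by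
    apply mul_le_mul _ h4 (by positivity) (by positivity)
    apply mul_le_mul _ h3 (by positivity) (by positivity)
    exact mul_le_mul h1 h2 (by positivity) (by positivity)
  have hsl : 0 < s ^ l := pow_pos hs l
  apply le_of_mul_le_mul_left _ hsl
  calc s ^ l * (s ^ e * (A ^ i * B ^ j * x ^ k * z ^ l)) = s ^ e * (A ^ i * B ^ j * x ^ k * (s * z) ^ l) := by
        rw [mul_pow]; ring
    _ ≤ s ^ e * ((s ^ 2) ^ i * (s ^ 3) ^ j * N ^ k * N ^ l) := mul_le_mul_of_nonneg_left h5 (by positivity)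
    _ = s ^ (2 * i + 3 * j + e) * N ^ (k + l) := by
        rw [← pow_mul, ← pow_mul, pow_add, pow_add, pow_add]; ring
    _ = s ^ l * (s ^ c * N ^ (k + l)) := by
        rw [h, pow_add]; ring

/-- one monomial -/
private lemma Res_term (f : AbsoluteValue ℚ ℝ) {a b X Z : ℚ} {s N K : ℝ} (hs : 0 < s) (hA : f a ≤ s ^ 2) (hB : f b ≤ s ^ 3)
    (hx : f X ≤ N) (hz : s * f Z ≤ N) (n : ℕ) (hn : f (n : ℚ) ≤ K) (i j k l e c : ℕ) (h : 2 * i + 3 * j + e = c + l) :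
    s ^ e * f ((n : ℚ) * (a ^ i * b ^ j * X ^ k * Z ^ l)) ≤ K * (s ^ c * N ^ (k + l)) := by
  have h1 := Res_mono hs (f.nonneg a) (f.nonneg b) (f.nonneg X) (f.nonneg Z) hA hB hx hz i j k l e c h
  have hK : 0 ≤ K := le_trans (f.nonneg _) hn
  calc s ^ e * f ((n : ℚ) * (a ^ i * b ^ j * X ^ k * Z ^ l))
      = f (n : ℚ) * (s ^ e * (f a ^ i * f b ^ j * f X ^ k * f Z ^ l)) := by
        rw [map_mul, map_mul, map_mul, map_mul, map_pow, map_pow, map_pow, map_pow]; ring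
    _ ≤ K * (s ^ c * N ^ (k + l)) :=
        mul_le_mul hn h1 (by have := hs.le; have := f.nonneg a; have := f.nonneg b; have := f.nonneg X; have := f.nonneg Z; positivity) hK

private lemma Res_add (f : AbsoluteValue ℚ ℝ) (t : ℝ) (ht : 0 ≤ t) {u v : ℚ} {c d : ℝ} (hu : t * f u ≤ c) (hv : t * f v ≤ d) :
    t * f (u + v) ≤ c + d := by
  have := mul_le_mul_of_nonneg_left (f.add_le u v) ht
  linarith

private lemma Res_neg (f : AbsoluteValue ℚ ℝ) (t : ℝ) {u : ℚ} {c : ℝ} (hu : t * f u ≤ c) : t * f (-u) ≤ c := by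
  rw [f.map_neg]; exact hu

private lemma Res_max (f : AbsoluteValue ℚ ℝ) (hna : IsNonarchimedean f) (t : ℝ) (ht : 0 ≤ t) {u v : ℚ} {c : ℝ}
    (hu : t * f u ≤ c) (hv : t * f v ≤ c) : t * f (u + v) ≤ c := by
  rcases le_max_iff.1 (hna u v) with h | h
  · exact le_trans (mul_le_mul_of_nonneg_left h ht) hu
  · exact le_trans (mul_le_mul_of_nonneg_left h ht) hv

section
variable (f : AbsoluteValue ℚ ℝ) (a b X Z : ℚ)

private lemma Res_zero (hD : 4 * a ^ 3 + 27 * b ^ 2 ≠ 0) : ¬ (a = 0 ∧ b = 0) := by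
  rintro ⟨rfl, rfl⟩
  exact hD (by norm_num)

/-- from the inequality for `N ^ 7` to the theorem -/
private lemma Res_fin (hD : 4 * a ^ 3 + 27 * b ^ 2 ≠ 0) (h : ¬ (X = 0 ∧ Z = 0)) (K NF : ℝ)
    (hK : f (4 * a ^ 3 + 27 * b ^ 2) * Nv f a b X Z ^ 7 ≤ K * (sv f a b ^ 6 * Nv f a b X Z ^ 3 * NF)) :
    kap f a b ^ 2 * Nv f a b X Z ^ 4 ≤ K * NF := by
  have hs := sv_pos f a b (Res_zero a b hD)
  have hN := Nv_pos f a b hD h
  rw [kap_sq f a b hD]
  have h3 : 0 < sv f a b ^ 6 * Nv f a b X Z ^ 3 := by positivity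
  apply le_of_mul_le_mul_left _ h3
  calc sv f a b ^ 6 * Nv f a b X Z ^ 3 * (f (4 * a ^ 3 + 27 * b ^ 2) / sv f a b ^ 6 * Nv f a b X Z ^ 4)
      = f (4 * a ^ 3 + 27 * b ^ 2) * Nv f a b X Z ^ 7 := by field_simp
    _ ≤ K * (sv f a b ^ 6 * Nv f a b X Z ^ 3 * NF) := hK
    _ = sv f a b ^ 6 * Nv f a b X Z ^ 3 * (K * NF) := by ring

end

/-- `N(F) ≥ e^{-ν} N⁴ / 2476`. -/
theorem Nv_dup_ge (f : AbsoluteValue ℚ ℝ) (h2 : 1 / 2 ≤ f 2) (a b : ℚ)
    (hD : 4 * a ^ 3 + 27 * b ^ 2 ≠ 0) {X Z : ℚ} (h : ¬ (X = 0 ∧ Z = 0)) :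
    kap f a b ^ 2 * Nv f a b X Z ^ 4 / 2476 ≤ Nv f a b (Phi a b X Z) (Psi a b X Z) := by
  have hs := sv_pos f a b (Res_zero a b hD)
  have hN := Nv_pos f a b hD h
  have hA := le_sv_sq f a b
  have hB := le_sv_cube f a b
  have hfin := Res_fin f a b X Z hD h 2476 (Nv f a b (Phi a b X Z) (Psi a b X Z))
  have hx : f X ≤ Nv f a b X Z := le_max_left _ _
  have hz : sv f a b * f Z ≤ Nv f a b X Z := le_max_right _ _
  have hF : f (Phi a b X Z) ≤ Nv f a b (Phi a b X Z) (Psi a b X Z) := le_max_left _ _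
  have hG : sv f a b * f (Psi a b X Z) ≤ Nv f a b (Phi a b X Z) (Psi a b X Z) := le_max_right _ _
  have hN1 : f X ≤ sv f a b * f Z → Nv f a b X Z = sv f a b * f Z := fun h0 => max_eq_right h0
  have hN2 : sv f a b * f Z ≤ f X → Nv f a b X Z = f X := fun h0 => max_eq_left h0
  generalize Nv f a b (Phi a b X Z) (Psi a b X Z) = NF at *
  generalize sv f a b = s at *
  generalize Nv f a b X Z = N at *
  have h4 : (1 : ℝ) / 4 ≤ f 4 := by
    have h0 : (4 : ℚ) = 2 * 2 := by norm_num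
    rw [h0, map_mul]
    nlinarith
  have hc : ∀ n : ℕ, f (n : ℚ) ≤ (n : ℝ) := fun n => f.apply_nat_le_self n
  have hNF0 : 0 ≤ NF := le_trans (f.nonneg _) hF
  have hN3 : 0 ≤ N ^ 3 := by positivity
  have key : f 4 * f (4 * a ^ 3 + 27 * b ^ 2) * N ^ 7 ≤ 619 * (s ^ 6 * N ^ 3 * NF) := by
    rcases le_total (f X) (s * f Z) with hXZ | hXZ
    · have hN' := hN1 hXZ
      have e := congrArg f (Res_id1 a b X Z)
      rw [map_mul, map_mul, map_pow] at e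
      have e2 := f.add_le (Res_f1 a b X Z * Phi a b X Z) (Res_g1 a b X Z * Psi a b X Z)
      rw [← e, map_mul, map_mul] at e2
      have b1 : s ^ 1 * f (Res_f1 a b X Z) ≤ _ := Res_add f (s ^ 1) (by positivity)
        (Res_term f hs hA hB hx hz 12 (hc 12) 0 0 2 1 1 0 (by norm_num))
        (Res_term f hs hA hB hx hz 16 (hc 16) 1 0 0 3 1 0 (by norm_num))
      have b2 : s ^ 0 * f (Res_g1 a b X Z) ≤ _ := Res_add f (s ^ 0) (by positivity)
        (Res_neg f (s ^ 0) (Res_term f hs hA hB hx hz 3 (hc 3) 0 0 3 0 0 0 (by norm_num)))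
        (Res_add f (s ^ 0) (by positivity)
          (Res_term f hs hA hB hx hz 5 (hc 5) 1 0 1 2 0 0 (by norm_num))
          (Res_term f hs hA hB hx hz 27 (hc 27) 0 1 0 3 0 0 (by norm_num)))
      have hP20 : 0 ≤ f (Res_g1 a b X Z) := f.nonneg _
      generalize f (Res_f1 a b X Z) = P1 at *
      generalize f (Res_g1 a b X Z) = P2 at *
      have c1 : s * P1 ≤ 28 * N ^ 3 := by
        norm_num at b1 ⊢
        linarith
      have c2 : P2 ≤ 35 * N ^ 3 := by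
        norm_num at b2 ⊢
        linarith
      have d1 : s * P1 * f (Phi a b X Z) ≤ 28 * N ^ 3 * NF :=
        mul_le_mul c1 hF (f.nonneg _) (by positivity)
      have d2 : P2 * (s * f (Psi a b X Z)) ≤ 35 * N ^ 3 * NF :=
        mul_le_mul c2 hG (mul_nonneg hs.le (f.nonneg _)) (by positivity)
      calc f 4 * f (4 * a ^ 3 + 27 * b ^ 2) * N ^ 7 = s ^ 6 * (s * (f 4 * f (4 * a ^ 3 + 27 * b ^ 2) * f Z ^ 7)) := by
            rw [hN']; ring
        _ ≤ s ^ 6 * (s * (P1 * f (Phi a b X Z) + P2 * f (Psi a b X Z))) := by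
            apply mul_le_mul_of_nonneg_left _ (by positivity)
            exact mul_le_mul_of_nonneg_left e2 hs.le
        _ = s ^ 6 * (s * P1 * f (Phi a b X Z) + P2 * (s * f (Psi a b X Z))) := by ring
        _ ≤ s ^ 6 * (28 * N ^ 3 * NF + 35 * N ^ 3 * NF) := by
            apply mul_le_mul_of_nonneg_left _ (by positivity)
            linarith
        _ = 63 * (s ^ 6 * N ^ 3 * NF) := by ring
        _ ≤ 619 * (s ^ 6 * N ^ 3 * NF) := by
            have : 0 ≤ s ^ 6 * N ^ 3 * NF := by positivity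
            linarith
    · have hN' := hN2 hXZ
      have e := congrArg f (Res_id2 a b X Z)
      rw [map_mul, map_mul, map_pow] at e
      have e2 := f.add_le (Res_f2 a b X Z * Phi a b X Z) (Res_g2 a b X Z * Psi a b X Z)
      rw [← e, map_mul, map_mul] at e2
      have b1 : s ^ 0 * f (Res_f2 a b X Z) ≤ _ := Res_add f (s ^ 0) (by positivity)
        (Res_term f hs hA hB hx hz 16 (hc 16) 3 0 3 0 0 6 (by norm_num))
        (Res_add f (s ^ 0) (by positivity)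
        (Res_term f hs hA hB hx hz 108 (hc 108) 0 2 3 0 0 6 (by norm_num))
        (Res_add f (s ^ 0) (by positivity)
        (Res_neg f (s ^ 0) (Res_term f hs hA hB hx hz 4 (hc 4) 2 1 2 1 0 6 (by norm_num)))
        (Res_add f (s ^ 0) (by positivity)
        (Res_term f hs hA hB hx hz 12 (hc 12) 4 0 1 2 0 6 (by norm_num))
        (Res_add f (s ^ 0) (by positivity)
        (Res_term f hs hA hB hx hz 88 (hc 88) 1 2 1 2 0 6 (by norm_num))
        (Res_add f (s ^ 0) (by positivity)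
        (Res_term f hs hA hB hx hz 12 (hc 12) 3 1 0 3 0 6 (by norm_num))
        (Res_term f hs hA hB hx hz 96 (hc 96) 0 3 0 3 0 6 (by norm_num)))))))
      have b2 : s ^ 0 * f (Res_g2 a b X Z) ≤ _ := Res_add f (s ^ 0) (by positivity)
        (Res_term f hs hA hB hx hz 1 (hc 1) 2 1 3 0 0 7 (by norm_num))
        (Res_add f (s ^ 0) (by positivity)
        (Res_term f hs hA hB hx hz 5 (hc 5) 4 0 2 1 0 7 (by norm_num))
        (Res_add f (s ^ 0) (by positivity)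
        (Res_term f hs hA hB hx hz 32 (hc 32) 1 2 2 1 0 7 (by norm_num))
        (Res_add f (s ^ 0) (by positivity)
        (Res_term f hs hA hB hx hz 26 (hc 26) 3 1 1 2 0 7 (by norm_num))
        (Res_add f (s ^ 0) (by positivity)
        (Res_term f hs hA hB hx hz 192 (hc 192) 0 3 1 2 0 7 (by norm_num))
        (Res_add f (s ^ 0) (by positivity)
        (Res_neg f (s ^ 0) (Res_term f hs hA hB hx hz 3 (hc 3) 5 0 0 3 0 7 (by norm_num)))
        (Res_neg f (s ^ 0) (Res_term f hs hA hB hx hz 24 (hc 24) 2 2 0 3 0 7 (by norm_num))))))))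
      generalize f (Res_f2 a b X Z) = P1 at *
      generalize f (Res_g2 a b X Z) = P2 at *
      have c1 : P1 ≤ 336 * (s ^ 6 * N ^ 3) := by
        norm_num at b1 ⊢
        linarith
      have c2 : P2 ≤ 283 * (s ^ 7 * N ^ 3) := by
        norm_num at b2 ⊢
        linarith
      have d1 : P1 * f (Phi a b X Z) ≤ 336 * (s ^ 6 * N ^ 3) * NF :=
        mul_le_mul c1 hF (f.nonneg _) (by positivity)
      have d2 : P2 * f (Psi a b X Z) ≤ 283 * (s ^ 6 * N ^ 3) * NF := by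
        calc P2 * f (Psi a b X Z) ≤ 283 * (s ^ 7 * N ^ 3) * f (Psi a b X Z) :=
              mul_le_mul_of_nonneg_right c2 (f.nonneg _)
          _ = 283 * (s ^ 6 * N ^ 3) * (s * f (Psi a b X Z)) := by ring
          _ ≤ 283 * (s ^ 6 * N ^ 3) * NF := mul_le_mul_of_nonneg_left hG (by positivity)
      calc f 4 * f (4 * a ^ 3 + 27 * b ^ 2) * N ^ 7 = f 4 * f (4 * a ^ 3 + 27 * b ^ 2) * f X ^ 7 := by
            rw [hN']
        _ ≤ P1 * f (Phi a b X Z) + P2 * f (Psi a b X Z) := e2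
        _ ≤ 336 * (s ^ 6 * N ^ 3) * NF + 283 * (s ^ 6 * N ^ 3) * NF := by linarith
        _ = 619 * (s ^ 6 * N ^ 3 * NF) := by ring
  have key2 : f (4 * a ^ 3 + 27 * b ^ 2) * N ^ 7 ≤ 2476 * (s ^ 6 * N ^ 3 * NF) := by
    have h0 : 0 ≤ f (4 * a ^ 3 + 27 * b ^ 2) * N ^ 7 := mul_nonneg (f.nonneg _) (by positivity)
    nlinarith
  have h5 := hfin key2
  rw [div_le_iff₀ (by norm_num)]
  linarith

/-- the same without constant -/
theorem Nv_dup_ge_exact (f : AbsoluteValue ℚ ℝ) (hna : IsNonarchimedean f) (h2 : f 2 = 1)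
    (a b : ℚ) (hD : 4 * a ^ 3 + 27 * b ^ 2 ≠ 0) {X Z : ℚ} (h : ¬ (X = 0 ∧ Z = 0)) :
    kap f a b ^ 2 * Nv f a b X Z ^ 4 ≤ Nv f a b (Phi a b X Z) (Psi a b X Z) := by
  have hs := sv_pos f a b (Res_zero a b hD)
  have hN := Nv_pos f a b hD h
  have hA := le_sv_sq f a b
  have hB := le_sv_cube f a b
  have hfin := Res_fin f a b X Z hD h 1 (Nv f a b (Phi a b X Z) (Psi a b X Z))
  have hx : f X ≤ Nv f a b X Z := le_max_left _ _
  have hz : sv f a b * f Z ≤ Nv f a b X Z := le_max_right _ _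
  have hF : f (Phi a b X Z) ≤ Nv f a b (Phi a b X Z) (Psi a b X Z) := le_max_left _ _
  have hG : sv f a b * f (Psi a b X Z) ≤ Nv f a b (Phi a b X Z) (Psi a b X Z) := le_max_right _ _
  have hN1 : f X ≤ sv f a b * f Z → Nv f a b X Z = sv f a b * f Z := fun h0 => max_eq_right h0
  have hN2 : sv f a b * f Z ≤ f X → Nv f a b X Z = f X := fun h0 => max_eq_left h0
  generalize Nv f a b (Phi a b X Z) (Psi a b X Z) = NF at *
  generalize sv f a b = s at *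
  generalize Nv f a b X Z = N at *
  have h4 : f 4 = 1 := by
    have h0 : (4 : ℚ) = 2 * 2 := by norm_num
    rw [h0, map_mul, h2, mul_one]
  have hc : ∀ n : ℕ, f (n : ℚ) ≤ (1 : ℝ) := fun n => by
    have h0 := IsNonarchimedean.apply_intCast_le_one (F := AbsoluteValue ℚ ℝ) hna (n := (n : ℤ))
    rwa [Int.cast_natCast] at h0
  have hNF0 : 0 ≤ NF := le_trans (f.nonneg _) hF
  have hN3 : 0 ≤ N ^ 3 := by positivity
  have key : f (4 * a ^ 3 + 27 * b ^ 2) * N ^ 7 ≤ 1 * (s ^ 6 * N ^ 3 * NF) := by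
    rcases le_total (f X) (s * f Z) with hXZ | hXZ
    · have hN' := hN1 hXZ
      have e := congrArg f (Res_id1 a b X Z)
      rw [map_mul, map_mul, map_pow, h4, one_mul] at e
      have b1 : s ^ 1 * f (Res_f1 a b X Z) ≤ 1 * (s ^ 0 * N ^ 3) := Res_max f hna (s ^ 1) (by positivity)
        (Res_term f hs hA hB hx hz 12 (hc 12) 0 0 2 1 1 0 (by norm_num))
        (Res_term f hs hA hB hx hz 16 (hc 16) 1 0 0 3 1 0 (by norm_num))
      have b2 : s ^ 0 * f (Res_g1 a b X Z) ≤ 1 * (s ^ 0 * N ^ 3) := Res_max f hna (s ^ 0) (by positivity)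
        (Res_neg f (s ^ 0) (Res_term f hs hA hB hx hz 3 (hc 3) 0 0 3 0 0 0 (by norm_num)))
        (Res_max f hna (s ^ 0) (by positivity)
          (Res_term f hs hA hB hx hz 5 (hc 5) 1 0 1 2 0 0 (by norm_num))
          (Res_term f hs hA hB hx hz 27 (hc 27) 0 1 0 3 0 0 (by norm_num)))
      have c1 : s * f (Res_f1 a b X Z) ≤ N ^ 3 := by
        norm_num at b1 ⊢
        linarith
      have c2 : f (Res_g1 a b X Z) ≤ N ^ 3 := by
        norm_num at b2 ⊢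
        linarith
      have d1 : s * f (Res_f1 a b X Z * Phi a b X Z) ≤ N ^ 3 * NF := by
        rw [map_mul, ← mul_assoc]
        exact mul_le_mul c1 hF (f.nonneg _) (by positivity)
      have d2 : s * f (Res_g1 a b X Z * Psi a b X Z) ≤ N ^ 3 * NF := by
        rw [map_mul]
        calc s * (f (Res_g1 a b X Z) * f (Psi a b X Z)) = f (Res_g1 a b X Z) * (s * f (Psi a b X Z)) := by ring
          _ ≤ N ^ 3 * NF := mul_le_mul c2 hG (mul_nonneg hs.le (f.nonneg _)) (by positivity)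
      have d3 := Res_max f hna s hs.le d1 d2
      rw [← e] at d3
      calc f (4 * a ^ 3 + 27 * b ^ 2) * N ^ 7 = s ^ 6 * (s * (f (4 * a ^ 3 + 27 * b ^ 2) * f Z ^ 7)) := by
            rw [hN']; ring
        _ ≤ s ^ 6 * (N ^ 3 * NF) := mul_le_mul_of_nonneg_left d3 (by positivity)
        _ = 1 * (s ^ 6 * N ^ 3 * NF) := by ring
    · have hN' := hN2 hXZ
      have e := congrArg f (Res_id2 a b X Z)
      rw [map_mul, map_mul, map_pow, h4, one_mul] at e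
      have b1 : s ^ 0 * f (Res_f2 a b X Z) ≤ 1 * (s ^ 6 * N ^ 3) := Res_max f hna (s ^ 0) (by positivity)
        (Res_term f hs hA hB hx hz 16 (hc 16) 3 0 3 0 0 6 (by norm_num))
        (Res_max f hna (s ^ 0) (by positivity)
        (Res_term f hs hA hB hx hz 108 (hc 108) 0 2 3 0 0 6 (by norm_num))
        (Res_max f hna (s ^ 0) (by positivity)
        (Res_neg f (s ^ 0) (Res_term f hs hA hB hx hz 4 (hc 4) 2 1 2 1 0 6 (by norm_num)))
        (Res_max f hna (s ^ 0) (by positivity)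
        (Res_term f hs hA hB hx hz 12 (hc 12) 4 0 1 2 0 6 (by norm_num))
        (Res_max f hna (s ^ 0) (by positivity)
        (Res_term f hs hA hB hx hz 88 (hc 88) 1 2 1 2 0 6 (by norm_num))
        (Res_max f hna (s ^ 0) (by positivity)
        (Res_term f hs hA hB hx hz 12 (hc 12) 3 1 0 3 0 6 (by norm_num))
        (Res_term f hs hA hB hx hz 96 (hc 96) 0 3 0 3 0 6 (by norm_num)))))))
      have b2 : s ^ 0 * f (Res_g2 a b X Z) ≤ 1 * (s ^ 7 * N ^ 3) := Res_max f hna (s ^ 0) (by positivity)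
        (Res_term f hs hA hB hx hz 1 (hc 1) 2 1 3 0 0 7 (by norm_num))
        (Res_max f hna (s ^ 0) (by positivity)
        (Res_term f hs hA hB hx hz 5 (hc 5) 4 0 2 1 0 7 (by norm_num))
        (Res_max f hna (s ^ 0) (by positivity)
        (Res_term f hs hA hB hx hz 32 (hc 32) 1 2 2 1 0 7 (by norm_num))
        (Res_max f hna (s ^ 0) (by positivity)
        (Res_term f hs hA hB hx hz 26 (hc 26) 3 1 1 2 0 7 (by norm_num))
        (Res_max f hna (s ^ 0) (by positivity)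
        (Res_term f hs hA hB hx hz 192 (hc 192) 0 3 1 2 0 7 (by norm_num))
        (Res_max f hna (s ^ 0) (by positivity)
        (Res_neg f (s ^ 0) (Res_term f hs hA hB hx hz 3 (hc 3) 5 0 0 3 0 7 (by norm_num)))
        (Res_neg f (s ^ 0) (Res_term f hs hA hB hx hz 24 (hc 24) 2 2 0 3 0 7 (by norm_num))))))))
      have c1 : f (Res_f2 a b X Z) ≤ s ^ 6 * N ^ 3 := by
        norm_num at b1 ⊢
        linarith
      have c2 : f (Res_g2 a b X Z) ≤ s ^ 7 * N ^ 3 := by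
        norm_num at b2 ⊢
        linarith
      have d1 : (1 : ℝ) * f (Res_f2 a b X Z * Phi a b X Z) ≤ s ^ 6 * N ^ 3 * NF := by
        rw [map_mul, one_mul]
        exact mul_le_mul c1 hF (f.nonneg _) (by positivity)
      have d2 : (1 : ℝ) * f (Res_g2 a b X Z * Psi a b X Z) ≤ s ^ 6 * N ^ 3 * NF := by
        rw [map_mul, one_mul]
        calc f (Res_g2 a b X Z) * f (Psi a b X Z) ≤ s ^ 7 * N ^ 3 * f (Psi a b X Z) :=
              mul_le_mul_of_nonneg_right c2 (f.nonneg _)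
          _ = s ^ 6 * N ^ 3 * (s * f (Psi a b X Z)) := by ring
          _ ≤ s ^ 6 * N ^ 3 * NF := mul_le_mul_of_nonneg_left hG (by positivity)
      have d3 := Res_max f hna 1 zero_le_one d1 d2
      rw [← e, one_mul] at d3
      calc f (4 * a ^ 3 + 27 * b ^ 2) * N ^ 7 = f (4 * a ^ 3 + 27 * b ^ 2) * f X ^ 7 := by
            rw [hN']
        _ ≤ s ^ 6 * N ^ 3 * NF := d3
        _ = 1 * (s ^ 6 * N ^ 3 * NF) := by ring
  have h5 := hfin key
  rwa [one_mul] at h5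

end Pool.Agent.H24.LQ
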