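import Pool.Agent.H24.LQ.Basic
import Pool.Agent.H24.LQ.Res

/-!
# LQ03 Exact

The exact local inequality (`p ≥ 5`). If `ν = 0` (`nu ≤ 0`): `Lv = log N` for both, `κ = 1`, use
`Nv_dup_ge_exact`. Let `ν > 0`, so `κ < 1`. Then `|a| = s²` and `|b| = s³` (if `|a| < s²` then `|b| = s³` and
`|4a³| < |27b²| = s⁶`, so `|D| = s⁶`, `ν = 0`; in the same way if `|b| < s³`). `a ≠ 0`, `e = -3b/(2a)`,
`|e| = s`, `α = D/(4a²)`, `|α| = s² κ²`, `w = X - eZ`, `|w| ≤ N`. Identities (`field_simp; ring`):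
  `Psi = 4Z[w²(w+3eZ) + α Z²(w+eZ/3)]`,
  `U := wv a b Phi Psi = Phi - e Psi = w⁴ - α Z²(4e²Z² + (8/3)ewZ + 2w²) + α²Z⁴`.
Let `ρ = |w|/N`, `N' = Nv (Phi, Psi)`, `M' = Mv (Phi, Psi) = max(min(|U|, N'), κ N')`; `|U| ≤ N'`.
(i) `|w| = N`: `|U| = N⁴` (the other terms are `≤ κ² N⁴ < N⁴`), so `N' ≥ N⁴`, `M' ≥ N⁴`, `Lv(F) ≥ log N⁴`
by `Lv_ge` with `M₀ = N₀ = N⁴`; and `Lv ≤ log N` (`Lv_le`).
(ii) `κ N < |w| < N`: then `s|Z| = N`, `|w+3eZ| = N`, `|Psi| = |Z| ρ² N³` (second term `≤ κ² N³`), so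
`N' ≥ s|Psi| = ρ² N⁴`. If `ρ² > κ`: `|U| = ρ⁴ N⁴` (others `≤ κ² N⁴`), use `Lv_ge` with `M₀ = ρ⁴N⁴`, `N₀ = ρ²N⁴`
(`κN₀ ≤ M₀`). If `ρ² ≤ κ`: `M' ≥ κ² N⁴`: if `ρ² = κ` from `κ N' ≥ κ ρ² N⁴`; if `ρ² < κ`, `|U| = κ² N⁴`
(the term `4 α e² Z⁴`) and `N' ≥ ρ²N⁴ ≥ κ² N⁴`; use `Lv_ge` with `M₀ = κ²N⁴`, `N₀ = ρ²N⁴` (`κ N₀ ≤ M₀` as `ρ² ≤ κ`).
In both cases the value is exactly `4 (log N - T + T²/ν)`, `T = -log ρ` (`κ = exp(-ν/2)`):
`-4T + (2T)²/ν`, resp. `-ν + (ν-2T)²/ν = -4T + 4T²/ν`.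
(iii) `|w| ≤ κ N`: `s|Z| = N`, `|U| = κ² N⁴` (the term `4αe²Z⁴`), `N' ≥ |U|`, `Lv(F) ≥ log(κ²N⁴) = 4 log N - ν`,
and `T = ν/2`, `Lv = log N - ν/4`.
-/

namespace Pool.Agent.H24.LQ

open Pool.Agent.H24.LP Finset

private lemma exDom (f : AbsoluteValue ℚ ℝ) (hna : IsNonarchimedean f) {x y : ℚ}
    (h : f y < f x) : f (x + y) = f x := by
  apply le_antisymm
  · exact (hna x y).trans (max_le le_rfl h.le)
  · have h1 := hna (x + y) (-y)
    rw [add_neg_cancel_right, AbsoluteValue.map_neg] at h1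
    rcases le_max_iff.1 h1 with h2 | h2
    · exact h2
    · exact absurd h (not_lt.2 h2)

private lemma exAdd_le (f : AbsoluteValue ℚ ℝ) (hna : IsNonarchimedean f) {x y : ℚ} {c : ℝ}
    (h1 : f x ≤ c) (h2 : f y ≤ c) : f (x + y) ≤ c := (hna x y).trans (max_le h1 h2)

private lemma exAdd_lt (f : AbsoluteValue ℚ ℝ) (hna : IsNonarchimedean f) {x y : ℚ} {c : ℝ}
    (h1 : f x < c) (h2 : f y < c) : f (x + y) < c := lt_of_le_of_lt (hna x y) (max_lt h1 h2)

/-- The node `e`. -/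
private def exE (a b : ℚ) : ℚ := -(3 * b) / (2 * a)

/-- `α = D/(4a²)`. -/
private def exA (a b : ℚ) : ℚ := (4 * a ^ 3 + 27 * b ^ 2) / (4 * a ^ 2)

private lemma exPsi (a b X Z : ℚ) (ha : a ≠ 0) :
    Psi a b X Z = 4 * Z * (wv a b X Z ^ 2 * (3 * exE a b * Z + wv a b X Z)
      + exA a b * Z ^ 2 * (wv a b X Z + exE a b * Z / 3)) := by
  unfold Psi wv exE exA
  field_simp
  ring

private lemma exU (a b X Z : ℚ) (ha : a ≠ 0) :
    wv a b (Phi a b X Z) (Psi a b X Z) = wv a b X Z ^ 4 + (-(4 * exA a b * exE a b ^ 2 * Z ^ 4)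
      + (-(exA a b * Z ^ 2 * (8 / 3 * exE a b * wv a b X Z * Z + 2 * wv a b X Z ^ 2))
        + exA a b ^ 2 * Z ^ 4)) := by
  unfold Psi Phi wv exE exA
  field_simp
  ring

private lemma exX (a b X Z : ℚ) : X = exE a b * Z + wv a b X Z := by
  unfold wv exE
  ring

private lemma exSize (f : AbsoluteValue ℚ ℝ) (hna : IsNonarchimedean f) (h2 : f 2 = 1)
    (h3 : f 3 = 1) (a b : ℚ) (hD : 4 * a ^ 3 + 27 * b ^ 2 ≠ 0) (hk : kap f a b ^ 2 < 1)
    (hs : 0 < sv f a b) : f a = sv f a b ^ 2 ∧ f b = sv f a b ^ 3 := by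
  have h4 : f 4 = 1 := by
    have : (4 : ℚ) = 2 ^ 2 := by norm_num
    rw [this, map_pow, h2, one_pow]
  have h27 : f 27 = 1 := by
    have : (27 : ℚ) = 3 ^ 3 := by norm_num
    rw [this, map_pow, h3, one_pow]
  have hDlt : f (4 * a ^ 3 + 27 * b ^ 2) < sv f a b ^ 6 := by
    have h := kap_sq f a b hD
    rw [h, div_lt_one (by positivity)] at hk
    exact hk
  have ea : f (4 * a ^ 3) = f a ^ 3 := by rw [map_mul, map_pow, h4, one_mul]
  have eb : f (27 * b ^ 2) = f b ^ 2 := by rw [map_mul, map_pow, h27, one_mul]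
  have la := le_sv_sq f a b
  have lb := le_sv_cube f a b
  have a0 : 0 ≤ f a := f.nonneg _
  have b0 : 0 ≤ f b := f.nonneg _
  rcases sv_or f a b with h | h
  · refine ⟨h, le_antisymm lb ?_⟩
    by_contra hc
    have hc := not_le.1 hc
    have h5 : f (27 * b ^ 2) < f (4 * a ^ 3) := by
      rw [ea, eb, h]
      have : f b ^ 2 < (sv f a b ^ 3) ^ 2 := pow_lt_pow_left₀ hc b0 (by norm_num)
      calc f b ^ 2 < (sv f a b ^ 3) ^ 2 := this
        _ = (sv f a b ^ 2) ^ 3 := by ring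
    rw [exDom f hna h5, ea, h] at hDlt
    have : (sv f a b ^ 2) ^ 3 = sv f a b ^ 6 := by ring
    rw [this] at hDlt
    exact lt_irrefl _ hDlt
  · refine ⟨le_antisymm la ?_, h⟩
    by_contra hc
    have hc := not_le.1 hc
    have h5 : f (4 * a ^ 3) < f (27 * b ^ 2) := by
      rw [ea, eb, h]
      have : f a ^ 3 < (sv f a b ^ 2) ^ 3 := pow_lt_pow_left₀ hc a0 (by norm_num)
      calc f a ^ 3 < (sv f a b ^ 2) ^ 3 := this
        _ = (sv f a b ^ 3) ^ 2 := by ring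
    rw [add_comm, exDom f hna h5, eb, h] at hDlt
    have : (sv f a b ^ 3) ^ 2 = sv f a b ^ 6 := by ring
    rw [this] at hDlt
    exact lt_irrefl _ hDlt

/-- `|e| = s`, `|α| = κ² s²`, `a ≠ 0`. -/
private lemma exEA (f : AbsoluteValue ℚ ℝ) (h2 : f 2 = 1)
    (h3 : f 3 = 1) (a b : ℚ) (hD : 4 * a ^ 3 + 27 * b ^ 2 ≠ 0)
    (hs : 0 < sv f a b) (ha : f a = sv f a b ^ 2) (hb : f b = sv f a b ^ 3) :
    a ≠ 0 ∧ f (exE a b) = sv f a b ∧ f (exA a b) = kap f a b ^ 2 * sv f a b ^ 2 := by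
  have h4 : f 4 = 1 := by
    have : (4 : ℚ) = 2 ^ 2 := by norm_num
    rw [this, map_pow, h2, one_pow]
  have hn : sv f a b ≠ 0 := hs.ne'
  refine ⟨?_, ?_, ?_⟩
  · intro h
    have h0 : f a = 0 := by rw [h, map_zero]
    rw [h0] at ha
    exact (pow_ne_zero 2 hn) ha.symm
  · unfold exE
    rw [map_div₀, AbsoluteValue.map_neg, map_mul, map_mul, h2, h3, ha, hb]
    field_simp
  · unfold exA
    rw [map_div₀, map_mul, map_pow, h4, ha, kap_sq f a b hD]
    field_simp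

/-- Bounds for `N(F)` and `M(F)`. -/
private lemma exMv (f : AbsoluteValue ℚ ℝ) (hna : IsNonarchimedean f) (a b X Z : ℚ)
    (hE : f (exE a b) = sv f a b) (hX : X = exE a b * Z + wv a b X Z) :
    f (wv a b X Z) ≤ Nv f a b X Z ∧ f (wv a b X Z) ≤ Mv f a b X Z := by
  have h1 : f (wv a b X Z) ≤ Nv f a b X Z := by
    have h : wv a b X Z = X + -(exE a b * Z) := by
      rw [eq_comm, ← sub_eq_add_neg, sub_eq_iff_eq_add, add_comm]
      exact hX
    rw [h]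
    refine exAdd_le f hna (le_max_left _ _) ?_
    rw [AbsoluteValue.map_neg, map_mul, hE]
    exact le_max_right _ _
  refine ⟨h1, ?_⟩
  unfold Mv
  rw [min_eq_left h1]
  exact le_max_left _ _

private lemma exNvEq (f : AbsoluteValue ℚ ℝ) (hna : IsNonarchimedean f) (a b X Z : ℚ)
    (hE : f (exE a b) = sv f a b) (hX : X = exE a b * Z + wv a b X Z)
    (hw : f (wv a b X Z) < Nv f a b X Z) : sv f a b * f Z = Nv f a b X Z := by
  have h1 : sv f a b * f Z ≤ Nv f a b X Z := le_max_right _ _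
  refine le_antisymm h1 ?_
  by_contra hc
  have hc := not_le.1 hc
  have h2 : f X < Nv f a b X Z := by
    have h3 : f (exE a b * Z + wv a b X Z) < Nv f a b X Z := by
      refine exAdd_lt f hna ?_ hw
      rw [map_mul, hE]
      exact hc
    rw [← hX] at h3
    exact h3
  have h4 : Nv f a b X Z < Nv f a b X Z := by
    conv_lhs => unfold Nv
    exact max_lt h2 hc
  exact lt_irrefl _ h4

/-- The terms of `U`. -/
private lemma exTerms (f : AbsoluteValue ℚ ℝ) (hna : IsNonarchimedean f) (h2 : f 2 = 1)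
    (h3 : f 3 = 1) {e α w Z : ℚ} {s κ N : ℝ} (he : f e = s) (hα : f α = κ ^ 2 * s ^ 2)
    (hs : 0 < s) (hκ : 0 < κ) (hκ1 : κ ^ 2 < 1) (hN : 0 < N) (hz : s * f Z ≤ N) (hw : f w ≤ N) :
    f (-(4 * α * e ^ 2 * Z ^ 4) + (-(α * Z ^ 2 * (8 / 3 * e * w * Z + 2 * w ^ 2))
        + α ^ 2 * Z ^ 4)) ≤ κ ^ 2 * N ^ 4 ∧
    (s * f Z = N → f w < N →
      f (-(4 * α * e ^ 2 * Z ^ 4) + (-(α * Z ^ 2 * (8 / 3 * e * w * Z + 2 * w ^ 2))
        + α ^ 2 * Z ^ 4)) = κ ^ 2 * N ^ 4) := by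
  have h4 : f 4 = 1 := by
    have : (4 : ℚ) = 2 ^ 2 := by norm_num
    rw [this, map_pow, h2, one_pow]
  have h83 : f (8 / 3) = 1 := by
    have : (8 / 3 : ℚ) = 2 ^ 3 / 3 := by norm_num
    rw [this, map_div₀, map_pow, h2, h3, one_pow, div_one]
  have z0 : 0 ≤ f Z := f.nonneg _
  have w0 : 0 ≤ f w := f.nonneg _
  have sz0 : 0 ≤ s * f Z := mul_nonneg hs.le z0
  have eB : f (-(4 * α * e ^ 2 * Z ^ 4)) = κ ^ 2 * (s * f Z) ^ 4 := by
    rw [AbsoluteValue.map_neg, map_mul, map_mul, map_mul, map_pow, map_pow, h4, hα, he]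
    ring
  have eC2 : f (α ^ 2 * Z ^ 4) = κ ^ 2 * (κ ^ 2 * (s * f Z) ^ 4) := by
    rw [map_mul, map_pow, map_pow, hα]
    ring
  have eC1 : f (-(α * Z ^ 2 * (8 / 3 * e * w * Z + 2 * w ^ 2)))
      = κ ^ 2 * (s * f Z) ^ 2 * f (8 / 3 * e * w * Z + 2 * w ^ 2) := by
    rw [AbsoluteValue.map_neg, map_mul, map_mul, map_pow, hα]
    ring
  have eI1 : f (8 / 3 * e * w * Z) = (s * f Z) * f w := by
    rw [map_mul, map_mul, map_mul, h83, he]
    ring
  have eI2 : f (2 * w ^ 2) = f w * f w := by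
    rw [map_mul, map_pow, h2]
    ring
  have hI : f (8 / 3 * e * w * Z + 2 * w ^ 2) ≤ N * f w := by
    refine exAdd_le f hna ?_ ?_
    · rw [eI1]
      exact mul_le_mul_of_nonneg_right hz w0
    · rw [eI2]
      exact mul_le_mul_of_nonneg_right hw w0
  have hsz4 : (s * f Z) ^ 4 ≤ N ^ 4 := pow_le_pow_left₀ sz0 hz 4
  have hsz2 : (s * f Z) ^ 2 ≤ N ^ 2 := pow_le_pow_left₀ sz0 hz 2
  have hκ2 : 0 < κ ^ 2 := by positivity
  have hN2 : 0 < N ^ 2 := by positivity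
  have hN4 : 0 < N ^ 4 := by positivity
  have bC1 : f (-(α * Z ^ 2 * (8 / 3 * e * w * Z + 2 * w ^ 2))) ≤ κ ^ 2 * N ^ 2 * (N * f w) := by
    rw [eC1]
    exact mul_le_mul (mul_le_mul_of_nonneg_left hsz2 hκ2.le) hI (f.nonneg _) (by positivity)
  have bC2 : f (α ^ 2 * Z ^ 4) < κ ^ 2 * N ^ 4 := by
    rw [eC2]
    refine mul_lt_mul_of_pos_left ?_ hκ2
    calc κ ^ 2 * (s * f Z) ^ 4 ≤ κ ^ 2 * N ^ 4 := mul_le_mul_of_nonneg_left hsz4 hκ2.le
      _ < 1 * N ^ 4 := mul_lt_mul_of_pos_right hκ1 hN4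
      _ = N ^ 4 := one_mul _
  constructor
  · refine exAdd_le f hna ?_ (exAdd_le f hna ?_ bC2.le)
    · rw [eB]
      exact mul_le_mul_of_nonneg_left hsz4 hκ2.le
    · refine bC1.trans ?_
      calc κ ^ 2 * N ^ 2 * (N * f w) ≤ κ ^ 2 * N ^ 2 * (N * N) :=
            mul_le_mul_of_nonneg_left (mul_le_mul_of_nonneg_left hw hN.le) (by positivity)
        _ = κ ^ 2 * N ^ 4 := by ring
  · intro hzN hwN
    rw [exDom f hna, eB, hzN]
    rw [eB, hzN]
    refine exAdd_lt f hna (lt_of_le_of_lt bC1 ?_) bC2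
    calc κ ^ 2 * N ^ 2 * (N * f w) < κ ^ 2 * N ^ 2 * (N * N) :=
          mul_lt_mul_of_pos_left (mul_lt_mul_of_pos_left hwN hN) (by positivity)
      _ = κ ^ 2 * N ^ 4 := by ring

/-- `|Psi|` for `κ N < |w| < N`. -/
private lemma exPsiV (f : AbsoluteValue ℚ ℝ) (hna : IsNonarchimedean f) (h2 : f 2 = 1)
    (h3 : f 3 = 1) {e α w Z : ℚ} {s κ N : ℝ} (he : f e = s) (hα : f α = κ ^ 2 * s ^ 2)
    (hκ : 0 < κ) (hN : 0 < N) (hz : s * f Z = N) (hw : f w < N)
    (hw2 : κ * N < f w) :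
    s * f (4 * Z * (w ^ 2 * (3 * e * Z + w) + α * Z ^ 2 * (w + e * Z / 3)))
      = f w ^ 2 * N ^ 2 := by
  have h4 : f 4 = 1 := by
    have : (4 : ℚ) = 2 ^ 2 := by norm_num
    rw [this, map_pow, h2, one_pow]
  have w0 : 0 ≤ f w := f.nonneg _
  have e1 : f (3 * e * Z) = N := by
    rw [map_mul, map_mul, h3, he, one_mul, hz]
  have e2 : f (3 * e * Z + w) = N := by
    rw [exDom f hna (by rw [e1]; exact hw), e1]
  have e3 : f (w ^ 2 * (3 * e * Z + w)) = f w ^ 2 * N := by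
    rw [map_mul, map_pow, e2]
  have e4 : f (w + e * Z / 3) ≤ N := by
    refine exAdd_le f hna hw.le ?_
    rw [map_div₀, map_mul, he, h3, div_one, hz]
  have e5 : f (α * Z ^ 2 * (w + e * Z / 3)) ≤ κ ^ 2 * N ^ 2 * N := by
    rw [map_mul, map_mul, map_pow, hα]
    have : κ ^ 2 * s ^ 2 * f Z ^ 2 = κ ^ 2 * N ^ 2 := by rw [← hz]; ring
    rw [this]
    exact mul_le_mul_of_nonneg_left e4 (by positivity)
  have e6 : κ ^ 2 * N ^ 2 * N < f w ^ 2 * N := by
    refine mul_lt_mul_of_pos_right ?_ hN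
    calc κ ^ 2 * N ^ 2 = (κ * N) ^ 2 := by ring
      _ < f w ^ 2 := pow_lt_pow_left₀ hw2 (by positivity) (by norm_num)
  rw [map_mul, map_mul, h4, exDom f hna (by rw [e3]; exact lt_of_le_of_lt e5 e6), e3]
  calc s * (1 * f Z * (f w ^ 2 * N)) = (s * f Z) * (f w ^ 2 * N) := by ring
    _ = f w ^ 2 * N ^ 2 := by rw [hz]; ring

private lemma exLvEq (f : AbsoluteValue ℚ ℝ) (a b X Z : ℚ) (hν : 0 < nu f a b)
    (hN : 0 < Nv f a b X Z) (hM : 0 < Mv f a b X Z) :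
    Lv f a b 0 X Z = Real.log (Nv f a b X Z)
      - (Real.log (Nv f a b X Z) - Real.log (Mv f a b X Z))
      + (Real.log (Nv f a b X Z) - Real.log (Mv f a b X Z)) ^ 2 / nu f a b := by
  unfold Lv Tv
  rw [if_neg (not_le.2 hν), Real.log_div hN.ne' hM.ne']

theorem Lv_dup_exact (f : AbsoluteValue ℚ ℝ) (hna : IsNonarchimedean f) (h2 : f 2 = 1)
    (h3 : f 3 = 1) (a b : ℚ) (hD : 4 * a ^ 3 + 27 * b ^ 2 ≠ 0) {X Z : ℚ}
    (h : ¬ (X = 0 ∧ Z = 0)) :
    4 * Lv f a b 0 X Z ≤ Lv f a b 0 (Phi a b X Z) (Psi a b X Z) := by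
  have hν0 := nu_nonneg f a b hna hD
  have hN := Nv_pos f a b hD h
  have hge := Nv_dup_ge_exact f hna h2 a b hD h
  have hlog4 : 4 * Real.log (Nv f a b X Z) = Real.log (Nv f a b X Z ^ 4) := by
    rw [Real.log_pow]; norm_num
  rcases hν0.eq_or_lt with h0 | hν
  · have hk : kap f a b = 1 := by
      unfold kap
      rw [← h0]
      simp
    rw [hk, one_pow, one_mul] at hge
    rw [Lv_eq_of_le f a b h0.symm.le, Lv_eq_of_le f a b h0.symm.le, hlog4]
    exact Real.log_le_log (by positivity) hge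
  have hκ : 0 < kap f a b := Real.exp_pos _
  have hκl : Real.log (kap f a b) = -(nu f a b) / 2 := Real.log_exp _
  have hκ1 : kap f a b < 1 := by
    unfold kap
    rw [Real.exp_lt_one_iff]
    linarith
  have hκ2 : kap f a b ^ 2 < 1 := by nlinarith
  have hF : ¬ (Phi a b X Z = 0 ∧ Psi a b X Z = 0) := by
    rintro ⟨h5, h6⟩
    rw [h5, h6] at hge
    have h7 : Nv f a b 0 0 = 0 := by
      unfold Nv
      simp
    rw [h7] at hge
    have h8 : 0 < kap f a b ^ 2 * Nv f a b X Z ^ 4 := by positivity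
    linarith
  have hab : ¬ (a = 0 ∧ b = 0) := by
    rintro ⟨rfl, rfl⟩
    exact hD (by norm_num)
  have hs := sv_pos f a b hab
  obtain ⟨ha, hb⟩ := exSize f hna h2 h3 a b hD hκ2 hs
  obtain ⟨ha0, hE, hA⟩ := exEA f h2 h3 a b hD hs ha hb
  obtain ⟨hwN, hwM⟩ := exMv f hna a b X Z hE (exX a b X Z)
  obtain ⟨hUN, hUM⟩ := exMv f hna a b (Phi a b X Z) (Psi a b X Z) hE (exX a b _ _)
  have hzN : sv f a b * f Z ≤ Nv f a b X Z := le_max_right _ _
  obtain ⟨hT1, hT2⟩ := exTerms f hna h2 h3 hE hA hs hκ hκ2 hN hzN hwN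
  have hU := exU a b X Z ha0
  have hN4 : 0 < Nv f a b X Z ^ 4 := by positivity
  have hlt4 : kap f a b ^ 2 * Nv f a b X Z ^ 4 < Nv f a b X Z ^ 4 := by
    calc kap f a b ^ 2 * Nv f a b X Z ^ 4 < 1 * Nv f a b X Z ^ 4 :=
          mul_lt_mul_of_pos_right hκ2 hN4
      _ = Nv f a b X Z ^ 4 := one_mul _
  have hw4 : f (wv a b X Z ^ 4) = f (wv a b X Z) ^ 4 := map_pow f _ 4
  rcases hwN.eq_or_lt with hwe | hwlt
  · -- `|w| = N`
    have hUv : f (wv a b (Phi a b X Z) (Psi a b X Z)) = Nv f a b X Z ^ 4 := by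
      rw [hU, exDom f hna (by rw [hw4, hwe]; exact lt_of_le_of_lt hT1 hlt4), hw4, hwe]
    rw [hUv] at hUN hUM
    have h5 := Lv_ge f a b le_rfl hν hD hF hN4
      (mul_le_of_le_one_left hN4.le hκ1.le) le_rfl hUM hUN
    rw [div_self hN4.ne', Real.log_one, ← hlog4] at h5
    have h6 := Lv_le f a b le_rfl hD h (t := 0)
    have h7 : (0 : ℝ) ^ 2 / nu f a b = 0 := by norm_num
    rw [h7] at h5
    linarith
  -- `|w| < N`
  have hz := exNvEq f hna a b X Z hE (exX a b X Z) hwlt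
  have hR := hT2 hz hwlt
  have hUlt : f (wv a b X Z) ^ 4 < kap f a b ^ 2 * Nv f a b X Z ^ 4 →
      f (wv a b (Phi a b X Z) (Psi a b X Z)) = kap f a b ^ 2 * Nv f a b X Z ^ 4 := by
    intro h5
    rw [hU, add_comm, exDom f hna (by rw [hR, hw4]; exact h5), hR]
  have hUgt : kap f a b ^ 2 * Nv f a b X Z ^ 4 < f (wv a b X Z) ^ 4 →
      f (wv a b (Phi a b X Z) (Psi a b X Z)) = f (wv a b X Z) ^ 4 := by
    intro h5
    rw [hU, exDom f hna (by rw [hR, hw4]; exact h5), hw4]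
  have hκN4 : 0 < kap f a b ^ 2 * Nv f a b X Z ^ 4 := by positivity
  have hM := Mv_pos f a b hD h
  have hLv := exLvEq f a b X Z hν hN hM
  have hlκ : Real.log (kap f a b ^ 2 * Nv f a b X Z ^ 4)
      = -(nu f a b) + 4 * Real.log (Nv f a b X Z) := by
    rw [Real.log_mul (by positivity) (by positivity), Real.log_pow, Real.log_pow, hκl]
    push_cast
    ring
  have w0 : 0 ≤ f (wv a b X Z) := f.nonneg _
  rcases le_or_gt (f (wv a b X Z)) (kap f a b * Nv f a b X Z) with hle | hgt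
  · -- `|w| ≤ κ N`
    have hMe : Mv f a b X Z = kap f a b * Nv f a b X Z := by
      unfold Mv
      rw [min_eq_left hwlt.le]
      exact max_eq_right hle
    have h5 : f (wv a b X Z) ^ 4 < kap f a b ^ 2 * Nv f a b X Z ^ 4 := by
      calc f (wv a b X Z) ^ 4 ≤ (kap f a b * Nv f a b X Z) ^ 4 := pow_le_pow_left₀ w0 hle 4
        _ = kap f a b ^ 2 * (kap f a b ^ 2 * Nv f a b X Z ^ 4) := by ring
        _ < 1 * (kap f a b ^ 2 * Nv f a b X Z ^ 4) := mul_lt_mul_of_pos_right hκ2 hκN4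
        _ = kap f a b ^ 2 * Nv f a b X Z ^ 4 := one_mul _
    rw [hUlt h5] at hUN hUM
    have h6 := Lv_ge f a b le_rfl hν hD hF hκN4
      (mul_le_of_le_one_left hκN4.le hκ1.le) le_rfl hUM hUN
    have h7 : (0 : ℝ) ^ 2 / nu f a b = 0 := by norm_num
    rw [div_self hκN4.ne', Real.log_one, h7, hlκ] at h6
    have h8 : Real.log (Mv f a b X Z) = -(nu f a b) / 2 + Real.log (Nv f a b X Z) := by
      rw [hMe, Real.log_mul hκ.ne' hN.ne', hκl]
    rw [h8] at hLv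
    have h9 : Lv f a b 0 X Z = Real.log (Nv f a b X Z) - nu f a b / 4 := by
      rw [hLv]
      field_simp
      ring
    rw [h9]
    linarith
  · -- `κ N < |w| < N`
    have hr : 0 < f (wv a b X Z) := lt_of_le_of_lt (by positivity) hgt
    have hMe : Mv f a b X Z = f (wv a b X Z) := by
      unfold Mv
      rw [min_eq_left hwlt.le]
      exact max_eq_left hgt.le
    rw [hMe] at hLv
    have hPsi := exPsiV f hna h2 h3 hE hA hκ hN hz hwlt hgt
    rw [← exPsi a b X Z ha0] at hPsi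
    have hN0 : f (wv a b X Z) ^ 2 * Nv f a b X Z ^ 2
        ≤ Nv f a b (Phi a b X Z) (Psi a b X Z) := by
      rw [← hPsi]
      exact le_max_right _ _
    have hr2 : f (wv a b X Z) ^ 2 < Nv f a b X Z ^ 2 := pow_lt_pow_left₀ hwlt w0 (by norm_num)
    have hκr : (kap f a b * Nv f a b X Z) ^ 2 < f (wv a b X Z) ^ 2 :=
      pow_lt_pow_left₀ hgt (by positivity) (by norm_num)
    rcases le_or_gt (f (wv a b X Z) ^ 2) (kap f a b * Nv f a b X Z ^ 2) with h5 | h5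
    · have hMge : kap f a b ^ 2 * Nv f a b X Z ^ 4
          ≤ Mv f a b (Phi a b X Z) (Psi a b X Z) := by
        rcases h5.eq_or_lt with h6 | h6
        · have h7 : kap f a b * Nv f a b (Phi a b X Z) (Psi a b X Z)
              ≤ Mv f a b (Phi a b X Z) (Psi a b X Z) := le_max_right _ _
          refine le_trans ?_ h7
          calc kap f a b ^ 2 * Nv f a b X Z ^ 4
              = kap f a b * ((kap f a b * Nv f a b X Z ^ 2) * Nv f a b X Z ^ 2) := by ring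
            _ = kap f a b * (f (wv a b X Z) ^ 2 * Nv f a b X Z ^ 2) := by rw [h6]
            _ ≤ _ := mul_le_mul_of_nonneg_left hN0 hκ.le
        · have h7 : f (wv a b X Z) ^ 4 < kap f a b ^ 2 * Nv f a b X Z ^ 4 := by
            calc f (wv a b X Z) ^ 4 = (f (wv a b X Z) ^ 2) ^ 2 := by ring
              _ < (kap f a b * Nv f a b X Z ^ 2) ^ 2 :=
                pow_lt_pow_left₀ h6 (by positivity) (by norm_num)
              _ = _ := by ring
          rw [hUlt h7] at hUM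
          exact hUM
      have hc1 : kap f a b * (f (wv a b X Z) ^ 2 * Nv f a b X Z ^ 2)
          ≤ kap f a b ^ 2 * Nv f a b X Z ^ 4 := by
        calc kap f a b * (f (wv a b X Z) ^ 2 * Nv f a b X Z ^ 2)
            = f (wv a b X Z) ^ 2 * (kap f a b * Nv f a b X Z ^ 2) := by ring
          _ ≤ (kap f a b * Nv f a b X Z ^ 2) * (kap f a b * Nv f a b X Z ^ 2) :=
            mul_le_mul_of_nonneg_right h5 (by positivity)
          _ = _ := by ring
      have hc2 : kap f a b ^ 2 * Nv f a b X Z ^ 4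
          ≤ f (wv a b X Z) ^ 2 * Nv f a b X Z ^ 2 := by
        calc kap f a b ^ 2 * Nv f a b X Z ^ 4
            = (kap f a b * Nv f a b X Z) ^ 2 * Nv f a b X Z ^ 2 := by ring
          _ ≤ _ := mul_le_mul_of_nonneg_right hκr.le (by positivity)
      have h6 := Lv_ge f a b le_rfl hν hD hF hκN4 hc1 hc2 hMge hN0
      have h7 : Real.log (f (wv a b X Z) ^ 2 * Nv f a b X Z ^ 2
          / (kap f a b ^ 2 * Nv f a b X Z ^ 4))
          = 2 * Real.log (f (wv a b X Z)) - 2 * Real.log (Nv f a b X Z) + nu f a b := by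
        rw [Real.log_div (by positivity) (by positivity), hlκ,
          Real.log_mul (by positivity) (by positivity), Real.log_pow, Real.log_pow]
        push_cast
        ring
      rw [h7, hlκ] at h6
      refine le_trans (le_of_eq ?_) h6
      rw [hLv]
      field_simp
      ring
    · have h7 : kap f a b ^ 2 * Nv f a b X Z ^ 4 < f (wv a b X Z) ^ 4 := by
        calc kap f a b ^ 2 * Nv f a b X Z ^ 4 = (kap f a b * Nv f a b X Z ^ 2) ^ 2 := by ring
          _ < (f (wv a b X Z) ^ 2) ^ 2 := pow_lt_pow_left₀ h5 (by positivity) (by norm_num)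
          _ = _ := by ring
      rw [hUgt h7] at hUM
      have hc1 : kap f a b * (f (wv a b X Z) ^ 2 * Nv f a b X Z ^ 2)
          ≤ f (wv a b X Z) ^ 4 := by
        calc kap f a b * (f (wv a b X Z) ^ 2 * Nv f a b X Z ^ 2)
            = f (wv a b X Z) ^ 2 * (kap f a b * Nv f a b X Z ^ 2) := by ring
          _ ≤ f (wv a b X Z) ^ 2 * f (wv a b X Z) ^ 2 :=
            mul_le_mul_of_nonneg_left h5.le (by positivity)
          _ = _ := by ring
      have hc2 : f (wv a b X Z) ^ 4 ≤ f (wv a b X Z) ^ 2 * Nv f a b X Z ^ 2 := by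
        calc f (wv a b X Z) ^ 4 = f (wv a b X Z) ^ 2 * f (wv a b X Z) ^ 2 := by ring
          _ ≤ _ := mul_le_mul_of_nonneg_left hr2.le (by positivity)
      have h6 := Lv_ge f a b le_rfl hν hD hF (by positivity) hc1 hc2 hUM hN0
      have h8 : Real.log (f (wv a b X Z) ^ 2 * Nv f a b X Z ^ 2 / f (wv a b X Z) ^ 4)
          = 2 * (Real.log (Nv f a b X Z) - Real.log (f (wv a b X Z))) := by
        rw [Real.log_div (by positivity) (by positivity),
          Real.log_mul (by positivity) (by positivity), Real.log_pow, Real.log_pow,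
          Real.log_pow]
        push_cast
        ring
      rw [h8, Real.log_pow] at h6
      refine le_trans (le_of_eq ?_) h6
      rw [hLv]
      push_cast
      field_simp
      ring

end Pool.Agent.H24.LQ
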