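import Pool.Agent.H24.LQ.NaiveS
import Pool.Agent.H24.LQ.Dup
import Pool.Agent.H24.LP.NT2

/-!
# LQ08 Naive

`nh P = log max(|X|,|Z|)`. `|a| ≤ e^{2L}`, `|b| ≤ e^{3L}`, `L ≥ log 2` (`abs_a_le`, `abs_b_le`, `log_two_le_L` in LP/NT).
`nh_add`: if `P = 0` or `Q = 0` or `P = Q` or `P = -Q` trivial or `nh_two`. Otherwise `x₁ ≠ x₂`,
`A = (X₁Z₂-X₂Z₁)² ≠ 0`, `B = (X₁X₂+aZ₁Z₂)(X₁Z₂+X₂Z₁)+2bZ₁²Z₂²`, `C = (X₁X₂-aZ₁Z₂)²-4bZ₁Z₂(X₁Z₂+X₂Z₁)`:
`u = x(P+Q)` satisfies `A u² - 2B u + C = 0` (identity using the two curve equations). Let `u = U/V` in lowest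
terms: `V ∣ A` so `V ≤ |A|`, and `|U| ≤ max(|A|, 2|B|+|C|)` (if `|u| ≥ 1` then `|A||u| ≤ 2|B|+|C|/|u|`). All of
`|A|`, `|B|`, `|C|` are `≤ const · e^{4L} max(|X₁|,|Z₁|)² max(|X₂|,|Z₂|)²`.
`nh_two`, from `dup`: upper bound `|Phi| ≤ 12 e^{4L} M⁴`, `|Psi| ≤ 12 e^{3L} M⁴`, `M = max(|X|,|Z|)`; lower bound from
the identities of Res (see Dup): `4|D| M⁷ ≤ 619 e^{10L} M³ |m| M'` and `|m| ≤ 4|D|`, so `M⁴ ≤ 619 e^{10L} M'`.
-/

namespace Pool.Agent.H24.LQ

open Pool.Agent.H24.LP Pool.Agent.H24.LQ.NaiveS Finset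

private noncomputable def Mx {a b : ℤ} (P : (curve a b).Point) : ℝ :=
  max |(repX P : ℝ)| |(repZ P : ℝ)|

private lemma nh_eq {a b : ℤ} (P : (curve a b).Point) : nh P = Real.log (Mx P) := rfl

private lemma one_le_Mx {a b : ℤ} (P : (curve a b).Point) : 1 ≤ Mx P := by
  rcases P with _ | ⟨x, y, h⟩
  · refine le_trans ?_ (le_max_left _ _)
    simp [repX]
  · refine le_trans ?_ (le_max_right _ _)
    have h1 : (1 : ℝ) ≤ (x.den : ℝ) := by exact_mod_cast x.pos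
    simp only [repZ, Int.cast_natCast, Nat.abs_cast]
    exact h1

lemma nh_nonneg {a b : ℤ} (P : (curve a b).Point) : 0 ≤ nh P :=
  Real.log_nonneg (one_le_Mx P)

lemma nh_neg {a b : ℤ} (P : (curve a b).Point) : nh (-P) = nh P := by
  rcases P with _ | ⟨x, y, h⟩
  · rfl
  · rfl

private noncomputable def EE (a b : ℤ) : ℝ := Real.exp (L a b)

private lemma EE_a (a b : ℤ) : |(a : ℝ)| ≤ EE a b ^ 2 := by
  refine le_trans (abs_a_le a b) (le_of_eq ?_)
  rw [EE, ← Real.exp_nat_mul]; norm_num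

private lemma EE_b (a b : ℤ) : |(b : ℝ)| ≤ EE a b ^ 3 := by
  refine le_trans (abs_b_le a b) (le_of_eq ?_)
  rw [EE, ← Real.exp_nat_mul]; norm_num

private lemma two_le_EE (a b : ℤ) : 2 ≤ EE a b := by
  have h := Real.exp_le_exp.mpr (log_two_le_L a b)
  rwa [Real.exp_log (by norm_num)] at h

private lemma log_EE (a b : ℤ) : Real.log (EE a b) = L a b := Real.log_exp _

open Classical in
private lemma two_upper {a b : ℤ} (hD : D a b ≠ 0) (P : (curve a b).Point) :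
    nh (P + P) ≤ 4 * nh P + 8 * L a b := by
  obtain ⟨m, hm0, -, h1, h2⟩ := dup hD P
  have hE : 1 ≤ EE a b := by linarith [two_le_EE a b]
  have hE0 : 0 < EE a b := by linarith
  have hM1 := one_le_Mx P
  have hM2 := one_le_Mx (P + P)
  have hm1 : (1 : ℝ) ≤ |(m : ℝ)| := by exact_mod_cast Int.one_le_abs hm0
  have hX : |(repX P : ℝ)| ≤ Mx P := le_max_left _ _
  have hZ : |(repZ P : ℝ)| ≤ Mx P := le_max_right _ _
  have hF := Phi_le hE (EE_a a b) (EE_b a b) hX hZ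
  have hG := Psi_le hE (EE_a a b) (EE_b a b) hX hZ
  have h1' : Phi (a : ℝ) b (repX P) (repZ P) = m * repX (P + P) := by
    have := congrArg (fun z : ℤ => (z : ℝ)) h1
    simp only [Phi] at this ⊢
    push_cast at this
    exact this
  have h2' : Psi (a : ℝ) b (repX P) (repZ P) = m * repZ (P + P) := by
    have := congrArg (fun z : ℤ => (z : ℝ)) h2
    simp only [Psi] at this ⊢
    push_cast at this
    exact this
  rw [h1', abs_mul] at hF
  rw [h2', abs_mul] at hG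
  have hF' : |(repX (P + P) : ℝ)| ≤ 12 * EE a b ^ 4 * Mx P ^ 4 :=
    le_trans (le_mul_of_one_le_left (abs_nonneg _) hm1) hF
  have hG' : |(repZ (P + P) : ℝ)| ≤ 12 * EE a b ^ 4 * Mx P ^ 4 :=
    le_trans (le_mul_of_one_le_left (abs_nonneg _) hm1) hG
  have hmax : Mx (P + P) ≤ 12 * EE a b ^ 4 * Mx P ^ 4 := max_le hF' hG'
  have hl := Real.log_le_log (by linarith) hmax
  rw [Real.log_mul (by positivity) (by positivity), Real.log_mul (by norm_num) (by positivity),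
    Real.log_pow, Real.log_pow, log_EE, ← nh_eq, ← nh_eq] at hl
  have h12 : Real.log 12 ≤ 4 * Real.log 2 := by
    have : Real.log 12 ≤ Real.log (2 ^ 4) := Real.log_le_log (by norm_num) (by norm_num)
    rwa [Real.log_pow] at this
  have hL := log_two_le_L a b
  push_cast at hl
  linarith

open Classical in
private lemma two_lower {a b : ℤ} (hD : D a b ≠ 0) (P : (curve a b).Point) :
    4 * nh P ≤ nh (P + P) + 20 * L a b := by
  obtain ⟨m, hm0, hmd, h1, h2⟩ := dup hD P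
  have hE : 1 ≤ EE a b := by linarith [two_le_EE a b]
  have hE0 : 0 < EE a b := by linarith
  have hM1 := one_le_Mx P
  have hM2 := one_le_Mx (P + P)
  have hMp : 0 < Mx P := by linarith
  have hMp2 : 0 < Mx (P + P) := by linarith
  have hm1 : (1 : ℝ) ≤ |(m : ℝ)| := by exact_mod_cast Int.one_le_abs hm0
  have hX : |(repX P : ℝ)| ≤ Mx P := le_max_left _ _
  have hZ : |(repZ P : ℝ)| ≤ Mx P := le_max_right _ _
  have h1' : Phi (a : ℝ) b (repX P) (repZ P) = m * repX (P + P) := by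
    have := congrArg (fun z : ℤ => (z : ℝ)) h1
    simp only [Phi] at this ⊢
    push_cast at this
    exact this
  have h2' : Psi (a : ℝ) b (repX P) (repZ P) = m * repZ (P + P) := by
    have := congrArg (fun z : ℤ => (z : ℝ)) h2
    simp only [Psi] at this ⊢
    push_cast at this
    exact this
  have hF : |Phi (a : ℝ) b (repX P) (repZ P)| ≤ |(m : ℝ)| * Mx (P + P) := by
    rw [h1', abs_mul]
    exact mul_le_mul_of_nonneg_left (le_max_left _ _) (abs_nonneg _)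
  have hG : |Psi (a : ℝ) b (repX P) (repZ P)| ≤ |(m : ℝ)| * Mx (P + P) := by
    rw [h2', abs_mul]
    exact mul_le_mul_of_nonneg_left (le_max_right _ _) (abs_nonneg _)
  have hDm : |(m : ℝ)| ≤ |4 * (4 * (a : ℝ) ^ 3 + 27 * (b : ℝ) ^ 2)| := by
    have hne : 4 * D a b ≠ 0 := mul_ne_zero (by norm_num) hD
    have h3 : |m| ≤ |4 * D a b| := Int.le_of_dvd (abs_pos.mpr hne) ((abs_dvd_abs _ _).mpr hmd)
    have h4 : |(m : ℝ)| ≤ |((4 * D a b : ℤ) : ℝ)| := by exact_mod_cast h3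
    rw [D] at h4
    push_cast at h4
    exact h4
  have hDpos : 0 < |4 * (4 * (a : ℝ) ^ 3 + 27 * (b : ℝ) ^ 2)| := by linarith
  -- the two identities
  have hf1 := f1_le hE (EE_a a b) (EE_b a b) hX hZ
  have hg1 := g1_le hE (EE_a a b) (EE_b a b) hX hZ
  have hf2 := f2_le hE (EE_a a b) (EE_b a b) hX hZ
  have hg2 := g2_le hE (EE_a a b) (EE_b a b) hX hZ
  have hEM : 0 ≤ EE a b ^ 10 * Mx P ^ 3 := by positivity
  have hmM : 0 ≤ |(m : ℝ)| * Mx (P + P) := by positivity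
  have hZ7 : |4 * (4 * (a : ℝ) ^ 3 + 27 * (b : ℝ) ^ 2)| * |(repZ P : ℝ)| ^ 7 ≤
      619 * EE a b ^ 10 * Mx P ^ 3 * (|(m : ℝ)| * Mx (P + P)) := by
    rw [← abs_pow, ← abs_mul, id1 (a : ℝ) b (repX P) (repZ P)]
    refine le_trans (abs_sub _ _) ?_
    rw [abs_mul, abs_mul]
    have e1 := mul_le_mul hf1 hF (abs_nonneg _) (by positivity)
    have e2 := mul_le_mul hg1 hG (abs_nonneg _) (by positivity)
    nlinarith [mul_nonneg hEM hmM]
  have hX7 : |4 * (4 * (a : ℝ) ^ 3 + 27 * (b : ℝ) ^ 2)| * |(repX P : ℝ)| ^ 7 ≤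
      619 * EE a b ^ 10 * Mx P ^ 3 * (|(m : ℝ)| * Mx (P + P)) := by
    rw [← abs_pow, ← abs_mul, id2 (a : ℝ) b (repX P) (repZ P)]
    refine le_trans (abs_add_le _ _) ?_
    rw [abs_mul, abs_mul]
    have e1 := mul_le_mul hf2 hF (abs_nonneg _) (by positivity)
    have e2 := mul_le_mul hg2 hG (abs_nonneg _) (by positivity)
    nlinarith [mul_nonneg hEM hmM]
  have hM7 : |4 * (4 * (a : ℝ) ^ 3 + 27 * (b : ℝ) ^ 2)| * Mx P ^ 7 ≤
      619 * EE a b ^ 10 * Mx P ^ 3 * (|(m : ℝ)| * Mx (P + P)) := by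
    rcases max_choice |(repX P : ℝ)| |(repZ P : ℝ)| with h | h
    · have h' : Mx P = |(repX P : ℝ)| := h
      rw [← h'] at hX7
      exact hX7
    · have h' : Mx P = |(repZ P : ℝ)| := h
      rw [← h'] at hZ7
      exact hZ7
  have hkey : Mx P ^ 4 ≤ 619 * EE a b ^ 10 * Mx (P + P) := by
    have h5 : |4 * (4 * (a : ℝ) ^ 3 + 27 * (b : ℝ) ^ 2)| * Mx P ^ 7 ≤
        |4 * (4 * (a : ℝ) ^ 3 + 27 * (b : ℝ) ^ 2)| *
          (Mx P ^ 3 * (619 * EE a b ^ 10 * Mx (P + P))) := by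
      refine le_trans hM7 ?_
      have h6 : 0 ≤ 619 * EE a b ^ 10 * Mx P ^ 3 * Mx (P + P) := by positivity
      have h7 := mul_le_mul_of_nonneg_left hDm h6
      linarith
    have h8 : Mx P ^ 7 ≤ Mx P ^ 3 * (619 * EE a b ^ 10 * Mx (P + P)) :=
      le_of_mul_le_mul_left h5 hDpos
    have h9 : Mx P ^ 3 * Mx P ^ 4 ≤ Mx P ^ 3 * (619 * EE a b ^ 10 * Mx (P + P)) := by
      rw [← pow_add]; exact h8
    exact le_of_mul_le_mul_left h9 (by positivity)
  have hl := Real.log_le_log (by positivity) hkey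
  rw [Real.log_mul (by positivity) (by positivity), Real.log_mul (by norm_num) (by positivity),
    Real.log_pow, Real.log_pow, log_EE, ← nh_eq, ← nh_eq] at hl
  have h12 : Real.log 619 ≤ 10 * Real.log 2 := by
    have : Real.log 619 ≤ Real.log (2 ^ 10) := Real.log_le_log (by norm_num) (by norm_num)
    rwa [Real.log_pow] at this
  have hL := log_two_le_L a b
  push_cast at hl
  linarith

/-! ### The chord -/

private lemma eq_xy {a b : ℤ} {x y : ℚ} (h : (curve a b).Nonsingular x y) :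
    y ^ 2 = x ^ 3 + a * x + b := by
  have h1 := (WeierstrassCurve.Affine.equation_iff _ _).mp h.1
  simp only [curve] at h1
  linear_combination h1

private lemma Mx_some {a b : ℤ} {x y : ℚ} (h : (curve a b).Nonsingular x y) :
    Mx (.some x y h : (curve a b).Point) = max |(x.num : ℝ)| |(x.den : ℝ)| := by
  simp only [Mx, repX, repZ, Int.cast_natCast]

open Classical in
private lemma Mx_add {a b : ℤ} {x₁ y₁ x₂ y₂ : ℚ} (h₁ : (curve a b).Nonsingular x₁ y₁)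
    (h₂ : (curve a b).Nonsingular x₂ y₂) (hx : x₁ ≠ x₂) :
    ∃ u : ℚ, u = ((y₁ - y₂) / (x₁ - x₂)) ^ 2 - x₁ - x₂ ∧
      Mx ((.some x₁ y₁ h₁ : (curve a b).Point) + .some x₂ y₂ h₂) =
        max |(u.num : ℝ)| |(u.den : ℝ)| := by
  have e := WeierstrassCurve.Affine.Point.add_of_X_ne (h₁ := h₁) (h₂ := h₂) hx
  have hs := WeierstrassCurve.Affine.slope_of_X_ne (W := curve a b) (y₁ := y₁) (y₂ := y₂) hx
  refine ⟨(curve a b).addX x₁ x₂ ((curve a b).slope x₁ x₂ y₁ y₂), ?_,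
    (congrArg Mx e).trans (Mx_some _)⟩
  rw [hs]
  simp only [WeierstrassCurve.Affine.addX, curve]
  ring

open Classical in
private lemma chord {a b : ℤ} {x₁ y₁ x₂ y₂ : ℚ} (h₁ : (curve a b).Nonsingular x₁ y₁)
    (h₂ : (curve a b).Nonsingular x₂ y₂) (hx : x₁ ≠ x₂) :
    Mx ((.some x₁ y₁ h₁ : (curve a b).Point) + .some x₂ y₂ h₂) ≤
      28 * EE a b ^ 4 * (Mx (.some x₁ y₁ h₁ : (curve a b).Point) ^ 2 *
        Mx (.some x₂ y₂ h₂ : (curve a b).Point) ^ 2) := by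
  obtain ⟨u, hu2, eu⟩ := Mx_add h₁ h₂ hx
  refine eu.le.trans ?_
  have hq := quad hx (eq_xy h₁) (eq_xy h₂) hu2
  have hE : 1 ≤ EE a b := by linarith [two_le_EE a b]
  have hZ1 : (x₁.den : ℚ) ≠ 0 := by exact_mod_cast x₁.den_nz
  have hZ2 : (x₂.den : ℚ) ≠ 0 := by exact_mod_cast x₂.den_nz
  have hV : (u.den : ℚ) ≠ 0 := by exact_mod_cast u.den_nz
  have ex1 : x₁ * x₁.den = x₁.num := Rat.mul_den_eq_num x₁
  have ex2 : x₂ * x₂.den = x₂.num := Rat.mul_den_eq_num x₂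
  have eu : u * u.den = u.num := Rat.mul_den_eq_num u
  have hA0 : (x₁.num * (x₂.den : ℤ) - x₂.num * (x₁.den : ℤ)) ^ 2 ≠ 0 := by
    apply pow_ne_zero
    intro h0
    have h0' : ((x₁.num * (x₂.den : ℤ) - x₂.num * (x₁.den : ℤ) : ℤ) : ℚ) = 0 := by
      rw [h0]; rfl
    push_cast at h0'
    rw [← ex1, ← ex2] at h0'
    have h3 : (x₁ - x₂) * ((x₁.den : ℚ) * x₂.den) = 0 := by linear_combination h0'
    rcases mul_eq_zero.mp h3 with h4 | h4
    · exact hx (sub_eq_zero.mp h4)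
    · exact mul_ne_zero hZ1 hZ2 h4
  have hz : (x₁.num * (x₂.den : ℤ) - x₂.num * (x₁.den : ℤ)) ^ 2 * u.num ^ 2
      - 2 * ((x₁.num * x₂.num + a * (x₁.den : ℤ) * (x₂.den : ℤ))
        * (x₁.num * (x₂.den : ℤ) + x₂.num * (x₁.den : ℤ))
        + 2 * b * (x₁.den : ℤ) ^ 2 * (x₂.den : ℤ) ^ 2) * u.num * (u.den : ℤ)
      + ((x₁.num * x₂.num - a * (x₁.den : ℤ) * (x₂.den : ℤ)) ^ 2
        - 4 * b * (x₁.den : ℤ) * (x₂.den : ℤ)
          * (x₁.num * (x₂.den : ℤ) + x₂.num * (x₁.den : ℤ))) * (u.den : ℤ) ^ 2 = 0 := by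
    have hz' : (((x₁.num * (x₂.den : ℤ) - x₂.num * (x₁.den : ℤ)) ^ 2 * u.num ^ 2
      - 2 * ((x₁.num * x₂.num + a * (x₁.den : ℤ) * (x₂.den : ℤ))
        * (x₁.num * (x₂.den : ℤ) + x₂.num * (x₁.den : ℤ))
        + 2 * b * (x₁.den : ℤ) ^ 2 * (x₂.den : ℤ) ^ 2) * u.num * (u.den : ℤ)
      + ((x₁.num * x₂.num - a * (x₁.den : ℤ) * (x₂.den : ℤ)) ^ 2
        - 4 * b * (x₁.den : ℤ) * (x₂.den : ℤ)
          * (x₁.num * (x₂.den : ℤ) + x₂.num * (x₁.den : ℤ))) * (u.den : ℤ) ^ 2 : ℤ) : ℚ) = 0 := by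
      push_cast
      rw [← ex1, ← ex2, ← eu]
      linear_combination ((x₁.den : ℚ) ^ 2 * (x₂.den : ℚ) ^ 2 * (u.den : ℚ) ^ 2) * hq
    exact_mod_cast hz'
  have hcop : IsCoprime u.num (u.den : ℤ) := Int.isCoprime_iff_gcd_eq_one.mpr u.reduced
  obtain ⟨hb1, hb2⟩ := int_bound hA0 (by exact_mod_cast u.pos) hcop hz
  have hc := chord_real hE (EE_a a b) (EE_b a b)
    (le_max_left |(x₁.num : ℝ)| |(x₁.den : ℝ)|) (le_max_right |(x₁.num : ℝ)| |(x₁.den : ℝ)|)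
    (le_max_left |(x₂.num : ℝ)| |(x₂.den : ℝ)|) (le_max_right |(x₂.num : ℝ)| |(x₂.den : ℝ)|)
  rw [Mx_some h₁, Mx_some h₂]
  refine le_trans ?_ hc
  have hb2' : |(u.num : ℝ)| ≤ |((x₁.num : ℝ) * x₂.den - x₂.num * x₁.den) ^ 2| +
      (2 * |((x₁.num : ℝ) * x₂.num + a * x₁.den * x₂.den)
        * (x₁.num * x₂.den + x₂.num * x₁.den) + 2 * b * (x₁.den : ℝ) ^ 2 * (x₂.den : ℝ) ^ 2|
      + |((x₁.num : ℝ) * x₂.num - a * x₁.den * x₂.den) ^ 2
        - 4 * b * x₁.den * x₂.den * (x₁.num * x₂.den + x₂.num * x₁.den)|) := by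
    exact_mod_cast hb2
  have hb1' : |(u.den : ℝ)| ≤ |((x₁.num : ℝ) * x₂.den - x₂.num * x₁.den) ^ 2| := by
    rw [Nat.abs_cast]
    exact_mod_cast hb1
  refine max_le hb2' (le_trans hb1' ?_)
  have := abs_nonneg (((x₁.num : ℝ) * x₂.num + a * x₁.den * x₂.den)
        * (x₁.num * x₂.den + x₂.num * x₁.den) + 2 * b * (x₁.den : ℝ) ^ 2 * (x₂.den : ℝ) ^ 2)
  have := abs_nonneg (((x₁.num : ℝ) * x₂.num - a * x₁.den * x₂.den) ^ 2
        - 4 * b * x₁.den * x₂.den * (x₁.num * x₂.den + x₂.num * x₁.den))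
  linarith

open Classical in
theorem nh_add {a b : ℤ} (hD : D a b ≠ 0) (P Q : (curve a b).Point) :
    nh (P + Q) ≤ 4 * nh P + 4 * nh Q + 30 * L a b := by
  have hL := log_two_le_L a b
  have hl2 : 0 < Real.log 2 := Real.log_pos (by norm_num)
  rcases eq_or_ne P 0 with rfl | hP
  · rw [zero_add]
    linarith [nh_nonneg (0 : (curve a b).Point), nh_nonneg Q]
  rcases eq_or_ne Q 0 with rfl | hQ
  · rw [add_zero]
    linarith [nh_nonneg (0 : (curve a b).Point), nh_nonneg P]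
  rcases eq_or_ne Q P with rfl | hPQ
  · linarith [two_upper hD Q, nh_nonneg Q]
  rcases eq_or_ne Q (-P) with rfl | hPQ'
  · rw [add_neg_cancel]
    have h0 : nh (0 : (curve a b).Point) = 0 := by
      change Real.log (max |((1 : ℤ) : ℝ)| |((0 : ℤ) : ℝ)|) = 0
      simp
    rw [h0]
    linarith [nh_nonneg (-P), nh_nonneg P]
  rcases P with _ | ⟨x₁, y₁, h₁⟩
  · exact absurd rfl hP
  rcases Q with _ | ⟨x₂, y₂, h₂⟩
  · exact absurd rfl hQ
  have hx : x₁ ≠ x₂ := by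
    rintro rfl
    rcases WeierstrassCurve.Affine.Y_eq_of_X_eq h₂.1 h₁.1 rfl with h | h
    · exact hPQ (by subst h; rfl)
    · apply hPQ'
      rw [WeierstrassCurve.Affine.Point.neg_some]
      subst h
      rfl
  have hc := chord h₁ h₂ hx
  have hE0 : 0 < EE a b := by linarith [two_le_EE a b]
  have hM1 := one_le_Mx (.some x₁ y₁ h₁ : (curve a b).Point)
  have hM2 := one_le_Mx (.some x₂ y₂ h₂ : (curve a b).Point)
  have hM3 := one_le_Mx ((.some x₁ y₁ h₁ : (curve a b).Point) + .some x₂ y₂ h₂)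
  have hM1p : 0 < Mx (.some x₁ y₁ h₁ : (curve a b).Point) := by linarith
  have hM2p : 0 < Mx (.some x₂ y₂ h₂ : (curve a b).Point) := by linarith
  have hl := Real.log_le_log (by linarith) hc
  rw [Real.log_mul (by positivity) (by positivity), Real.log_mul (by norm_num) (by positivity),
    Real.log_mul (by positivity) (by positivity),
    Real.log_pow, Real.log_pow, Real.log_pow, log_EE, ← nh_eq, ← nh_eq, ← nh_eq] at hl
  have h28 : Real.log 28 ≤ 5 * Real.log 2 := by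
    have : Real.log 28 ≤ Real.log (2 ^ 5) := Real.log_le_log (by norm_num) (by norm_num)
    rwa [Real.log_pow] at this
  push_cast at hl
  have n1 := nh_nonneg (.some x₁ y₁ h₁ : (curve a b).Point)
  have n2 := nh_nonneg (.some x₂ y₂ h₂ : (curve a b).Point)
  linarith

open Classical in
theorem nh_two {a b : ℤ} (hD : D a b ≠ 0) (P : (curve a b).Point) :
    |nh (P + P) - 4 * nh P| ≤ 60 * L a b := by
  have hL := log_two_le_L a b
  have hl2 : 0 < Real.log 2 := Real.log_pos (by norm_num)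
  rw [abs_le]
  constructor
  · linarith [two_lower hD P]
  · linarith [two_upper hD P]

end Pool.Agent.H24.LQ
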