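import Pool.Agent.H24.LQ.Basic

/-!
# LQ05 Pair

Two points. `W = XZ' - X'Z = wZ' - w'Z` (`w = wv`). If `ν ≤ t` both `T` are `0` and `|W| ≤ N N'/s`
(times 2 in the robust case; `|X| ≤ N`, `|Z| ≤ N/s`). Exact case, `ν > 0`: `|a| = s²`, `|b| = s³`
(see Exact), `|e| = s`, so `|w| ≤ N` and `|w| ≤ M = N e^{-T}`, `|Z| ≤ N/s`; `|W| ≤ max(M N', N M')/s`.
Robust case, `ν > 100`: `|a| ≥ s²/6` (see Robust), `|e| ≤ 36 s`, `|w| ≤ 37 N`, `|w| ≤ 37 M`, so
`|W| ≤ 37 (M N' + M' N)/s ≤ 74 N N' e^{-min(T,T')}/s`.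
`bern_pair`: by symmetry `t ≤ s`; `s - t ∈ [0, 1/2]`, `s + t ∈ [0, 1]`, `bern (u) = u² - u + 1/6` for `u ∈ [0,1]`
(`bern t = ‖t‖² - ‖t‖ + 1/6`, `norm_coe` in LP/Bern).
-/

namespace Pool.Agent.H24.LQ

open Pool.Agent.H24.LP Finset

private lemma Pair_ne {a b : ℚ} (hD : 4 * a ^ 3 + 27 * b ^ 2 ≠ 0) : ¬ (a = 0 ∧ b = 0) := by
  rintro ⟨rfl, rfl⟩
  exact hD (by norm_num)

private lemma Pair_xz {X Z X' Z' : ℚ} (hW : X * Z' - X' * Z ≠ 0) :
    ¬ (X = 0 ∧ Z = 0) ∧ ¬ (X' = 0 ∧ Z' = 0) := by
  constructor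
  · rintro ⟨rfl, rfl⟩
    exact hW (by ring)
  · rintro ⟨rfl, rfl⟩
    exact hW (by ring)

private lemma Pair_wv (a b X Z X' Z' : ℚ) :
    X * Z' - X' * Z = wv a b X Z * Z' - wv a b X' Z' * Z := by
  unfold wv
  ring

/-- the logarithmic form -/
private lemma Pair_log {N N' M M' s C W : ℝ} (hN : 0 < N) (hN' : 0 < N') (hM : 0 < M)
    (hM' : 0 < M') (hs : 0 < s) (hC : 0 < C) (hW : 0 < W) (h : W ≤ C * max (M * N') (M' * N) / s) :
    Real.log W ≤ Real.log N + Real.log N' - min (Real.log (N / M)) (Real.log (N' / M')) -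
      Real.log s + Real.log C := by
  have h1 : Real.log W ≤ Real.log (C * max (M * N') (M' * N) / s) := Real.log_le_log hW h
  have hmax : 0 < max (M * N') (M' * N) := lt_max_of_lt_left (mul_pos hM hN')
  have h2 : Real.log (C * max (M * N') (M' * N) / s) =
      Real.log C + Real.log (max (M * N') (M' * N)) - Real.log s := by
    rw [Real.log_div (mul_pos hC hmax).ne' hs.ne', Real.log_mul hC.ne' hmax.ne']
  have h3 : Real.log (max (M * N') (M' * N)) ≤
      Real.log N + Real.log N' - min (Real.log (N / M)) (Real.log (N' / M')) := by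
    rcases max_cases (M * N') (M' * N) with ⟨e, -⟩ | ⟨e, -⟩
    · rw [e, Real.log_mul hM.ne' hN'.ne']
      have h4 := min_le_left (Real.log (N / M)) (Real.log (N' / M'))
      rw [Real.log_div hN.ne' hM.ne'] at h4 ⊢
      linarith
    · rw [e, Real.log_mul hM'.ne' hN.ne']
      have h4 := min_le_right (Real.log (N / M)) (Real.log (N' / M'))
      rw [Real.log_div hN'.ne' hM'.ne'] at h4 ⊢
      linarith
  rw [h2] at h1
  linarith

private lemma Pair_log0 {N N' s C W : ℝ} (hN : 0 < N) (hN' : 0 < N') (hs : 0 < s) (hC : 0 < C)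
    (hW : 0 < W) (h : W ≤ C * (N * N') / s) :
    Real.log W ≤ Real.log N + Real.log N' - min 0 0 - Real.log s + Real.log C := by
  have h1 : Real.log W ≤ Real.log (C * (N * N') / s) := Real.log_le_log hW h
  rw [Real.log_div (mul_pos hC (mul_pos hN hN')).ne' hs.ne',
    Real.log_mul hC.ne' (mul_pos hN hN').ne', Real.log_mul hN.ne' hN'.ne'] at h1
  rw [min_self]
  linarith

private lemma Pair_Z (f : AbsoluteValue ℚ ℝ) (a b : ℚ) (hs : 0 < sv f a b) (X Z : ℚ) :
    f Z ≤ Nv f a b X Z / sv f a b := by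
  rw [le_div_iff₀ hs, mul_comm]
  exact le_max_right _ _

private lemma Pair_X (f : AbsoluteValue ℚ ℝ) (a b : ℚ) (X Z : ℚ) : f X ≤ Nv f a b X Z :=
  le_max_left _ _

theorem pair_exact (f : AbsoluteValue ℚ ℝ) (hna : IsNonarchimedean f) (h2 : f 2 = 1)
    (h3 : f 3 = 1) (a b : ℚ) (hD : 4 * a ^ 3 + 27 * b ^ 2 ≠ 0) {X Z X' Z' : ℚ}
    (hW : X * Z' - X' * Z ≠ 0) :
    Real.log (f (X * Z' - X' * Z)) ≤ Real.log (Nv f a b X Z) + Real.log (Nv f a b X' Z')
      - min (Tv f a b 0 X Z) (Tv f a b 0 X' Z') - Real.log (sv f a b) := by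
  have hab := Pair_ne hD
  have hs := sv_pos f a b hab
  obtain ⟨hx, hx'⟩ := Pair_xz hW
  have hN := Nv_pos f a b hD hx
  have hN' := Nv_pos f a b hD hx'
  have hM := Mv_pos f a b hD hx
  have hM' := Mv_pos f a b hD hx'
  have hWp : 0 < f (X * Z' - X' * Z) := f.pos hW
  have hsub : ∀ u v : ℚ, f (u - v) ≤ max (f u) (f v) := by
    intro u v
    have := hna u (-v)
    rwa [← sub_eq_add_neg, map_neg_eq_map] at this
  by_cases hν : nu f a b ≤ 0
  · have h1 : f (X * Z' - X' * Z) ≤
        1 * (Nv f a b X Z * Nv f a b X' Z') / sv f a b := by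
      rw [one_mul]
      refine (hsub _ _).trans (max_le ?_ ?_)
      · rw [map_mul, mul_div_assoc]
        exact mul_le_mul (Pair_X f a b X Z) (Pair_Z f a b hs X' Z') (apply_nonneg f _) hN.le
      · rw [map_mul, mul_comm (Nv f a b X Z), mul_div_assoc]
        exact mul_le_mul (Pair_X f a b X' Z') (Pair_Z f a b hs X Z) (apply_nonneg f _) hN'.le
    have h4 := Pair_log0 hN hN' hs one_pos hWp h1
    rw [Real.log_one, add_zero] at h4
    unfold Tv
    rw [if_pos hν, if_pos hν]
    exact h4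
  · have hν' := hν
    push Not at hν'
    have hs6 : 0 < sv f a b ^ 6 := pow_pos hs 6
    have hDp : 0 < f (4 * a ^ 3 + 27 * b ^ 2) := f.pos hD
    have hDs : f (4 * a ^ 3 + 27 * b ^ 2) < sv f a b ^ 6 := by
      by_contra hcon
      push Not at hcon
      have : nu f a b ≤ 0 := by
        unfold nu
        exact Real.log_nonpos (by positivity) ((div_le_one hDp).2 hcon)
      exact hν this
    have h4 : f 4 = 1 := by
      rw [show (4 : ℚ) = 2 * 2 by norm_num, map_mul, h2, one_mul]
    have h27 : f 27 = 1 := by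
      rw [show (27 : ℚ) = 3 * (3 * 3) by norm_num, map_mul, map_mul, h3]
      norm_num
    have ha : f a = sv f a b ^ 2 := by
      rcases sv_or f a b with h | h
      · exact h
      · refine le_antisymm (le_sv_sq f a b) ?_
        by_contra hcon
        push Not at hcon
        have e1 : f (4 * a ^ 3) < sv f a b ^ 6 := by
          rw [map_mul, map_pow, h4, one_mul, show (6 : ℕ) = 2 * 3 by norm_num, pow_mul]
          exact pow_lt_pow_left₀ hcon (apply_nonneg f _) (by norm_num)
        have e2 : f (27 * b ^ 2) = sv f a b ^ 6 := by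
          rw [map_mul, map_pow, h27, one_mul, h, ← pow_mul]
        have e3 := hsub (4 * a ^ 3 + 27 * b ^ 2) (4 * a ^ 3)
        rw [add_sub_cancel_left, e2] at e3
        have e4 := max_lt hDs e1
        linarith
    have ha0 : 0 < f a := by
      rw [ha]
      positivity
    have hw : ∀ x z : ℚ, f (wv a b x z) ≤ Nv f a b x z := by
      intro x z
      unfold wv
      refine (hna _ _).trans (max_le (Pair_X f a b x z) ?_)
      have e1 : f (3 * b / (2 * a) * z) ≤ sv f a b * f z := by
        rw [map_mul, map_div₀, map_mul, map_mul, h2, h3, one_mul, one_mul, ha]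
        refine mul_le_mul_of_nonneg_right ?_ (apply_nonneg f _)
        rw [div_le_iff₀ (by positivity)]
        calc f b ≤ sv f a b ^ 3 := le_sv_cube f a b
          _ = sv f a b * sv f a b ^ 2 := by ring
      exact e1.trans (le_max_right _ _)
    have hwM : ∀ x z : ℚ, f (wv a b x z) ≤ Mv f a b x z := fun x z =>
      (le_min le_rfl (hw x z)).trans (le_max_left _ _)
    have h1 : f (X * Z' - X' * Z) ≤ 1 * max (Mv f a b X Z * Nv f a b X' Z')
        (Mv f a b X' Z' * Nv f a b X Z) / sv f a b := by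
      rw [one_mul, Pair_wv a b X Z X' Z']
      refine (hsub _ _).trans (max_le ?_ ?_)
      · refine le_trans ?_ (div_le_div_of_nonneg_right (le_max_left _ _) hs.le)
        rw [map_mul, mul_div_assoc]
        exact mul_le_mul (hwM X Z) (Pair_Z f a b hs X' Z') (apply_nonneg f _) hM.le
      · refine le_trans ?_ (div_le_div_of_nonneg_right (le_max_right _ _) hs.le)
        rw [map_mul, mul_div_assoc]
        exact mul_le_mul (hwM X' Z') (Pair_Z f a b hs X Z) (apply_nonneg f _) hM'.le
    have h5 := Pair_log hN hN' hM hM' hs one_pos hWp h1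
    rw [Real.log_one, add_zero] at h5
    unfold Tv
    rw [if_neg hν, if_neg hν]
    exact h5

theorem pair_robust : ∃ C : ℝ, 0 ≤ C ∧ ∀ (f : AbsoluteValue ℚ ℝ), 1 / 2 ≤ f 2 → 1 / 3 ≤ f 3 →
    ∀ a b : ℚ, 4 * a ^ 3 + 27 * b ^ 2 ≠ 0 → ∀ X Z X' Z' : ℚ, X * Z' - X' * Z ≠ 0 →
    Real.log (f (X * Z' - X' * Z)) ≤ Real.log (Nv f a b X Z) + Real.log (Nv f a b X' Z')
      - min (Tv f a b 100 X Z) (Tv f a b 100 X' Z') - Real.log (sv f a b) + C := by
  refine ⟨Real.log 74, Real.log_nonneg (by norm_num), ?_⟩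
  intro f h2 h3 a b hD X Z X' Z' hW
  have hab := Pair_ne hD
  have hs := sv_pos f a b hab
  obtain ⟨hx, hx'⟩ := Pair_xz hW
  have hN := Nv_pos f a b hD hx
  have hN' := Nv_pos f a b hD hx'
  have hM := Mv_pos f a b hD hx
  have hM' := Mv_pos f a b hD hx'
  have hWp : 0 < f (X * Z' - X' * Z) := f.pos hW
  have hsub : ∀ u v : ℚ, f (u - v) ≤ f u + f v := by
    intro u v
    have := f.add_le u (-v)
    rwa [← sub_eq_add_neg, map_neg_eq_map] at this
  by_cases hν : nu f a b ≤ 100
  · have h1 : f (X * Z' - X' * Z) ≤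
        74 * (Nv f a b X Z * Nv f a b X' Z') / sv f a b := by
      have e1 : f (X * Z') ≤ Nv f a b X Z * Nv f a b X' Z' / sv f a b := by
        rw [map_mul, mul_div_assoc]
        exact mul_le_mul (Pair_X f a b X Z) (Pair_Z f a b hs X' Z') (apply_nonneg f _) hN.le
      have e2 : f (X' * Z) ≤ Nv f a b X Z * Nv f a b X' Z' / sv f a b := by
        rw [map_mul, mul_comm (Nv f a b X Z), mul_div_assoc]
        exact mul_le_mul (Pair_X f a b X' Z') (Pair_Z f a b hs X Z) (apply_nonneg f _) hN'.le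
      have e3 : 0 < Nv f a b X Z * Nv f a b X' Z' / sv f a b := by positivity
      have e4 := hsub (X * Z') (X' * Z)
      rw [mul_div_assoc]
      linarith
    have h4 := Pair_log0 hN hN' hs (by norm_num : (0 : ℝ) < 74) hWp h1
    unfold Tv
    rw [if_pos hν, if_pos hν]
    exact h4
  · have hν' := hν
    push Not at hν'
    have hs6 : 0 < sv f a b ^ 6 := pow_pos hs 6
    have hDp : 0 < f (4 * a ^ 3 + 27 * b ^ 2) := f.pos hD
    have hDs : f (4 * a ^ 3 + 27 * b ^ 2) < sv f a b ^ 6 / 54 := by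
      by_contra hcon
      push Not at hcon
      apply hν
      unfold nu
      have e1 : sv f a b ^ 6 / f (4 * a ^ 3 + 27 * b ^ 2) ≤ 54 := by
        rw [div_le_iff₀ hDp]
        linarith
      calc Real.log (sv f a b ^ 6 / f (4 * a ^ 3 + 27 * b ^ 2)) ≤ Real.log 54 :=
            Real.log_le_log (by positivity) e1
        _ ≤ 54 := (Real.log_le_sub_one_of_pos (by norm_num)).trans (by norm_num)
        _ ≤ 100 := by norm_num
    have h2le : f 2 ≤ 2 := by
      have := f.add_le 1 1
      rw [map_one] at this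
      norm_num at this
      exact this
    have h3le : f 3 ≤ 3 := by
      have := f.add_le 2 1
      rw [map_one] at this
      norm_num at this
      linarith
    have h4 : f 4 ≤ 4 := by
      rw [show (4 : ℚ) = 2 * 2 by norm_num, map_mul]
      nlinarith [apply_nonneg f 2]
    have h27 : 1 / 27 ≤ f 27 := by
      rw [show (27 : ℚ) = 3 ^ 3 by norm_num, map_pow]
      calc (1 / 27 : ℝ) = (1 / 3) ^ 3 := by norm_num
        _ ≤ f 3 ^ 3 := pow_le_pow_left₀ (by norm_num) h3 3
    have ha : sv f a b ^ 2 / 6 ≤ f a := by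
      rcases sv_or f a b with h | h
      · rw [h]
        have : 0 < sv f a b ^ 2 := by positivity
        linarith
      · by_contra hcon
        push Not at hcon
        have e1 : f (4 * a ^ 3) ≤ sv f a b ^ 6 / 54 := by
          rw [map_mul, map_pow]
          have e0 : f a ^ 3 ≤ (sv f a b ^ 2 / 6) ^ 3 :=
            pow_le_pow_left₀ (apply_nonneg f _) hcon.le 3
          calc f 4 * f a ^ 3 ≤ 4 * (sv f a b ^ 2 / 6) ^ 3 :=
                mul_le_mul h4 e0 (pow_nonneg (apply_nonneg f _) 3) (by norm_num)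
            _ = sv f a b ^ 6 / 54 := by ring
        have e2 : sv f a b ^ 6 / 27 ≤ f (27 * b ^ 2) := by
          rw [map_mul, map_pow, h, ← pow_mul]
          calc sv f a b ^ 6 / 27 = 1 / 27 * sv f a b ^ (3 * 2) := by ring
            _ ≤ f 27 * sv f a b ^ (3 * 2) := mul_le_mul_of_nonneg_right h27 (by positivity)
        have e3 := hsub (4 * a ^ 3 + 27 * b ^ 2) (4 * a ^ 3)
        rw [add_sub_cancel_left] at e3
        linarith
    have ha0 : 0 < f a := lt_of_lt_of_le (by positivity) ha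
    have he : f (3 * b / (2 * a)) ≤ 36 * sv f a b := by
      rw [map_div₀, map_mul, map_mul]
      have e1 : 0 < f 2 * f a := mul_pos (by linarith) ha0
      rw [div_le_iff₀ e1]
      have e2 : f 3 * f b ≤ 3 * sv f a b ^ 3 :=
        mul_le_mul h3le (le_sv_cube f a b) (apply_nonneg f _) (by norm_num)
      have e3 : 1 / 2 * (sv f a b ^ 2 / 6) ≤ f 2 * f a :=
        mul_le_mul h2 ha (by positivity) (by linarith)
      have e4 : 36 * sv f a b * (1 / 2 * (sv f a b ^ 2 / 6)) ≤ 36 * sv f a b * (f 2 * f a) :=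
        mul_le_mul_of_nonneg_left e3 (by positivity)
      have e5 : 36 * sv f a b * (1 / 2 * (sv f a b ^ 2 / 6)) = 3 * sv f a b ^ 3 := by ring
      linarith
    have hw : ∀ x z : ℚ, f (wv a b x z) ≤ 37 * Nv f a b x z := by
      intro x z
      unfold wv
      have e1 : f (3 * b / (2 * a) * z) ≤ 36 * (sv f a b * f z) := by
        rw [map_mul, ← mul_assoc]
        exact mul_le_mul_of_nonneg_right he (apply_nonneg f _)
      have e2 := f.add_le x (3 * b / (2 * a) * z)
      have e3 := Pair_X f a b x z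
      have e4 : sv f a b * f z ≤ Nv f a b x z := le_max_right _ _
      linarith
    have hwM : ∀ x z : ℚ, f (wv a b x z) ≤ 37 * Mv f a b x z := by
      intro x z
      have e1 : min (f (wv a b x z)) (Nv f a b x z) ≤ Mv f a b x z := le_max_left _ _
      rcases min_cases (f (wv a b x z)) (Nv f a b x z) with ⟨e, -⟩ | ⟨e, -⟩
      · rw [e] at e1
        have := apply_nonneg f (wv a b x z)
        linarith
      · rw [e] at e1
        exact (hw x z).trans (by linarith)
    have h1 : f (X * Z' - X' * Z) ≤ 74 * max (Mv f a b X Z * Nv f a b X' Z')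
        (Mv f a b X' Z' * Nv f a b X Z) / sv f a b := by
      rw [Pair_wv a b X Z X' Z']
      have e1 : f (wv a b X Z * Z') ≤ 37 * (max (Mv f a b X Z * Nv f a b X' Z')
          (Mv f a b X' Z' * Nv f a b X Z) / sv f a b) := by
        calc f (wv a b X Z * Z') ≤ 37 * Mv f a b X Z * (Nv f a b X' Z' / sv f a b) := by
              rw [map_mul]
              exact mul_le_mul (hwM X Z) (Pair_Z f a b hs X' Z') (apply_nonneg f _) (by positivity)
          _ = 37 * (Mv f a b X Z * Nv f a b X' Z' / sv f a b) := by ring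
          _ ≤ _ := mul_le_mul_of_nonneg_left
              (div_le_div_of_nonneg_right (le_max_left _ _) hs.le) (by norm_num)
      have e2 : f (wv a b X' Z' * Z) ≤ 37 * (max (Mv f a b X Z * Nv f a b X' Z')
          (Mv f a b X' Z' * Nv f a b X Z) / sv f a b) := by
        calc f (wv a b X' Z' * Z) ≤ 37 * Mv f a b X' Z' * (Nv f a b X Z / sv f a b) := by
              rw [map_mul]
              exact mul_le_mul (hwM X' Z') (Pair_Z f a b hs X Z) (apply_nonneg f _) (by positivity)
          _ = 37 * (Mv f a b X' Z' * Nv f a b X Z / sv f a b) := by ring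
          _ ≤ _ := mul_le_mul_of_nonneg_left
              (div_le_div_of_nonneg_right (le_max_right _ _) hs.le) (by norm_num)
      have e3 := hsub (wv a b X Z * Z') (wv a b X' Z' * Z)
      rw [mul_div_assoc]
      linarith
    have h5 := Pair_log hN hN' hM hM' hs (by norm_num : (0 : ℝ) < 74) hWp h1
    unfold Tv
    rw [if_neg hν, if_neg hν]
    exact h5

private lemma Pair_bern {u : ℝ} (h0 : 0 ≤ u) (h1 : u ≤ 1) :
    bern ((u : ℝ) : AddCircle (1 : ℝ)) = u ^ 2 - u + 1 / 6 := by
  unfold bern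
  rw [norm_coe]
  by_cases h : u < 1 / 2
  · have hr : round u = 0 := by
      rw [round_eq_zero_iff]
      exact ⟨by linarith, h⟩
    rw [hr, Int.cast_zero, sub_zero, abs_of_nonneg h0]
  · push Not at h
    have hr : round u = 1 := by
      rw [round_eq, Int.floor_eq_iff]
      constructor <;> push_cast <;> linarith
    rw [hr, Int.cast_one, abs_of_nonpos (by linarith)]
    ring

private lemma Pair_bern2 {s t : ℝ} (hts : t ≤ s) (hs' : s ≤ 1 / 2) (ht : 0 ≤ t) :
    (bern ((s - t : ℝ) : AddCircle (1 : ℝ)) + bern ((s + t : ℝ) : AddCircle (1 : ℝ))) / 2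
      = 1 / 6 - s * (1 - s) - t * (1 - t) + t := by
  rw [Pair_bern (by linarith) (by linarith), Pair_bern (by linarith) (by linarith)]
  ring

/-- `B(s-t) + B(s+t)` on `[0, 1/2]`. -/
lemma bern_pair {s t : ℝ} (hs : 0 ≤ s) (hs' : s ≤ 1 / 2) (ht : 0 ≤ t) (ht' : t ≤ 1 / 2) :
    (bern ((s - t : ℝ) : AddCircle (1 : ℝ)) + bern ((s + t : ℝ) : AddCircle (1 : ℝ))) / 2
      = 1 / 6 - s * (1 - s) - t * (1 - t) + min s t := by
  rcases le_total t s with h | h
  · rw [min_eq_right h]
    exact Pair_bern2 h hs' ht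
  · rw [min_eq_left h]
    have h1 := Pair_bern2 h ht' hs
    have h2 : bern ((s - t : ℝ) : AddCircle (1 : ℝ)) = bern ((t - s : ℝ) : AddCircle (1 : ℝ)) := by
      unfold bern
      rw [show ((s - t : ℝ) : AddCircle (1 : ℝ)) = -((t - s : ℝ) : AddCircle (1 : ℝ)) by
        rw [← AddCircle.coe_neg]
        congr 1
        ring, norm_neg]
    rw [h2, add_comm s t, h1]
    ring

end Pool.Agent.H24.LQ
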