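import Pool.Agent.H24.LQ.Basic
import Pool.Agent.H24.LQ.Res

/-!
# LQ04 Robust

The same as the exact inequality (module Exact, see its doc comment for the
identities) up to a constant, for every absolute value with `|2| ≥ 1/2`, `|3| ≥ 1/3` (triangle inequality only;
`f n ≤ n`). The constant may be as large as you like. If `ν ≤ 100`: `Lv = log N` on both sides and
`Nv_dup_ge`: `N(F) ≥ exp(-100) N⁴/2476`. Let `ν > 100`, `κ = exp(-ν/2) ≤ exp(-50)`. Then `|a| ≥ s²/6`, `|b| ≥ s³/11`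
(from `| |4||a|³ - |27||b|² | ≤ |D| = κ² s⁶` and `|a| = s²` or `|b| = s³`), `s/66 ≤ |e| ≤ 36 s`,
`s²κ²/4 ≤ |α| ≤ 144 s²κ²`, `|w| ≤ 37 N`, `|U| ≤ 37 N'`. `ρ = |w|/N`, `c = 1/16000`.
(i) `ρ ≥ c`: `|U| ≥ ρ⁴N⁴ - (const) κ²N⁴·.. ≥ c⁴N⁴/2`, so `N' ≥ c⁴N⁴/74`, `M' ≥ c⁴N⁴/74`, `Lv_ge` with
`M₀ = N₀ = c⁴N⁴/74`; `Lv ≤ log N`.
(ii) `C₁κ < ρ < c` with `C₁ = 30000`: `s|Z| ≥ N/40`, `|w+3eZ| ≥ N/16000`, `|αZ²(w+eZ/3)| ≤ 15700 κ²N³`, so
`s|Psi| ≥ c₂ρ²N⁴`, `N' ≥ c₂ρ²N⁴`. And `M' ≥ c₄ max(ρ⁴, κ²) N⁴`: if `ρ² ≥ C₃κ` then `|U| ≥ ρ⁴N⁴/2` (then `N' ≥ |U|/37` too);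
if `ρ² ≤ c₅κ` then `|U| ≥ c₆κ²N⁴` (the term `4αe²Z⁴`); in between `κN' ≥ c₂κρ²N⁴`. Then `Lv_ge` with
`M₀ = c₄ max(ρ⁴,κ²)N⁴`, `N₀ = c₄ρ²N⁴` (`c₄ ≤ c₂`): value `= log c₄ + 4 log N + (-4T + 4T²/ν)`, `T = -log ρ`
(both cases of the maximum as in Exact), while `Lv = log N - T + T²/ν` exactly as `κN < |w| < N`.
(iii) `ρ ≤ C₁κ`: `|U| ≥ c₆κ²N⁴`, so `Lv(F) ≥ log(cκ²N⁴) = 4 log N - ν - C`
(`Lv_ge` with `M₀ = N₀`), and `Lv ≤ log N - ν/4 + C` since `M ≤ C₁κN`.
-/

namespace Pool.Agent.H24.LQ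

open Pool.Agent.H24.LP Finset

section aux

variable (f : AbsoluteValue ℚ ℝ)

private lemma f_two_le : f 2 ≤ 2 := by
  have h := f.add_le 1 1
  rw [map_one] at h
  norm_num at h
  linarith

private lemma f_three_le : f 3 ≤ 3 := by
  have h := f.add_le 2 1
  rw [map_one] at h
  have := f_two_le f
  norm_num at h
  linarith

private lemma le_f_add (x y : ℚ) : f x - f y ≤ f (x + y) := by
  have := f.le_sub x (-y)
  rwa [sub_neg_eq_add, f.map_neg] at this

private lemma f_four : f 4 = f 2 ^ 2 := by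
  rw [← map_pow]; norm_num

private lemma f_eight : f 8 = f 2 ^ 3 := by
  rw [← map_pow]; norm_num

private lemma f_27 : f 27 = f 3 ^ 3 := by
  rw [← map_pow]; norm_num

private lemma f_four_le : f 4 ≤ 4 := by
  rw [f_four]
  have := f_two_le f
  have := f.nonneg 2
  nlinarith

private lemma le_f_four (h2 : 1 / 2 ≤ f 2) : 1 / 4 ≤ f 4 := by
  rw [f_four]
  nlinarith

private lemma f_27_le : f 27 ≤ 27 := by
  rw [f_27]
  have h := f_three_le f
  have h0 := f.nonneg 3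
  calc f 3 ^ 3 ≤ 3 ^ 3 := by gcongr
    _ = 27 := by norm_num

private lemma le_f_27 (h3 : 1 / 3 ≤ f 3) : 1 / 27 ≤ f 27 := by
  rw [f_27]
  calc (1 : ℝ) / 27 = (1 / 3) ^ 3 := by norm_num
    _ ≤ f 3 ^ 3 := by gcongr

private lemma f_eight_le : f 8 ≤ 8 := by
  rw [f_eight]
  have h := f_two_le f
  have h0 := f.nonneg 2
  calc f 2 ^ 3 ≤ 2 ^ 3 := by gcongr
    _ = 8 := by norm_num

/-- lower bounds for `|a|` and `|b|` -/
private lemma ab_ge (h2 : 1 / 2 ≤ f 2) (h3 : 1 / 3 ≤ f 3) (a b : ℚ) (hD : 4 * a ^ 3 + 27 * b ^ 2 ≠ 0)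
    (hk : kap f a b ^ 2 ≤ 1 / 1000) : sv f a b ^ 2 / 6 ≤ f a ∧ sv f a b ^ 3 / 11 ≤ f b := by
  have hs : 0 < sv f a b := sv_pos f a b (by rintro ⟨rfl, rfl⟩; exact hD (by norm_num))
  have hκ := kap_sq f a b hD
  have hsa := le_sv_sq f a b
  have hsb := le_sv_cube f a b
  have hor := sv_or f a b
  have hDv : f (4 * a ^ 3 + 27 * b ^ 2) = kap f a b ^ 2 * sv f a b ^ 6 := by
    rw [hκ]
    field_simp
  generalize kap f a b = κ at *
  generalize sv f a b = s at *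
  have ha0 := f.nonneg a
  have hb0 := f.nonneg b
  have hs6 : 0 < s ^ 6 := by positivity
  have e1 : f 4 * f a ^ 3 - f 27 * f b ^ 2 ≤ f (4 * a ^ 3 + 27 * b ^ 2) := by
    have := le_f_add f (4 * a ^ 3) (27 * b ^ 2)
    simpa only [map_mul, map_pow] using this
  have e2 : f 27 * f b ^ 2 - f 4 * f a ^ 3 ≤ f (4 * a ^ 3 + 27 * b ^ 2) := by
    have := le_f_add f (27 * b ^ 2) (4 * a ^ 3)
    rw [add_comm] at this
    simpa only [map_mul, map_pow] using this
  have q4 := le_f_four f h2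
  have q4' := f_four_le f
  have q27 := le_f_27 f h3
  have q27' := f_27_le f
  have hD6 : f (4 * a ^ 3 + 27 * b ^ 2) ≤ s ^ 6 / 1000 := by
    rw [hDv]
    nlinarith
  rcases hor with ha | hb
  · refine ⟨by rw [ha]; nlinarith [sq_nonneg s], ?_⟩
    have e3 : s ^ 6 / 4 ≤ f 4 * f a ^ 3 := by
      rw [ha, ← pow_mul]
      nlinarith
    have e4 : f 27 * f b ^ 2 ≤ 27 * f b ^ 2 := by
      have := sq_nonneg (f b)
      nlinarith
    have e5 : (s ^ 3 / 11) ^ 2 ≤ f b ^ 2 := by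
      have : (s ^ 3 / 11) ^ 2 = s ^ 6 / 121 := by ring
      rw [this]
      linarith
    exact le_of_pow_le_pow_left₀ (by norm_num) hb0 e5
  · have e3 : s ^ 6 / 27 ≤ f 27 * f b ^ 2 := by
      rw [hb, ← pow_mul]
      nlinarith
    have e4 : f 4 * f a ^ 3 ≤ 4 * f a ^ 3 := by
      have : 0 ≤ f a ^ 3 := by positivity
      nlinarith
    have e5 : (s ^ 2 / 6) ^ 3 ≤ f a ^ 3 := by
      have : (s ^ 2 / 6) ^ 3 = s ^ 6 / 216 := by ring
      rw [this]
      linarith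
    refine ⟨le_of_pow_le_pow_left₀ (by norm_num) ha0 e5, ?_⟩
    rw [hb]
    have : 0 < s ^ 3 := by positivity
    linarith

/-- the coefficients `e` and `α` -/
private lemma coeffs (h2 : 1 / 2 ≤ f 2) (h3 : 1 / 3 ≤ f 3) (a b : ℚ) (hD : 4 * a ^ 3 + 27 * b ^ 2 ≠ 0)
    (hk : kap f a b ^ 2 ≤ 1 / 1000) : a ≠ 0 ∧
      sv f a b / 66 ≤ f (-(3 * b) / (2 * a)) ∧ f (-(3 * b) / (2 * a)) ≤ 36 * sv f a b ∧
      kap f a b ^ 2 * sv f a b ^ 2 / 4 ≤ f ((4 * a ^ 3 + 27 * b ^ 2) / (4 * a ^ 2)) ∧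
      f ((4 * a ^ 3 + 27 * b ^ 2) / (4 * a ^ 2)) ≤ 144 * (kap f a b ^ 2 * sv f a b ^ 2) := by
  have hs : 0 < sv f a b := sv_pos f a b (by rintro ⟨rfl, rfl⟩; exact hD (by norm_num))
  have hκ := kap_sq f a b hD
  have hsa := le_sv_sq f a b
  have hsb := le_sv_cube f a b
  obtain ⟨ha, hb⟩ := ab_ge f h2 h3 a b hD hk
  have hDv : f (4 * a ^ 3 + 27 * b ^ 2) = kap f a b ^ 2 * sv f a b ^ 6 := by
    rw [hκ]
    field_simp
  generalize kap f a b = κ at *
  generalize sv f a b = s at *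
  have ha1 : 0 < f a := lt_of_lt_of_le (by positivity) ha
  have ha0 : a ≠ 0 := by
    rintro rfl
    simp at ha1
  have q2 := f_two_le f
  have q3 := f_three_le f
  have q4 := le_f_four f h2
  have q4' := f_four_le f
  refine ⟨ha0, ?_, ?_, ?_, ?_⟩
  · rw [map_div₀, f.map_neg, map_mul, map_mul, le_div_iff₀ (by positivity)]
    calc s / 66 * (f 2 * f a) ≤ s / 66 * (2 * s ^ 2) := by gcongr
      _ = 1 / 3 * (s ^ 3 / 11) := by ring
      _ ≤ f 3 * f b := by gcongr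
  · rw [map_div₀, f.map_neg, map_mul, map_mul, div_le_iff₀ (by positivity)]
    calc f 3 * f b ≤ 3 * s ^ 3 := by gcongr
      _ = 36 * s * (1 / 2 * (s ^ 2 / 6)) := by ring
      _ ≤ 36 * s * (f 2 * f a) := by gcongr
  · rw [map_div₀, hDv, map_mul, map_pow, le_div_iff₀ (by positivity)]
    calc κ ^ 2 * s ^ 2 / 4 * (f 4 * f a ^ 2) ≤ κ ^ 2 * s ^ 2 / 4 * (4 * (s ^ 2) ^ 2) := by gcongr
      _ = κ ^ 2 * s ^ 6 := by ring
  · rw [map_div₀, hDv, map_mul, map_pow, div_le_iff₀ (by positivity)]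
    calc κ ^ 2 * s ^ 6 = 144 * (κ ^ 2 * s ^ 2) * (1 / 4 * (s ^ 2 / 6) ^ 2) := by ring
      _ ≤ 144 * (κ ^ 2 * s ^ 2) * (f 4 * f a ^ 2) := by gcongr

/-- the data of a point: `A = α Z²`, `Q = e Z` -/
private lemma point_data (h2 : 1 / 2 ≤ f 2) (h3 : 1 / 3 ≤ f 3) (a b : ℚ) (hD : 4 * a ^ 3 + 27 * b ^ 2 ≠ 0)
    (hk : kap f a b ^ 2 ≤ 1 / 1000) (X Z : ℚ) : ∃ A Q : ℚ,
      X = wv a b X Z + Q ∧
      Psi a b X Z = 4 * Z * (wv a b X Z ^ 2 * (wv a b X Z + 3 * Q) + A * (wv a b X Z + Q / 3)) ∧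
      wv a b (Phi a b X Z) (Psi a b X Z) = wv a b X Z ^ 4 - A * (4 * Q ^ 2 + 8 / 3 * wv a b X Z * Q + 2 * wv a b X Z ^ 2)
        + A ^ 2 ∧
      sv f a b * f Z / 66 ≤ f Q ∧ f Q ≤ 36 * (sv f a b * f Z) ∧
      kap f a b ^ 2 * (sv f a b * f Z) ^ 2 / 4 ≤ f A ∧ f A ≤ 144 * (kap f a b ^ 2 * (sv f a b * f Z) ^ 2) := by
  obtain ⟨ha, c1, c2, c3, c4⟩ := coeffs f h2 h3 a b hD hk
  refine ⟨(4 * a ^ 3 + 27 * b ^ 2) / (4 * a ^ 2) * Z ^ 2, -(3 * b) / (2 * a) * Z, ?_, ?_, ?_, ?_, ?_, ?_, ?_⟩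
  · unfold wv; ring
  · unfold wv Psi; field_simp; ring
  · unfold wv Psi Phi; field_simp; ring
  · rw [map_mul]
    have := f.nonneg Z
    calc sv f a b * f Z / 66 = sv f a b / 66 * f Z := by ring
      _ ≤ _ := by gcongr
  · rw [map_mul]
    have := f.nonneg Z
    calc _ ≤ 36 * sv f a b * f Z := by gcongr
      _ = _ := by ring
  · rw [map_mul, map_pow]
    have := f.nonneg Z
    calc kap f a b ^ 2 * (sv f a b * f Z) ^ 2 / 4 = kap f a b ^ 2 * sv f a b ^ 2 / 4 * f Z ^ 2 := by ring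
      _ ≤ _ := by gcongr
  · rw [map_mul, map_pow]
    have := f.nonneg Z
    calc _ ≤ 144 * (kap f a b ^ 2 * sv f a b ^ 2) * f Z ^ 2 := by gcongr
      _ = _ := by ring

/-- `|w| ≤ 37 N` -/
private lemma wv_le (h2 : 1 / 2 ≤ f 2) (h3 : 1 / 3 ≤ f 3) (a b : ℚ) (hD : 4 * a ^ 3 + 27 * b ^ 2 ≠ 0)
    (hk : kap f a b ^ 2 ≤ 1 / 1000) (X Z : ℚ) : f (wv a b X Z) ≤ 37 * Nv f a b X Z := by
  obtain ⟨A, Q, h1, -, -, -, hQ, -, -⟩ := point_data f h2 h3 a b hD hk X Z
  have e1 : wv a b X Z = X + -Q := by linear_combination -h1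
  have e2 : f (wv a b X Z) ≤ f X + f Q := by
    rw [e1]
    have := f.add_le X (-Q)
    rwa [f.map_neg] at this
  have e3 : f X ≤ Nv f a b X Z := le_max_left _ _
  have e4 : sv f a b * f Z ≤ Nv f a b X Z := le_max_right _ _
  linarith

/-- `|Z|` is not small if `|w|` is -/
private lemma sZ_ge (h2 : 1 / 2 ≤ f 2) (h3 : 1 / 3 ≤ f 3) (a b : ℚ) (hD : 4 * a ^ 3 + 27 * b ^ 2 ≠ 0)
    (hk : kap f a b ^ 2 ≤ 1 / 1000) (X Z : ℚ) (hN : 0 ≤ Nv f a b X Z)
    (hw : f (wv a b X Z) ≤ Nv f a b X Z / 16000) : Nv f a b X Z / 40 ≤ sv f a b * f Z := by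
  obtain ⟨A, Q, h1, -, -, -, hQ, -, -⟩ := point_data f h2 h3 a b hD hk X Z
  have e2 : f X ≤ f (wv a b X Z) + f Q := by
    have := f.add_le (wv a b X Z) Q
    rwa [← h1] at this
  rcases le_total (f X) (sv f a b * f Z) with h | h
  · have : Nv f a b X Z = sv f a b * f Z := max_eq_right h
    linarith
  · have : Nv f a b X Z = f X := max_eq_left h
    linarith

/-- lower bound for `|U|` if `|w|` is large -/
private lemma U_ge_big (h2 : 1 / 2 ≤ f 2) (h3 : 1 / 3 ≤ f 3) (a b : ℚ) (hD : 4 * a ^ 3 + 27 * b ^ 2 ≠ 0)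
    (hk : kap f a b ^ 2 ≤ 1 / 1000) (X Z : ℚ) (hN : 0 ≤ Nv f a b X Z) :
    f (wv a b X Z) ^ 4 - 6000000 * (kap f a b ^ 2 * Nv f a b X Z ^ 4) ≤ f (wv a b (Phi a b X Z) (Psi a b X Z)) := by
  have hw := wv_le f h2 h3 a b hD hk X Z
  obtain ⟨A, Q, -, -, hU, -, hQ, -, hA⟩ := point_data f h2 h3 a b hD hk X Z
  rw [hU]
  have e4 : sv f a b * f Z ≤ Nv f a b X Z := le_max_right _ _
  have e5 : 0 ≤ sv f a b * f Z := mul_nonneg (le_trans (Real.sqrt_nonneg _) (le_max_left _ _)) (f.nonneg Z)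
  generalize wv a b X Z = w at *
  generalize Nv f a b X Z = N at *
  generalize sv f a b * f Z = y at *
  generalize kap f a b = κ at *
  have hA0 := f.nonneg A
  have hQ0 := f.nonneg Q
  have hw0 := f.nonneg w
  have hA1 : f A ≤ 144 * (κ ^ 2 * N ^ 2) := hA.trans (by gcongr)
  have hQ1 : f Q ≤ 36 * N := hQ.trans (by gcongr)
  have t1 : f (w ^ 4 - A * (4 * Q ^ 2 + 8 / 3 * w * Q + 2 * w ^ 2) + A ^ 2) ≥
      f w ^ 4 - f (A * (4 * Q ^ 2 + 8 / 3 * w * Q + 2 * w ^ 2)) - f A ^ 2 := by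
    have a1 := le_f_add f (w ^ 4 - A * (4 * Q ^ 2 + 8 / 3 * w * Q + 2 * w ^ 2)) (A ^ 2)
    have a2 := le_f_add f (w ^ 4) (-(A * (4 * Q ^ 2 + 8 / 3 * w * Q + 2 * w ^ 2)))
    rw [f.map_neg, ← sub_eq_add_neg] at a2
    rw [map_pow] at a1 a2
    linarith
  have q83 : f (8 / 3) ≤ 24 := by
    rw [map_div₀, div_le_iff₀ (by linarith)]
    have := f_eight_le f
    linarith
  have t2 : f (4 * Q ^ 2 + 8 / 3 * w * Q + 2 * w ^ 2) ≤ 39890 * N ^ 2 := by
    have b1 := f.add_le (4 * Q ^ 2 + 8 / 3 * w * Q) (2 * w ^ 2)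
    have b2 := f.add_le (4 * Q ^ 2) (8 / 3 * w * Q)
    simp only [map_mul, map_pow] at b1 b2
    have b3 : f 4 * f Q ^ 2 ≤ 4 * (36 * N) ^ 2 := by
      have := f_four_le f
      gcongr
    have b4 : f (8 / 3) * f w * f Q ≤ 24 * (37 * N) * (36 * N) := by gcongr
    have b5 : f 2 * f w ^ 2 ≤ 2 * (37 * N) ^ 2 := by
      have := f_two_le f
      gcongr
    nlinarith
  have t3 : f (A * (4 * Q ^ 2 + 8 / 3 * w * Q + 2 * w ^ 2)) ≤ 144 * (κ ^ 2 * N ^ 2) * (39890 * N ^ 2) := by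
    rw [map_mul]
    gcongr
  have t4 : f A ^ 2 ≤ 20736 * (κ ^ 2 * N ^ 4) := by
    calc f A ^ 2 ≤ (144 * (κ ^ 2 * N ^ 2)) ^ 2 := by gcongr
      _ = 20736 * (κ ^ 2 * (κ ^ 2 * N ^ 4)) := by ring
      _ ≤ 20736 * (1 * (κ ^ 2 * N ^ 4)) := by
          gcongr
          linarith
      _ = _ := by ring
  have t5 : 0 ≤ κ ^ 2 * N ^ 4 := by positivity
  nlinarith

/-- lower bound for `|U|` if `|w|` is very small -/
private lemma U_ge_small (h2 : 1 / 2 ≤ f 2) (h3 : 1 / 3 ≤ f 3) (a b : ℚ) (hD : 4 * a ^ 3 + 27 * b ^ 2 ≠ 0)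
    (hk0 : 0 ≤ kap f a b) (hk : kap f a b ≤ 2 / 10 ^ 22) (X Z : ℚ) (hN : 0 ≤ Nv f a b X Z)
    (hz : Nv f a b X Z / 40 ≤ sv f a b * f Z)
    (hw : f (wv a b X Z) ^ 2 ≤ 5 / 10 ^ 13 * kap f a b * Nv f a b X Z ^ 2) :
    kap f a b ^ 2 * Nv f a b X Z ^ 4 / 10 ^ 12 ≤ f (wv a b (Phi a b X Z) (Psi a b X Z)) := by
  have hk2 : kap f a b ^ 2 ≤ 4 / 10 ^ 44 := by
    calc kap f a b ^ 2 ≤ (2 / 10 ^ 22) ^ 2 := by gcongr
      _ = 4 / 10 ^ 44 := by norm_num
  obtain ⟨A, Q, -, -, hU, hQ', hQ, hA', hA⟩ := point_data f h2 h3 a b hD (hk2.trans (by norm_num)) X Z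
  rw [hU]
  have e4 : sv f a b * f Z ≤ Nv f a b X Z := le_max_right _ _
  have e5 : 0 ≤ sv f a b * f Z := mul_nonneg (le_trans (Real.sqrt_nonneg _) (le_max_left _ _)) (f.nonneg Z)
  generalize wv a b X Z = w at *
  generalize Nv f a b X Z = N at *
  generalize sv f a b * f Z = y at *
  generalize kap f a b = κ at *
  have hA0 := f.nonneg A
  have hQ0 := f.nonneg Q
  have hw0 := f.nonneg w
  have hA1 : f A ≤ 144 * (κ ^ 2 * N ^ 2) := hA.trans (by gcongr)
  have hQ1 : f Q ≤ 36 * N := hQ.trans (by gcongr)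
  have hw1 : f w ≤ N / 10 ^ 17 := by
    refine le_of_pow_le_pow_left₀ two_ne_zero (by positivity) (hw.trans ?_)
    calc 5 / 10 ^ 13 * κ * N ^ 2 ≤ 5 / 10 ^ 13 * (2 / 10 ^ 22) * N ^ 2 := by gcongr
      _ = (N / 10 ^ 17) ^ 2 := by ring
  have hA2 : κ ^ 2 * N ^ 2 / 6400 ≤ f A := by
    refine le_trans ?_ hA'
    calc κ ^ 2 * N ^ 2 / 6400 = κ ^ 2 * (N / 40) ^ 2 / 4 := by ring
      _ ≤ _ := by gcongr
  have hQ2 : N / 2640 ≤ f Q := by
    refine le_trans ?_ hQ'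
    linarith
  have t1 : f (w ^ 4 - A * (4 * Q ^ 2 + 8 / 3 * w * Q + 2 * w ^ 2) + A ^ 2) ≥
      f (A * (4 * Q ^ 2)) - f w ^ 4 - f (A * (8 / 3 * w * Q + 2 * w ^ 2)) - f A ^ 2 := by
    have a0 : w ^ 4 - A * (4 * Q ^ 2 + 8 / 3 * w * Q + 2 * w ^ 2) + A ^ 2 =
      ((-(A * (4 * Q ^ 2)) + w ^ 4) + -(A * (8 / 3 * w * Q + 2 * w ^ 2))) + A ^ 2 := by ring
    rw [a0]
    have a1 := le_f_add f ((-(A * (4 * Q ^ 2)) + w ^ 4) + -(A * (8 / 3 * w * Q + 2 * w ^ 2))) (A ^ 2)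
    have a2 := le_f_add f (-(A * (4 * Q ^ 2)) + w ^ 4) (-(A * (8 / 3 * w * Q + 2 * w ^ 2)))
    have a3 := le_f_add f (-(A * (4 * Q ^ 2))) (w ^ 4)
    rw [f.map_neg] at a2 a3
    rw [map_pow f A 2] at a1
    rw [map_pow f w 4] at a3
    linarith
  have q83 : f (8 / 3) ≤ 24 := by
    rw [map_div₀, div_le_iff₀ (by linarith)]
    have := f_eight_le f
    linarith
  have t2 : κ ^ 2 * N ^ 4 / 178421760000 ≤ f (A * (4 * Q ^ 2)) := by
    rw [map_mul, map_mul, map_pow]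
    have := le_f_four f h2
    calc κ ^ 2 * N ^ 4 / 178421760000 = κ ^ 2 * N ^ 2 / 6400 * (1 / 4 * (N / 2640) ^ 2) := by ring
      _ ≤ _ := by gcongr
  have t3 : f (8 / 3 * w * Q + 2 * w ^ 2) ≤ 865 / 10 ^ 17 * N ^ 2 := by
    have b2 := f.add_le (8 / 3 * w * Q) (2 * w ^ 2)
    simp only [map_mul, map_pow] at b2
    have b4 : f (8 / 3) * f w * f Q ≤ 24 * (N / 10 ^ 17) * (36 * N) := by gcongr
    have b5 : f 2 * f w ^ 2 ≤ 2 * (N / 10 ^ 17) ^ 2 := by
      have := f_two_le f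
      gcongr
    have b6 : 24 * (N / 10 ^ 17) * (36 * N) + 2 * (N / 10 ^ 17) ^ 2 ≤ 865 / 10 ^ 17 * N ^ 2 := by
      have : 24 * (N / 10 ^ 17) * (36 * N) + 2 * (N / 10 ^ 17) ^ 2 = (864 / 10 ^ 17 + 2 / 10 ^ 34) * N ^ 2 := by ring
      rw [this]
      gcongr
      norm_num
    linarith
  have t4 : f (A * (8 / 3 * w * Q + 2 * w ^ 2)) ≤ 124560 / 10 ^ 17 * (κ ^ 2 * N ^ 4) := by
    rw [map_mul]
    calc _ ≤ 144 * (κ ^ 2 * N ^ 2) * (865 / 10 ^ 17 * N ^ 2) := by gcongr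
      _ = _ := by ring
  have t5 : f A ^ 2 ≤ 1 / 10 ^ 30 * (κ ^ 2 * N ^ 4) := by
    calc f A ^ 2 ≤ (144 * (κ ^ 2 * N ^ 2)) ^ 2 := by gcongr
      _ = 20736 * κ ^ 2 * (κ ^ 2 * N ^ 4) := by ring
      _ ≤ 20736 * (4 / 10 ^ 44) * (κ ^ 2 * N ^ 4) := by gcongr
      _ ≤ _ := by
          gcongr
          norm_num
  have t6 : f w ^ 4 ≤ 25 / 10 ^ 26 * (κ ^ 2 * N ^ 4) := by
    calc f w ^ 4 = (f w ^ 2) ^ 2 := by ring
      _ ≤ (5 / 10 ^ 13 * κ * N ^ 2) ^ 2 := by gcongr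
      _ = _ := by ring
  have t7 : 0 ≤ κ ^ 2 * N ^ 4 := by positivity
  have t8 : κ ^ 2 * N ^ 4 / 10 ^ 12 ≤ κ ^ 2 * N ^ 4 / 178421760000 - 25 / 10 ^ 26 * (κ ^ 2 * N ^ 4)
      - 124560 / 10 ^ 17 * (κ ^ 2 * N ^ 4) - 1 / 10 ^ 30 * (κ ^ 2 * N ^ 4) := by
    have : κ ^ 2 * N ^ 4 / 178421760000 - 25 / 10 ^ 26 * (κ ^ 2 * N ^ 4)
      - 124560 / 10 ^ 17 * (κ ^ 2 * N ^ 4) - 1 / 10 ^ 30 * (κ ^ 2 * N ^ 4) =
      (1 / 178421760000 - 25 / 10 ^ 26 - 124560 / 10 ^ 17 - 1 / 10 ^ 30) * (κ ^ 2 * N ^ 4) := by ring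
    rw [this, div_eq_inv_mul]
    gcongr
    norm_num
  linarith

/-- lower bound for `s |Psi|` in the middle range -/
private lemma Psi_ge (h2 : 1 / 2 ≤ f 2) (h3 : 1 / 3 ≤ f 3) (a b : ℚ) (hD : 4 * a ^ 3 + 27 * b ^ 2 ≠ 0)
    (hk : kap f a b ^ 2 ≤ 1 / 1000) (X Z : ℚ) (hN : 0 < Nv f a b X Z)
    (hz : Nv f a b X Z / 40 ≤ sv f a b * f Z) (hw1 : f (wv a b X Z) ≤ Nv f a b X Z / 16000)
    (hw2 : 900000000 * (kap f a b ^ 2 * Nv f a b X Z ^ 2) ≤ f (wv a b X Z) ^ 2) :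
    f (wv a b X Z) ^ 2 * Nv f a b X Z ^ 2 / 5120000 ≤ sv f a b * f (Psi a b X Z) := by
  obtain ⟨A, Q, -, hP, -, hQ', hQ, hA', hA⟩ := point_data f h2 h3 a b hD hk X Z
  have e4 : sv f a b * f Z ≤ Nv f a b X Z := le_max_right _ _
  have e5 : 0 ≤ sv f a b * f Z := mul_nonneg (le_trans (Real.sqrt_nonneg _) (le_max_left _ _)) (f.nonneg Z)
  have e6 : sv f a b * f (Psi a b X Z) = (sv f a b * f Z) * f 4 *
      f (wv a b X Z ^ 2 * (wv a b X Z + 3 * Q) + A * (wv a b X Z + Q / 3)) := by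
    rw [hP, map_mul, map_mul]
    ring
  rw [e6]
  generalize wv a b X Z = w at *
  generalize Nv f a b X Z = N at *
  generalize sv f a b * f Z = y at *
  generalize kap f a b = κ at *
  have hA0 := f.nonneg A
  have hQ0 := f.nonneg Q
  have hw0 := f.nonneg w
  have hA1 : f A ≤ 144 * (κ ^ 2 * N ^ 2) := hA.trans (by gcongr)
  have hQ1 : f Q ≤ 36 * N := hQ.trans (by gcongr)
  have hQ2 : N / 2640 ≤ f Q := by
    refine le_trans ?_ hQ'
    linarith
  have t1 : N / 16000 ≤ f (w + 3 * Q) := by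
    have a1 := le_f_add f (3 * Q) w
    rw [add_comm, map_mul] at a1
    have a2 : 1 / 3 * (N / 2640) ≤ f 3 * f Q := by gcongr
    linarith
  have t2 : f (w + Q / 3) ≤ 109 * N := by
    have a1 := f.add_le w (Q / 3)
    rw [map_div₀] at a1
    have a2 : f Q / f 3 ≤ 108 * N := by
      rw [div_le_iff₀ (by linarith)]
      nlinarith
    linarith
  have t3 : f w ^ 2 * (N / 16000) - 144 * (κ ^ 2 * N ^ 2) * (109 * N) ≤ f (w ^ 2 * (w + 3 * Q) + A * (w + Q / 3)) := by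
    have a1 := le_f_add f (w ^ 2 * (w + 3 * Q)) (A * (w + Q / 3))
    rw [map_mul, map_pow, map_mul f A] at a1
    have a2 : f w ^ 2 * (N / 16000) ≤ f w ^ 2 * f (w + 3 * Q) := by gcongr
    have a3 : f A * f (w + Q / 3) ≤ 144 * (κ ^ 2 * N ^ 2) * (109 * N) := by gcongr
    linarith
  have t4 : f w ^ 2 * (N / 32000) ≤ f (w ^ 2 * (w + 3 * Q) + A * (w + Q / 3)) := by
    have a1 : (κ ^ 2 * N ^ 2) * N ≤ f w ^ 2 / 900000000 * N := by
      gcongr
      linarith
    have a2 : 0 ≤ f w ^ 2 * N := by positivity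
    nlinarith
  have q4 := le_f_four f h2
  calc f w ^ 2 * N ^ 2 / 5120000 = (N / 40) * (1 / 4) * (f w ^ 2 * (N / 32000)) := by ring
    _ ≤ _ := by gcongr

/-- `κ` is tiny if `ν > 100` -/
private lemma kap_le (a b : ℚ) (hν : 100 < nu f a b) : kap f a b ≤ 2 / 10 ^ 22 := by
  have h1 : kap f a b ≤ Real.exp (-50) := by
    unfold kap
    apply Real.exp_le_exp.2
    linarith
  have h2 : (5 : ℝ) * 10 ^ 21 ≤ Real.exp 50 := by
    have e1 : Real.exp 50 = Real.exp 1 ^ 50 := by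
      rw [← Real.exp_nat_mul]
      norm_num
    rw [e1]
    have e2 : (2.7182818283 : ℝ) ≤ Real.exp 1 := Real.exp_one_gt_d9.le
    calc (5 : ℝ) * 10 ^ 21 ≤ 2.7182818283 ^ 50 := by norm_num
      _ ≤ Real.exp 1 ^ 50 := by gcongr
  refine h1.trans ?_
  rw [Real.exp_neg, inv_le_comm₀ (Real.exp_pos _) (by norm_num)]
  refine le_trans ?_ h2
  norm_num

/-- lower bound through `|U|` alone -/
private lemma Lv_ge_of_U (h2 : 1 / 2 ≤ f 2) (h3 : 1 / 3 ≤ f 3) (a b : ℚ) (hD : 4 * a ^ 3 + 27 * b ^ 2 ≠ 0)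
    (hν : 100 < nu f a b) {X Z : ℚ} (hXZ : ¬ (X = 0 ∧ Z = 0)) {M₀ : ℝ} (hM : 0 < M₀) (hU : 37 * M₀ ≤ f (wv a b X Z)) :
    Real.log M₀ ≤ Lv f a b 100 X Z := by
  have hk := kap_le f a b hν
  have hκ0 : 0 < kap f a b := Real.exp_pos _
  have hk2 : kap f a b ^ 2 ≤ 1 / 1000 := by
    calc kap f a b ^ 2 ≤ (2 / 10 ^ 22) ^ 2 := by gcongr
      _ ≤ 1 / 1000 := by norm_num
  have hw := wv_le f h2 h3 a b hD hk2 X Z
  have hN : M₀ ≤ Nv f a b X Z := by linarith
  have hMv : M₀ ≤ Mv f a b X Z := by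
    refine le_trans ?_ (le_max_left _ _)
    exact le_min (by linarith) hN
  have := Lv_ge f a b (t := 100) (by norm_num) hν hD hXZ (M₀ := M₀) (N₀ := M₀) hM
    (by
      have : kap f a b * M₀ ≤ 1 * M₀ := by
        gcongr
        exact hk.trans (by norm_num)
      linarith) le_rfl hMv hN
  rw [div_self hM.ne', Real.log_one] at this
  norm_num at this
  exact this

end aux

theorem Lv_dup_robust : ∃ C : ℝ, 0 ≤ C ∧ ∀ (f : AbsoluteValue ℚ ℝ), 1 / 2 ≤ f 2 → 1 / 3 ≤ f 3 →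
    ∀ a b : ℚ, 4 * a ^ 3 + 27 * b ^ 2 ≠ 0 → ∀ X Z : ℚ, ¬ (X = 0 ∧ Z = 0) →
    4 * Lv f a b 100 X Z - C ≤ Lv f a b 100 (Phi a b X Z) (Psi a b X Z) := by
  have hl1 : 0 < Real.log 2476 := Real.log_pos (by norm_num)
  have hl2 : 0 < Real.log 10 := Real.log_pos (by norm_num)
  have hl3 : 0 ≤ Real.log 30000 ^ 2 / 25 := by positivity
  have hl4 : 0 < Real.log 30000 := Real.log_pos (by norm_num)
  refine ⟨100 + Real.log 2476 + 21 * Real.log 10 + Real.log 30000 ^ 2 / 25, by positivity, ?_⟩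
  intro f h2 h3 a b hD X Z hXZ
  have hN : 0 < Nv f a b X Z := Nv_pos f a b hD hXZ
  have hκ0 : 0 < kap f a b := Real.exp_pos _
  have hlκ : Real.log (kap f a b) = -(nu f a b) / 2 := by
    unfold kap
    exact Real.log_exp _
  have hdup := Nv_dup_ge f h2 a b hD hXZ
  have hN' : 0 < Nv f a b (Phi a b X Z) (Psi a b X Z) := lt_of_lt_of_le (by positivity) hdup
  rcases le_or_gt (nu f a b) 100 with hν | hν
  · rw [Lv_eq_of_le f a b hν, Lv_eq_of_le f a b hν]
    have e1 : Real.log (kap f a b ^ 2 * Nv f a b X Z ^ 4 / 2476) =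
        -(nu f a b) + 4 * Real.log (Nv f a b X Z) - Real.log 2476 := by
      rw [Real.log_div (by positivity) (by norm_num), Real.log_mul (by positivity) (by positivity), Real.log_pow,
        Real.log_pow, hlκ]
      push_cast
      ring
    have e2 := Real.log_le_log (by positivity) hdup
    rw [e1] at e2
    linarith
  · have hF : ¬ (Phi a b X Z = 0 ∧ Psi a b X Z = 0) := by
      rintro ⟨u1, u2⟩
      rw [u1, u2] at hN'
      simp [Nv] at hN'
    have hκ := kap_le f a b hν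
    have hκ2 : kap f a b ^ 2 ≤ 4 / 10 ^ 44 := by
      calc kap f a b ^ 2 ≤ (2 / 10 ^ 22) ^ 2 := by gcongr
        _ = 4 / 10 ^ 44 := by norm_num
    have hk2 : kap f a b ^ 2 ≤ 1 / 1000 := hκ2.trans (by norm_num)
    have hw0 := f.nonneg (wv a b X Z)
    have hT : Tv f a b 100 X Z = Real.log (Nv f a b X Z / Mv f a b X Z) := by
      unfold Tv
      rw [if_neg (not_le.2 hν)]
    have hlog10 : ∀ k : ℕ, Real.log ((10 : ℝ) ^ k) = k * Real.log 10 := fun k => Real.log_pow (x := 10) (n := k)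
    have hbig := U_ge_big f h2 h3 a b hD hk2 X Z hN.le
    rcases le_or_gt (Nv f a b X Z / 16000) (f (wv a b X Z)) with hc | hc
    · -- (i)
      have e1 : 37 * (Nv f a b X Z ^ 4 / 10 ^ 19) ≤ f (wv a b (Phi a b X Z) (Psi a b X Z)) := by
        refine le_trans ?_ hbig
        have e2 : (Nv f a b X Z / 16000) ^ 4 ≤ f (wv a b X Z) ^ 4 := by gcongr
        have e3 : kap f a b ^ 2 * Nv f a b X Z ^ 4 ≤ 4 / 10 ^ 44 * Nv f a b X Z ^ 4 := by gcongr
        have e4 : 0 < Nv f a b X Z ^ 4 := by positivity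
        have e5 : (Nv f a b X Z / 16000) ^ 4 = 1 / 65536000000000000 * Nv f a b X Z ^ 4 := by ring
        rw [e5] at e2
        generalize Nv f a b X Z ^ 4 = N4 at *
        generalize f (wv a b X Z) ^ 4 = W4 at *
        generalize kap f a b ^ 2 * N4 = K4 at *
        norm_num at e3 ⊢
        linarith
      have e2 := Lv_ge_of_U f h2 h3 a b hD hν hF (by positivity) e1
      rw [Real.log_div (by positivity) (by positivity), Real.log_pow, hlog10] at e2
      have e3 := Lv_le f a b (t := 100) (by norm_num) hD hXZ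
      push_cast at e2
      linarith
    rcases le_or_gt (f (wv a b X Z)) (30000 * kap f a b * Nv f a b X Z) with hd | hd
    · -- (iii)
      have hz := sZ_ge f h2 h3 a b hD hk2 X Z hN.le hc.le
      have hwsq : f (wv a b X Z) ^ 2 ≤ 5 / 10 ^ 13 * kap f a b * Nv f a b X Z ^ 2 := by
        calc f (wv a b X Z) ^ 2 ≤ (30000 * kap f a b * Nv f a b X Z) ^ 2 := by gcongr
          _ = 900000000 * kap f a b * kap f a b * Nv f a b X Z ^ 2 := by ring
          _ ≤ 900000000 * (2 / 10 ^ 22) * kap f a b * Nv f a b X Z ^ 2 := by gcongr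
          _ ≤ _ := by
              gcongr
              norm_num
      have hsm := U_ge_small f h2 h3 a b hD hκ0.le hκ X Z hN.le hz hwsq
      have e1 : 37 * (kap f a b ^ 2 * Nv f a b X Z ^ 4 / 10 ^ 14) ≤ f (wv a b (Phi a b X Z) (Psi a b X Z)) := by
        refine le_trans ?_ hsm
        have : 0 ≤ kap f a b ^ 2 * Nv f a b X Z ^ 4 := by positivity
        linarith
      have e2 := Lv_ge_of_U f h2 h3 a b hD hν hF (by positivity) e1
      rw [Real.log_div (by positivity) (by positivity), Real.log_mul (by positivity) (by positivity), Real.log_pow,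
        Real.log_pow, hlog10, hlκ] at e2
      push_cast at e2
      -- upper bound for `Lv`
      have hM1 : kap f a b * Nv f a b X Z ≤ Mv f a b X Z := le_max_right _ _
      have hM2 : Mv f a b X Z ≤ 30000 * kap f a b * Nv f a b X Z := by
        refine max_le ((min_le_left _ _).trans hd) ?_
        have : 0 < kap f a b * Nv f a b X Z := by positivity
        linarith
      have hM0 : 0 < Mv f a b X Z := Mv_pos f a b hD hXZ
      have hT1 : Tv f a b 100 X Z ≤ nu f a b / 2 := by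
        rw [hT, Real.log_div hN.ne' hM0.ne']
        have := Real.log_le_log (by positivity) hM1
        rw [Real.log_mul hκ0.ne' hN.ne', hlκ] at this
        linarith
      have hT2 : nu f a b / 2 - Real.log 30000 ≤ Tv f a b 100 X Z := by
        rw [hT, Real.log_div hN.ne' hM0.ne']
        have := Real.log_le_log hM0 hM2
        rw [Real.log_mul (by positivity) hN.ne', Real.log_mul (by norm_num) hκ0.ne', hlκ] at this
        linarith
      have hL : Lv f a b 100 X Z ≤ Real.log (Nv f a b X Z) - nu f a b / 4 + Real.log 30000 ^ 2 / 100 := by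
        unfold Lv
        generalize Tv f a b 100 X Z = T at *
        generalize Real.log 30000 = l at *
        generalize nu f a b = ν at *
        have hν0 : 0 < ν := by linarith
        have q1 : T ^ 2 / ν = T - ν / 4 + (ν / 2 - T) ^ 2 / ν := by
          field_simp
          ring
        have q2 : (ν / 2 - T) ^ 2 / ν ≤ l ^ 2 / 100 := by
          have : (ν / 2 - T) ^ 2 ≤ l ^ 2 := by
            apply pow_le_pow_left₀ <;> linarith
          gcongr
        rw [q1]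
        linarith
      linarith
    · -- (ii)
      have hz := sZ_ge f h2 h3 a b hD hk2 X Z hN.le hc.le
      have hW : 0 < f (wv a b X Z) := lt_of_le_of_lt (by positivity) hd
      have hw2 : 900000000 * (kap f a b ^ 2 * Nv f a b X Z ^ 2) ≤ f (wv a b X Z) ^ 2 := by
        calc 900000000 * (kap f a b ^ 2 * Nv f a b X Z ^ 2) = (30000 * kap f a b * Nv f a b X Z) ^ 2 := by ring
          _ ≤ _ := by gcongr
      have hP := Psi_ge f h2 h3 a b hD hk2 X Z hN hz hc.le hw2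
      have hN'' : f (wv a b X Z) ^ 2 * Nv f a b X Z ^ 2 / 5120000 ≤ Nv f a b (Phi a b X Z) (Psi a b X Z) :=
        hP.trans (le_max_right _ _)
      have hMv' : kap f a b * Nv f a b (Phi a b X Z) (Psi a b X Z) ≤ Mv f a b (Phi a b X Z) (Psi a b X Z) :=
        le_max_right _ _
      have hMv'' : min (f (wv a b (Phi a b X Z) (Psi a b X Z))) (Nv f a b (Phi a b X Z) (Psi a b X Z)) ≤
        Mv f a b (Phi a b X Z) (Psi a b X Z) := le_max_left _ _
      have hMv : Mv f a b X Z = f (wv a b X Z) := by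
        unfold Mv
        rw [min_eq_left (by linarith), max_eq_left]
        have : 0 < kap f a b * Nv f a b X Z := by positivity
        linarith
      have hWN : f (wv a b X Z) ≤ Nv f a b X Z := by linarith
      have hκW : kap f a b * Nv f a b X Z ≤ f (wv a b X Z) := by
        have : 0 < kap f a b * Nv f a b X Z := by positivity
        linarith
      have hLge := Lv_ge f a b (t := 100) (by norm_num) hν hD hF
        (M₀ := max (f (wv a b X Z) ^ 4) (kap f a b ^ 2 * Nv f a b X Z ^ 4) / 10 ^ 21)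
        (N₀ := f (wv a b X Z) ^ 2 * Nv f a b X Z ^ 2 / 10 ^ 21) (by positivity)
        (by
          rw [mul_div_assoc']
          gcongr
          have q0 : 0 ≤ (f (wv a b X Z) ^ 2 - kap f a b * Nv f a b X Z ^ 2) ^ 2 := sq_nonneg _
          have q1 := le_max_left (f (wv a b X Z) ^ 4) (kap f a b ^ 2 * Nv f a b X Z ^ 4)
          have q2 := le_max_right (f (wv a b X Z) ^ 4) (kap f a b ^ 2 * Nv f a b X Z ^ 4)
          nlinarith)
        (by
          gcongr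
          refine max_le ?_ ?_
          · calc f (wv a b X Z) ^ 4 = f (wv a b X Z) ^ 2 * f (wv a b X Z) ^ 2 := by ring
              _ ≤ _ := by gcongr
          · calc kap f a b ^ 2 * Nv f a b X Z ^ 4 = (kap f a b * Nv f a b X Z) ^ 2 * Nv f a b X Z ^ 2 := by ring
              _ ≤ _ := by gcongr)
        (by
          rcases le_or_gt (4000 * (kap f a b * Nv f a b X Z ^ 2)) (f (wv a b X Z) ^ 2) with hg | hg
          · -- `|w|` large
            refine le_trans ?_ hMv''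
            have g1 : 16000000 * (kap f a b ^ 2 * Nv f a b X Z ^ 4) ≤ f (wv a b X Z) ^ 4 := by
              calc 16000000 * (kap f a b ^ 2 * Nv f a b X Z ^ 4) = (4000 * (kap f a b * Nv f a b X Z ^ 2)) ^ 2 := by ring
                _ ≤ (f (wv a b X Z) ^ 2) ^ 2 := by gcongr
                _ = _ := by ring
            have g2 : 0 < kap f a b ^ 2 * Nv f a b X Z ^ 4 := by positivity
            have g3 : 0 < f (wv a b X Z) ^ 4 := by positivity
            have g4 : f (wv a b X Z) ^ 4 ≤ f (wv a b X Z) ^ 2 * Nv f a b X Z ^ 2 := by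
              calc f (wv a b X Z) ^ 4 = f (wv a b X Z) ^ 2 * f (wv a b X Z) ^ 2 := by ring
                _ ≤ _ := by gcongr
            rw [max_eq_left (by linarith)]
            refine le_min ?_ ?_
            · refine le_trans ?_ hbig
              norm_num
              linarith
            · refine le_trans ?_ hN''
              norm_num
              linarith
          · rcases le_or_gt (f (wv a b X Z) ^ 2) (5 / 10 ^ 13 * kap f a b * Nv f a b X Z ^ 2) with hh | hh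
            · -- `|w|` small
              have hsm := U_ge_small f h2 h3 a b hD hκ0.le hκ X Z hN.le hz hh
              refine le_trans ?_ hMv''
              have g1 : f (wv a b X Z) ^ 4 ≤ kap f a b ^ 2 * Nv f a b X Z ^ 4 := by
                calc f (wv a b X Z) ^ 4 = (f (wv a b X Z) ^ 2) ^ 2 := by ring
                  _ ≤ (5 / 10 ^ 13 * kap f a b * Nv f a b X Z ^ 2) ^ 2 := by gcongr
                  _ = (5 / 10 ^ 13) ^ 2 * (kap f a b ^ 2 * Nv f a b X Z ^ 4) := by ring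
                  _ ≤ 1 * (kap f a b ^ 2 * Nv f a b X Z ^ 4) := by
                      gcongr
                      norm_num
                  _ = _ := by ring
              have g2 : 0 < kap f a b ^ 2 * Nv f a b X Z ^ 4 := by positivity
              have g3 : 900000000 * (kap f a b ^ 2 * Nv f a b X Z ^ 4) ≤ f (wv a b X Z) ^ 2 * Nv f a b X Z ^ 2 := by
                calc 900000000 * (kap f a b ^ 2 * Nv f a b X Z ^ 4)
                    = 900000000 * (kap f a b ^ 2 * Nv f a b X Z ^ 2) * Nv f a b X Z ^ 2 := by ring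
                  _ ≤ _ := by gcongr
              rw [max_eq_right g1]
              refine le_min ?_ ?_
              · refine le_trans ?_ hsm
                norm_num
                linarith
              · refine le_trans ?_ hN''
                norm_num
                linarith
            · -- in between
              refine le_trans ?_ hMv'
              have g0 : kap f a b * (f (wv a b X Z) ^ 2 * Nv f a b X Z ^ 2 / 5120000) ≤
                  kap f a b * Nv f a b (Phi a b X Z) (Psi a b X Z) := by gcongr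
              refine le_trans ?_ g0
              have g1 : f (wv a b X Z) ^ 4 ≤ 4000 * (kap f a b * (f (wv a b X Z) ^ 2 * Nv f a b X Z ^ 2)) := by
                calc f (wv a b X Z) ^ 4 = f (wv a b X Z) ^ 2 * f (wv a b X Z) ^ 2 := by ring
                  _ ≤ (4000 * (kap f a b * Nv f a b X Z ^ 2)) * f (wv a b X Z) ^ 2 := by gcongr
                  _ = _ := by ring
              have g2 : 5 / 10 ^ 13 * (kap f a b ^ 2 * Nv f a b X Z ^ 4) ≤
                  kap f a b * (f (wv a b X Z) ^ 2 * Nv f a b X Z ^ 2) := by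
                calc 5 / 10 ^ 13 * (kap f a b ^ 2 * Nv f a b X Z ^ 4)
                    = kap f a b * ((5 / 10 ^ 13 * kap f a b * Nv f a b X Z ^ 2) * Nv f a b X Z ^ 2) := by ring
                  _ ≤ _ := by gcongr
              have g3 : 0 < kap f a b * (f (wv a b X Z) ^ 2 * Nv f a b X Z ^ 2) := by positivity
              rw [mul_div_assoc', div_le_div_iff₀ (by positivity) (by positivity)]
              generalize kap f a b * (f (wv a b X Z) ^ 2 * Nv f a b X Z ^ 2) = R at *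
              generalize f (wv a b X Z) ^ 4 = W4 at *
              generalize kap f a b ^ 2 * Nv f a b X Z ^ 4 = K4 at *
              rcases max_cases W4 K4 with ⟨hm, -⟩ | ⟨hm, -⟩ <;> rw [hm] <;> norm_num at g2 ⊢ <;> linarith)
        (by
          refine le_trans ?_ hN''
          have : 0 ≤ f (wv a b X Z) ^ 2 * Nv f a b X Z ^ 2 := by positivity
          norm_num
          linarith)
      refine le_trans ?_ hLge
      unfold Lv
      rw [hT, hMv]
      have hν0 : 0 < nu f a b := by linarith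
      have hlT : Real.log (Nv f a b X Z / f (wv a b X Z)) = Real.log (Nv f a b X Z) - Real.log (f (wv a b X Z)) :=
        Real.log_div hN.ne' hW.ne'
      rw [hlT]
      rcases max_cases (f (wv a b X Z) ^ 4) (kap f a b ^ 2 * Nv f a b X Z ^ 4) with ⟨hm, -⟩ | ⟨hm, -⟩
      · rw [hm]
        have r1 : f (wv a b X Z) ^ 2 * Nv f a b X Z ^ 2 / 10 ^ 21 / (f (wv a b X Z) ^ 4 / 10 ^ 21) =
            (Nv f a b X Z / f (wv a b X Z)) ^ 2 := by
          field_simp
        rw [r1, Real.log_pow, hlT, Real.log_div (by positivity) (by positivity), Real.log_pow, hlog10]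
        generalize Real.log (Nv f a b X Z) = x at *
        generalize Real.log (f (wv a b X Z)) = y at *
        generalize nu f a b = ν at *
        push_cast
        have r2 : (2 * (x - y)) ^ 2 / ν = 4 * ((x - y) ^ 2 / ν) := by ring
        rw [r2]
        linarith
      · rw [hm]
        have r1 : f (wv a b X Z) ^ 2 * Nv f a b X Z ^ 2 / 10 ^ 21 / (kap f a b ^ 2 * Nv f a b X Z ^ 4 / 10 ^ 21) =
            (f (wv a b X Z) / (kap f a b * Nv f a b X Z)) ^ 2 := by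
          field_simp
        rw [r1, Real.log_pow, Real.log_div hW.ne' (by positivity), Real.log_mul hκ0.ne' hN.ne',
          Real.log_div (by positivity) (by positivity), Real.log_mul (by positivity) (by positivity), Real.log_pow,
          Real.log_pow, hlog10, hlκ]
        generalize Real.log (Nv f a b X Z) = x at *
        generalize Real.log (f (wv a b X Z)) = y at *
        generalize nu f a b = ν at *
        push_cast
        have r2 : (2 * (y - (-ν / 2 + x))) ^ 2 / ν = ν - 4 * (x - y) + 4 * ((x - y) ^ 2 / ν) := by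
          field_simp
          ring
        rw [r2]
        linarith

end Pool.Agent.H24.LQ
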