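import Pool.Agent.H24.LQ.Defs

/-!
# LQ09 Tate

`u_n = (h(dⁿx) + C/3)/4ⁿ` is antitone, `l_n = (h(dⁿx) - C/3)/4ⁿ` is monotone, `u_n - l_n → 0`;
`g x = lim u_n`. For `S`: `S(dⁿx) - C₀/3 ≥ 4ⁿ (S x - C₀/3)`, `h(dⁿx) ≥ S(dⁿ x) - C₁`, divide by `4ⁿ`, `n → ∞`.
-/

namespace Pool.Agent.H24.LQ

open Pool.Agent.H24.LP Finset

private theorem tate_step {α : Type*} (d : α → α) (h : α → ℝ) (C : ℝ)
    (hC : ∀ x, |h (d x) - 4 * h x| ≤ C) (x : α) (n : ℕ) :
    dist (h (d^[n] x) / 4 ^ n) (h (d^[n + 1] x) / 4 ^ (n + 1)) ≤ C / 4 * (1 / 4) ^ n := by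
  rw [Real.dist_eq, Function.iterate_succ_apply' d n x]
  have h1 := hC (d^[n] x)
  have h4 : (0 : ℝ) < 4 ^ (n + 1) := by positivity
  have e1 : h (d^[n] x) / 4 ^ n - h (d (d^[n] x)) / 4 ^ (n + 1) =
      -((h (d (d^[n] x)) - 4 * h (d^[n] x)) / 4 ^ (n + 1)) := by
    rw [pow_succ]
    field_simp
    ring
  have e2 : C / 4 * (1 / 4) ^ n = C / 4 ^ (n + 1) := by
    rw [pow_succ, one_div, inv_pow]
    field_simp
  rw [e1, abs_neg, abs_div, abs_of_pos h4, e2]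
  exact div_le_div_of_nonneg_right h1 h4.le

theorem tate {α : Type*} (d : α → α) (h : α → ℝ) (C : ℝ) (hC : ∀ x, |h (d x) - 4 * h x| ≤ C) :
    ∃ g : α → ℝ, (∀ x, g (d x) = 4 * g x) ∧ (∀ x, |g x - h x| ≤ C / 3) ∧
      ∀ (S : α → ℝ) (C₀ C₁ : ℝ), (∀ x, 4 * S x - C₀ ≤ S (d x)) → (∀ x, S x - C₁ ≤ h x) →
        ∀ x, S x - C₀ / 3 ≤ g x := by
  have hlim : ∀ x : α, ∃ y : ℝ, Filter.Tendsto (fun n : ℕ => h (d^[n] x) / 4 ^ n)
      Filter.atTop (nhds y) := fun x =>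
    cauchySeq_tendsto_of_complete
      (cauchySeq_of_le_geometric (1 / 4) (C / 4) (by norm_num) (tate_step d h C hC x))
  choose g hg using hlim
  refine ⟨g, fun x => ?_, fun x => ?_, fun S C₀ C₁ h0 h1 x => ?_⟩
  · refine tendsto_nhds_unique (hg (d x)) ?_
    have h2 : Filter.Tendsto (fun n : ℕ => 4 * (h (d^[n + 1] x) / 4 ^ (n + 1)))
        Filter.atTop (nhds (4 * g x)) :=
      ((hg x).comp (Filter.tendsto_add_atTop_nat 1)).const_mul 4
    refine h2.congr fun n => ?_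
    rw [Function.iterate_succ_apply, pow_succ]
    field_simp
  · have h2 := dist_le_of_le_geometric_of_tendsto₀ (1 / 4) (C / 4) (by norm_num)
      (tate_step d h C hC x) (hg x)
    rw [Real.dist_eq, Function.iterate_zero, id, pow_zero, div_one, abs_sub_comm] at h2
    refine h2.trans (le_of_eq ?_)
    norm_num
    ring
  · have h2 : ∀ n : ℕ, 4 ^ n * (S x - C₀ / 3) ≤ S (d^[n] x) - C₀ / 3 := by
      intro n
      induction n with
      | zero => simp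
      | succ n ih =>
        rw [Function.iterate_succ_apply', pow_succ]
        have h3 := h0 (d^[n] x)
        linarith
    have h3 : Filter.Tendsto (fun n : ℕ => (S x - C₀ / 3) + (C₀ / 3 - C₁) * (1 / 4) ^ n)
        Filter.atTop (nhds ((S x - C₀ / 3) + (C₀ / 3 - C₁) * 0)) :=
      ((tendsto_pow_atTop_nhds_zero_of_lt_one (by norm_num) (by norm_num)).const_mul _).const_add _
    rw [mul_zero, add_zero] at h3
    refine le_of_tendsto_of_tendsto' h3 (hg x) fun n => ?_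
    have h4 : (0 : ℝ) < 4 ^ n := by positivity
    rw [le_div_iff₀ h4]
    have e : ((S x - C₀ / 3) + (C₀ / 3 - C₁) * (1 / 4) ^ n) * 4 ^ n =
        4 ^ n * (S x - C₀ / 3) + (C₀ / 3 - C₁) := by
      have e1 : ((1 : ℝ) / 4) ^ n * 4 ^ n = 1 := by
        rw [← mul_pow]
        norm_num
      calc ((S x - C₀ / 3) + (C₀ / 3 - C₁) * (1 / 4) ^ n) * 4 ^ n
          = 4 ^ n * (S x - C₀ / 3) + (C₀ / 3 - C₁) * (((1 : ℝ) / 4) ^ n * 4 ^ n) := by ring
        _ = _ := by rw [e1, mul_one]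
    rw [e]
    have h5 := h1 (d^[n] x)
    have h6 := h2 n
    linarith

end Pool.Agent.H24.LQ
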