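import Pool.Agent.H24.LQ.Basic
import Pool.Agent.H24.LQ.Res
import Pool.Agent.H24.LQ.Exact
import Pool.Agent.H24.LQ.Robust
import Pool.Agent.H24.LQ.Pair
import Pool.Agent.H24.LQ.Places
import Pool.Agent.H24.LQ.Dup
import Pool.Agent.H24.LQ.Naive
import Pool.Agent.H24.LQ.Tate
import Pool.Agent.H24.LQ.Conv
import Pool.Agent.H24.LQ.Additive
import Pool.Agent.H24.LQ.Energy
import Pool.Agent.H24.LQ.Class
import Pool.Agent.H24.LQ.Bounds
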