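import Pool.Agent.H24.LQ.Defs

/-!
# LQ01 Basic

Basic facts on `s`, `ν`, `κ`, `N`, `M`, `T`, `Lv`.
`le_sv_sq`: `sqrt (f a) ≤ s`. `le_sv_cube`: `(f b)^(1/3) ≤ s`. `sv_or`: the maximum is one of the two.
`f D ≤ 4 (f a)^3 + 27 (f b)^2 ≤ 31 s^6` by the triangle inequality (`f 4 ≤ 4`, `f 27 ≤ 27`), and
`f D ≤ s^6` if `f` is nonarchimedean (`f n ≤ 1` for integers `n`).
`Lv_ge`: `g(m, n) = m + (n - m)²/ν` is nondecreasing in `m` and in `n` on `n - ν/2 ≤ m ≤ n` (a convex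
region; gradient `(1 - 2(n-m)/ν, 2(n-m)/ν) ≥ 0`); algebraically, for `m₀ ≤ m`, `n₀ ≤ n`:
`g(m,n) - g(m₀,n₀) = (m - m₀) + ((n-m) - (n₀-m₀)) ((n-m) + (n₀-m₀))/ν` with
`0 ≤ (n-m) + (n₀-m₀) ≤ ν`; so it is `≥ (m-m₀)(1 - σ/ν) + (n-n₀) σ/ν ≥ 0`, `σ` the sum.
`Lv = log N - T + T²/ν = log M + (log (N/M))²/ν` if `t < ν`.
-/

namespace Pool.Agent.H24.LQ

open Pool.Agent.H24.LP Finset

section Basic
variable (f : AbsoluteValue ℚ ℝ) (a b : ℚ)

lemma sv_pos (h : ¬ (a = 0 ∧ b = 0)) : 0 < sv f a b := by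
  unfold sv
  by_cases ha : a = 0
  · have hb : b ≠ 0 := fun hb => h ⟨ha, hb⟩
    exact lt_max_of_lt_right (Real.rpow_pos_of_pos (f.pos hb) _)
  · exact lt_max_of_lt_left (Real.sqrt_pos.2 (f.pos ha))

private lemma rpow_third (x : ℝ) (hx : 0 ≤ x) : (x ^ ((1 : ℝ) / 3)) ^ 3 = x := by
  rw [← Real.rpow_natCast, ← Real.rpow_mul hx]
  norm_num

lemma le_sv_sq : f a ≤ sv f a b ^ 2 := by
  calc f a = Real.sqrt (f a) ^ 2 := (Real.sq_sqrt (f.nonneg a)).symm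
    _ ≤ sv f a b ^ 2 := pow_le_pow_left₀ (Real.sqrt_nonneg _) (le_max_left _ _) 2

lemma le_sv_cube : f b ≤ sv f a b ^ 3 := by
  calc f b = (f b ^ ((1 : ℝ) / 3)) ^ 3 := (rpow_third _ (f.nonneg b)).symm
    _ ≤ sv f a b ^ 3 :=
      pow_le_pow_left₀ (Real.rpow_nonneg (f.nonneg b) _) (le_max_right _ _) 3

lemma sv_or : f a = sv f a b ^ 2 ∨ f b = sv f a b ^ 3 := by
  unfold sv
  rcases max_choice (Real.sqrt (f a)) (f b ^ ((1 : ℝ) / 3)) with h | h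
  · left
    rw [h, Real.sq_sqrt (f.nonneg a)]
  · right
    rw [h, rpow_third _ (f.nonneg b)]

private lemma ne_of_hD {a b : ℚ} (hD : 4 * a ^ 3 + 27 * b ^ 2 ≠ 0) : ¬ (a = 0 ∧ b = 0) := by
  rintro ⟨rfl, rfl⟩
  apply hD
  norm_num

private lemma sv_nonneg : 0 ≤ sv f a b := le_max_of_le_left (Real.sqrt_nonneg _)

/-- `κ² = |D|/s⁶`. -/
lemma kap_sq (hD : 4 * a ^ 3 + 27 * b ^ 2 ≠ 0) :
    kap f a b ^ 2 = f (4 * a ^ 3 + 27 * b ^ 2) / sv f a b ^ 6 := by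
  have hs : 0 < sv f a b := sv_pos f a b (ne_of_hD hD)
  have hf : 0 < f (4 * a ^ 3 + 27 * b ^ 2) := f.pos hD
  have h1 : kap f a b ^ 2 = Real.exp (-(nu f a b)) := by
    unfold kap
    rw [← Real.exp_nat_mul]
    congr 1
    push_cast
    ring
  rw [h1, Real.exp_neg]
  unfold nu
  rw [Real.exp_log (div_pos (pow_pos hs 6) hf), inv_div]

private lemma f_D_le : f (4 * a ^ 3 + 27 * b ^ 2) ≤ 31 * sv f a b ^ 6 := by
  have h4 : f 4 ≤ 4 := by exact_mod_cast f.apply_nat_le_self 4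
  have h27 : f 27 ≤ 27 := by exact_mod_cast f.apply_nat_le_self 27
  have ha3 : f a ^ 3 ≤ sv f a b ^ 6 := by
    calc f a ^ 3 ≤ (sv f a b ^ 2) ^ 3 := pow_le_pow_left₀ (f.nonneg a) (le_sv_sq f a b) 3
      _ = sv f a b ^ 6 := by ring
  have hb2 : f b ^ 2 ≤ sv f a b ^ 6 := by
    calc f b ^ 2 ≤ (sv f a b ^ 3) ^ 2 := pow_le_pow_left₀ (f.nonneg b) (le_sv_cube f a b) 2
      _ = sv f a b ^ 6 := by ring
  have ha0 : 0 ≤ f a ^ 3 := pow_nonneg (f.nonneg a) 3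
  have hb0 : 0 ≤ f b ^ 2 := pow_nonneg (f.nonneg b) 2
  calc f (4 * a ^ 3 + 27 * b ^ 2) ≤ f (4 * a ^ 3) + f (27 * b ^ 2) := f.add_le _ _
    _ = f 4 * f a ^ 3 + f 27 * f b ^ 2 := by rw [f.map_mul, f.map_mul, f.map_pow, f.map_pow]
    _ ≤ 4 * f a ^ 3 + 27 * f b ^ 2 :=
      add_le_add (mul_le_mul_of_nonneg_right h4 ha0) (mul_le_mul_of_nonneg_right h27 hb0)
    _ ≤ 31 * sv f a b ^ 6 := by linarith

lemma nu_ge (hD : 4 * a ^ 3 + 27 * b ^ 2 ≠ 0) : -Real.log 31 ≤ nu f a b := by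
  have hs : 0 < sv f a b := sv_pos f a b (ne_of_hD hD)
  have hf : 0 < f (4 * a ^ 3 + 27 * b ^ 2) := f.pos hD
  unfold nu
  rw [← Real.log_inv]
  apply Real.log_le_log (by norm_num)
  rw [le_div_iff₀ hf]
  have := f_D_le f a b
  linarith

lemma nu_nonneg (hna : IsNonarchimedean f) (hD : 4 * a ^ 3 + 27 * b ^ 2 ≠ 0) :
    0 ≤ nu f a b := by
  have hs : 0 < sv f a b := sv_pos f a b (ne_of_hD hD)
  have hf : 0 < f (4 * a ^ 3 + 27 * b ^ 2) := f.pos hD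
  have h4 : f 4 ≤ 1 := by
    have := hna.apply_natCast_le_one (n := 4)
    exact_mod_cast this
  have h27 : f 27 ≤ 1 := by
    have := hna.apply_natCast_le_one (n := 27)
    exact_mod_cast this
  have ha3 : f a ^ 3 ≤ sv f a b ^ 6 := by
    calc f a ^ 3 ≤ (sv f a b ^ 2) ^ 3 := pow_le_pow_left₀ (f.nonneg a) (le_sv_sq f a b) 3
      _ = sv f a b ^ 6 := by ring
  have hb2 : f b ^ 2 ≤ sv f a b ^ 6 := by
    calc f b ^ 2 ≤ (sv f a b ^ 3) ^ 2 := pow_le_pow_left₀ (f.nonneg b) (le_sv_cube f a b) 2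
      _ = sv f a b ^ 6 := by ring
  have ha0 : 0 ≤ f a ^ 3 := pow_nonneg (f.nonneg a) 3
  have hb0 : 0 ≤ f b ^ 2 := pow_nonneg (f.nonneg b) 2
  have e1 : f (4 * a ^ 3) ≤ sv f a b ^ 6 := by
    rw [f.map_mul, f.map_pow]
    calc f 4 * f a ^ 3 ≤ 1 * f a ^ 3 := mul_le_mul_of_nonneg_right h4 ha0
      _ = f a ^ 3 := one_mul _
      _ ≤ _ := ha3
  have e2 : f (27 * b ^ 2) ≤ sv f a b ^ 6 := by
    rw [f.map_mul, f.map_pow]
    calc f 27 * f b ^ 2 ≤ 1 * f b ^ 2 := mul_le_mul_of_nonneg_right h27 hb0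
      _ = f b ^ 2 := one_mul _
      _ ≤ _ := hb2
  have e3 : f (4 * a ^ 3 + 27 * b ^ 2) ≤ sv f a b ^ 6 :=
    le_trans (hna _ _) (max_le e1 e2)
  unfold nu
  apply Real.log_nonneg
  rw [le_div_iff₀ hf, one_mul]
  exact e3

lemma Nv_pos (hD : 4 * a ^ 3 + 27 * b ^ 2 ≠ 0) {X Z : ℚ} (h : ¬ (X = 0 ∧ Z = 0)) :
    0 < Nv f a b X Z := by
  have hs : 0 < sv f a b := sv_pos f a b (ne_of_hD hD)
  unfold Nv
  by_cases hX : X = 0
  · have hZ : Z ≠ 0 := fun hZ => h ⟨hX, hZ⟩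
    exact lt_max_of_lt_right (mul_pos hs (f.pos hZ))
  · exact lt_max_of_lt_left (f.pos hX)

private lemma kap_pos : 0 < kap f a b := Real.exp_pos _

private lemma kapN_le (X Z : ℚ) : kap f a b * Nv f a b X Z ≤ Mv f a b X Z := le_max_right _ _

private lemma Nv_nonneg (X Z : ℚ) : 0 ≤ Nv f a b X Z := le_max_of_le_left (f.nonneg X)

lemma Mv_pos (hD : 4 * a ^ 3 + 27 * b ^ 2 ≠ 0) {X Z : ℚ} (h : ¬ (X = 0 ∧ Z = 0)) :
    0 < Mv f a b X Z :=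
  lt_of_lt_of_le (mul_pos (kap_pos f a b) (Nv_pos f a b hD h)) (kapN_le f a b X Z)

/-- `κ N ≤ M`, and `M ≤ N` if `ν ≥ 0`. -/
lemma Mv_le (hν : 0 ≤ nu f a b) {X Z : ℚ} : Mv f a b X Z ≤ Nv f a b X Z := by
  have hk : kap f a b ≤ 1 := by
    unfold kap
    rw [Real.exp_le_one_iff]
    linarith
  unfold Mv
  refine max_le (min_le_right _ _) ?_
  calc kap f a b * Nv f a b X Z ≤ 1 * Nv f a b X Z :=
        mul_le_mul_of_nonneg_right hk (Nv_nonneg f a b X Z)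
    _ = Nv f a b X Z := one_mul _

lemma Tv_nonneg {t : ℝ} (ht : 0 ≤ t) (hD : 4 * a ^ 3 + 27 * b ^ 2 ≠ 0) {X Z : ℚ}
    (h : ¬ (X = 0 ∧ Z = 0)) : 0 ≤ Tv f a b t X Z := by
  unfold Tv
  split_ifs with h1
  · exact le_rfl
  · have hν : 0 ≤ nu f a b := le_trans ht (not_le.1 h1).le
    apply Real.log_nonneg
    rw [le_div_iff₀ (Mv_pos f a b hD h), one_mul]
    exact Mv_le f a b hν

lemma Tv_le {t : ℝ} (ht : 0 ≤ t) (hD : 4 * a ^ 3 + 27 * b ^ 2 ≠ 0) {X Z : ℚ}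
    (h : ¬ (X = 0 ∧ Z = 0)) (hν : 0 ≤ nu f a b) : Tv f a b t X Z ≤ nu f a b / 2 := by
  unfold Tv
  split_ifs with h1
  · linarith
  · have hM := Mv_pos f a b hD h
    have hN := Nv_pos f a b hD h
    rw [Real.log_le_iff_le_exp (div_pos hN hM), div_le_iff₀ hM]
    have hk := kapN_le f a b X Z
    have e : Real.exp (nu f a b / 2) * kap f a b = 1 := by
      unfold kap
      rw [← Real.exp_add, ← Real.exp_zero]
      congr 1
      ring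
    calc Nv f a b X Z = Real.exp (nu f a b / 2) * (kap f a b * Nv f a b X Z) := by
          rw [← mul_assoc, e, one_mul]
      _ ≤ Real.exp (nu f a b / 2) * Mv f a b X Z :=
          mul_le_mul_of_nonneg_left hk (Real.exp_pos _).le

/-- Lower bound for `Lv` through lower bounds for `N` and `M` (monotonicity of
`log M + (log (N/M))²/ν` in both variables for `κ N ≤ M ≤ N`). -/
lemma Lv_ge {t : ℝ} (ht : 0 ≤ t) (hν : t < nu f a b) (hD : 4 * a ^ 3 + 27 * b ^ 2 ≠ 0)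
    {X Z : ℚ} (h : ¬ (X = 0 ∧ Z = 0))
    {M₀ N₀ : ℝ} (hM0 : 0 < M₀) (h1 : kap f a b * N₀ ≤ M₀) (h2 : M₀ ≤ N₀)
    (hM : M₀ ≤ Mv f a b X Z) (hN : N₀ ≤ Nv f a b X Z) :
    Real.log M₀ + Real.log (N₀ / M₀) ^ 2 / nu f a b ≤ Lv f a b t X Z := by
  have hν0 : 0 < nu f a b := lt_of_le_of_lt ht hν
  have hMp := Mv_pos f a b hD h
  have hNp := Nv_pos f a b hD h
  have hN0 : 0 < N₀ := lt_of_lt_of_le hM0 h2
  have hkp := kap_pos f a b
  have hlk : Real.log (kap f a b) = -(nu f a b) / 2 := by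
    unfold kap
    rw [Real.log_exp]
  have a1 : Real.log M₀ ≤ Real.log (Mv f a b X Z) := Real.log_le_log hM0 hM
  have a2 : Real.log N₀ ≤ Real.log (Nv f a b X Z) := Real.log_le_log hN0 hN
  have a3 : Real.log M₀ ≤ Real.log N₀ := Real.log_le_log hM0 h2
  have a4 : Real.log (Mv f a b X Z) ≤ Real.log (Nv f a b X Z) :=
    Real.log_le_log hMp (Mv_le f a b hν0.le)
  have a5 : -(nu f a b) / 2 + Real.log N₀ ≤ Real.log M₀ := by
    rw [← hlk, ← Real.log_mul hkp.ne' hN0.ne']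
    exact Real.log_le_log (mul_pos hkp hN0) h1
  have a6 : -(nu f a b) / 2 + Real.log (Nv f a b X Z) ≤ Real.log (Mv f a b X Z) := by
    rw [← hlk, ← Real.log_mul hkp.ne' hNp.ne']
    exact Real.log_le_log (mul_pos hkp hNp) (kapN_le f a b X Z)
  unfold Lv Tv
  rw [if_neg (not_le.2 hν), Real.log_div hNp.ne' hMp.ne', Real.log_div hN0.ne' hM0.ne']
  generalize Real.log (Mv f a b X Z) = m at *
  generalize Real.log (Nv f a b X Z) = n at *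
  generalize Real.log M₀ = m0 at *
  generalize Real.log N₀ = n0 at *
  generalize nu f a b = ν at *
  have key : 0 ≤ ((n - m) ^ 2 - (n0 - m0) ^ 2) + (m - m0) * ν := by
    have k1 : 0 ≤ (n - n0) * ((n - m) + (n0 - m0)) :=
      mul_nonneg (by linarith) (by linarith)
    have k2 : 0 ≤ (m - m0) * (ν - ((n - m) + (n0 - m0))) :=
      mul_nonneg (by linarith) (by linarith)
    nlinarith [k1, k2]
  have key2 : 0 ≤ (((n - m) ^ 2 - (n0 - m0) ^ 2) + (m - m0) * ν) / ν := div_nonneg key hν0.le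
  have e : (((n - m) ^ 2 - (n0 - m0) ^ 2) + (m - m0) * ν) / ν
      = (n - m) ^ 2 / ν - (n0 - m0) ^ 2 / ν + (m - m0) := by
    field_simp
  rw [e] at key2
  linarith

/-- If `ν ≤ t`, then `Lv = log N`. -/
lemma Lv_eq_of_le {t : ℝ} (hν : nu f a b ≤ t) (X Z : ℚ) :
    Lv f a b t X Z = Real.log (Nv f a b X Z) := by
  unfold Lv Tv
  rw [if_pos hν]
  simp

lemma Lv_scale {t : ℝ} (hD : 4 * a ^ 3 + 27 * b ^ 2 ≠ 0) {X Z m : ℚ} (h : ¬ (X = 0 ∧ Z = 0))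
    (hm : m ≠ 0) : Lv f a b t (m * X) (m * Z) = Real.log (f m) + Lv f a b t X Z := by
  have hfm : 0 < f m := f.pos hm
  have eN : Nv f a b (m * X) (m * Z) = f m * Nv f a b X Z := by
    unfold Nv
    rw [f.map_mul, f.map_mul, mul_max_of_nonneg _ _ hfm.le]
    congr 1
    ring
  have eM : Mv f a b (m * X) (m * Z) = f m * Mv f a b X Z := by
    unfold Mv
    rw [eN]
    have ew : wv a b (m * X) (m * Z) = m * wv a b X Z := by
      unfold wv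
      ring
    rw [ew, f.map_mul, mul_max_of_nonneg _ _ hfm.le, mul_min_of_nonneg _ _ hfm.le]
    congr 1
    ring
  have eT : Tv f a b t (m * X) (m * Z) = Tv f a b t X Z := by
    unfold Tv
    rw [eN, eM, mul_div_mul_left _ _ hfm.ne']
  unfold Lv
  rw [eT, eN, Real.log_mul hfm.ne' (Nv_pos f a b hD h).ne']
  ring

lemma Lv_le {t : ℝ} (ht : 0 ≤ t) (hD : 4 * a ^ 3 + 27 * b ^ 2 ≠ 0) {X Z : ℚ}
    (h : ¬ (X = 0 ∧ Z = 0)) : Lv f a b t X Z ≤ Real.log (Nv f a b X Z) := by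
  by_cases h1 : nu f a b ≤ t
  · rw [Lv_eq_of_le f a b h1]
  · have hν : 0 < nu f a b := lt_of_le_of_lt ht (not_le.1 h1)
    have t0 := Tv_nonneg f a b ht hD h
    have t1 := Tv_le f a b ht hD h hν.le
    unfold Lv
    generalize Tv f a b t X Z = T at *
    have : T ^ 2 / nu f a b ≤ T := by
      rw [div_le_iff₀ hν]
      nlinarith
    linarith
end Basic

end Pool.Agent.H24.LQ
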