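import Pool.Agent.H24.LQ.Weights

/-!
# Few points of small height
-/

namespace Pool.Agent.H24.LQ

open Pool.Agent.H24.LP Finset

/-- The height data: `g(2P) = 4g(P)`, `|g - nh| ≤ 20 L`, `SS - C ≤ g`. -/
structure IsHt (C : ℝ) {a b : ℤ} (g : (curve a b).Point → ℝ) : Prop where
  dbl : ∀ P, g (P + P) = 4 * g P
  near : ∀ P, |g P - nh P| ≤ 20 * L a b
  ge : ∀ P, SS P - C ≤ g P

/-- One cell, points with pairwise distinct abscissas. -/
theorem cell_bound : ∃ C₀ : ℝ, 1 ≤ C₀ ∧ ∀ C : ℝ, 0 ≤ C → ∀ a b : ℤ, QuasiMinimal a b →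
    ∀ T : Finset ℕ, C₀ + 1000 * C ≤ GT a b T → ∀ g : (curve a b).Point → ℝ, IsHt C g →
    ∀ s : Finset (curve a b).Point, (∀ P ∈ s, g P ≤ GT a b T / 1000) →
    (∀ P ∈ s, ∀ Q ∈ s, P ≠ Q → repX P * repZ Q - repX Q * repZ P ≠ 0) →
    (∀ v ∈ insert 0 T, ∀ P ∈ s, ∀ Q ∈ s, |tau v P - tau v Q| ≤ 1 / 24) →
    (s.card : ℝ) ≤ 1000 * L a b / GT a b T := by
  classical
  obtain ⟨C₁, hC₁, hpair⟩ := pair_SS
  refine ⟨1000 * (C₁ + 1), by linarith, fun C hC a b hq T hG g hg s hs hW hcell => ?_⟩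
  have hD := hq.ne
  obtain ⟨cl, hcl⟩ := hpair a b hq
  have hG0 : 0 < GT a b T := by linarith
  have key := energy_abs s g (places a b) (addPrimes a b) (nup a b) (fun p => Real.log p / 6)
    (Ew a b T) tau cl (C₁ + 2 * C) (GT a b T / 1000)
    (fun v _ => nup_nonneg a b v)
    (fun p _ => div_nonneg (HeightData.log_nonneg' p) (by norm_num))
    (by linarith) (by positivity) hs
    (fun P hP Q hQ hne => by
      have h1 := hcl P Q (hW P hP Q hQ hne)
      have h2 := hg.ge P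
      have h3 := hg.ge Q
      unfold beta at h1
      linarith)
    (fun v _ => energy_place hD T s hcell v)
  have hw := weight_sum hD T
  have hn := sum_nup_le (a := a) (b := b) hD
  have ha1 := sum_add_le hD
  have ha2 := sum_add_log_le a b
  have hL := half_le_L a b
  have hR : (∑ v ∈ places a b, nup a b v) / 6 + ∑ p ∈ addPrimes a b, Real.log p / 6 ≤
      5 * L a b := by
    rw [← Finset.sum_div]
    linarith
  have hM0 : (0 : ℝ) ≤ s.card := Nat.cast_nonneg _
  have hfac : GT a b T / 200 ≤ (∑ v ∈ places a b, nup a b v * Ew a b T v) / 2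
      + (∑ p ∈ addPrimes a b, Real.log p / 6) / 4 - 2 * (GT a b T / 1000) - (C₁ + 2 * C) := by
    linarith
  have h1 : (s.card : ℝ) * (GT a b T / 200) ≤ 5 * L a b :=
    (mul_le_mul_of_nonneg_left hfac hM0).trans (key.trans hR)
  rw [le_div_iff₀ hG0]
  linarith

end Pool.Agent.H24.LQ
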