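import Pool.Agent.H24.LP.Defs

/-!
# Local functions on the x-line of an elliptic curve
-/

namespace Pool.Agent.H24.LQ

open Pool.Agent.H24.LP

/-- First form of the duplication map. -/
def Phi {R : Type*} [CommRing R] (a b X Z : R) : R :=
  X ^ 4 - 2 * a * X ^ 2 * Z ^ 2 - 8 * b * X * Z ^ 3 + a ^ 2 * Z ^ 4

/-- Second form of the duplication map. -/
def Psi {R : Type*} [CommRing R] (a b X Z : R) : R :=
  4 * Z * (X ^ 3 + a * X * Z ^ 2 + b * Z ^ 3)

section Local

variable (f : AbsoluteValue ℚ ℝ) (a b : ℚ)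

/-- `s = max(|a|^{1/2}, |b|^{1/3})`. -/
noncomputable def sv : ℝ := max (Real.sqrt (f a)) (f b ^ ((1 : ℝ) / 3))

/-- `ν = log(s⁶/|D|)`. -/
noncomputable def nu : ℝ := Real.log (sv f a b ^ 6 / f (4 * a ^ 3 + 27 * b ^ 2))

/-- `κ = exp(-ν/2)`. -/
noncomputable def kap : ℝ := Real.exp (-(nu f a b) / 2)

/-- `N = max(|X|, s |Z|)`. -/
noncomputable def Nv (X Z : ℚ) : ℝ := max (f X) (sv f a b * f Z)

/-- The node coordinate `w = X - e Z`, `e = - 3b/(2a)`. -/
def wv (a b X Z : ℚ) : ℚ := X + 3 * b / (2 * a) * Z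

/-- `M = max(min(|w|, N), κ N)`. -/
noncomputable def Mv (X Z : ℚ) : ℝ :=
  max (min (f (wv a b X Z)) (Nv f a b X Z)) (kap f a b * Nv f a b X Z)

/-- `T = log(N/M)` if `ν > t`, else `0`. -/
noncomputable def Tv (t : ℝ) (X Z : ℚ) : ℝ :=
  if nu f a b ≤ t then 0 else Real.log (Nv f a b X Z / Mv f a b X Z)

/-- `log N - T + T²/ν`. -/
noncomputable def Lv (t : ℝ) (X Z : ℚ) : ℝ :=
  Real.log (Nv f a b X Z) - Tv f a b t X Z + Tv f a b t X Z ^ 2 / nu f a b

end Local

/-- The absolute value at the place `v`: the `p`-adic one if `v = p` is prime, else the usual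
one (used with `v = 0`). -/
noncomputable def fv (v : ℕ) : AbsoluteValue ℚ ℝ :=
  if h : v.Prime then @Rat.AbsoluteValue.padic v ⟨h⟩ else Rat.AbsoluteValue.real

/-- The threshold: `0` at `p ≥ 5`, `100` at `2`, `3` and infinity. -/
noncomputable def thr (v : ℕ) : ℝ := if 5 ≤ v then 0 else 100

/-- The places: infinity (`0`) and the primes dividing `6 D`. -/
def places (a b : ℤ) : Finset ℕ := insert 0 (6 * D a b).natAbs.primeFactors

/-- First coordinate of the reduced representative of `x(P)`. -/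
def repX {a b : ℤ} : (curve a b).Point → ℤ
  | .zero => 1
  | .some x _ _ => x.num

/-- Second coordinate of the reduced representative of `x(P)`. -/
def repZ {a b : ℤ} : (curve a b).Point → ℤ
  | .zero => 0
  | .some x _ _ => x.den

/-- The naive height of `x(P)`. -/
noncomputable def nh {a b : ℤ} (P : (curve a b).Point) : ℝ :=
  Real.log (max |(repX P : ℝ)| |(repZ P : ℝ)|)

/-- The sum of the local functions. -/
noncomputable def SS {a b : ℤ} (P : (curve a b).Point) : ℝ :=
  ∑ v ∈ places a b, Lv (fv v) a b (thr v) (repX P) (repZ P)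

/-- `G_T = 1 + log⁺|j| + ∑_{p ∈ T} n_p log p + ∑_{p ∣ den j} (log p)/n_p + ∑_{p additive} log p`. -/
noncomputable def GT (a b : ℤ) (T : Finset ℕ) : ℝ :=
  1 + wInf a b + ∑ p ∈ T, (np a b p : ℝ) * Real.log p
    + ∑ p ∈ poles a b, Real.log p / np a b p + ∑ p ∈ addPrimes a b, Real.log p

end Pool.Agent.H24.LQ
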