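import Pool.Agent.H24.LQ.Large
import Pool.Agent.H24.LQ.Bounds
import Pool.Agent.H24.LP.Small2

/-!
# Integral points: the count
-/

namespace Pool.Agent.H24.LQ

open Pool.Agent.H24.LP Finset

lemma nonsing {a b : ℤ} (hD : D a b ≠ 0) {x y : ℤ} (h : y ^ 2 = x ^ 3 + a * x + b) :
    (curve a b).Nonsingular (x : ℚ) (y : ℚ) := by
  have hΔ : (curve a b).Δ ≠ 0 := by
    have e : (curve a b).Δ = -16 * (4 * (a : ℚ) ^ 3 + 27 * (b : ℚ) ^ 2) := by
      simp only [curve, WeierstrassCurve.Δ, WeierstrassCurve.b₂, WeierstrassCurve.b₄,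
        WeierstrassCurve.b₆, WeierstrassCurve.b₈]
      ring
    rw [e]
    exact mul_ne_zero (by norm_num) (D_cast_ne hD)
  rw [← WeierstrassCurve.Affine.equation_iff_nonsingular_of_Δ_ne_zero hΔ,
    WeierstrassCurve.Affine.equation_iff]
  have h' : ((y ^ 2 : ℤ) : ℚ) = ((x ^ 3 + a * x + b : ℤ) : ℚ) := by rw [h]
  push_cast at h'
  simp only [curve]
  linear_combination h'

/-- The point of an integral point. -/
noncomputable def toPt {a b : ℤ} (hD : D a b ≠ 0) (z : ℤ × ℤ) : (curve a b).Point := by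
  classical
  exact if h : z.2 ^ 2 = z.1 ^ 3 + a * z.1 + b then
    WeierstrassCurve.Affine.Point.some (z.1 : ℚ) (z.2 : ℚ) (nonsing hD h) else 0

lemma toPt_eq {a b : ℤ} (hD : D a b ≠ 0) {z : ℤ × ℤ} (h : z.2 ^ 2 = z.1 ^ 3 + a * z.1 + b) :
    toPt hD z = WeierstrassCurve.Affine.Point.some (z.1 : ℚ) (z.2 : ℚ) (nonsing hD h) := by
  unfold toPt
  rw [dif_pos h]

lemma nh_toPt {a b : ℤ} (hD : D a b ≠ 0) {z : ℤ × ℤ} (h : z ∈ integralPoints a b) :
    nh (toPt hD z) = Real.log (max |(z.1 : ℝ)| 1) := by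
  rw [toPt_eq hD h]
  have e1 : repX (WeierstrassCurve.Affine.Point.some (z.1 : ℚ) (z.2 : ℚ) (nonsing hD h)) = z.1 := by
    simp [repX]
  have e2 : repZ (WeierstrassCurve.Affine.Point.some (z.1 : ℚ) (z.2 : ℚ) (nonsing hD h)) = 1 := by
    simp [repZ]
  unfold nh
  rw [e1, e2]
  simp

lemma toPt_injOn {a b : ℤ} (hD : D a b ≠ 0) : Set.InjOn (toPt hD) (integralPoints a b) := by
  intro z hz z' hz' h
  rw [toPt_eq hD hz, toPt_eq hD hz'] at h
  have h1 := WeierstrassCurve.Affine.Point.some.inj h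
  refine Prod.ext ?_ ?_
  · exact_mod_cast h1.1
  · exact_mod_cast h1.2

/-- A trivial bound for the number of integral points with `|x| ≤ X`. -/
lemma trivial_count {a b : ℤ} (X : ℕ) (s : Finset (ℤ × ℤ)) (hs : ∀ z ∈ s, z ∈ integralPoints a b)
    (hX : ∀ z ∈ s, |z.1| ≤ X) : s.card ≤ 2 * (2 * X + 1) := by
  classical
  have h1 : s.card ≤ 2 * (s.image Prod.fst).card := by
    refine Finset.card_le_mul_card_image s 2 fun x _ => ?_
    rcases (s.filter fun z => z.1 = x).eq_empty_or_nonempty with h | ⟨w, hw⟩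
    · rw [h]; simp
    rw [Finset.mem_filter] at hw
    have hsub : (s.filter fun z => z.1 = x) ⊆ {(x, w.2), (x, -w.2)} := by
      intro z hz
      rw [Finset.mem_filter] at hz
      have e1 : z.2 ^ 2 = z.1 ^ 3 + a * z.1 + b := hs z hz.1
      have e2 : w.2 ^ 2 = w.1 ^ 3 + a * w.1 + b := hs w hw.1
      rw [hz.2] at e1
      rw [hw.2] at e2
      have e3 : z.2 ^ 2 = w.2 ^ 2 := by rw [e1, e2]
      rcases sq_eq_sq_iff_eq_or_eq_neg.mp e3 with e | e
      · simp only [Finset.mem_insert, Finset.mem_singleton]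
        left
        exact Prod.ext hz.2 e
      · simp only [Finset.mem_insert, Finset.mem_singleton]
        right
        exact Prod.ext hz.2 e
    exact (Finset.card_le_card hsub).trans Finset.card_le_two
  have h2 : (s.image Prod.fst).card ≤ 2 * X + 1 := by
    have hsub : s.image Prod.fst ⊆ Finset.Icc (-(X : ℤ)) X := by
      intro x hx
      obtain ⟨z, hz, rfl⟩ := Finset.mem_image.mp hx
      rw [Finset.mem_Icc]
      exact abs_le.mp (hX z hz)
    refine (Finset.card_le_card hsub).trans ?_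
    rw [Int.card_Icc]
    omega
  omega

lemma G_le_GT {a b : ℤ} {T : Finset ℕ} {q : ℕ} (hqT : q ∈ T)
    (hq : (np a b q : ℝ) * Real.log q = ⨆ p : ℕ, (np a b p : ℝ) * Real.log p) :
    G a b ≤ GT a b T := by
  have h : (np a b q : ℝ) * Real.log q ≤ ∑ p ∈ T, (np a b p : ℝ) * Real.log p :=
    Finset.single_le_sum (f := fun p : ℕ => (np a b p : ℝ) * Real.log p)
      (fun p _ => mul_nonneg (Nat.cast_nonneg _) (HeightData.log_nonneg' p)) hqT
  unfold G GT
  linarith

/-- The main theorem, `K ≥ 1`. -/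
theorem main_aux (K : ℝ) (hK : 1 ≤ K) : ∃ C : ℝ, 1 ≤ C ∧ ∀ a b : ℤ, QuasiMinimal a b →
    ∀ r : ℕ, Module.rank ℤ (curve a b).Point ≤ r → ∀ T : Finset ℕ,
    ∀ s : Finset (ℤ × ℤ), (∀ z ∈ s, z ∈ integralPoints a b ∧ |(z.1 : ℝ)| ≤ Real.exp (K * L a b)) →
    (s.card : ℝ) ≤ C ^ (1 + r + T.card) * (L a b / GT a b T) ^ (1 + (r : ℝ) / 2) := by
  classical
  obtain ⟨C₁, hC₁, hmain⟩ := main_large K hK
  set X : ℕ := ⌈Real.exp (K * (30 * C₁ ^ 3))⌉₊ with hX
  set C₂ : ℝ := 54 * (2 * (2 * (X : ℝ) + 1)) with hC₂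
  have hX0 : (0 : ℝ) ≤ X := Nat.cast_nonneg _
  have hC₂1 : 1 ≤ C₂ := by rw [hC₂]; linarith
  refine ⟨C₁ ^ 2 + C₂, by nlinarith, fun a b hq r hr T s hs => ?_⟩
  have hD := hq.ne
  have hL := L_pos a b
  obtain ⟨q, hqmax⟩ := exists_max a b
  have hGT1 := one_le_GT a b T
  have hG0 : 0 < GT a b T := by linarith
  have hq54 : 1 / 54 ≤ L a b / GT a b T := by
    rw [le_div_iff₀ hG0]
    have := GT_le hD T
    linarith
  have hr2 : (0 : ℝ) ≤ 1 + (r : ℝ) / 2 := by positivity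
  have hqpos : 0 < L a b / GT a b T := by positivity
  by_cases hbig : C₁ ≤ GT a b (insert q T)
  · -- the large case
    have h1 := hmain a b hq r hr (insert q T) hbig (s.image (toPt hD)) (by
      intro P hP
      obtain ⟨z, hz, rfl⟩ := Finset.mem_image.mp hP
      have h2 := hs z hz
      rw [nh_toPt hD h2.1]
      have hpos : 0 < max |(z.1 : ℝ)| 1 := lt_of_lt_of_le one_pos (le_max_right _ _)
      rw [Real.log_le_iff_le_exp hpos]
      refine max_le h2.2 ?_
      rw [Real.one_le_exp_iff]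
      positivity)
    rw [Finset.card_image_of_injOn (fun z hz z' hz' h => toPt_injOn hD (hs z hz).1 (hs z' hz').1 h)]
      at h1
    have hGT' : GT a b T ≤ GT a b (insert q T) := GT_mono (Finset.subset_insert _ _)
    have h3 : (L a b / GT a b (insert q T)) ^ (1 + (r : ℝ) / 2) ≤
        (L a b / GT a b T) ^ (1 + (r : ℝ) / 2) := by
      refine Real.rpow_le_rpow (by have := one_le_GT a b (insert q T); positivity) ?_ hr2
      gcongr
    have h4 : C₁ ^ (1 + r + (insert q T).card) ≤ (C₁ ^ 2 + C₂) ^ (1 + r + T.card) := by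
      have hc : (insert q T).card ≤ T.card + 1 := Finset.card_insert_le _ _
      calc C₁ ^ (1 + r + (insert q T).card) ≤ C₁ ^ (2 * (1 + r + T.card)) :=
            pow_le_pow_right₀ hC₁ (by omega)
        _ = (C₁ ^ 2) ^ (1 + r + T.card) := pow_mul _ _ _
        _ ≤ _ := by gcongr; linarith
    refine h1.trans ?_
    have h6 : 0 ≤ (L a b / GT a b (insert q T)) ^ (1 + (r : ℝ) / 2) :=
      Real.rpow_nonneg (by have := one_le_GT a b (insert q T); positivity) _
    gcongr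
  · -- `L` is bounded
    push Not at hbig
    have hGle : G a b ≤ C₁ := (G_le_GT (Finset.mem_insert_self q T) hqmax).trans hbig.le
    have hG1 := one_le_G a b
    have hLle : L a b ≤ 30 * C₁ ^ 3 := by
      refine (L_le_cube hq).trans ?_
      gcongr
    have h1 : s.card ≤ 2 * (2 * X + 1) := by
      refine trivial_count X s (fun z hz => (hs z hz).1) fun z hz => ?_
      have h2 := (hs z hz).2
      have h3 : |(z.1 : ℝ)| ≤ (X : ℝ) := by
        refine h2.trans (le_trans ?_ (Nat.le_ceil _))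
        rw [Real.exp_le_exp]
        gcongr
      exact_mod_cast h3
    have h2 : (s.card : ℝ) ≤ 2 * (2 * (X : ℝ) + 1) := by exact_mod_cast h1
    have h3 : (1 / 54 : ℝ) ^ (1 + r + T.card) ≤ (L a b / GT a b T) ^ (1 + (r : ℝ) / 2) := by
      calc (1 / 54 : ℝ) ^ (1 + r + T.card) = (1 / 54 : ℝ) ^ ((1 + r + T.card : ℕ) : ℝ) :=
            (Real.rpow_natCast _ _).symm
        _ ≤ (1 / 54 : ℝ) ^ (1 + (r : ℝ) / 2) := by
            refine Real.rpow_le_rpow_of_exponent_ge (by norm_num) (by norm_num) ?_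
            push_cast
            have h5 : (0 : ℝ) ≤ r := Nat.cast_nonneg r
            have h6 : (0 : ℝ) ≤ T.card := Nat.cast_nonneg _
            linarith
        _ ≤ _ := Real.rpow_le_rpow (by norm_num) hq54 hr2
    have h4 : C₂ ^ (1 + r + T.card) ≤ (C₁ ^ 2 + C₂) ^ (1 + r + T.card) := by
      gcongr
      nlinarith
    have h5 : (2 * (2 * (X : ℝ) + 1)) ≤ C₂ ^ (1 + r + T.card) * (1 / 54 : ℝ) ^ (1 + r + T.card) := by
      rw [← mul_pow]
      have e : C₂ * (1 / 54) = 2 * (2 * (X : ℝ) + 1) := by rw [hC₂]; ring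
      rw [e]
      exact le_self_pow₀ (by linarith) (by omega)
    calc (s.card : ℝ) ≤ 2 * (2 * (X : ℝ) + 1) := h2
      _ ≤ C₂ ^ (1 + r + T.card) * (1 / 54 : ℝ) ^ (1 + r + T.card) := h5
      _ ≤ _ := by gcongr

/-- The main theorem. -/
theorem main (K : ℝ) : ∃ C : ℝ, 1 ≤ C ∧ ∀ a b : ℤ, QuasiMinimal a b →
    ∀ r : ℕ, Module.rank ℤ (curve a b).Point ≤ r → ∀ T : Finset ℕ,
    {z ∈ integralPoints a b | |(z.1 : ℝ)| ≤ Real.exp (K * L a b)}.Finite ∧
    ({z ∈ integralPoints a b | |(z.1 : ℝ)| ≤ Real.exp (K * L a b)}.ncard : ℝ) ≤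
      C ^ (1 + r + T.card) * (L a b / GT a b T) ^ (1 + (r : ℝ) / 2) := by
  obtain ⟨C, hC, h⟩ := main_aux (max 1 K) (le_max_left _ _)
  refine ⟨C, hC, fun a b hq r hr T => ?_⟩
  have hL := L_pos a b
  have hG := one_le_GT a b T
  set Bd : ℝ := C ^ (1 + r + T.card) * (L a b / GT a b T) ^ (1 + (r : ℝ) / 2) with hBd
  have hBd0 : 0 ≤ Bd := by positivity
  have h1 := finite_of_card_le (X := {z ∈ integralPoints a b |
    |(z.1 : ℝ)| ≤ Real.exp (K * L a b)}) (N := ⌊Bd⌋₊) (by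
      intro s hs
      rw [Nat.le_floor_iff hBd0]
      refine h a b hq r hr T s fun z hz => ?_
      have h2 := hs hz
      refine ⟨h2.1, h2.2.trans ?_⟩
      rw [Real.exp_le_exp]
      exact mul_le_mul_of_nonneg_right (le_max_right _ _) hL.le)
  exact ⟨h1.1, (Nat.le_floor_iff hBd0).mp h1.2⟩

end Pool.Agent.H24.LQ
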