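import Pool.Agent.H24.LQ.Total
import Pool.Agent.H24.LQ.Class

/-!
# The count of points of bounded height
-/

namespace Pool.Agent.H24.LQ

open Pool.Agent.H24.LP Finset

lemma GT_terms (a b : ℤ) (T : Finset ℕ) :
    0 ≤ ∑ p ∈ T, (np a b p : ℝ) * Real.log p ∧ 0 ≤ ∑ p ∈ poles a b, Real.log p / np a b p ∧
      0 ≤ ∑ p ∈ addPrimes a b, Real.log (p : ℝ) :=
  ⟨Finset.sum_nonneg fun p _ => mul_nonneg (Nat.cast_nonneg _) (HeightData.log_nonneg' p),
    Finset.sum_nonneg fun p _ => div_nonneg (HeightData.log_nonneg' p) (Nat.cast_nonneg _),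
    Finset.sum_nonneg fun p _ => HeightData.log_nonneg' p⟩

lemma one_le_GT (a b : ℤ) (T : Finset ℕ) : 1 ≤ GT a b T := by
  obtain ⟨h1, h2, h3⟩ := GT_terms a b T
  have hw := HeightData.wInf_nonneg (a := a) (b := b)
  unfold GT
  linarith

lemma GT_mono {a b : ℤ} {T T' : Finset ℕ} (h : T ⊆ T') : GT a b T ≤ GT a b T' := by
  have : ∑ p ∈ T, (np a b p : ℝ) * Real.log p ≤ ∑ p ∈ T', (np a b p : ℝ) * Real.log p :=
    Finset.sum_le_sum_of_subset_of_nonneg h
      fun p _ _ => mul_nonneg (Nat.cast_nonneg _) (HeightData.log_nonneg' p)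
  unfold GT
  linarith

lemma GT_le {a b : ℤ} (hD : D a b ≠ 0) (T : Finset ℕ) : GT a b T ≤ 54 * L a b := by
  classical
  have h1 := wInf_le hD
  have h2 : ∑ p ∈ T, (np a b p : ℝ) * Real.log p ≤ ∑ p ∈ poles a b, (np a b p : ℝ) * Real.log p := by
    have e : ∑ p ∈ T, (np a b p : ℝ) * Real.log p
        = ∑ p ∈ T.filter (fun p => p ∈ poles a b), (np a b p : ℝ) * Real.log p := by
      rw [Finset.sum_filter]
      refine Finset.sum_congr rfl fun p _ => ?_
      split_ifs with h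
      · rfl
      · rw [np_eq_zero h]; simp
    rw [e]
    refine Finset.sum_le_sum_of_subset_of_nonneg (fun p hp => (Finset.mem_filter.mp hp).2)
      fun p _ _ => mul_nonneg (Nat.cast_nonneg _) (HeightData.log_nonneg' p)
  have h3 : ∑ p ∈ poles a b, Real.log p / np a b p ≤ 11 * L a b :=
    le_trans (Finset.sum_le_sum fun p hp => div_le_mul_np hp) (sum_poles_le hD)
  have h4 := sum_poles_le hD
  have h5 := (sum_add_log_le a b).trans (sum_add_le hD)
  have h6 := half_le_L a b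
  unfold GT
  linarith

variable {C : ℝ} {a b : ℤ} {g : (curve a b).Point → ℝ}

lemma g_pow (hg : IsHt C g) (k : ℕ) (P : (curve a b).Point) : g (2 ^ k • P) = 4 ^ k * g P := by
  induction k with
  | zero => simp
  | succ k ih =>
    rw [pow_succ, mul_comm, mul_smul, two_nsmul, hg.dbl, ih, pow_succ]
    ring

lemma g_torsion (hg : IsHt C g) {τ : (curve a b).Point} {k : ℕ} (hk : k ≠ 0)
    (h : k • τ = 0) : g τ = 0 := by
  classical
  -- the multiples of `τ` form a finite set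
  have hfin : (Set.range fun n : ℕ => |g (n • τ)|).Finite := by
    have hsub : (Set.range fun n : ℕ => |g (n • τ)|) ⊆
        ((Finset.range k).image fun n : ℕ => |g (n • τ)| : Finset ℝ) := by
      rintro _ ⟨n, rfl⟩
      rw [Finset.coe_image]
      refine ⟨n % k, by simpa using Nat.mod_lt n (Nat.pos_of_ne_zero hk), ?_⟩
      have e : n • τ = (n % k) • τ := by
        conv_lhs => rw [← Nat.mod_add_div n k]
        rw [add_smul, mul_comm k (n / k), mul_smul, h, nsmul_zero, add_zero]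
      simp only [e]
    exact (Finset.finite_toSet _).subset hsub
  obtain ⟨B, hB⟩ := hfin.bddAbove
  have hB' : ∀ n : ℕ, |g (n • τ)| ≤ B := fun n => hB ⟨n, rfl⟩
  by_contra hne
  have hpos : 0 < |g τ| := abs_pos.mpr hne
  obtain ⟨n, hn⟩ := pow_unbounded_of_one_lt (B / |g τ|) (by norm_num : (1 : ℝ) < 4)
  have h1 := hB' (2 ^ n)
  rw [g_pow hg, abs_mul, abs_of_pos (by positivity : (0 : ℝ) < 4 ^ n)] at h1
  rw [div_lt_iff₀ hpos] at hn
  linarith

/-- The upper bound for the height of a difference. -/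
lemma g_diff (hg : IsHt C g) (hD : D a b ≠ 0) {K : ℝ} (hK : 1 ≤ K) {P Q τ : (curve a b).Point}
    (hP : nh P ≤ K * L a b) (hQ : nh Q ≤ K * L a b) {k : ℕ} (hk : k ≠ 0) (hτ : k • τ = 0) :
    g (P - Q - τ) ≤ 400 * K * L a b := by
  have hL := L_pos a b
  have h1 := nh_add hD (P - Q) (-τ)
  have h2 := nh_add hD P (-Q)
  rw [nh_neg] at h1 h2
  rw [← sub_eq_add_neg] at h1 h2
  have h3 := abs_le.mp (hg.near (P - Q - τ))
  have h4 := abs_le.mp (hg.near τ)
  rw [g_torsion hg hk hτ] at h4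
  have h5 : L a b ≤ K * L a b := by nlinarith
  linarith [h3.1, h3.2, h4.1, h4.2]

/-- The count when `G_T` is large. -/
theorem main_large (K : ℝ) (hK : 1 ≤ K) : ∃ C₁ : ℝ, 1 ≤ C₁ ∧ ∀ a b : ℤ, QuasiMinimal a b →
    ∀ r : ℕ, Module.rank ℤ (curve a b).Point ≤ r → ∀ T : Finset ℕ, C₁ ≤ GT a b T →
    ∀ S : Finset (curve a b).Point, (∀ P ∈ S, nh P ≤ K * L a b) →
    (S.card : ℝ) ≤ C₁ ^ (1 + r + T.card) * (L a b / GT a b T) ^ (1 + (r : ℝ) / 2) := by
  classical
  obtain ⟨C, hC, hht⟩ := exists_height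
  obtain ⟨C₀, hC₀, hsmall⟩ := small_total
  set C₁ : ℝ := 1600000 * K + C₀ + 1000 * C with hC₁
  refine ⟨C₁, by linarith, fun a b hq r hr T hG S hS => ?_⟩
  have hD := hq.ne
  obtain ⟨g, g1, g2, g3⟩ := hht a b hD
  have hg : IsHt C g := ⟨g1, g2, g3⟩
  have hL := L_pos a b
  have hG0 : 0 < GT a b T := by have := one_le_GT a b T; linarith
  set q : ℝ := L a b / GT a b T with hqdef
  have hq54 : 1 / 54 ≤ q := by
    rw [hqdef, le_div_iff₀ hG0]
    have := GT_le hD T
    linarith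
  have hq0 : 0 < q := by linarith
  -- the power of two
  obtain ⟨j, hj1, hj2⟩ := exists_nat_pow_near (x := 400000 * K * q) (y := (4 : ℝ))
    (by nlinarith) (by norm_num)
  set k := j + 1 with hkdef
  have hk1 : 400000 * K * q ≤ 4 ^ k := hj2.le
  have hk2 : (4 : ℝ) ^ k ≤ 1600000 * K * q := by
    rw [hkdef, pow_succ]; linarith
  set B : ℝ := 2 * 13 ^ (T.card + 1) * (1000 * L a b / GT a b T) with hB
  have hB0 : 0 ≤ B := by positivity
  have hcount : S.card ≤ (2 ^ k) ^ r * ⌊B⌋₊ := by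
    refine class_count' S r (2 ^ k) (by positivity) hr (fun P => g P ≤ GT a b T / 1000) ⌊B⌋₊ ?_ ?_
    · intro s hs
      rw [Nat.le_floor_iff hB0]
      exact hsmall C hC a b hq T (by linarith) g hg s hs
    · intro P hP Q hQ U τ m hm hτ hPQ
      have h1 : P - Q - τ = 2 ^ k • U := by rw [hPQ]; abel
      have h2 := g_diff hg hD hK (hS P hP) (hS Q hQ) hm hτ
      rw [h1, g_pow hg] at h2
      have h4 : (0 : ℝ) < 4 ^ k := by positivity
      have h3 : 400 * K * L a b ≤ 4 ^ k * (GT a b T / 1000) := by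
        have e : 400 * K * L a b = 400000 * K * q * (GT a b T / 1000) := by
          rw [hqdef]; field_simp; ring
        rw [e]
        gcongr
      exact le_of_mul_le_mul_left (h2.trans h3) h4
  have h5 : (S.card : ℝ) ≤ ((2 : ℝ) ^ k) ^ r * B := by
    have h6 : (S.card : ℝ) ≤ ((2 : ℝ) ^ k) ^ r * (⌊B⌋₊ : ℝ) := by exact_mod_cast hcount
    refine h6.trans ?_
    gcongr
    exact Nat.floor_le hB0
  -- the numerical estimate
  have h7 : ((2 : ℝ) ^ k) ^ r ≤ (1600000 * K * q) ^ ((r : ℝ) / 2) := by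
    have e : ((2 : ℝ) ^ k) ^ r = ((4 : ℝ) ^ k) ^ ((r : ℝ) / 2) := by
      have e1 : (4 : ℝ) ^ k = ((2 : ℝ) ^ k) ^ (2 : ℝ) := by
        rw [Real.rpow_two, ← pow_mul, mul_comm, pow_mul]; norm_num
      rw [e1, ← Real.rpow_mul (by positivity), ← Real.rpow_natCast ((2 : ℝ) ^ k) r]
      congr 1
      ring
    rw [e]
    exact Real.rpow_le_rpow (by positivity) hk2 (by positivity)
  have hK0 : 0 < 1600000 * K := by linarith
  have h8 : (1600000 * K * q) ^ ((r : ℝ) / 2) ≤ C₁ ^ r * q ^ ((r : ℝ) / 2) := by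
    rw [Real.mul_rpow hK0.le hq0.le]
    gcongr
    calc (1600000 * K) ^ ((r : ℝ) / 2) ≤ C₁ ^ ((r : ℝ) / 2) :=
          Real.rpow_le_rpow hK0.le (by rw [hC₁]; linarith) (by positivity)
      _ ≤ C₁ ^ (r : ℝ) := Real.rpow_le_rpow_of_exponent_le (by rw [hC₁]; linarith)
          (by have : (0 : ℝ) ≤ r := Nat.cast_nonneg r; linarith)
      _ = C₁ ^ r := Real.rpow_natCast _ _
  have h9 : B ≤ C₁ ^ (1 + T.card) * q := by
    have e : B = 26000 * 13 ^ T.card * q := by
      rw [hB, hqdef, pow_succ]; ring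
    rw [e, pow_add, pow_one]
    gcongr
    · rw [hC₁]; linarith
    · rw [hC₁]; linarith
  calc (S.card : ℝ) ≤ ((2 : ℝ) ^ k) ^ r * B := h5
    _ ≤ (C₁ ^ r * q ^ ((r : ℝ) / 2)) * (C₁ ^ (1 + T.card) * q) := by
        gcongr
        exact h7.trans h8
    _ = C₁ ^ (1 + r + T.card) * (q ^ (1 : ℝ) * q ^ ((r : ℝ) / 2)) := by
        rw [Real.rpow_one]; ring
    _ = C₁ ^ (1 + r + T.card) * q ^ (1 + (r : ℝ) / 2) := by
        rw [← Real.rpow_add hq0]

end Pool.Agent.H24.LQ
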