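import Pool.Agent.H24.LQ.Defs

/-!
# LQ08 NaiveS

The real and integer inequalities used in `Naive` (in a module of its own, compiled in parallel).
-/

namespace Pool.Agent.H24.LQ.NaiveS

open Pool.Agent.H24.LP Pool.Agent.H24.LQ Finset

/-! ### Bounds of monomials -/

lemma mb {a b X Z E M : ℝ} (hE : 1 ≤ E) (ha : |a| ≤ E ^ 2) (hb : |b| ≤ E ^ 3)
    (hX : |X| ≤ M) (hZ : |Z| ≤ M) (c : ℝ) (i j k l n : ℕ) (hn : 2 * i + 3 * j ≤ n) :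
    |c * a ^ i * b ^ j * X ^ k * Z ^ l| ≤ |c| * E ^ n * M ^ (k + l) := by
  have hM : 0 ≤ M := le_trans (abs_nonneg _) hX
  have hE0 : 0 ≤ E := by linarith
  rw [abs_mul, abs_mul, abs_mul, abs_mul, abs_pow, abs_pow, abs_pow, abs_pow]
  calc |c| * |a| ^ i * |b| ^ j * |X| ^ k * |Z| ^ l
      ≤ |c| * (E ^ 2) ^ i * (E ^ 3) ^ j * M ^ k * M ^ l := by gcongr
    _ = |c| * E ^ (2 * i + 3 * j) * M ^ (k + l) := by ring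
    _ ≤ |c| * E ^ n * M ^ (k + l) := by gcongr

lemma Phi_le {a b X Z E M : ℝ} (hE : 1 ≤ E) (ha : |a| ≤ E ^ 2) (hb : |b| ≤ E ^ 3)
    (hX : |X| ≤ M) (hZ : |Z| ≤ M) : |Phi a b X Z| ≤ 12 * E ^ 4 * M ^ 4 := by
  have h1 := abs_le.mp (mb hE ha hb hX hZ 1 0 0 4 0 4 (by norm_num))
  have h2 := abs_le.mp (mb hE ha hb hX hZ 2 1 0 2 2 4 (by norm_num))
  have h3 := abs_le.mp (mb hE ha hb hX hZ 8 0 1 1 3 4 (by norm_num))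
  have h4 := abs_le.mp (mb hE ha hb hX hZ 1 2 0 0 4 4 (by norm_num))
  norm_num at h1 h2 h3 h4
  rw [abs_le, Phi]
  constructor <;> linarith [h1.1, h1.2, h2.1, h2.2, h3.1, h3.2, h4.1, h4.2]

lemma Psi_le {a b X Z E M : ℝ} (hE : 1 ≤ E) (ha : |a| ≤ E ^ 2) (hb : |b| ≤ E ^ 3)
    (hX : |X| ≤ M) (hZ : |Z| ≤ M) : |Psi a b X Z| ≤ 12 * E ^ 4 * M ^ 4 := by
  have h1 := abs_le.mp (mb hE ha hb hX hZ 4 0 0 3 1 4 (by norm_num))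
  have h2 := abs_le.mp (mb hE ha hb hX hZ 4 1 0 1 3 4 (by norm_num))
  have h3 := abs_le.mp (mb hE ha hb hX hZ 4 0 1 0 4 4 (by norm_num))
  norm_num at h1 h2 h3
  rw [abs_le, Psi]
  constructor <;> nlinarith [h1.1, h1.2, h2.1, h2.2, h3.1, h3.2]

lemma id1 (a b X Z : ℝ) : 4 * (4 * a ^ 3 + 27 * b ^ 2) * Z ^ 7 =
    (12 * X ^ 2 * Z + 16 * a * Z ^ 3) * Phi a b X Z
      - (3 * X ^ 3 - 5 * a * X * Z ^ 2 - 27 * b * Z ^ 3) * Psi a b X Z := by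
  rw [Phi, Psi]; ring

lemma id2 (a b X Z : ℝ) : 4 * (4 * a ^ 3 + 27 * b ^ 2) * X ^ 7 =
    (4 * (4 * a ^ 3 + 27 * b ^ 2) * X ^ 3 - 4 * a ^ 2 * b * X ^ 2 * Z
        + 4 * a * (3 * a ^ 3 + 22 * b ^ 2) * X * Z ^ 2
        + 12 * b * (a ^ 3 + 8 * b ^ 2) * Z ^ 3) * Phi a b X Z
      + (a ^ 2 * b * X ^ 3 + a * (5 * a ^ 3 + 32 * b ^ 2) * X ^ 2 * Z
        + 2 * b * (13 * a ^ 3 + 96 * b ^ 2) * X * Z ^ 2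
        - 3 * a ^ 2 * (a ^ 3 + 8 * b ^ 2) * Z ^ 3) * Psi a b X Z := by
  rw [Phi, Psi]; ring

lemma f1_le {a b X Z E M : ℝ} (hE : 1 ≤ E) (ha : |a| ≤ E ^ 2) (hb : |b| ≤ E ^ 3)
    (hX : |X| ≤ M) (hZ : |Z| ≤ M) :
    |12 * X ^ 2 * Z + 16 * a * Z ^ 3| ≤ 28 * E ^ 10 * M ^ 3 := by
  have h1 := abs_le.mp (mb hE ha hb hX hZ 12 0 0 2 1 10 (by norm_num))
  have h2 := abs_le.mp (mb hE ha hb hX hZ 16 1 0 0 3 10 (by norm_num))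
  norm_num at h1 h2
  rw [abs_le]
  constructor <;> linarith [h1.1, h1.2, h2.1, h2.2]

lemma g1_le {a b X Z E M : ℝ} (hE : 1 ≤ E) (ha : |a| ≤ E ^ 2) (hb : |b| ≤ E ^ 3)
    (hX : |X| ≤ M) (hZ : |Z| ≤ M) :
    |3 * X ^ 3 - 5 * a * X * Z ^ 2 - 27 * b * Z ^ 3| ≤ 35 * E ^ 10 * M ^ 3 := by
  have h1 := abs_le.mp (mb hE ha hb hX hZ 3 0 0 3 0 10 (by norm_num))
  have h2 := abs_le.mp (mb hE ha hb hX hZ 5 1 0 1 2 10 (by norm_num))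
  have h3 := abs_le.mp (mb hE ha hb hX hZ 27 0 1 0 3 10 (by norm_num))
  norm_num at h1 h2 h3
  rw [abs_le]
  constructor <;> linarith [h1.1, h1.2, h2.1, h2.2, h3.1, h3.2]

lemma f2_le {a b X Z E M : ℝ} (hE : 1 ≤ E) (ha : |a| ≤ E ^ 2) (hb : |b| ≤ E ^ 3)
    (hX : |X| ≤ M) (hZ : |Z| ≤ M) :
    |4 * (4 * a ^ 3 + 27 * b ^ 2) * X ^ 3 - 4 * a ^ 2 * b * X ^ 2 * Z
        + 4 * a * (3 * a ^ 3 + 22 * b ^ 2) * X * Z ^ 2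
        + 12 * b * (a ^ 3 + 8 * b ^ 2) * Z ^ 3| ≤ 336 * E ^ 10 * M ^ 3 := by
  have h1 := abs_le.mp (mb hE ha hb hX hZ 16 3 0 3 0 10 (by norm_num))
  have h2 := abs_le.mp (mb hE ha hb hX hZ 108 0 2 3 0 10 (by norm_num))
  have h3 := abs_le.mp (mb hE ha hb hX hZ 4 2 1 2 1 10 (by norm_num))
  have h4 := abs_le.mp (mb hE ha hb hX hZ 12 4 0 1 2 10 (by norm_num))
  have h5 := abs_le.mp (mb hE ha hb hX hZ 88 1 2 1 2 10 (by norm_num))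
  have h6 := abs_le.mp (mb hE ha hb hX hZ 12 3 1 0 3 10 (by norm_num))
  have h7 := abs_le.mp (mb hE ha hb hX hZ 96 0 3 0 3 10 (by norm_num))
  norm_num at h1 h2 h3 h4 h5 h6 h7
  rw [abs_le]
  constructor <;> nlinarith [h1.1, h1.2, h2.1, h2.2, h3.1, h3.2, h4.1, h4.2, h5.1, h5.2,
    h6.1, h6.2, h7.1, h7.2]

lemma g2_le {a b X Z E M : ℝ} (hE : 1 ≤ E) (ha : |a| ≤ E ^ 2) (hb : |b| ≤ E ^ 3)
    (hX : |X| ≤ M) (hZ : |Z| ≤ M) :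
    |a ^ 2 * b * X ^ 3 + a * (5 * a ^ 3 + 32 * b ^ 2) * X ^ 2 * Z
        + 2 * b * (13 * a ^ 3 + 96 * b ^ 2) * X * Z ^ 2
        - 3 * a ^ 2 * (a ^ 3 + 8 * b ^ 2) * Z ^ 3| ≤ 283 * E ^ 10 * M ^ 3 := by
  have h1 := abs_le.mp (mb hE ha hb hX hZ 1 2 1 3 0 10 (by norm_num))
  have h2 := abs_le.mp (mb hE ha hb hX hZ 5 4 0 2 1 10 (by norm_num))
  have h3 := abs_le.mp (mb hE ha hb hX hZ 32 1 2 2 1 10 (by norm_num))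
  have h4 := abs_le.mp (mb hE ha hb hX hZ 26 3 1 1 2 10 (by norm_num))
  have h5 := abs_le.mp (mb hE ha hb hX hZ 192 0 3 1 2 10 (by norm_num))
  have h6 := abs_le.mp (mb hE ha hb hX hZ 3 5 0 0 3 10 (by norm_num))
  have h7 := abs_le.mp (mb hE ha hb hX hZ 24 2 2 0 3 10 (by norm_num))
  norm_num at h1 h2 h3 h4 h5 h6 h7
  rw [abs_le]
  constructor <;> nlinarith [h1.1, h1.2, h2.1, h2.2, h3.1, h3.2, h4.1, h4.2, h5.1, h5.2,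
    h6.1, h6.2, h7.1, h7.2]

/-! ### The naive height -/

/-! ### The chord -/

lemma quad {a b x₁ x₂ y₁ y₂ u : ℚ} (hx : x₁ ≠ x₂) (h1 : y₁ ^ 2 = x₁ ^ 3 + a * x₁ + b)
    (h2 : y₂ ^ 2 = x₂ ^ 3 + a * x₂ + b)
    (hu : u = ((y₁ - y₂) / (x₁ - x₂)) ^ 2 - x₁ - x₂) :
    (x₁ - x₂) ^ 2 * u ^ 2 - 2 * ((x₁ * x₂ + a) * (x₁ + x₂) + 2 * b) * u
      + ((x₁ * x₂ - a) ^ 2 - 4 * b * (x₁ + x₂)) = 0 := by
  have h0 : x₁ - x₂ ≠ 0 := sub_ne_zero.mpr hx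
  have h3 : (x₁ - x₂) ^ 2 * u = (x₁ * x₂ + a) * (x₁ + x₂) + 2 * b - 2 * y₁ * y₂ := by
    rw [hu, div_pow, mul_sub, mul_sub, mul_div_cancel₀ _ (pow_ne_zero 2 h0)]
    linear_combination h1 + h2
  have h4 : (x₁ - x₂) ^ 2 ≠ 0 := pow_ne_zero 2 h0
  apply mul_left_cancel₀ h4
  rw [mul_zero]
  linear_combination ((x₁ - x₂) ^ 2 * u - ((x₁ * x₂ + a) * (x₁ + x₂) + 2 * b) - 2 * y₁ * y₂) * h3
    + 4 * y₂ ^ 2 * h1 + 4 * (x₁ ^ 3 + a * x₁ + b) * h2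

lemma int_bound {A B C U V : ℤ} (hA : A ≠ 0) (hV : 0 < V) (hc : IsCoprime U V)
    (h : A * U ^ 2 - 2 * B * U * V + C * V ^ 2 = 0) :
    V ≤ |A| ∧ |U| ≤ |A| + (2 * |B| + |C|) := by
  have hA1 : 0 < |A| := abs_pos.mpr hA
  have hd : V ∣ A * U ^ 2 := ⟨2 * B * U - C * V, by linear_combination h⟩
  have hd2 : V ∣ A := (hc.symm.pow_right).dvd_of_dvd_mul_right hd
  have hVA : V ≤ |A| := Int.le_of_dvd hA1 ((dvd_abs _ _).mpr hd2)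
  refine ⟨hVA, ?_⟩
  have hB := abs_nonneg B
  have hC := abs_nonneg C
  rcases le_or_gt |U| V with hUV | hUV
  · linarith
  · have hU : 0 < |U| := lt_trans hV hUV
    have h1 : A * U ^ 2 = 2 * B * U * V - C * V ^ 2 := by linear_combination h
    have h2 : |A| * |U| ^ 2 ≤ 2 * |B| * |U| * V + |C| * V ^ 2 := by
      calc |A| * |U| ^ 2 = |A * U ^ 2| := by rw [abs_mul, abs_pow]
        _ = |2 * B * U * V - C * V ^ 2| := by rw [h1]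
        _ ≤ |2 * B * U * V| + |C * V ^ 2| := abs_sub _ _
        _ = 2 * |B| * |U| * V + |C| * V ^ 2 := by
            rw [abs_mul, abs_mul, abs_mul, abs_mul, abs_pow, abs_of_pos hV]
            norm_num
    have h3 : |C| * V ^ 2 ≤ |C| * (|U| * V) := by
      apply mul_le_mul_of_nonneg_left _ hC
      rw [pow_two]
      exact mul_le_mul_of_nonneg_right hUV.le hV.le
    have h4 : |U| * (|A| * |U|) ≤ |U| * ((2 * |B| + |C|) * V) := by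
      linarith
    have h5 : |A| * |U| ≤ (2 * |B| + |C|) * V := le_of_mul_le_mul_left h4 hU
    have h6 : (2 * |B| + |C|) * V ≤ (2 * |B| + |C|) * |A| :=
      mul_le_mul_of_nonneg_left hVA (by positivity)
    have h7 : |A| * |U| ≤ |A| * (2 * |B| + |C|) := by linarith
    have h8 := le_of_mul_le_mul_left h7 hA1
    linarith

lemma chord_real {a b X₁ Z₁ X₂ Z₂ E M₁ M₂ : ℝ} (hE : 1 ≤ E) (ha : |a| ≤ E ^ 2)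
    (hb : |b| ≤ E ^ 3) (hX₁ : |X₁| ≤ M₁) (hZ₁ : |Z₁| ≤ M₁) (hX₂ : |X₂| ≤ M₂) (hZ₂ : |Z₂| ≤ M₂) :
    |(X₁ * Z₂ - X₂ * Z₁) ^ 2| + (2 * |(X₁ * X₂ + a * Z₁ * Z₂) * (X₁ * Z₂ + X₂ * Z₁)
        + 2 * b * Z₁ ^ 2 * Z₂ ^ 2|
      + |(X₁ * X₂ - a * Z₁ * Z₂) ^ 2 - 4 * b * Z₁ * Z₂ * (X₁ * Z₂ + X₂ * Z₁)|)
      ≤ 28 * E ^ 4 * (M₁ ^ 2 * M₂ ^ 2) := by
  have hM₁ : 0 ≤ M₁ := le_trans (abs_nonneg _) hX₁
  have hM₂ : 0 ≤ M₂ := le_trans (abs_nonneg _) hX₂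
  have hE0 : 0 ≤ E := by linarith
  have hE2 : E ^ 2 ≤ E ^ 4 := pow_le_pow_right₀ hE (by norm_num)
  have hE3 : E ^ 3 ≤ E ^ 4 := pow_le_pow_right₀ hE (by norm_num)
  have hE4 : 1 ≤ E ^ 4 := one_le_pow₀ hE
  have hXX : |X₁ * X₂| ≤ M₁ * M₂ := by rw [abs_mul]; gcongr
  have hZZ : |Z₁ * Z₂| ≤ M₁ * M₂ := by rw [abs_mul]; gcongr
  have hXZ : |X₁ * Z₂| ≤ M₁ * M₂ := by rw [abs_mul]; gcongr
  have hZX : |X₂ * Z₁| ≤ M₁ * M₂ := by rw [abs_mul, mul_comm]; gcongr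
  have haZ : |a * Z₁ * Z₂| ≤ E ^ 2 * (M₁ * M₂) := by
    rw [mul_assoc, abs_mul]; gcongr
  have hs : |X₁ * Z₂ + X₂ * Z₁| ≤ 2 * (M₁ * M₂) := by
    refine le_trans (abs_add_le _ _) ?_; linarith
  have hd : |X₁ * Z₂ - X₂ * Z₁| ≤ 2 * (M₁ * M₂) := by
    refine le_trans (abs_sub _ _) ?_; linarith
  have hMM : 0 ≤ M₁ * M₂ := by positivity
  have hp : |X₁ * X₂ + a * Z₁ * Z₂| ≤ 2 * E ^ 2 * (M₁ * M₂) := by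
    refine le_trans (abs_add_le _ _) ?_
    nlinarith [one_le_pow₀ hE (n := 2)]
  have hm : |X₁ * X₂ - a * Z₁ * Z₂| ≤ 2 * E ^ 2 * (M₁ * M₂) := by
    refine le_trans (abs_sub _ _) ?_
    nlinarith [one_le_pow₀ hE (n := 2)]
  have hMM2 : 0 ≤ M₁ ^ 2 * M₂ ^ 2 := by positivity
  have hA : |(X₁ * Z₂ - X₂ * Z₁) ^ 2| ≤ 4 * E ^ 4 * (M₁ ^ 2 * M₂ ^ 2) := by
    rw [abs_pow]
    calc |X₁ * Z₂ - X₂ * Z₁| ^ 2 ≤ (2 * (M₁ * M₂)) ^ 2 := by gcongr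
      _ = 4 * (M₁ ^ 2 * M₂ ^ 2) := by ring
      _ ≤ 4 * E ^ 4 * (M₁ ^ 2 * M₂ ^ 2) := by nlinarith
  have hbZ : |2 * b * Z₁ ^ 2 * Z₂ ^ 2| ≤ 2 * E ^ 4 * (M₁ ^ 2 * M₂ ^ 2) := by
    rw [abs_mul, abs_mul, abs_mul, abs_pow, abs_pow, abs_of_pos (by norm_num : (0 : ℝ) < 2)]
    calc 2 * |b| * |Z₁| ^ 2 * |Z₂| ^ 2 ≤ 2 * E ^ 3 * M₁ ^ 2 * M₂ ^ 2 := by gcongr
      _ = 2 * E ^ 3 * (M₁ ^ 2 * M₂ ^ 2) := by ring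
      _ ≤ 2 * E ^ 4 * (M₁ ^ 2 * M₂ ^ 2) := by gcongr
  have hB : |(X₁ * X₂ + a * Z₁ * Z₂) * (X₁ * Z₂ + X₂ * Z₁) + 2 * b * Z₁ ^ 2 * Z₂ ^ 2| ≤
      6 * E ^ 4 * (M₁ ^ 2 * M₂ ^ 2) := by
    refine le_trans (abs_add_le _ _) ?_
    rw [abs_mul]
    have e1 : |X₁ * X₂ + a * Z₁ * Z₂| * |X₁ * Z₂ + X₂ * Z₁| ≤
        (2 * E ^ 2 * (M₁ * M₂)) * (2 * (M₁ * M₂)) := by gcongr
    have e2 : (2 * E ^ 2 * (M₁ * M₂)) * (2 * (M₁ * M₂)) ≤ 4 * E ^ 4 * (M₁ ^ 2 * M₂ ^ 2) := by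
      calc (2 * E ^ 2 * (M₁ * M₂)) * (2 * (M₁ * M₂)) = 4 * E ^ 2 * (M₁ ^ 2 * M₂ ^ 2) := by ring
        _ ≤ 4 * E ^ 4 * (M₁ ^ 2 * M₂ ^ 2) := by gcongr
    linarith
  have hbs : |4 * b * Z₁ * Z₂ * (X₁ * Z₂ + X₂ * Z₁)| ≤ 8 * E ^ 4 * (M₁ ^ 2 * M₂ ^ 2) := by
    have e0 : 4 * b * Z₁ * Z₂ * (X₁ * Z₂ + X₂ * Z₁) =
        4 * b * (Z₁ * Z₂) * (X₁ * Z₂ + X₂ * Z₁) := by ring
    rw [e0, abs_mul, abs_mul, abs_mul, abs_of_pos (by norm_num : (0 : ℝ) < 4)]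
    calc 4 * |b| * |Z₁ * Z₂| * |X₁ * Z₂ + X₂ * Z₁|
        ≤ 4 * E ^ 3 * (M₁ * M₂) * (2 * (M₁ * M₂)) := by gcongr
      _ = 8 * E ^ 3 * (M₁ ^ 2 * M₂ ^ 2) := by ring
      _ ≤ 8 * E ^ 4 * (M₁ ^ 2 * M₂ ^ 2) := by gcongr
  have hm2 : |(X₁ * X₂ - a * Z₁ * Z₂) ^ 2| ≤ 4 * E ^ 4 * (M₁ ^ 2 * M₂ ^ 2) := by
    rw [abs_pow]
    calc |X₁ * X₂ - a * Z₁ * Z₂| ^ 2 ≤ (2 * E ^ 2 * (M₁ * M₂)) ^ 2 := by gcongr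
      _ = 4 * E ^ 4 * (M₁ ^ 2 * M₂ ^ 2) := by ring
  have hC : |(X₁ * X₂ - a * Z₁ * Z₂) ^ 2 - 4 * b * Z₁ * Z₂ * (X₁ * Z₂ + X₂ * Z₁)| ≤
      12 * E ^ 4 * (M₁ ^ 2 * M₂ ^ 2) := by
    refine le_trans (abs_sub _ _) ?_
    linarith
  linarith

end Pool.Agent.H24.LQ.NaiveS
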