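import Pool.Agent.H24.LQ.Large
import Pool.Agent.H24.LQ.Bounds

/-!
# The best set of primes
-/

namespace Pool.Agent.H24.LQ

open Pool.Agent.H24.LP Finset

/-- The `t` elements with largest weight. -/
lemma exists_top (P : Finset ℕ) (w : ℕ → ℝ) (t : ℕ) : ∃ T : Finset ℕ, T ⊆ P ∧ T.card ≤ t ∧
    (T = P ∨ (T.card = t ∧ ∀ p ∈ T, ∀ q ∈ P \ T, w q ≤ w p)) := by
  classical
  induction t with
  | zero => exact ⟨∅, Finset.empty_subset _, le_refl _, Or.inr ⟨rfl, by simp⟩⟩
  | succ t ih =>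
    obtain ⟨T, hTP, hTt, hT⟩ := ih
    rcases hT with h | ⟨hc, hw⟩
    · exact ⟨T, hTP, hTt.trans (Nat.le_succ t), Or.inl h⟩
    by_cases hne : (P \ T).Nonempty
    · obtain ⟨q, hq, hmax⟩ := Finset.exists_max_image (P \ T) w hne
      have hqT : q ∉ T := (Finset.mem_sdiff.mp hq).2
      refine ⟨insert q T, ?_, ?_, Or.inr ⟨?_, ?_⟩⟩
      · intro p hp
        rcases Finset.mem_insert.mp hp with rfl | h
        · exact (Finset.mem_sdiff.mp hq).1
        · exact hTP h
      · rw [Finset.card_insert_of_notMem hqT, hc]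
      · rw [Finset.card_insert_of_notMem hqT, hc]
      · intro p hp u hu
        have hu' : u ∈ P \ T := by
          rw [Finset.mem_sdiff] at hu ⊢
          exact ⟨hu.1, fun h => hu.2 (Finset.mem_insert_of_mem h)⟩
        rcases Finset.mem_insert.mp hp with rfl | h
        · exact hmax u hu'
        · exact hw p h u hu'
    · refine ⟨T, hTP, hTt.trans (Nat.le_succ t), Or.inl ?_⟩
      rw [Finset.not_nonempty_iff_eq_empty, Finset.sdiff_eq_empty_iff_subset] at hne
      exact Finset.Subset.antisymm hTP hne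

/-- Distinct integers `≥ 2` have a large sum of logarithms. -/
lemma sum_log_ge (S : Finset ℕ) (hS : ∀ p ∈ S, 2 ≤ p) :
    (S.card : ℝ) / 4 * Real.log S.card ≤ ∑ p ∈ S, Real.log (p : ℝ) := by
  classical
  have hl2 := Real.log_pos (by norm_num : (1 : ℝ) < 2)
  by_cases h4 : S.card < 4
  · have h1 : (S.card : ℝ) * Real.log 2 ≤ ∑ p ∈ S, Real.log (p : ℝ) := by
      rw [← nsmul_eq_mul, ← Finset.sum_const]
      refine Finset.sum_le_sum fun p hp => ?_
      exact Real.log_le_log (by norm_num) (by exact_mod_cast hS p hp)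
    refine le_trans ?_ h1
    rcases Nat.eq_zero_or_pos S.card with h0 | h0
    · rw [h0]; simp
    · have h2 : Real.log (S.card : ℝ) ≤ Real.log (2 ^ 2) :=
        Real.log_le_log (by exact_mod_cast h0) (by
          have : (S.card : ℝ) < 4 := by exact_mod_cast h4
          linarith)
      rw [Real.log_pow] at h2
      push_cast at h2
      have h3 : (0 : ℝ) ≤ S.card := Nat.cast_nonneg _
      nlinarith
  · push Not at h4
    have hc4 : (4 : ℝ) ≤ S.card := by exact_mod_cast h4
    set d : ℝ := (S.card : ℝ) with hd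
    have hsmall : (S.filter fun p => 2 * p ≤ S.card).card ≤ S.card / 2 := by
      have hsub : (S.filter fun p => 2 * p ≤ S.card) ⊆ Finset.Icc 1 (S.card / 2) := by
        intro p hp
        rw [Finset.mem_filter] at hp
        rw [Finset.mem_Icc]
        have := hS p hp.1
        omega
      refine (Finset.card_le_card hsub).trans ?_
      rw [Nat.card_Icc]; omega
    have hbig : S.card / 2 ≤ (S.filter fun p => ¬ 2 * p ≤ S.card).card := by
      have := Finset.card_filter_add_card_filter_not (s := S) (fun p => 2 * p ≤ S.card)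
      omega
    have hbig' : d / 2 ≤ ((S.filter fun p => ¬ 2 * p ≤ S.card).card : ℝ) := by
      have h1 : S.card ≤ 2 * (S.filter fun p => ¬ 2 * p ≤ S.card).card := by
        have := Finset.card_filter_add_card_filter_not (s := S) (fun p => 2 * p ≤ S.card)
        omega
      have h2 : d ≤ 2 * ((S.filter fun p => ¬ 2 * p ≤ S.card).card : ℝ) := by
        rw [hd]; exact_mod_cast h1
      linarith
    have hlog : 0 ≤ Real.log (d / 2) := Real.log_nonneg (by linarith)
    have h1 : ((S.filter fun p => ¬ 2 * p ≤ S.card).card : ℝ) * Real.log (d / 2) ≤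
        ∑ p ∈ S, Real.log (p : ℝ) := by
      rw [← nsmul_eq_mul, ← Finset.sum_const]
      refine (Finset.sum_le_sum (g := fun p : ℕ => Real.log (p : ℝ)) fun p hp => ?_).trans
        (Finset.sum_le_sum_of_subset_of_nonneg (Finset.filter_subset _ _)
          fun p _ _ => Real.log_natCast_nonneg p)
      rw [Finset.mem_filter] at hp
      refine Real.log_le_log (by linarith) ?_
      have h2 : S.card ≤ 2 * p := by omega
      have h3 : d ≤ 2 * (p : ℝ) := by rw [hd]; exact_mod_cast h2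
      linarith
    have h2 : d / 2 * Real.log (d / 2) ≤ ∑ p ∈ S, Real.log (p : ℝ) :=
      (mul_le_mul_of_nonneg_right hbig' hlog).trans h1
    refine le_trans ?_ h2
    have h3 : Real.log (d / 2) = Real.log d - Real.log 2 := Real.log_div (by linarith) (by norm_num)
    have h4' : Real.log (2 ^ 2) ≤ Real.log d := Real.log_le_log (by norm_num) (by linarith)
    rw [Real.log_pow] at h4'
    push_cast at h4'
    rw [h3]
    nlinarith

lemma GT_add {a b : ℤ} {T : Finset ℕ} (hT : T ⊆ poles a b) :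
    GT a b (poles a b) = GT a b T + ∑ p ∈ poles a b \ T, (np a b p : ℝ) * Real.log p := by
  have h := Finset.sum_sdiff (f := fun p : ℕ => (np a b p : ℝ) * Real.log p) hT
  unfold GT
  linarith

/-- For every `t ≥ 1` there is a set of at most `t` primes with large `G_T`. -/
theorem exists_T : ∃ C : ℝ, 1 ≤ C ∧ ∀ a b : ℤ, QuasiMinimal a b → ∀ t : ℕ, 0 < t →
    ∃ T : Finset ℕ, T.card ≤ t ∧ L a b / GT a b T ≤
      C * (max 1 (L a b / (t * Real.log (2 + L a b)))) ^ ((2 : ℝ) / 3) := by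
  classical
  obtain ⟨B₀, hB₀⟩ := L_le_GT_poles
  set B : ℝ := max 1 B₀ with hBdef
  have hB1 : 1 ≤ B := le_max_left _ _
  have hB : ∀ a b : ℤ, QuasiMinimal a b → L a b ≤ B * GT a b (poles a b) := by
    intro a b hq
    refine (hB₀ a b hq (poles a b) (Finset.Subset.refl _)).trans ?_
    have := one_le_GT a b (poles a b)
    exact mul_le_mul_of_nonneg_right (le_max_right _ _) (by linarith)
  refine ⟨2816 * B ^ 2 + 40 * B, by nlinarith, fun a b hq t ht => ?_⟩
  have hD := hq.ne
  have hL := L_pos a b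
  have hLh := half_le_L a b
  have hL2 : 0.69 ≤ L a b := by
    have h := log_two_le_L a b
    have := Real.log_two_gt_d9
    norm_num at this ⊢
    linarith
  set w : ℕ → ℝ := fun p => (np a b p : ℝ) * Real.log p with hw
  obtain ⟨T, hTP, hTt, hT⟩ := exists_top (poles a b) w t
  refine ⟨T, hTt, ?_⟩
  have hG1 := one_le_GT a b T
  have hG0 : 0 < GT a b T := by linarith
  have ht1 : (1 : ℝ) ≤ t := by exact_mod_cast ht
  set ℓ : ℝ := Real.log (2 + L a b) with hℓ
  have hℓ0 : 0 < ℓ := Real.log_pos (by linarith)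
  set y : ℝ := L a b / (t * ℓ) with hy
  have hy0 : 0 < y := by positivity
  have hm1 : (1 : ℝ) ≤ (max 1 y) ^ ((2 : ℝ) / 3) :=
    Real.one_le_rpow (le_max_left _ _) (by norm_num)
  have hmy : y ^ ((2 : ℝ) / 3) ≤ (max 1 y) ^ ((2 : ℝ) / 3) :=
    Real.rpow_le_rpow hy0.le (le_max_right _ _) (by norm_num)
  have hBB : 0 ≤ B ^ 2 := sq_nonneg B
  by_cases hA : L a b ≤ 2 * B * GT a b T
  · -- case A
    have h1 : L a b / GT a b T ≤ 2 * B := by rwa [div_le_iff₀ hG0]
    calc L a b / GT a b T ≤ 2 * B := h1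
      _ ≤ (2816 * B ^ 2 + 40 * B) * 1 := by nlinarith
      _ ≤ _ := by gcongr
  push Not at hA
  set S := poles a b \ T with hS
  set W : ℝ := ∑ p ∈ S, w p with hWdef
  have hBa := hB a b hq
  rw [GT_add hTP] at hBa
  have hW : L a b / (2 * B) ≤ W := by
    rw [div_le_iff₀ (by linarith)]
    have : L a b ≤ B * (GT a b T + W) := hBa
    nlinarith
  have hWpos : 0 < W := lt_of_lt_of_le (by positivity) hW
  have hSne : S.Nonempty := by
    rw [Finset.nonempty_iff_ne_empty]
    intro h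
    rw [hWdef, h] at hWpos
    simp at hWpos
  have hT' : T.card = t ∧ ∀ p ∈ T, ∀ q ∈ S, w q ≤ w p := by
    rcases hT with h | h
    · exfalso
      rw [hS, h, Finset.sdiff_self] at hSne
      exact Finset.not_nonempty_empty hSne
    · exact h
  set d : ℝ := (S.card : ℝ) with hd
  have hd1 : 1 ≤ d := by rw [hd]; exact_mod_cast Finset.card_pos.mpr hSne
  have hw0 : ∀ p, 0 ≤ w p := fun p => mul_nonneg (Nat.cast_nonneg _) (HeightData.log_nonneg' p)
  -- the first lower bound
  have hg1 : t * (L a b / (2 * B)) ≤ d * GT a b T := by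
    have h1 : ∀ p ∈ T, W ≤ d * w p := by
      intro p hp
      rw [hWdef, hd, ← nsmul_eq_mul, ← Finset.sum_const]
      exact Finset.sum_le_sum fun q hq => hT'.2 p hp q hq
    have h2 : (t : ℝ) * W ≤ d * ∑ p ∈ T, w p := by
      have e1 : (t : ℝ) * W = ∑ _p ∈ T, W := by
        rw [Finset.sum_const, nsmul_eq_mul, hT'.1]
      have e2 : d * ∑ p ∈ T, w p = ∑ p ∈ T, d * w p := Finset.mul_sum _ _ _
      rw [e1, e2]
      exact Finset.sum_le_sum h1
    have h3 : ∑ p ∈ T, w p ≤ GT a b T := by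
      obtain ⟨_, g2, g3⟩ := GT_terms a b T
      have hwi := HeightData.wInf_nonneg (a := a) (b := b)
      have e : ∑ p ∈ T, w p = ∑ p ∈ T, (np a b p : ℝ) * Real.log p := rfl
      unfold GT
      linarith
    calc (t : ℝ) * (L a b / (2 * B)) ≤ t * W := by gcongr
      _ ≤ d * ∑ p ∈ T, w p := h2
      _ ≤ _ := by gcongr
  by_cases hsub : d ^ 2 ≤ 2 + L a b
  · -- case B1
    have hd2 : d ≤ (2 + L a b) ^ ((1 : ℝ) / 2) := by
      rw [← Real.sqrt_eq_rpow]
      exact Real.le_sqrt_of_sq_le hsub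
    have h1 : L a b / GT a b T ≤ 2 * B * (2 + L a b) ^ ((1 : ℝ) / 2) / t := by
      rw [div_le_div_iff₀ hG0 (by linarith)]
      have h2 : t * L a b ≤ 2 * B * (d * GT a b T) := by
        have := mul_le_mul_of_nonneg_left hg1 (by linarith : (0 : ℝ) ≤ 2 * B)
        have e : 2 * B * (t * (L a b / (2 * B))) = t * L a b := by field_simp
        rwa [e] at this
      have h3 : 2 * B * (d * GT a b T) ≤ 2 * B * ((2 + L a b) ^ ((1 : ℝ) / 2) * GT a b T) := by
        gcongr
      linarith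
    -- compare
    set u : ℝ := 2 + L a b with hu
    have hu0 : 0 < u := by linarith
    have hℓu : ℓ ≤ 4 * u ^ ((1 : ℝ) / 4) := by
      have h2 : Real.log u = 4 * Real.log (u ^ ((1 : ℝ) / 4)) := by
        rw [Real.log_rpow hu0]; ring
      have h3 := Real.log_le_sub_one_of_pos (Real.rpow_pos_of_pos hu0 ((1 : ℝ) / 4))
      rw [hℓ, h2]
      linarith
    have h23 : (ℓ : ℝ) ^ ((2 : ℝ) / 3) ≤ 4 * u ^ ((1 : ℝ) / 6) := by
      calc ℓ ^ ((2 : ℝ) / 3) ≤ (4 * u ^ ((1 : ℝ) / 4)) ^ ((2 : ℝ) / 3) :=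
            Real.rpow_le_rpow hℓ0.le hℓu (by norm_num)
        _ = 4 ^ ((2 : ℝ) / 3) * (u ^ ((1 : ℝ) / 4)) ^ ((2 : ℝ) / 3) :=
            Real.mul_rpow (by norm_num) (by positivity)
        _ = 4 ^ ((2 : ℝ) / 3) * u ^ ((1 : ℝ) / 6) := by
            rw [← Real.rpow_mul hu0.le]; norm_num
        _ ≤ 4 ^ (1 : ℝ) * u ^ ((1 : ℝ) / 6) := by
            gcongr
            · norm_num
            · norm_num
        _ = _ := by rw [Real.rpow_one]
    have hLu : u / 4 ≤ L a b := by rw [hu]; linarith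
    have hy23 : u ^ ((1 : ℝ) / 2) / 16 / t ≤ y ^ ((2 : ℝ) / 3) := by
      have h5 : y ^ ((2 : ℝ) / 3) = L a b ^ ((2 : ℝ) / 3) / (t ^ ((2 : ℝ) / 3) * ℓ ^ ((2 : ℝ) / 3)) := by
        rw [hy, Real.div_rpow hL.le (by positivity), Real.mul_rpow (by linarith) hℓ0.le]
      rw [h5, div_div, div_le_div_iff₀ (by positivity) (by positivity)]
      have h6 : (t : ℝ) ^ ((2 : ℝ) / 3) ≤ t := by
        calc (t : ℝ) ^ ((2 : ℝ) / 3) ≤ (t : ℝ) ^ (1 : ℝ) :=
              Real.rpow_le_rpow_of_exponent_le ht1 (by norm_num)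
          _ = t := Real.rpow_one _
      have h7 : u ^ ((2 : ℝ) / 3) ≤ 4 * L a b ^ ((2 : ℝ) / 3) := by
        calc u ^ ((2 : ℝ) / 3) ≤ (4 * L a b) ^ ((2 : ℝ) / 3) :=
              Real.rpow_le_rpow hu0.le (by linarith) (by norm_num)
          _ = 4 ^ ((2 : ℝ) / 3) * L a b ^ ((2 : ℝ) / 3) := Real.mul_rpow (by norm_num) hL.le
          _ ≤ 4 ^ (1 : ℝ) * L a b ^ ((2 : ℝ) / 3) := by
              gcongr
              · norm_num
              · norm_num
          _ = _ := by rw [Real.rpow_one]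
      calc u ^ ((1 : ℝ) / 2) * (t ^ ((2 : ℝ) / 3) * ℓ ^ ((2 : ℝ) / 3))
          ≤ u ^ ((1 : ℝ) / 2) * (t * (4 * u ^ ((1 : ℝ) / 6))) := by gcongr
        _ = 4 * (u ^ ((1 : ℝ) / 2) * u ^ ((1 : ℝ) / 6)) * t := by ring
        _ = 4 * u ^ ((2 : ℝ) / 3) * t := by
            rw [← Real.rpow_add hu0]; norm_num
        _ ≤ 4 * (4 * L a b ^ ((2 : ℝ) / 3)) * t := by gcongr
        _ = L a b ^ ((2 : ℝ) / 3) * (16 * t) := by ring
    calc L a b / GT a b T ≤ 2 * B * u ^ ((1 : ℝ) / 2) / t := h1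
      _ = 32 * B * (u ^ ((1 : ℝ) / 2) / 16 / t) := by field_simp; ring
      _ ≤ 32 * B * y ^ ((2 : ℝ) / 3) := by gcongr
      _ ≤ (2816 * B ^ 2 + 40 * B) * y ^ ((2 : ℝ) / 3) := by
          have : 0 ≤ y ^ ((2 : ℝ) / 3) := by positivity
          gcongr
          nlinarith
      _ ≤ _ := by gcongr
  · -- case B2
    push Not at hsub
    have hlogd : ℓ / 2 ≤ Real.log d := by
      have h1 : ℓ ≤ Real.log (d ^ 2) := Real.log_le_log (by linarith) hsub.le
      rw [Real.log_pow] at h1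
      push_cast at h1
      linarith
    have hsl : d * ℓ / 8 ≤ ∑ p ∈ S, Real.log (p : ℝ) := by
      refine le_trans ?_ (sum_log_ge S fun p hp => ?_)
      · rw [← hd]
        have : d / 4 * (ℓ / 2) ≤ d / 4 * Real.log d := by gcongr
        linarith
      · exact (places_of_poles hD (Finset.mem_sdiff.mp hp).1).1.two_le
    have hcs : (∑ p ∈ S, Real.log (p : ℝ)) ^ 2 ≤
        (∑ p ∈ S, Real.log (p : ℝ) / np a b p) * ∑ p ∈ S, w p := by
      refine Finset.sum_sq_le_sum_mul_sum_of_sq_le_mul S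
        (fun p _ => div_nonneg (HeightData.log_nonneg' p) (Nat.cast_nonneg _))
        (fun p _ => hw0 p) fun p hp => ?_
      have hn : (np a b p : ℝ) ≠ 0 := by
        have := HeightData.np_pos (Finset.mem_sdiff.mp hp).1
        have h1 : (1 : ℝ) ≤ np a b p := by exact_mod_cast this
        linarith
      refine le_of_eq ?_
      simp only [hw]
      field_simp
    have hg2 : (d * ℓ / 8) ^ 2 ≤ GT a b T * (11 * L a b) := by
      have h1 : ∑ p ∈ S, Real.log (p : ℝ) / np a b p ≤ GT a b T := by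
        obtain ⟨g1, _, g3⟩ := GT_terms a b T
        have hwi := HeightData.wInf_nonneg (a := a) (b := b)
        have h2 : ∑ p ∈ S, Real.log (p : ℝ) / np a b p ≤
            ∑ p ∈ poles a b, Real.log (p : ℝ) / np a b p :=
          Finset.sum_le_sum_of_subset_of_nonneg Finset.sdiff_subset
            fun p _ _ => div_nonneg (HeightData.log_nonneg' p) (Nat.cast_nonneg _)
        unfold GT
        linarith
      have h3 : ∑ p ∈ S, w p ≤ 11 * L a b :=
        (Finset.sum_le_sum_of_subset_of_nonneg Finset.sdiff_subset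
          fun p _ _ => hw0 p).trans (sum_poles_le hD)
      calc (d * ℓ / 8) ^ 2 ≤ (∑ p ∈ S, Real.log (p : ℝ)) ^ 2 := by gcongr
        _ ≤ _ := hcs
        _ ≤ GT a b T * (11 * L a b) :=
            mul_le_mul h1 h3 (Finset.sum_nonneg fun p _ => hw0 p) hG0.le
    -- the product
    have hg3 : (t * (L a b / (2 * B))) ^ 2 * (d * ℓ / 8) ^ 2 ≤
        (d * GT a b T) ^ 2 * (GT a b T * (11 * L a b)) := by
      gcongr
    have hg4 : t ^ 2 * L a b * ℓ ^ 2 ≤ 2816 * B ^ 2 * GT a b T ^ 3 := by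
      have e1 : (t * (L a b / (2 * B))) ^ 2 * (d * ℓ / 8) ^ 2
          = (d ^ 2 * L a b) * (t ^ 2 * L a b * ℓ ^ 2) / (256 * B ^ 2) := by
        field_simp
        ring
      have e2 : (d * GT a b T) ^ 2 * (GT a b T * (11 * L a b))
          = (d ^ 2 * L a b) * (2816 * B ^ 2 * GT a b T ^ 3) / (256 * B ^ 2) := by
        field_simp
        ring
      rw [e1, e2] at hg3
      have hpos : 0 < d ^ 2 * L a b := by positivity
      have hpos2 : (0 : ℝ) < 256 * B ^ 2 := by positivity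
      rw [div_le_div_iff_of_pos_right hpos2] at hg3
      exact le_of_mul_le_mul_left hg3 hpos
    have hg5 : (L a b / GT a b T) ^ 3 ≤ 2816 * B ^ 2 * y ^ 2 := by
      rw [div_pow, div_le_iff₀ (by positivity), hy, div_pow]
      have e : 2816 * B ^ 2 * (L a b ^ 2 / (t * ℓ) ^ 2) * GT a b T ^ 3
          = (2816 * B ^ 2 * GT a b T ^ 3) * L a b ^ 2 / (t ^ 2 * ℓ ^ 2) := by
        field_simp
      rw [e, le_div_iff₀ (by positivity)]
      calc L a b ^ 3 * (t ^ 2 * ℓ ^ 2) = (t ^ 2 * L a b * ℓ ^ 2) * L a b ^ 2 := by ring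
        _ ≤ _ := by gcongr
    have hq0 : 0 < L a b / GT a b T := by positivity
    have hg6 : L a b / GT a b T ≤ (2816 * B ^ 2 * y ^ 2) ^ ((1 : ℝ) / 3) := by
      have h1 : L a b / GT a b T = ((L a b / GT a b T) ^ 3) ^ ((1 : ℝ) / 3) := by
        rw [← Real.rpow_natCast, ← Real.rpow_mul hq0.le]
        norm_num
      rw [h1]
      exact Real.rpow_le_rpow (by positivity) hg5 (by norm_num)
    have hb1 : 1 ≤ 2816 * B ^ 2 := by nlinarith
    calc L a b / GT a b T ≤ (2816 * B ^ 2 * y ^ 2) ^ ((1 : ℝ) / 3) := hg6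
      _ = (2816 * B ^ 2) ^ ((1 : ℝ) / 3) * (y ^ 2) ^ ((1 : ℝ) / 3) :=
          Real.mul_rpow (by positivity) (by positivity)
      _ = (2816 * B ^ 2) ^ ((1 : ℝ) / 3) * y ^ ((2 : ℝ) / 3) := by
          rw [← Real.rpow_natCast y 2, ← Real.rpow_mul hy0.le]; norm_num
      _ ≤ (2816 * B ^ 2) ^ (1 : ℝ) * y ^ ((2 : ℝ) / 3) := by
          gcongr
          · norm_num
      _ ≤ (2816 * B ^ 2 + 40 * B) * y ^ ((2 : ℝ) / 3) := by
          rw [Real.rpow_one]
          gcongr
          linarith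
      _ ≤ _ := by gcongr

end Pool.Agent.H24.LQ
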