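import Pool.Agent.H24.LQ.SStep
import Pool.Agent.H24.LQ.Pair
import Pool.Agent.H24.LQ.Conv
import Pool.Agent.H24.LQ.Additive

/-!
# The pair inequality
-/

namespace Pool.Agent.H24.LQ

open Pool.Agent.H24.LP Finset

/-- `τ_v = T_v/ν_v`. -/
noncomputable def tau {a b : ℤ} (v : ℕ) (P : (curve a b).Point) : ℝ :=
  Tv (fv v) a b (thr v) (repX P) (repZ P) / nu (fv v) a b

/-- `ν_v⁺`. -/
noncomputable def nup (a b : ℤ) (v : ℕ) : ℝ := max 0 (nu (fv v) a b)

lemma tau_nonneg {a b : ℤ} (hD : D a b ≠ 0) (v : ℕ) (P : (curve a b).Point) :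
    0 ≤ tau v P := by
  unfold tau
  by_cases h : nu (fv v) a b ≤ thr v
  · have : Tv (fv v) a b (thr v) (repX P) (repZ P) = 0 := by
      unfold Tv; rw [if_pos h]
    rw [this, zero_div]
  · have h0 := thr_nonneg v
    exact div_nonneg (Tv_nonneg _ _ _ h0 (D_cast_ne hD) (rep_ne' P)) (by linarith [not_le.mp h])

lemma tau_le {a b : ℤ} (hD : D a b ≠ 0) (v : ℕ) (P : (curve a b).Point) :
    tau v P ≤ 1 / 2 := by
  unfold tau
  by_cases h : nu (fv v) a b ≤ thr v
  · have : Tv (fv v) a b (thr v) (repX P) (repZ P) = 0 := by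
      unfold Tv; rw [if_pos h]
    rw [this, zero_div]
    norm_num
  · have h0 := thr_nonneg v
    have hν : 0 < nu (fv v) a b := by linarith [not_le.mp h]
    rw [div_le_iff₀ hν]
    have := Tv_le (fv v) a b h0 (D_cast_ne hD) (rep_ne' P) hν.le
    linarith

lemma Tv_eq {a b : ℤ} (v : ℕ) (P : (curve a b).Point) :
    Tv (fv v) a b (thr v) (repX P) (repZ P) = nu (fv v) a b * tau v P := by
  unfold tau
  by_cases h : nu (fv v) a b = 0
  · have h1 : nu (fv v) a b ≤ thr v := by rw [h]; exact thr_nonneg v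
    have : Tv (fv v) a b (thr v) (repX P) (repZ P) = 0 := by
      unfold Tv; rw [if_pos h1]
    rw [this, h]; simp
  · field_simp

/-- `(B(τ - τ') + B(τ + τ'))/2`. -/
noncomputable def beta {a b : ℤ} (v : ℕ) (P Q : (curve a b).Point) : ℝ :=
  (bern ((tau v P - tau v Q : ℝ) : AddCircle (1 : ℝ))
    + bern ((tau v P + tau v Q : ℝ) : AddCircle (1 : ℝ))) / 2

lemma beta_eq {a b : ℤ} (hD : D a b ≠ 0) (v : ℕ) (P Q : (curve a b).Point) :
    nu (fv v) a b * (beta v P Q - 1 / 6) =
      - Tv (fv v) a b (thr v) (repX P) (repZ P)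
      + Tv (fv v) a b (thr v) (repX P) (repZ P) ^ 2 / nu (fv v) a b
      - Tv (fv v) a b (thr v) (repX Q) (repZ Q)
      + Tv (fv v) a b (thr v) (repX Q) (repZ Q) ^ 2 / nu (fv v) a b
      + min (Tv (fv v) a b (thr v) (repX P) (repZ P)) (Tv (fv v) a b (thr v) (repX Q) (repZ Q)) := by
  unfold beta
  rw [bern_pair (tau_nonneg hD v P) (tau_le hD v P) (tau_nonneg hD v Q) (tau_le hD v Q)]
  by_cases h : nu (fv v) a b ≤ thr v
  · have e : ∀ R : (curve a b).Point, Tv (fv v) a b (thr v) (repX R) (repZ R) = 0 := by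
      intro R; unfold Tv; rw [if_pos h]
    have e2 : ∀ R : (curve a b).Point, tau v R = 0 := by
      intro R; unfold tau; rw [e R, zero_div]
    rw [e, e, e2, e2]
    simp
  · have h0 := thr_nonneg v
    have hν : 0 < nu (fv v) a b := by linarith [not_le.mp h]
    rw [Tv_eq, Tv_eq, ← mul_min_of_nonneg _ _ hν.le]
    field_simp
    ring

lemma bern_le (t : AddCircle (1 : ℝ)) : bern t ≤ 1 / 6 := by
  unfold bern
  have h1 : ‖t‖ ≤ 1 / 2 := by
    have := AddCircle.norm_le_half_period (1 : ℝ) (x := t) one_ne_zero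
    simpa using this
  have h0 := norm_nonneg t
  nlinarith

lemma nu_prime_nonneg {a b : ℤ} (hD : D a b ≠ 0) {p : ℕ} (hp : p.Prime) :
    0 ≤ nu (fv p) a b := nu_nonneg _ _ _ (fv_nonarch hp) (D_cast_ne hD)

/-- The pair inequality. -/
theorem pair_SS : ∃ C : ℝ, 0 ≤ C ∧ ∀ a b : ℤ, QuasiMinimal a b →
    ∃ cl : ℕ → (curve a b).Point → Fin 4, ∀ P Q : (curve a b).Point,
      repX P * repZ Q - repX Q * repZ P ≠ 0 →
      ∑ v ∈ places a b, nup a b v * beta v P Q
        + ∑ p ∈ addPrimes a b, (if cl p P = cl p Q then Real.log p / 6 else 0) - C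
        ≤ SS P + SS Q := by
  classical
  obtain ⟨C, hC0, hC⟩ := pair_robust
  refine ⟨5 * C + Real.log 31, by have := Real.log_nonneg (x := 31) (by norm_num); linarith,
    fun a b hq => ?_⟩
  have hD := hq.ne
  have hDq := D_cast_ne hD
  have hcl : ∀ p : ℕ, ∃ c : (curve a b).Point → Fin 4, p ∈ addPrimes a b →
      ∀ P Q : (curve a b).Point, repX P * repZ Q - repX Q * repZ P ≠ 0 → c P = c Q →
      Real.log (sv (fv p) a b) + Real.log p / 6 ≤
        Lv (fv p) a b 0 (repX P) (repZ P) + Lv (fv p) a b 0 (repX Q) (repZ Q)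
          - Real.log (fv p ((repX P * repZ Q - repX Q * repZ P : ℤ) : ℚ)) := by
    intro p
    by_cases hp : p ∈ addPrimes a b
    · obtain ⟨c, hc⟩ := additive hq hp
      exact ⟨c, fun _ => hc⟩
    · exact ⟨fun _ => 0, fun h => absurd h hp⟩
  choose cl hcl using hcl
  refine ⟨cl, fun P Q hW => ?_⟩
  set W : ℤ := repX P * repZ Q - repX Q * repZ P with hWdef
  have hWq : ((repX P : ℤ) : ℚ) * (repZ Q : ℤ) - (repX Q : ℤ) * (repZ P : ℤ) ≠ 0 := by
    have : ((W : ℤ) : ℚ) ≠ 0 := by exact_mod_cast hW
    rw [hWdef] at this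
    push_cast at this
    exact this
  have hWc : ((repX P : ℤ) : ℚ) * (repZ Q : ℤ) - (repX Q : ℤ) * (repZ P : ℤ) = (W : ℚ) := by
    rw [hWdef]; push_cast; ring
  -- the local inequality
  have key : ∀ v ∈ places a b, nu (fv v) a b * (beta v P Q - 1 / 6)
      + (if v ∈ addPrimes a b then (if cl v P = cl v Q then Real.log v / 6 else 0) else 0)
      + Real.log (fv v W) + Real.log (sv (fv v) a b) - err C v ≤
      Lv (fv v) a b (thr v) (repX P) (repZ P) + Lv (fv v) a b (thr v) (repX Q) (repZ Q) := by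
    intro v hv
    have general : nu (fv v) a b * (beta v P Q - 1 / 6)
      + Real.log (fv v W) + Real.log (sv (fv v) a b) - err C v ≤
      Lv (fv v) a b (thr v) (repX P) (repZ P) + Lv (fv v) a b (thr v) (repX Q) (repZ Q) := by
      rw [beta_eq hD]
      by_cases h5 : 5 ≤ v
      · have hp : v.Prime := by
          rcases mem_places hv with h | h
          · omega
          · exact h
        have := pair_exact (fv v) (fv_nonarch hp) (fv_two_eq hp h5) (fv_three_eq hp h5) a b hDq hWq
        rw [hWc] at this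
        simp only [thr, err, h5, if_true, Lv]
        linarith
      · have := hC (fv v) (fv_two v) (fv_three v) a b hDq _ _ _ _ hWq
        rw [hWc] at this
        simp only [thr, err, h5, if_false, Lv]
        linarith
    by_cases hadd : v ∈ addPrimes a b
    · rw [if_pos hadd]
      by_cases hc : cl v P = cl v Q
      · rw [if_pos hc]
        have h5 : 5 ≤ v := (Finset.mem_filter.mp hadd).2.1
        have hnd : ¬ v ∣ (jInv a b).den := (Finset.mem_filter.mp hadd).2.2
        have hp := (places_of_add hD hadd).1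
        have hn0 : np a b v = 0 := by
          unfold np
          exact Nat.factorization_eq_zero_of_not_dvd hnd
        have hν0 : nu (fv v) a b = 0 := by
          rw [nu_eq hD hp h5, hn0]; simp
        have h1 := hcl v hadd P Q hW hc
        rw [hν0]
        have ht : thr v = 0 := by simp [thr, h5]
        have he : err C v = 0 := by simp [err, h5]
        rw [ht, he]
        linarith
      · rw [if_neg hc]
        linarith
    · rw [if_neg hadd]
      linarith
  have hs := Finset.sum_le_sum key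
  simp only [Finset.sum_sub_distrib, Finset.sum_add_distrib] at hs
  have h1 := sum_log_nonneg a b hW
  have h2 := sum_log_sv (a := a) (b := b) hD
  have h3 := sum_err_le hC0 (places a b)
  -- the additive primes
  have h4 : ∑ v ∈ places a b, (if v ∈ addPrimes a b then
      (if cl v P = cl v Q then Real.log v / 6 else 0) else 0)
      = ∑ p ∈ addPrimes a b, (if cl p P = cl p Q then Real.log p / 6 else 0) := by
    rw [← Finset.sum_filter]
    refine Finset.sum_congr ?_ fun _ _ => rfl
    ext p
    rw [Finset.mem_filter]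
    exact ⟨fun h => h.2, fun h => ⟨(places_of_add hD h).2, h⟩⟩
  -- positive parts
  have h5 : ∑ v ∈ places a b, nup a b v * beta v P Q - Real.log 31 ≤
      ∑ v ∈ places a b, nu (fv v) a b * (beta v P Q - 1 / 6)
        + (∑ v ∈ places a b, nu (fv v) a b) / 6 := by
    have e : ∑ v ∈ places a b, nu (fv v) a b * (beta v P Q - 1 / 6)
        + (∑ v ∈ places a b, nu (fv v) a b) / 6 = ∑ v ∈ places a b, nu (fv v) a b * beta v P Q := by
      rw [Finset.sum_div, ← Finset.sum_add_distrib]
      exact Finset.sum_congr rfl fun v _ => by ring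
    rw [e]
    have h0 : (0 : ℕ) ∉ (6 * D a b).natAbs.primeFactors := by
      intro h
      exact Nat.not_prime_zero (Nat.prime_of_mem_primeFactors h)
    unfold places
    rw [Finset.sum_insert h0, Finset.sum_insert h0]
    have hp : ∑ v ∈ (6 * D a b).natAbs.primeFactors, nup a b v * beta v P Q
        = ∑ v ∈ (6 * D a b).natAbs.primeFactors, nu (fv v) a b * beta v P Q := by
      refine Finset.sum_congr rfl fun v hv => ?_
      have hpr := Nat.prime_of_mem_primeFactors hv
      rw [nup, max_eq_right (nu_prime_nonneg hD hpr)]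
    have hz : nup a b 0 * beta 0 P Q - Real.log 31 ≤ nu (fv 0) a b * beta 0 P Q := by
      rcases le_total 0 (nu (fv 0) a b) with h | h
      · have := Real.log_nonneg (x := 31) (by norm_num)
        rw [nup, max_eq_right h]
        linarith
      · have hβ : beta 0 P Q ≤ 1 / 6 := by
          unfold beta
          have b1 := bern_le ((tau 0 P - tau 0 Q : ℝ) : AddCircle (1 : ℝ))
          have b2 := bern_le ((tau 0 P + tau 0 Q : ℝ) : AddCircle (1 : ℝ))
          linarith
        have hge := nu_ge (fv 0) a b hDq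
        have hl := Real.log_nonneg (x := 31) (by norm_num)
        rw [nup, max_eq_left h, zero_mul]
        nlinarith
    linarith
  rw [h4] at hs
  have h6 : SS P + SS Q = ∑ v ∈ places a b, Lv (fv v) a b (thr v) (repX P) (repZ P)
      + ∑ v ∈ places a b, Lv (fv v) a b (thr v) (repX Q) (repZ Q) := rfl
  rw [h6]
  linarith

end Pool.Agent.H24.LQ
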