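import Pool.Agent.H24.LQ.Basic
import Pool.Agent.H24.LQ.Exact
import Pool.Agent.H24.LQ.Robust
import Pool.Agent.H24.LQ.Places
import Pool.Agent.H24.LQ.Dup
import Pool.Agent.H24.LQ.Naive
import Pool.Agent.H24.LQ.Tate

/-!
# The sum of the local functions and the height
-/

namespace Pool.Agent.H24.LQ

open Pool.Agent.H24.LP Finset

lemma D_cast_ne {a b : ℤ} (hD : D a b ≠ 0) : 4 * (a : ℚ) ^ 3 + 27 * (b : ℚ) ^ 2 ≠ 0 := by
  have h : ((D a b : ℤ) : ℚ) ≠ 0 := by exact_mod_cast hD
  rw [D] at h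
  push_cast at h
  exact h

lemma rep_ne' {a b : ℤ} (P : (curve a b).Point) :
    ¬ (((repX P : ℤ) : ℚ) = 0 ∧ ((repZ P : ℤ) : ℚ) = 0) := by
  intro h
  apply rep_ne P
  exact ⟨by exact_mod_cast h.1, by exact_mod_cast h.2⟩

lemma mem_places {a b : ℤ} {v : ℕ} (hv : v ∈ places a b) : v = 0 ∨ v.Prime := by
  rcases Finset.mem_insert.mp hv with h | h
  · exact Or.inl h
  · exact Or.inr (Nat.prime_of_mem_primeFactors h)

lemma thr_nonneg (v : ℕ) : 0 ≤ thr v := by
  unfold thr; split_ifs <;> norm_num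

/-- The error term at the place `v`. -/
noncomputable def err (C : ℝ) (v : ℕ) : ℝ := if 5 ≤ v then 0 else C

lemma sum_err_le {C : ℝ} (hC : 0 ≤ C) (V : Finset ℕ) : ∑ v ∈ V, err C v ≤ 5 * C := by
  have h1 : ∑ v ∈ V, err C v = ∑ v ∈ V.filter (fun v => ¬ 5 ≤ v), C := by
    rw [Finset.sum_filter]
    refine Finset.sum_congr rfl fun v _ => ?_
    unfold err
    by_cases h : 5 ≤ v <;> simp [h]
  rw [h1, Finset.sum_const, nsmul_eq_mul]
  have h2 : (V.filter (fun v => ¬ 5 ≤ v)).card ≤ 5 := by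
    refine (Finset.card_le_card (t := Finset.range 5) fun v hv => ?_).trans (by simp)
    rw [Finset.mem_filter] at hv
    rw [Finset.mem_range]
    omega
  have h3 : ((V.filter (fun v => ¬ 5 ≤ v)).card : ℝ) ≤ 5 := by exact_mod_cast h2
  exact mul_le_mul_of_nonneg_right h3 hC

theorem SS_step : ∃ C : ℝ, 0 ≤ C ∧ ∀ (a b : ℤ), D a b ≠ 0 → ∀ P : (curve a b).Point,
    4 * SS P - C ≤ SS (P + P) := by
  classical
  obtain ⟨C, hC0, hC⟩ := Lv_dup_robust
  refine ⟨5 * C, by linarith, fun a b hD P => ?_⟩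
  obtain ⟨m, hm0, hmD, h1, h2⟩ := dup hD P
  have hDq := D_cast_ne hD
  have hmq : (m : ℚ) ≠ 0 := by exact_mod_cast hm0
  have e1 : Phi (a : ℚ) b (repX P) (repZ P) = (m : ℚ) * (repX (P + P) : ℤ) := by
    have := congrArg (fun z : ℤ => (z : ℚ)) h1
    simp only [Phi] at this ⊢
    push_cast at this
    exact this
  have e2 : Psi (a : ℚ) b (repX P) (repZ P) = (m : ℚ) * (repZ (P + P) : ℤ) := by
    have := congrArg (fun z : ℤ => (z : ℚ)) h2
    simp only [Psi] at this ⊢
    push_cast at this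
    exact this
  have key : ∀ v ∈ places a b, 4 * Lv (fv v) a b (thr v) (repX P) (repZ P) - err C v ≤
      Real.log (fv v m) + Lv (fv v) a b (thr v) (repX (P + P)) (repZ (P + P)) := by
    intro v hv
    rw [← Lv_scale (fv v) a b hDq (rep_ne' (P + P)) hmq, ← e1, ← e2]
    by_cases h5 : 5 ≤ v
    · have hp : v.Prime := by
        rcases mem_places hv with h | h
        · omega
        · exact h
      have := Lv_dup_exact (fv v) (fv_nonarch hp) (fv_two_eq hp h5) (fv_three_eq hp h5) a b hDq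
        (rep_ne' P)
      simp only [thr, err, h5, if_true]
      linarith
    · have := hC (fv v) (fv_two v) (fv_three v) a b hDq _ _ (rep_ne' P)
      simp only [thr, err, h5, if_false]
      linarith
  have hs := Finset.sum_le_sum key
  rw [Finset.sum_sub_distrib, ← Finset.mul_sum, Finset.sum_add_distrib] at hs
  have hz : ∑ v ∈ places a b, Real.log (fv v m) = 0 := by
    refine sum_log_zero a b hm0 (fun p hp hpm => ?_) hD
    have h4 : (p : ℤ) ∣ 4 * D a b := hpm.trans hmD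
    have hpi : Prime (p : ℤ) := Nat.prime_iff_prime_int.mp hp
    rcases hpi.dvd_or_dvd h4 with h | h
    · have h5 : (p : ℤ) ∣ 2 ^ 2 := by norm_num; exact h
      have h6 : (p : ℤ) ∣ 2 := hpi.dvd_of_dvd_pow h5
      exact h6.trans ⟨3 * D a b, by ring⟩
    · exact h.trans ⟨6, by ring⟩
  rw [hz] at hs
  have he := sum_err_le hC0 (places a b)
  unfold SS
  linarith

lemma sv_le_one {p : ℕ} (hp : p.Prime) (a b : ℤ) : sv (fv p) a b ≤ 1 := by
  unfold sv
  refine max_le ?_ ?_
  · exact Real.sqrt_le_one.mpr (fv_int_le hp a)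
  · exact Real.rpow_le_one ((fv p).nonneg _) (fv_int_le hp b) (by norm_num)

lemma sv_nonneg (f : AbsoluteValue ℚ ℝ) (a b : ℚ) : 0 ≤ sv f a b :=
  le_max_of_le_left (Real.sqrt_nonneg _)

lemma SS_le_nh {a b : ℤ} (hD : D a b ≠ 0) (P : (curve a b).Point) :
    SS P - Real.log (max 1 (sv (fv 0) a b)) ≤ nh P := by
  have hDq := D_cast_ne hD
  have hp : ∀ v ∈ (6 * D a b).natAbs.primeFactors,
      Lv (fv v) a b (thr v) (repX P) (repZ P) ≤ 0 := by
    intro v hv
    have hpr := Nat.prime_of_mem_primeFactors hv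
    refine (Lv_le (fv v) a b (thr_nonneg v) hDq (rep_ne' P)).trans ?_
    refine Real.log_nonpos (Nv_pos (fv v) a b hDq (rep_ne' P)).le ?_
    unfold Nv
    refine max_le (fv_int_le hpr _) ?_
    calc sv (fv v) a b * fv v (repZ P) ≤ 1 * 1 :=
          mul_le_mul (sv_le_one hpr a b) (fv_int_le hpr _) ((fv v).nonneg _) zero_le_one
      _ = 1 := by norm_num
  have h0 : (0 : ℕ) ∉ (6 * D a b).natAbs.primeFactors := by
    intro h
    exact Nat.not_prime_zero (Nat.prime_of_mem_primeFactors h)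
  have hinf : Lv (fv 0) a b (thr 0) (repX P) (repZ P) ≤
      Real.log (max 1 (sv (fv 0) a b)) + nh P := by
    refine (Lv_le (fv 0) a b (thr_nonneg 0) hDq (rep_ne' P)).trans ?_
    have hN := Nv_pos (fv 0) a b hDq (rep_ne' P)
    have hM : 0 < max |(repX P : ℝ)| |(repZ P : ℝ)| := by
      by_contra hc
      have h1 : |(repX P : ℝ)| ≤ 0 := (le_max_left _ _).trans (not_lt.mp hc)
      have h2 : |(repZ P : ℝ)| ≤ 0 := (le_max_right _ _).trans (not_lt.mp hc)
      apply rep_ne P
      constructor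
      · have := abs_nonpos_iff.mp h1
        exact_mod_cast this
      · have := abs_nonpos_iff.mp h2
        exact_mod_cast this
    have h1 : (0 : ℝ) < max 1 (sv (fv 0) a b) := lt_of_lt_of_le one_pos (le_max_left _ _)
    unfold nh
    rw [← Real.log_mul h1.ne' hM.ne']
    refine Real.log_le_log hN ?_
    unfold Nv
    rw [fv_zero, fv_zero]
    push_cast
    refine max_le ?_ ?_
    · calc |(repX P : ℝ)| = 1 * |(repX P : ℝ)| := (one_mul _).symm
        _ ≤ _ := mul_le_mul (le_max_left _ _) (le_max_left _ _) (abs_nonneg _) h1.le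
    · exact mul_le_mul (le_max_right _ _) (le_max_right _ _) (abs_nonneg _) h1.le
  unfold SS places
  rw [Finset.sum_insert h0]
  have := Finset.sum_nonpos hp
  linarith

/-- The height `g`, twice the canonical height. -/
theorem exists_height : ∃ C : ℝ, 0 ≤ C ∧ ∀ a b : ℤ, D a b ≠ 0 →
    ∃ g : (curve a b).Point → ℝ, (∀ P, g (P + P) = 4 * g P) ∧
      (∀ P, |g P - nh P| ≤ 20 * L a b) ∧ ∀ P, SS P - C ≤ g P := by
  classical
  obtain ⟨C, hC0, hC⟩ := SS_step
  refine ⟨C / 3, by linarith, fun a b hD => ?_⟩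
  obtain ⟨g, h1, h2, h3⟩ := tate (fun P : (curve a b).Point => P + P) nh (60 * L a b)
    (fun P => nh_two hD P)
  refine ⟨g, h1, fun P => ?_, fun P => ?_⟩
  · refine (h2 P).trans (le_of_eq (by ring))
  · exact h3 SS C _ (fun P => hC a b hD P) (fun P => SS_le_nh hD P) P

end Pool.Agent.H24.LQ
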