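import Pool.Agent.H24.LQ.Count

/-!
# Few points of small height: all cells
-/

namespace Pool.Agent.H24.LQ

open Pool.Agent.H24.LP Finset

lemma repZ_nonneg {a b : ℤ} (P : (curve a b).Point) : 0 ≤ repZ P := by
  cases P with
  | zero => exact le_refl _
  | some x y h => exact Int.natCast_nonneg _

lemma repX_of_repZ {a b : ℤ} (P : (curve a b).Point) (h : repZ P = 0) : repX P = 1 := by
  cases P with
  | zero => rfl
  | some x y h' =>
    exfalso
    have h1 : (x.den : ℤ) = 0 := h
    have h2 := x.den_pos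
    omega

lemma rep_eq {a b : ℤ} {P Q : (curve a b).Point} (h : repX P * repZ Q - repX Q * repZ P = 0) :
    repX P = repX Q ∧ repZ P = repZ Q := by
  have h0 : repX P * repZ Q = repX Q * repZ P := by linarith
  have h1 : repZ P ∣ repZ Q := by
    have : repZ P ∣ repX P * repZ Q := ⟨repX Q, by rw [h0]; ring⟩
    exact (rep_coprime P).symm.dvd_of_dvd_mul_left this
  have h2 : repZ Q ∣ repZ P := by
    have : repZ Q ∣ repX Q * repZ P := ⟨repX P, by rw [← h0]; ring⟩
    exact (rep_coprime Q).symm.dvd_of_dvd_mul_left this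
  have hz : repZ P = repZ Q := Int.dvd_antisymm (repZ_nonneg P) (repZ_nonneg Q) h1 h2
  refine ⟨?_, hz⟩
  by_cases hz0 : repZ P = 0
  · rw [repX_of_repZ P hz0, repX_of_repZ Q (hz ▸ hz0)]
  · rw [← hz] at h0
    exact mul_right_cancel₀ hz0 h0

lemma eq_or_neg {a b : ℤ} {P Q : (curve a b).Point} (hx : repX P = repX Q)
    (hz : repZ P = repZ Q) : P = Q ∨ P = -Q := by
  cases P with
  | zero =>
    cases Q with
    | zero => exact Or.inl rfl
    | some x y h =>
      exfalso
      have h1 : (0 : ℤ) = x.den := hz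
      have h2 := x.den_pos
      omega
  | some x y h =>
    cases Q with
    | zero =>
      exfalso
      have h1 : (x.den : ℤ) = 0 := hz
      have h2 := x.den_pos
      omega
    | some x' y' h' =>
      have e1 : x.num = x'.num := hx
      have e2 : (x.den : ℤ) = x'.den := hz
      have e3 : x = x' := Rat.ext e1 (by exact_mod_cast e2)
      subst e3
      have g1 := (WeierstrassCurve.Affine.equation_iff (W := curve a b) x y).mp h.1
      have g2 := (WeierstrassCurve.Affine.equation_iff (W := curve a b) x y').mp h'.1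
      simp only [curve] at g1 g2
      have g3 : (y - y') * (y + y') = 0 := by linear_combination g1 - g2
      rcases mul_eq_zero.mp g3 with g | g
      · have : y = y' := by linarith
        subst this
        exact Or.inl rfl
      · right
        have : y = -y' := by linarith
        subst this
        rw [WeierstrassCurve.Affine.Point.neg_some]
        congr 1
        simp [WeierstrassCurve.Affine.negY, curve]

/-- The cell of a point at the place `v`. -/
noncomputable def cellAt {a b : ℤ} (v : ℕ) (P : (curve a b).Point) : ℕ := ⌊24 * tau v P⌋₊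

lemma cellAt_lt {a b : ℤ} (hD : D a b ≠ 0) (v : ℕ) (P : (curve a b).Point) :
    cellAt v P < 13 := by
  rw [cellAt, Nat.floor_lt (by have := tau_nonneg hD v P; linarith)]
  have := tau_le hD v P
  push_cast
  linarith

lemma cellAt_near {a b : ℤ} (hD : D a b ≠ 0) {v : ℕ} {P Q : (curve a b).Point}
    (h : cellAt v P = cellAt v Q) : |tau v P - tau v Q| ≤ 1 / 24 := by
  have h1 := tau_nonneg hD v P
  have h2 := tau_nonneg hD v Q
  have a1 := Nat.floor_le (a := 24 * tau v P) (by linarith)
  have a2 := Nat.lt_floor_add_one (24 * tau v P)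
  have a3 := Nat.floor_le (a := 24 * tau v Q) (by linarith)
  have a4 := Nat.lt_floor_add_one (24 * tau v Q)
  unfold cellAt at h
  rw [h] at a1 a2
  rw [abs_le]; constructor <;> linarith

/-- All points of small height. -/
theorem small_total : ∃ C₀ : ℝ, 1 ≤ C₀ ∧ ∀ C : ℝ, 0 ≤ C → ∀ a b : ℤ, QuasiMinimal a b →
    ∀ T : Finset ℕ, C₀ + 1000 * C ≤ GT a b T → ∀ g : (curve a b).Point → ℝ, IsHt C g →
    ∀ s : Finset (curve a b).Point, (∀ P ∈ s, g P ≤ GT a b T / 1000) →
    (s.card : ℝ) ≤ 2 * 13 ^ (T.card + 1) * (1000 * L a b / GT a b T) := by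
  classical
  obtain ⟨C₀, hC₀, hcell⟩ := cell_bound
  refine ⟨C₀, hC₀, fun C hC a b hq T hG g hg s hs => ?_⟩
  have hD := hq.ne
  have hG0 : 0 < GT a b T := by linarith
  have hL := L_pos a b
  set B : ℝ := 1000 * L a b / GT a b T with hB
  have hB0 : 0 ≤ B := by positivity
  -- representatives
  let rep : (curve a b).Point → ℤ × ℤ := fun P => (repX P, repZ P)
  have hrep : ∀ P Q : (curve a b).Point, rep P = rep Q → P = Q ∨ P = -Q := fun P Q h =>
    eq_or_neg (Prod.mk.inj h).1 (Prod.mk.inj h).2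
  let sec : ℤ × ℤ → (curve a b).Point := fun u =>
    if h : ∃ P ∈ s, rep P = u then h.choose else 0
  have hsec : ∀ u ∈ s.image rep, sec u ∈ s ∧ rep (sec u) = u := by
    intro u hu
    obtain ⟨P, hP, hPu⟩ := Finset.mem_image.mp hu
    have hex : ∃ P ∈ s, rep P = u := ⟨P, hP, hPu⟩
    have : sec u = hex.choose := by simp only [sec]; rw [dif_pos hex]
    rw [this]
    exact hex.choose_spec
  let s₁ := (s.image rep).image sec
  have hs₁ : s₁ ⊆ s := by
    intro P hP
    obtain ⟨u, hu, rfl⟩ := Finset.mem_image.mp hP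
    exact (hsec u hu).1
  have hcard₁ : s₁.card = (s.image rep).card := by
    refine Finset.card_image_of_injOn fun u hu u' hu' h => ?_
    have h1 := (hsec u hu).2
    have h2 := (hsec u' hu').2
    have h3 : sec u = sec u' := h
    rw [← h1, ← h2, h3]
  have hinj : ∀ P ∈ s₁, ∀ Q ∈ s₁, P ≠ Q → repX P * repZ Q - repX Q * repZ P ≠ 0 := by
    intro P hP Q hQ hne h
    apply hne
    obtain ⟨u, hu, rfl⟩ := Finset.mem_image.mp hP
    obtain ⟨u', hu', rfl⟩ := Finset.mem_image.mp hQ
    have h1 := rep_eq h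
    have h2 : rep (sec u) = rep (sec u') := Prod.ext h1.1 h1.2
    rw [(hsec u hu).2, (hsec u' hu').2] at h2
    rw [h2]
  have hs2 : s.card ≤ 2 * s₁.card := by
    rw [hcard₁]
    refine Finset.card_le_mul_card_image s 2 fun u hu => ?_
    have h1 : (s.filter fun P => rep P = u) ⊆ {sec u, -sec u} := by
      intro P hP
      rw [Finset.mem_filter] at hP
      have h2 : rep P = rep (sec u) := hP.2.trans (hsec u hu).2.symm
      rcases hrep P (sec u) h2 with h | h <;> simp [h]
    exact (Finset.card_le_card h1).trans Finset.card_le_two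
  -- cells
  let cell : (curve a b).Point → ((insert 0 T : Finset ℕ) → Fin 13) := fun P v =>
    ⟨cellAt (v : ℕ) P, cellAt_lt hD v P⟩
  have hfib : ∀ z : ((insert 0 T : Finset ℕ) → Fin 13),
      (s₁.filter fun P => cell P = z).card ≤ ⌊B⌋₊ := by
    intro z
    rw [Nat.le_floor_iff hB0]
    refine hcell C hC a b hq T hG g hg _ (fun P hP => hs P (hs₁ (Finset.mem_filter.mp hP).1))
      (fun P hP Q hQ => hinj P (Finset.mem_filter.mp hP).1 Q (Finset.mem_filter.mp hQ).1) ?_
    intro v hv P hP Q hQ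
    have h1 : cell P = cell Q := (Finset.mem_filter.mp hP).2.trans (Finset.mem_filter.mp hQ).2.symm
    have h2 := congrFun h1 ⟨v, hv⟩
    exact cellAt_near hD (Fin.mk.inj h2)
  have h1 : s₁.card ≤ ⌊B⌋₊ * (Finset.univ : Finset ((insert 0 T : Finset ℕ) → Fin 13)).card :=
    Finset.card_le_mul_card_image_of_maps_to (f := cell) (fun _ _ => Finset.mem_univ _) _
      fun z _ => hfib z
  rw [Finset.card_univ, Fintype.card_fun, Fintype.card_fin, Fintype.card_coe] at h1
  have h2 : (insert 0 T).card ≤ T.card + 1 := Finset.card_insert_le _ _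
  have h3 : s₁.card ≤ ⌊B⌋₊ * 13 ^ (T.card + 1) :=
    h1.trans (Nat.mul_le_mul_left _ (Nat.pow_le_pow_right (by norm_num) h2))
  have h4 : s.card ≤ 2 * (⌊B⌋₊ * 13 ^ (T.card + 1)) := hs2.trans (Nat.mul_le_mul_left _ h3)
  have h5 : (s.card : ℝ) ≤ 2 * ((⌊B⌋₊ : ℝ) * 13 ^ (T.card + 1)) := by exact_mod_cast h4
  have h6 := Nat.floor_le hB0
  calc (s.card : ℝ) ≤ 2 * ((⌊B⌋₊ : ℝ) * 13 ^ (T.card + 1)) := h5
    _ ≤ 2 * (B * 13 ^ (T.card + 1)) := by gcongr
    _ = _ := by ring

end Pool.Agent.H24.LQ
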