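import Pool.Agent.H24.LQ.PairS
import Pool.Agent.H24.LQ.Energy
import Pool.Agent.H24.LP.NT2

/-!
# The weights of the places
-/

namespace Pool.Agent.H24.LQ

open Pool.Agent.H24.LP Finset

/-- The lower bound of the energy at `v` in one cell. -/
noncomputable def Ew (a b : ℤ) (T : Finset ℕ) (v : ℕ) : ℝ :=
  if v ∈ insert 0 T then 1 / 24 else
    if v ∈ poles a b ∧ 5 ≤ v then 1 / (12 * (np a b v : ℝ) ^ 2) else 0

lemma nup_nonneg (a b : ℤ) (v : ℕ) : 0 ≤ nup a b v := le_max_left _ _

lemma np_eq_zero {a b : ℤ} {p : ℕ} (hp : p ∉ poles a b) : np a b p = 0 := by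
  by_contra hne
  apply hp
  rw [poles, ← Nat.support_factorization]
  exact Finsupp.mem_support_iff.mpr hne

/-- The comparison function. -/
noncomputable def Fw (a b : ℤ) (T : Finset ℕ) (v : ℕ) : ℝ :=
  (if v = 0 then (wInf a b - 10) / 48 else 0)
    + (if v ∈ T ∧ v ∈ poles a b then (np a b v * Real.log v) / 48 else 0)
    + (if v ∈ poles a b ∧ 5 ≤ v then Real.log v / np a b v / 48 else 0)

lemma div_le_mul_np {a b : ℤ} {p : ℕ} (hp : p ∈ poles a b) :
    Real.log p / np a b p ≤ np a b p * Real.log p := by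
  have hn : (1 : ℝ) ≤ np a b p := by exact_mod_cast HeightData.np_pos hp
  have hl := HeightData.log_nonneg' p
  rw [div_le_iff₀ (by linarith)]
  have h5 : (1 : ℝ) ≤ (np a b p : ℝ) * np a b p := by nlinarith
  have h6 := mul_le_mul_of_nonneg_right h5 hl
  linarith

lemma Fw_le {a b : ℤ} (hD : D a b ≠ 0) (T : Finset ℕ) {v : ℕ} (hv : v ∈ places a b) :
    Fw a b T v ≤ nup a b v * Ew a b T v := by
  have hnu := nup_nonneg a b v
  rcases mem_places hv with rfl | hp
  · have h0 : (0 : ℕ) ∉ poles a b := fun h => Nat.not_prime_zero (places_of_poles hD h).1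
    have h1 : wInf a b - 10 ≤ nup a b 0 := (nu_ge_inf hD).trans (le_max_right _ _)
    simp only [Fw, Ew, h0, if_true, and_false, false_and, if_false, add_zero,
      Finset.mem_insert_self]
    rcases le_total 0 (wInf a b - 10) with h | h <;> linarith
  · have hv0 : v ≠ 0 := hp.ne_zero
    have hnp : (np a b v : ℝ) * Real.log v ≤ nup a b v := (nu_ge_np hD hp).trans (le_max_right _ _)
    have hl := HeightData.log_nonneg' v
    by_cases hpo : v ∈ poles a b
    · have hn : (1 : ℝ) ≤ np a b v := by exact_mod_cast HeightData.np_pos hpo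
      have hd := div_le_mul_np hpo
      have hd0 : 0 ≤ Real.log v / np a b v := by positivity
      by_cases hT : v ∈ T
      · have hE : Ew a b T v = 1 / 24 := by
          rw [Ew, if_pos (Finset.mem_insert_of_mem hT)]
        rw [hE, Fw, if_neg hv0, if_pos ⟨hT, hpo⟩]
        split_ifs <;> linarith
      · have hni : v ∉ insert 0 T := by
          rw [Finset.mem_insert]; tauto
        rw [Fw, if_neg hv0, if_neg (by tauto), Ew, if_neg hni]
        by_cases h5 : 5 ≤ v
        · rw [if_pos ⟨hpo, h5⟩, if_pos ⟨hpo, h5⟩]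
          have hpos : (0 : ℝ) < 12 * (np a b v : ℝ) ^ 2 := by positivity
          have e : Real.log v / np a b v / 12 = (np a b v * Real.log v) * (1 / (12 * (np a b v : ℝ) ^ 2)) := by
            field_simp
          have : (np a b v * Real.log v) * (1 / (12 * (np a b v : ℝ) ^ 2)) ≤
              nup a b v * (1 / (12 * (np a b v : ℝ) ^ 2)) := by
            gcongr
          linarith
        · rw [if_neg (by tauto), if_neg (by tauto)]
          simp
    · have hE : 0 ≤ Ew a b T v := by
        unfold Ew; split_ifs <;> positivity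
      rw [Fw, if_neg hv0, if_neg (by tauto), if_neg (by tauto)]
      have := mul_nonneg hnu hE
      linarith

lemma sum_small_poles {a b : ℤ} (hD : D a b ≠ 0) : ∑ p ∈ poles a b, Real.log p / np a b p ≤
    ∑ p ∈ (poles a b).filter (fun p => 5 ≤ p), Real.log p / np a b p + 2 := by
  classical
  rw [← Finset.sum_filter_add_sum_filter_not (poles a b) (fun p => 5 ≤ p)]
  have h : ∑ p ∈ (poles a b).filter (fun p => ¬ 5 ≤ p), Real.log p / np a b p ≤
      ∑ p ∈ ({2, 3} : Finset ℕ), Real.log p := by
    have hsub : (poles a b).filter (fun p => ¬ 5 ≤ p) ⊆ {2, 3} := by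
      intro p hp
      rw [Finset.mem_filter] at hp
      have hpr := (places_of_poles hD hp.1).1
      have h2 := hpr.two_le
      have h4 : p ≠ 4 := by rintro rfl; exact absurd hpr (by norm_num)
      simp only [Finset.mem_insert, Finset.mem_singleton]
      omega
    refine le_trans (Finset.sum_le_sum fun p hp => ?_)
      (Finset.sum_le_sum_of_subset_of_nonneg hsub fun p _ _ => HeightData.log_nonneg' p)
    have hpo := (Finset.mem_filter.mp hp).1
    have hn : (1 : ℝ) ≤ np a b p := by exact_mod_cast HeightData.np_pos hpo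
    exact div_le_self (HeightData.log_nonneg' p) hn
  have h23 : ∑ p ∈ ({2, 3} : Finset ℕ), Real.log (p : ℝ) = Real.log 2 + Real.log 3 := by
    rw [Finset.sum_pair (by norm_num)]
    norm_num
  have hl2 : Real.log 2 ≤ 0.7 := by linarith [Real.log_two_lt_d9]
  have hl3 : Real.log 3 ≤ 1.3 := by
    have h3 : Real.log 3 ≤ Real.log (2 * 1.5) := by norm_num
    rw [Real.log_mul (by norm_num) (by norm_num)] at h3
    have : Real.log (1.5 : ℝ) ≤ 1.5 - 1 := Real.log_le_sub_one_of_pos (by norm_num)
    linarith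
  linarith

lemma weight_sum {a b : ℤ} (hD : D a b ≠ 0) (T : Finset ℕ) :
    (GT a b T - 13) / 96 ≤ (∑ v ∈ places a b, nup a b v * Ew a b T v) / 2
      + (∑ p ∈ addPrimes a b, Real.log p / 6) / 4 := by
  classical
  have h1 : ∑ v ∈ places a b, Fw a b T v ≤ ∑ v ∈ places a b, nup a b v * Ew a b T v :=
    Finset.sum_le_sum fun v hv => Fw_le hD T hv
  have h2 : ∑ v ∈ places a b, Fw a b T v = (wInf a b - 10) / 48
      + (∑ p ∈ T, (np a b p : ℝ) * Real.log p) / 48
      + (∑ p ∈ (poles a b).filter (fun p => 5 ≤ p), Real.log p / np a b p) / 48 := by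
    unfold Fw
    rw [Finset.sum_add_distrib, Finset.sum_add_distrib]
    congr 1
    · congr 1
      · rw [Finset.sum_ite_eq' (places a b) 0 (fun _ => (wInf a b - 10) / 48), if_pos]
        exact Finset.mem_insert_self _ _
      · rw [← Finset.sum_filter, Finset.sum_div]
        have e : ∑ p ∈ T, (np a b p : ℝ) * Real.log p / 48
            = ∑ p ∈ T.filter (fun p => p ∈ poles a b), (np a b p : ℝ) * Real.log p / 48 := by
          rw [Finset.sum_filter]
          refine Finset.sum_congr rfl fun p _ => ?_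
          split_ifs with h
          · rfl
          · rw [np_eq_zero h]; simp
        rw [e]
        refine Finset.sum_congr ?_ fun _ _ => rfl
        ext p
        rw [Finset.mem_filter, Finset.mem_filter]
        exact ⟨fun h => h.2, fun h => ⟨(places_of_poles hD h.2).2, h⟩⟩
    · rw [← Finset.sum_filter, Finset.sum_div]
      refine Finset.sum_congr ?_ fun _ _ => rfl
      ext p
      rw [Finset.mem_filter, Finset.mem_filter]
      exact ⟨fun h => h.2, fun h => ⟨(places_of_poles hD h.1).2, h⟩⟩
  have h3 := sum_small_poles hD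
  have h4 : ∑ p ∈ addPrimes a b, Real.log (p : ℝ) / 6 = (∑ p ∈ addPrimes a b, Real.log (p : ℝ)) / 6 := by
    rw [Finset.sum_div]
  have h5 : 0 ≤ ∑ p ∈ addPrimes a b, Real.log (p : ℝ) :=
    Finset.sum_nonneg fun p _ => HeightData.log_nonneg' p
  rw [h4]
  rw [h2] at h1
  unfold GT
  linarith

lemma sum_nup_le {a b : ℤ} (hD : D a b ≠ 0) :
    ∑ v ∈ places a b, nup a b v ≤ 6 * L a b + 4 := by
  have h0 : (0 : ℕ) ∉ (6 * D a b).natAbs.primeFactors := by
    intro h
    exact Nat.not_prime_zero (Nat.prime_of_mem_primeFactors h)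
  have h1 := sum_nu_le hD
  unfold places at h1 ⊢
  rw [Finset.sum_insert h0] at h1 ⊢
  have hp : ∑ v ∈ (6 * D a b).natAbs.primeFactors, nup a b v
      = ∑ v ∈ (6 * D a b).natAbs.primeFactors, nu (fv v) a b := by
    refine Finset.sum_congr rfl fun v hv => ?_
    have hpr := Nat.prime_of_mem_primeFactors hv
    rw [nup, max_eq_right (nu_prime_nonneg hD hpr)]
  have hge := nu_ge (fv 0) a b (D_cast_ne hD)
  have hl : Real.log 31 ≤ 4 := by
    have : Real.log 31 ≤ Real.log (2 ^ 5) := Real.log_le_log (by norm_num) (by norm_num)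
    rw [Real.log_pow] at this
    have := Real.log_two_lt_d9
    norm_num at *
    linarith
  have : nup a b 0 ≤ nu (fv 0) a b + 4 := by
    rw [nup]
    refine max_le ?_ ?_ <;> linarith
  linarith

/-- The energy at each place. -/
lemma energy_place {a b : ℤ} (hD : D a b ≠ 0) (T : Finset ℕ) (s : Finset (curve a b).Point)
    (hcell : ∀ v ∈ insert 0 T, ∀ P ∈ s, ∀ Q ∈ s, |tau v P - tau v Q| ≤ 1 / 24) (v : ℕ) :
    Ew a b T v * (s.card : ℝ) ^ 2 ≤ ∑ P ∈ s, ∑ Q ∈ s,
      (bern ((tau v P - tau v Q : ℝ) : AddCircle (1 : ℝ))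
        + bern ((tau v P + tau v Q : ℝ) : AddCircle (1 : ℝ))) := by
  unfold Ew
  split_ifs with h1 h2
  · exact energy2_cell s (fun P => tau v P) (fun P hP Q hQ => hcell v h1 P hP Q hQ)
  · have hp := (places_of_poles hD h2.1).1
    have hn : 0 < np a b v := HeightData.np_pos h2.1
    refine energy2_ge s (fun P => tau v P) hn fun P _ => ?_
    obtain ⟨k, hk⟩ := Tv_half hD hp h2.2 (rep_ne P)
    refine ⟨k, ?_⟩
    have ht : thr v = 0 := by simp [thr, h2.2]
    have hlog : 0 < Real.log v := Real.log_pos (by exact_mod_cast hp.one_lt)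
    have hn' : (0 : ℝ) < np a b v := by exact_mod_cast hn
    simp only [tau]
    rw [ht, nu_eq hD hp h2.2, hk]
    field_simp
  · rw [zero_mul]
    exact energy2_nonneg s (fun P => tau v P)

end Pool.Agent.H24.LQ
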